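import Pool.Agent.Lib.MP_a51368_pr.Meas

open MeasureTheory ProbabilityTheory Set Measure

namespace CausalPerc

theorem real_key {a b : ℝ} (hb : 0 ≤ b) (hba : b ≤ a) (ha : a ≤ 1) (k : ℕ) :
    (k : ℝ) * b ≤ 1 - (1 - a) ^ k + (k : ℝ) ^ 2 * b ^ 2 := by
  have h1 : (1 - a) ^ k ≤ (1 - b) ^ k := pow_le_pow_left₀ (by linarith) (by linarith) k
  have h2 : (1 - b) ^ k * (1 + k * b) ≤ 1 := by
    have h3 : 1 + (k : ℝ) * b ≤ (1 + b) ^ k := one_add_mul_le_pow (by linarith) k
    calc (1 - b) ^ k * (1 + k * b) ≤ (1 - b) ^ k * (1 + b) ^ k :=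
          mul_le_mul_of_nonneg_left h3 (pow_nonneg (by linarith) k)
      _ = (1 - b ^ 2) ^ k := by rw [← mul_pow]; ring_nf
      _ ≤ 1 := pow_le_one₀ (by nlinarith) (by nlinarith)
  have hk : (0 : ℝ) ≤ k * b := by positivity
  have h4 : (1 - b) ^ k ≤ 1 - k * b + (k * b) ^ 2 := by
    by_contra hcon
    push Not at hcon
    have : (1 - k * b + (k * b) ^ 2) * (1 + k * b) < (1 - b) ^ k * (1 + k * b) :=
      mul_lt_mul_of_pos_right hcon (by linarith)
    nlinarith [pow_nonneg hk 3]
  nlinarith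

theorem enn_key {s ε : ENNReal} (hs : s ≤ 1) (hε : ε ≤ s) {k M : ℕ} (hk : k ≤ M) :
    (k : ENNReal) * ε ≤ (1 - (1 - s) ^ k) + (M : ENNReal) ^ 2 * ε ^ 2 := by
  have hs' : s ≠ ⊤ := ne_top_of_le_ne_top ENNReal.one_ne_top hs
  have hε' : ε ≠ ⊤ := ne_top_of_le_ne_top hs' hε
  lift s to NNReal using hs'
  lift ε to NNReal using hε'
  set a := s with ha0
  set b := ε with hb0
  have ha : a ≤ 1 := by exact_mod_cast hs
  have hba : b ≤ a := by exact_mod_cast hε
  have h1 := real_key (a := a) (b := b) b.2 (by exact_mod_cast hba) (by exact_mod_cast ha) k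
  have h2 : (k : ℝ) * b ≤ 1 - (1 - (a : ℝ)) ^ k + (M : ℝ) ^ 2 * (b : ℝ) ^ 2 := by
    have : (k : ℝ) ^ 2 * (b : ℝ) ^ 2 ≤ (M : ℝ) ^ 2 * (b : ℝ) ^ 2 := by
      have : (k : ℝ) ≤ M := by exact_mod_cast hk
      gcongr
    linarith
  have hpow : (1 - a) ^ k ≤ 1 := pow_le_one₀ (by positivity) (by simp)
  have h3 : (k : NNReal) * b ≤ 1 - (1 - a) ^ k + (M : NNReal) ^ 2 * b ^ 2 := by
    rw [← NNReal.coe_le_coe]
    push_cast [NNReal.coe_sub hpow, NNReal.coe_sub ha]
    exact h2
  exact_mod_cast h3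

/-- Survival up to depth `n` along selected children; `S x` is the set of selected children of a
vertex with data `x`. -/
def surv (S : Node → Finset ℕ) : ℕ → Set Conf
  | 0 => univ
  | n + 1 => {ω | ∃ i ∈ S (ω []), coneAt [i] ω ∈ surv S n}

/-- Survival at all depths. -/
def survInf (S : Node → Finset ℕ) : Set Conf := ⋂ n, surv S n

variable {S : Node → Finset ℕ}

theorem measurable_root : Measurable (fun ω : Conf => ω []) := measurable_pi_apply _

theorem measurableSet_surv (hS : ∀ i, MeasurableSet {x : Node | i ∈ S x}) (n : ℕ) :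
    MeasurableSet (surv S n) := by
  induction n with
  | zero => exact MeasurableSet.univ
  | succ n ih =>
    have : surv S (n + 1) = ⋃ i, ((fun ω : Conf => ω []) ⁻¹' {x | i ∈ S x}) ∩
        (coneAt [i] ⁻¹' surv S n) := by
      ext ω
      simp [surv]
    rw [this]
    exact MeasurableSet.iUnion fun i =>
      (measurable_root (hS i)).inter (measurable_coneAt _ ih)

theorem measurableSet_survInf (hS : ∀ i, MeasurableSet {x : Node | i ∈ S x}) :
    MeasurableSet (survInf S) := MeasurableSet.iInter fun n => measurableSet_surv hS n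

theorem surv_succ_subset (n : ℕ) : surv S (n + 1) ⊆ surv S n := by
  induction n with
  | zero => exact subset_univ _
  | succ n ih =>
    rintro ω ⟨i, hi, h⟩
    exact ⟨i, hi, ih h⟩

theorem surv_antitone : Antitone (surv S) := antitone_nat_of_succ_le surv_succ_subset

/-- Koenig: infinite survival passes to a selected child. -/
theorem survInf_step {ω : Conf} (h : ω ∈ survInf S) :
    ∃ i ∈ S (ω []), coneAt [i] ω ∈ survInf S := by
  by_contra hcon
  push Not at hcon
  have h1 : ∀ i ∈ S (ω []), ∃ n, coneAt [i] ω ∉ surv S n := by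
    intro i hi
    have := hcon i hi
    simpa [survInf] using this
  choose! f hf using h1
  have h2 := mem_iInter.1 h ((S (ω [])).sup f + 1)
  obtain ⟨i, hi, h3⟩ := h2
  exact hf i hi (surv_antitone (Finset.le_sup hi) h3)

variable (α : ℝ) [GoodParam α]

theorem infinitePi_exists {B : Set Conf} (hB : MeasurableSet B) (F : Finset ℕ) :
    (Measure.infinitePi fun _ : ℕ => law α) {c | ∃ i ∈ F, c i ∈ B} = 1 - (1 - law α B) ^ F.card := by
  have h1 : {c : ℕ → Conf | ∃ i ∈ F, c i ∈ B} = (Set.pi F fun _ => Bᶜ)ᶜ := by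
    ext c; simp
  have h2 : MeasurableSet (Set.pi (F : Set ℕ) fun _ : ℕ => Bᶜ) :=
    MeasurableSet.pi F.countable_toSet fun _ _ => hB.compl
  rw [h1, prob_compl_eq_one_sub h2, Measure.infinitePi_pi _ fun _ _ => hB.compl,
    Finset.prod_const, prob_compl_eq_one_sub hB]

theorem law_surv_succ (hS : ∀ i, MeasurableSet {x : Node | i ∈ S x}) (n : ℕ) :
    law α (surv S (n + 1)) =
      ∫⁻ x, (1 - (1 - law α (surv S n)) ^ (S x).card) ∂(nodeLaw α) := by
  have h1 : surv S (n + 1) = (fun ω => (ω [], cones ω)) ⁻¹'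
      {p : Node × (ℕ → Conf) | ∃ i, i ∈ S p.1 ∧ p.2 i ∈ surv S n} := by
    ext ω; simp [surv, cones]
  have h2 : MeasurableSet {p : Node × (ℕ → Conf) | ∃ i, i ∈ S p.1 ∧ p.2 i ∈ surv S n} := by
    have : {p : Node × (ℕ → Conf) | ∃ i, i ∈ S p.1 ∧ p.2 i ∈ surv S n} =
        ⋃ i, (Prod.fst ⁻¹' {x | i ∈ S x}) ∩
          ((fun p : Node × (ℕ → Conf) => p.2 i) ⁻¹' surv S n) := by
      ext p; simp
    rw [this]
    refine MeasurableSet.iUnion fun i => (measurable_fst (hS i)).inter ?_
    have h3 : Measurable (fun p : Node × (ℕ → Conf) => p.2 i) :=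
      (measurable_pi_apply i).comp measurable_snd
    exact h3 (measurableSet_surv hS n)
  rw [h1, ← Measure.map_apply measurable_split h2, map_split, Measure.prod_apply h2]
  congr 1
  ext x
  rw [← infinitePi_exists α (measurableSet_surv hS n)]
  rfl

omit [GoodParam α] in
theorem lintegral_card (hS : ∀ i, MeasurableSet {x : Node | i ∈ S x}) :
    ∫⁻ x, ((S x).card : ENNReal) ∂(nodeLaw α) = ∑' i, nodeLaw α {x | i ∈ S x} := by
  have h1 : ∀ x, ((S x).card : ENNReal) = ∑' i, ({x : Node | i ∈ S x}.indicator 1 x : ENNReal) := by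
    intro x
    rw [tsum_eq_sum (s := S x)]
    · rw [Finset.sum_congr rfl (g := fun _ => (1 : ENNReal))]
      · simp
      · intro i hi
        simp [hi]
    · intro i hi
      simp [hi]
  simp_rw [h1]
  rw [lintegral_tsum]
  · congr 1
    ext i
    rw [lintegral_indicator_one (hS i)]
  · intro i
    exact (measurable_one.indicator (hS i)).aemeasurable

theorem exists_eps {m : ENNReal} (hm : 1 < m) (M : ℕ) :
    ∃ ε : ENNReal, 0 < ε ∧ ε ≤ 1 ∧ 1 + (M : ENNReal) ^ 2 * ε ≤ m := by
  obtain ⟨m', hm1, hm2⟩ := exists_between hm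
  have hm' : m' ≠ ⊤ := hm2.ne_top
  have hpos : 0 < m' - 1 := tsub_pos_of_lt hm1
  refine ⟨min 1 ((m' - 1) / ((M : ENNReal) ^ 2 + 1)), ?_, min_le_left _ _, ?_⟩
  · apply lt_min one_pos
    apply ENNReal.div_pos hpos.ne'
    exact ENNReal.add_ne_top.2 ⟨ENNReal.pow_ne_top (ENNReal.natCast_ne_top M), ENNReal.one_ne_top⟩
  · have h1 : (M : ENNReal) ^ 2 * min 1 ((m' - 1) / ((M : ENNReal) ^ 2 + 1)) ≤ m' - 1 := by
      calc (M : ENNReal) ^ 2 * min 1 ((m' - 1) / ((M : ENNReal) ^ 2 + 1))
          ≤ ((M : ENNReal) ^ 2 + 1) * ((m' - 1) / ((M : ENNReal) ^ 2 + 1)) := by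
            gcongr
            · exact le_self_add
            · exact min_le_right _ _
        _ = m' - 1 := by
            apply ENNReal.mul_div_cancel
            · simp
            · exact ENNReal.add_ne_top.2
                ⟨ENNReal.pow_ne_top (ENNReal.natCast_ne_top M), ENNReal.one_ne_top⟩
    calc 1 + (M : ENNReal) ^ 2 * min 1 ((m' - 1) / ((M : ENNReal) ^ 2 + 1)) ≤ 1 + (m' - 1) := by
          gcongr
      _ = m' := add_tsub_cancel_of_le hm1.le
      _ ≤ m := hm2.le

/-- A supercritical branching structure survives with positive probability. -/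
theorem survInf_pos (hS : ∀ i, MeasurableSet {x : Node | i ∈ S x}) (M : ℕ)
    (hM : ∀ x, (S x).card ≤ M) (hmean : 1 < ∑' i, nodeLaw α {x | i ∈ S x}) :
    0 < law α (survInf S) := by
  obtain ⟨ε, hε0, hε1, hε⟩ := exists_eps hmean M
  have hεtop : ε ≠ ⊤ := ne_top_of_le_ne_top ENNReal.one_ne_top hε1
  have key : ∀ n, ε ≤ law α (surv S n) := by
    intro n
    induction n with
    | zero => simpa [surv] using hε1
    | succ n ih =>
      have h1 : ∫⁻ x, ((S x).card : ENNReal) * ε ∂(nodeLaw α) ≤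
          law α (surv S (n + 1)) + (M : ENNReal) ^ 2 * ε ^ 2 := by
        rw [law_surv_succ α hS]
        calc ∫⁻ x, ((S x).card : ENNReal) * ε ∂(nodeLaw α)
            ≤ ∫⁻ x, ((1 - (1 - law α (surv S n)) ^ (S x).card) + (M : ENNReal) ^ 2 * ε ^ 2)
                ∂(nodeLaw α) := by
              apply lintegral_mono
              intro x
              exact enn_key prob_le_one ih (hM x)
          _ = _ := by
              rw [lintegral_add_right _ measurable_const, lintegral_const, measure_univ, mul_one]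
      have h2 : ∫⁻ x, ((S x).card : ENNReal) * ε ∂(nodeLaw α) =
          (∑' i, nodeLaw α {x | i ∈ S x}) * ε := by
        rw [lintegral_mul_const' _ _ hεtop, lintegral_card α hS]
      rw [h2] at h1
      have h3 : ε + (M : ENNReal) ^ 2 * ε ^ 2 ≤ law α (surv S (n + 1)) + (M : ENNReal) ^ 2 * ε ^ 2 := by
        calc ε + (M : ENNReal) ^ 2 * ε ^ 2 = (1 + (M : ENNReal) ^ 2 * ε) * ε := by ring
          _ ≤ (∑' i, nodeLaw α {x | i ∈ S x}) * ε := by gcongr
          _ ≤ _ := h1
      refine (ENNReal.add_le_add_iff_right ?_).1 h3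
      exact ENNReal.mul_ne_top (ENNReal.pow_ne_top (ENNReal.natCast_ne_top M))
        (ENNReal.pow_ne_top hεtop)
  have h4 : ε ≤ law α (survInf S) := by
    unfold survInf
    rw [surv_antitone.measure_iInter (fun n => (measurableSet_surv hS n).nullMeasurableSet)
      ⟨0, measure_ne_top _ _⟩]
    exact le_iInf key
  exact lt_of_lt_of_le hε0 h4

end CausalPerc
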