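import Pool.Agent.Lib.MP_a51368_pr.Branch

/-!
# Multi-type branching structures driven by the node data
-/

open MeasureTheory ProbabilityTheory Set Measure

namespace CausalPerc

/-- A multi-type selection rule: `S τ x` is the set of selected children of a vertex of type `τ`
with data `x`, and `ty τ x i` is the type of the selected child `i`. -/
structure Rule (Θ : Type) where
  S : Θ → Node → Finset ℕ
  ty : Θ → Node → ℕ → Θ
  meas : ∀ τ τ' i, MeasurableSet {x : Node | i ∈ S τ x ∧ ty τ x i = τ'}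

variable {Θ : Type} [Fintype Θ] [DecidableEq Θ] (ρ : Rule Θ)

/-- Survival up to depth `n` of a vertex of type `τ`. -/
def msurv : ℕ → Θ → Set Conf
  | 0, _ => univ
  | n + 1, τ => {ω | ∃ i ∈ ρ.S τ (ω []), coneAt [i] ω ∈ msurv n (ρ.ty τ (ω []) i)}

/-- Survival at all depths. -/
def msurvInf (τ : Θ) : Set Conf := ⋂ n, msurv ρ n τ

omit [Fintype Θ] [DecidableEq Θ] in
theorem msurv_succ_eq (n : ℕ) (τ : Θ) : msurv ρ (n + 1) τ =
    ⋃ i : ℕ, ⋃ τ' : Θ, ((fun ω : Conf => ω []) ⁻¹' {x | i ∈ ρ.S τ x ∧ ρ.ty τ x i = τ'}) ∩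
      (coneAt [i] ⁻¹' msurv ρ n τ') := by
  ext ω
  simp only [msurv, mem_ofPred_eq, mem_iUnion, mem_inter_iff, mem_preimage]
  constructor
  · rintro ⟨i, h1, h2⟩
    exact ⟨i, _, ⟨h1, rfl⟩, h2⟩
  · rintro ⟨i, τ', ⟨h1, h2⟩, h3⟩
    exact ⟨i, h1, by rw [h2]; exact h3⟩

omit [DecidableEq Θ] in
theorem measurableSet_msurv (n : ℕ) (τ : Θ) : MeasurableSet (msurv ρ n τ) := by
  induction n generalizing τ with
  | zero => exact MeasurableSet.univ
  | succ n ih =>
    rw [msurv_succ_eq]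
    exact MeasurableSet.iUnion fun i => MeasurableSet.iUnion fun τ' =>
      (measurable_root (ρ.meas τ τ' i)).inter (measurable_coneAt _ (ih τ'))

omit [DecidableEq Θ] in
theorem measurableSet_msurvInf (τ : Θ) : MeasurableSet (msurvInf ρ τ) :=
  MeasurableSet.iInter fun n => measurableSet_msurv ρ n τ

omit [Fintype Θ] [DecidableEq Θ] in
theorem msurv_succ_subset (n : ℕ) (τ : Θ) : msurv ρ (n + 1) τ ⊆ msurv ρ n τ := by
  induction n generalizing τ with
  | zero => exact subset_univ _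
  | succ n ih =>
    rintro ω ⟨i, hi, h⟩
    exact ⟨i, hi, ih _ h⟩

omit [Fintype Θ] [DecidableEq Θ] in
theorem msurv_antitone (τ : Θ) : Antitone fun n => msurv ρ n τ :=
  antitone_nat_of_succ_le fun n => msurv_succ_subset ρ n τ

omit [Fintype Θ] [DecidableEq Θ] in
/-- Koenig: infinite survival passes to a selected child. -/
theorem msurvInf_step {ω : Conf} {τ : Θ} (h : ω ∈ msurvInf ρ τ) :
    ∃ i ∈ ρ.S τ (ω []), coneAt [i] ω ∈ msurvInf ρ (ρ.ty τ (ω []) i) := by
  by_contra hcon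
  push Not at hcon
  have h1 : ∀ i ∈ ρ.S τ (ω []), ∃ n, coneAt [i] ω ∉ msurv ρ n (ρ.ty τ (ω []) i) := by
    intro i hi
    have := hcon i hi
    simpa [msurvInf] using this
  choose! f hf using h1
  have h2 := mem_iInter.1 h ((ρ.S τ (ω [])).sup f + 1)
  obtain ⟨i, hi, h3⟩ := h2
  exact hf i hi (msurv_antitone ρ _ (Finset.le_sup hi) h3)

variable (α : ℝ) [GoodParam α]

omit [Fintype Θ] [DecidableEq Θ] in
theorem infinitePi_exists' {B : ℕ → Set Conf} (hB : ∀ i, MeasurableSet (B i)) (F : Finset ℕ) :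
    (Measure.infinitePi fun _ : ℕ => law α) {c | ∃ i ∈ F, c i ∈ B i} =
      1 - ∏ i ∈ F, (1 - law α (B i)) := by
  have h1 : {c : ℕ → Conf | ∃ i ∈ F, c i ∈ B i} = (Set.pi F fun i => (B i)ᶜ)ᶜ := by
    ext c; simp
  have h2 : MeasurableSet (Set.pi (F : Set ℕ) fun i : ℕ => (B i)ᶜ) :=
    MeasurableSet.pi F.countable_toSet fun i _ => (hB i).compl
  rw [h1, prob_compl_eq_one_sub h2, Measure.infinitePi_pi _ fun i _ => (hB i).compl]
  congr 1
  exact Finset.prod_congr rfl fun i _ => prob_compl_eq_one_sub (hB i)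

omit [DecidableEq Θ] in
theorem law_msurv_succ (n : ℕ) (τ : Θ) :
    law α (msurv ρ (n + 1) τ) =
      ∫⁻ x, (1 - ∏ i ∈ ρ.S τ x, (1 - law α (msurv ρ n (ρ.ty τ x i)))) ∂(nodeLaw α) := by
  have h1 : msurv ρ (n + 1) τ = (fun ω => (ω [], cones ω)) ⁻¹'
      {q : Node × (ℕ → Conf) | ∃ i ∈ ρ.S τ q.1, q.2 i ∈ msurv ρ n (ρ.ty τ q.1 i)} := by
    ext ω; simp [msurv, cones]
  have h2 : MeasurableSet
      {q : Node × (ℕ → Conf) | ∃ i ∈ ρ.S τ q.1, q.2 i ∈ msurv ρ n (ρ.ty τ q.1 i)} := by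
    have : {q : Node × (ℕ → Conf) | ∃ i ∈ ρ.S τ q.1, q.2 i ∈ msurv ρ n (ρ.ty τ q.1 i)} =
        ⋃ i : ℕ, ⋃ τ' : Θ, (Prod.fst ⁻¹' {x | i ∈ ρ.S τ x ∧ ρ.ty τ x i = τ'}) ∩
          ((fun q : Node × (ℕ → Conf) => q.2 i) ⁻¹' msurv ρ n τ') := by
      ext q
      simp only [mem_ofPred_eq, mem_iUnion, mem_inter_iff, mem_preimage]
      constructor
      · rintro ⟨i, h1, h2⟩
        exact ⟨i, _, ⟨h1, rfl⟩, h2⟩
      · rintro ⟨i, τ', ⟨h1, h2⟩, h3⟩
        exact ⟨i, h1, by rw [h2]; exact h3⟩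
    rw [this]
    refine MeasurableSet.iUnion fun i => MeasurableSet.iUnion fun τ' =>
      (measurable_fst (ρ.meas τ τ' i)).inter ?_
    have h3 : Measurable (fun q : Node × (ℕ → Conf) => q.2 i) :=
      (measurable_pi_apply i).comp measurable_snd
    exact h3 (measurableSet_msurv ρ n τ')
  rw [h1, ← Measure.map_apply measurable_split h2, map_split, Measure.prod_apply h2]
  congr 1
  ext x
  rw [← infinitePi_exists' α (fun i => measurableSet_msurv ρ n (ρ.ty τ x i))]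
  rfl

theorem one_add_sum_le {ι : Type*} (F : Finset ι) (b : ι → ℝ) (hb : ∀ i ∈ F, 0 ≤ b i) :
    1 + ∑ i ∈ F, b i ≤ ∏ i ∈ F, (1 + b i) := by
  induction F using Finset.cons_induction with
  | empty => simp
  | cons a s ha ih =>
    rw [Finset.sum_cons, Finset.prod_cons]
    have h1 := ih fun i hi => hb i (Finset.mem_cons_of_mem hi)
    have h2 := hb a (Finset.mem_cons_self a s)
    have h3 : 0 ≤ ∑ i ∈ s, b i := Finset.sum_nonneg fun i hi => hb i (Finset.mem_cons_of_mem hi)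
    nlinarith [mul_nonneg h2 h3, mul_le_mul_of_nonneg_left h1 h2]

/-- Elementary inequality for products. -/
theorem prod_key {ι : Type*} (F : Finset ι) (a b : ι → ℝ) (hb0 : ∀ i ∈ F, 0 ≤ b i)
    (hba : ∀ i ∈ F, b i ≤ a i) (ha1 : ∀ i ∈ F, a i ≤ 1) :
    ∑ i ∈ F, b i ≤ 1 - ∏ i ∈ F, (1 - a i) + (∑ i ∈ F, b i) ^ 2 := by
  have h1 : ∏ i ∈ F, (1 - a i) ≤ ∏ i ∈ F, (1 - b i) :=
    Finset.prod_le_prod (fun i hi => by linarith [ha1 i hi]) fun i hi => by linarith [hba i hi]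
  have h2 : (∏ i ∈ F, (1 - b i)) * (1 + ∑ i ∈ F, b i) ≤ 1 := by
    have h3 : 1 + ∑ i ∈ F, b i ≤ ∏ i ∈ F, (1 + b i) := one_add_sum_le F b hb0
    calc (∏ i ∈ F, (1 - b i)) * (1 + ∑ i ∈ F, b i)
        ≤ (∏ i ∈ F, (1 - b i)) * ∏ i ∈ F, (1 + b i) :=
          mul_le_mul_of_nonneg_left h3
            (Finset.prod_nonneg fun i hi => by linarith [hba i hi, ha1 i hi])
      _ = ∏ i ∈ F, ((1 - b i) * (1 + b i)) := by rw [Finset.prod_mul_distrib]
      _ ≤ 1 := Finset.prod_le_one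
          (fun i hi => mul_nonneg (by linarith [hba i hi, ha1 i hi]) (by linarith [hb0 i hi]))
          (fun i hi => by nlinarith [sq_nonneg (b i)])
  set s := ∑ i ∈ F, b i with hs
  have hs0 : 0 ≤ s := Finset.sum_nonneg hb0
  have h4 : ∏ i ∈ F, (1 - b i) ≤ 1 - s + s ^ 2 := by
    by_contra hcon
    push Not at hcon
    have : (1 - s + s ^ 2) * (1 + s) < (∏ i ∈ F, (1 - b i)) * (1 + s) :=
      mul_lt_mul_of_pos_right hcon (by linarith)
    nlinarith [pow_nonneg hs0 3]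
  linarith

theorem enn_prod_key {ι : Type*} (F : Finset ι) (a b : ι → ENNReal)
    (hba : ∀ i ∈ F, b i ≤ a i) (ha1 : ∀ i ∈ F, a i ≤ 1) :
    ∑ i ∈ F, b i ≤ (1 - ∏ i ∈ F, (1 - a i)) + (∑ i ∈ F, b i) ^ 2 := by
  have hat : ∀ i ∈ F, a i ≠ ⊤ := fun i hi => ne_top_of_le_ne_top ENNReal.one_ne_top (ha1 i hi)
  have hbt : ∀ i ∈ F, b i ≠ ⊤ := fun i hi => ne_top_of_le_ne_top (hat i hi) (hba i hi)
  have h1 := prod_key F (fun i => (a i).toReal) (fun i => (b i).toReal)
    (fun i _ => ENNReal.toReal_nonneg)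
    (fun i hi => ENNReal.toReal_mono (hat i hi) (hba i hi))
    (fun i hi => by
      have := ENNReal.toReal_mono ENNReal.one_ne_top (ha1 i hi)
      simpa using this)
  have hsum : (∑ i ∈ F, b i) = ENNReal.ofReal (∑ i ∈ F, (b i).toReal) := by
    rw [ENNReal.ofReal_sum_of_nonneg fun i _ => ENNReal.toReal_nonneg]
    exact Finset.sum_congr rfl fun i hi => (ENNReal.ofReal_toReal (hbt i hi)).symm
  have hprod : (∏ i ∈ F, (1 - a i)) = ENNReal.ofReal (∏ i ∈ F, (1 - (a i).toReal)) := by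
    rw [ENNReal.ofReal_prod_of_nonneg]
    · refine Finset.prod_congr rfl fun i hi => ?_
      rw [ENNReal.ofReal_sub _ ENNReal.toReal_nonneg, ENNReal.ofReal_one,
        ENNReal.ofReal_toReal (hat i hi)]
    · intro i hi
      have := ENNReal.toReal_mono ENNReal.one_ne_top (ha1 i hi)
      simp at this
      linarith
  have hp0 : 0 ≤ ∏ i ∈ F, (1 - (a i).toReal) := by
    refine Finset.prod_nonneg fun i hi => ?_
    have := ENNReal.toReal_mono ENNReal.one_ne_top (ha1 i hi)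
    simp at this
    linarith
  have hp1 : ∏ i ∈ F, (1 - (a i).toReal) ≤ 1 := by
    refine Finset.prod_le_one (fun i hi => ?_) fun i hi => ?_
    · have := ENNReal.toReal_mono ENNReal.one_ne_top (ha1 i hi)
      simp at this
      linarith
    · have := ENNReal.toReal_nonneg (a := a i)
      linarith
  have hs0 : 0 ≤ ∑ i ∈ F, (b i).toReal := Finset.sum_nonneg fun i _ => ENNReal.toReal_nonneg
  rw [hsum, hprod, ← ENNReal.ofReal_one, ← ENNReal.ofReal_sub _ hp0, ← ENNReal.ofReal_pow hs0,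
    ← ENNReal.ofReal_add (by linarith) (by positivity)]
  exact ENNReal.ofReal_le_ofReal h1

/-- The mean weight of the selected children. -/
noncomputable def meanW (w : Θ → ENNReal) (τ : Θ) : ENNReal :=
  ∫⁻ x, ∑ i ∈ ρ.S τ x, w (ρ.ty τ x i) ∂(nodeLaw α)

/-- The truncated rule. -/
def Rule.trunc (J : ℕ) : Rule Θ where
  S := fun τ x => (ρ.S τ x).filter (· < J)
  ty := ρ.ty
  meas := fun τ τ' i => by
    by_cases h : i < J
    · simpa [h] using ρ.meas τ τ' i
    · simp [h]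

omit [Fintype Θ] [DecidableEq Θ] in
theorem msurv_trunc_subset (J n : ℕ) (τ : Θ) : msurv (ρ.trunc J) n τ ⊆ msurv ρ n τ := by
  induction n generalizing τ with
  | zero => exact subset_univ _
  | succ n ih =>
    rintro ω ⟨i, hi, h⟩
    refine ⟨i, (Finset.mem_filter.1 hi).1, ih _ h⟩

omit [DecidableEq Θ] in
theorem weight_eq (w : Θ → ENNReal) (τ : Θ) (x : Node) :
    ∑ i ∈ ρ.S τ x, w (ρ.ty τ x i) = ∑' i : ℕ, ∑ τ' : Θ,
      w τ' * ({x : Node | i ∈ ρ.S τ x ∧ ρ.ty τ x i = τ'}.indicator 1 x : ENNReal) := by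
  rw [tsum_eq_sum (s := ρ.S τ x)]
  · refine Finset.sum_congr rfl fun i hi => ?_
    rw [Finset.sum_eq_single (ρ.ty τ x i)]
    · simp [hi]
    · intro τ' _ hτ'
      have : x ∉ {x : Node | i ∈ ρ.S τ x ∧ ρ.ty τ x i = τ'} := fun h => hτ' h.2.symm
      simp [this]
    · simp
  · intro i hi
    refine Finset.sum_eq_zero fun τ' _ => ?_
    have : x ∉ {x : Node | i ∈ ρ.S τ x ∧ ρ.ty τ x i = τ'} := fun h => hi h.1
    simp [this]

omit [GoodParam α] in
theorem meanW_eq (w : Θ → ENNReal) (τ : Θ) :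
    meanW ρ α w τ = ∑' i : ℕ, ∑ τ' : Θ,
      w τ' * nodeLaw α {x : Node | i ∈ ρ.S τ x ∧ ρ.ty τ x i = τ'} := by
  unfold meanW
  simp_rw [weight_eq ρ w τ]
  rw [lintegral_tsum]
  · congr 1
    ext i
    rw [lintegral_finsetSum]
    · refine Finset.sum_congr rfl fun τ' _ => ?_
      rw [lintegral_const_mul _ (measurable_one.indicator (ρ.meas τ τ' i)),
        lintegral_indicator_one (ρ.meas τ τ' i)]
    · intro τ' _
      exact (measurable_one.indicator (ρ.meas τ τ' i)).const_mul _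
  · intro i
    exact (Finset.measurable_fun_sum _ fun τ' _ =>
      (measurable_one.indicator (ρ.meas τ τ' i)).const_mul _).aemeasurable

theorem exists_trunc (w : Θ → ENNReal) (τ : Θ) (h : w τ < meanW ρ α w τ) :
    ∃ J0, ∀ J, J0 ≤ J → w τ < meanW (ρ.trunc J) α w τ := by
  rw [meanW_eq, ENNReal.tsum_eq_iSup_nat] at h
  obtain ⟨J0, hJ0⟩ := lt_iSup_iff.1 h
  refine ⟨J0, fun J hJ => lt_of_lt_of_le hJ0 ?_⟩
  rw [meanW_eq]
  calc ∑ i ∈ Finset.range J0, ∑ τ' : Θ,
      w τ' * nodeLaw α {x : Node | i ∈ ρ.S τ x ∧ ρ.ty τ x i = τ'}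
      = ∑ i ∈ Finset.range J0, ∑ τ' : Θ,
      w τ' * nodeLaw α {x : Node | i ∈ (ρ.trunc J).S τ x ∧ (ρ.trunc J).ty τ x i = τ'} := by
        refine Finset.sum_congr rfl fun i hi => Finset.sum_congr rfl fun τ' _ => ?_
        have h1 : i < J := lt_of_lt_of_le (Finset.mem_range.1 hi) hJ
        have : {x : Node | i ∈ (ρ.trunc J).S τ x ∧ (ρ.trunc J).ty τ x i = τ'} =
            {x : Node | i ∈ ρ.S τ x ∧ ρ.ty τ x i = τ'} := by
          ext x
          simp [Rule.trunc, h1]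
        rw [this]
    _ ≤ _ := ENNReal.sum_le_tsum _

theorem msurvInf_pos_of_card (w : Θ → ENNReal) (hw0 : ∀ τ, 0 < w τ) (hw1 : ∀ τ, w τ ≤ 1)
    (M : ℕ) (hM : ∀ τ x, (ρ.S τ x).card ≤ M) (hmean : ∀ τ, w τ < meanW ρ α w τ) (τ : Θ) :
    0 < law α (msurvInf ρ τ) := by
  -- choose eps for all types
  have hex : ∀ τ, ∃ ε : ENNReal, 0 < ε ∧ ε ≤ 1 ∧ w τ + (M : ENNReal) ^ 2 * ε ≤ meanW ρ α w τ := by
    intro τ
    obtain ⟨m', hm1, hm2⟩ := exists_between (hmean τ)
    have hm' : m' ≠ ⊤ := hm2.ne_top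
    have hpos : 0 < m' - w τ := tsub_pos_of_lt hm1
    refine ⟨min 1 ((m' - w τ) / ((M : ENNReal) ^ 2 + 1)), ?_, min_le_left _ _, ?_⟩
    · apply lt_min one_pos
      apply ENNReal.div_pos hpos.ne'
      exact ENNReal.add_ne_top.2 ⟨ENNReal.pow_ne_top (ENNReal.natCast_ne_top M), ENNReal.one_ne_top⟩
    · have h1 : (M : ENNReal) ^ 2 * min 1 ((m' - w τ) / ((M : ENNReal) ^ 2 + 1)) ≤ m' - w τ := by
        calc (M : ENNReal) ^ 2 * min 1 ((m' - w τ) / ((M : ENNReal) ^ 2 + 1))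
            ≤ ((M : ENNReal) ^ 2 + 1) * ((m' - w τ) / ((M : ENNReal) ^ 2 + 1)) := by
              gcongr
              · exact le_self_add
              · exact min_le_right _ _
          _ = m' - w τ := by
              apply ENNReal.mul_div_cancel
              · simp
              · exact ENNReal.add_ne_top.2
                  ⟨ENNReal.pow_ne_top (ENNReal.natCast_ne_top M), ENNReal.one_ne_top⟩
      calc w τ + (M : ENNReal) ^ 2 * min 1 ((m' - w τ) / ((M : ENNReal) ^ 2 + 1))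
          ≤ w τ + (m' - w τ) := by gcongr
        _ = m' := add_tsub_cancel_of_le hm1.le
        _ ≤ _ := hm2.le
  choose e he0 he1 he2 using hex
  obtain ⟨ε, hε0, hε⟩ : ∃ ε : ENNReal, 0 < ε ∧ ∀ τ, ε ≤ e τ := by
    refine ⟨Finset.univ.inf e, ?_, fun τ => Finset.inf_le (Finset.mem_univ τ)⟩
    rw [Finset.lt_inf_iff]
    · exact fun τ _ => he0 τ
    · exact ENNReal.coe_lt_top (r := 0)
  have hε1 : ε ≤ 1 := (hε τ).trans (he1 τ)
  have hεtop : ε ≠ ⊤ := ne_top_of_le_ne_top ENNReal.one_ne_top hε1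
  have key : ∀ n τ, ε * w τ ≤ law α (msurv ρ n τ) := by
    intro n
    induction n with
    | zero =>
      intro τ
      simp only [msurv, measure_univ]
      calc ε * w τ ≤ 1 * 1 := mul_le_mul' hε1 (hw1 τ)
        _ = 1 := one_mul _
    | succ n ih =>
      intro τ
      have h1 : ∫⁻ x, ∑ i ∈ ρ.S τ x, ε * w (ρ.ty τ x i) ∂(nodeLaw α) ≤
          law α (msurv ρ (n + 1) τ) + (M : ENNReal) ^ 2 * ε ^ 2 := by
        rw [law_msurv_succ ρ α]
        calc ∫⁻ x, ∑ i ∈ ρ.S τ x, ε * w (ρ.ty τ x i) ∂(nodeLaw α)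
            ≤ ∫⁻ x, ((1 - ∏ i ∈ ρ.S τ x, (1 - law α (msurv ρ n (ρ.ty τ x i)))) +
                (M : ENNReal) ^ 2 * ε ^ 2) ∂(nodeLaw α) := by
              apply lintegral_mono
              intro x
              refine (enn_prod_key (ρ.S τ x) (fun i => law α (msurv ρ n (ρ.ty τ x i)))
                (fun i => ε * w (ρ.ty τ x i)) (fun i _ => ih _) (fun i _ => prob_le_one)).trans ?_
              refine add_le_add le_rfl ?_
              have h3 : ∑ i ∈ ρ.S τ x, ε * w (ρ.ty τ x i) ≤ (M : ENNReal) * ε := by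
                calc ∑ i ∈ ρ.S τ x, ε * w (ρ.ty τ x i) ≤ ∑ _i ∈ ρ.S τ x, ε := by
                      refine Finset.sum_le_sum fun i _ => ?_
                      calc ε * w (ρ.ty τ x i) ≤ ε * 1 := by gcongr; exact hw1 _
                        _ = ε := mul_one _
                  _ = ((ρ.S τ x).card : ENNReal) * ε := by rw [Finset.sum_const, nsmul_eq_mul]
                  _ ≤ (M : ENNReal) * ε := by
                      gcongr
                      exact_mod_cast hM τ x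
              calc (∑ i ∈ ρ.S τ x, ε * w (ρ.ty τ x i)) ^ 2 ≤ ((M : ENNReal) * ε) ^ 2 := by gcongr
                _ = _ := by rw [mul_pow]
          _ = _ := by
              rw [lintegral_add_right _ measurable_const, lintegral_const, measure_univ, mul_one]
      have h2 : ∫⁻ x, ∑ i ∈ ρ.S τ x, ε * w (ρ.ty τ x i) ∂(nodeLaw α) = ε * meanW ρ α w τ := by
        unfold meanW
        rw [← lintegral_const_mul' _ _ hεtop]
        simp_rw [Finset.mul_sum]
      rw [h2] at h1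
      have h3 : ε * w τ + (M : ENNReal) ^ 2 * ε ^ 2 ≤
          law α (msurv ρ (n + 1) τ) + (M : ENNReal) ^ 2 * ε ^ 2 := by
        calc ε * w τ + (M : ENNReal) ^ 2 * ε ^ 2 = ε * (w τ + (M : ENNReal) ^ 2 * ε) := by ring
          _ ≤ ε * (w τ + (M : ENNReal) ^ 2 * e τ) := by gcongr; exact hε τ
          _ ≤ ε * meanW ρ α w τ := by gcongr; exact he2 τ
          _ ≤ _ := h1
      refine (ENNReal.add_le_add_iff_right ?_).1 h3
      exact ENNReal.mul_ne_top (ENNReal.pow_ne_top (ENNReal.natCast_ne_top M))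
        (ENNReal.pow_ne_top hεtop)
  have h4 : ε * w τ ≤ law α (msurvInf ρ τ) := by
    unfold msurvInf
    rw [(msurv_antitone ρ τ).measure_iInter
      (fun n => (measurableSet_msurv ρ n τ).nullMeasurableSet) ⟨0, measure_ne_top _ _⟩]
    exact le_iInf fun n => key n τ
  exact lt_of_lt_of_le (ENNReal.mul_pos hε0.ne' (hw0 τ).ne') h4

/-- A supercritical multi-type structure survives with positive probability. -/
theorem msurvInf_pos (w : Θ → ENNReal) (hw0 : ∀ τ, 0 < w τ) (hw1 : ∀ τ, w τ ≤ 1)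
    (hmean : ∀ τ, w τ < meanW ρ α w τ) (τ : Θ) : 0 < law α (msurvInf ρ τ) := by
  choose J0 hJ0 using fun τ => exists_trunc ρ α w τ (hmean τ)
  set J := Finset.univ.sup J0 with hJ
  have h1 := msurvInf_pos_of_card (ρ.trunc J) α w hw0 hw1 J (fun τ x => by
    refine (Finset.card_le_card (t := Finset.range J) fun i hi => ?_).trans (by simp)
    exact Finset.mem_range.2 (Finset.mem_filter.1 hi).2)
    (fun τ => hJ0 τ J (Finset.le_sup (Finset.mem_univ τ))) τ
  refine lt_of_lt_of_le h1 (measure_mono ?_)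
  exact iInter_mono fun n => msurv_trunc_subset ρ J n τ

end CausalPerc
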