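import Pool.Agent.Lib.MP_a51368_pr.Reach

open Set

namespace CausalPerc

/-- Edges of the triangulation, named by the slot holding their label. -/
abbrev Edge := Vert × Slot

/-- First endpoint of an edge. -/
def src : Edge → Vert
  | (v, .tree _) => v
  | (v, .hor i) => i :: v
  | (v, .diag) => v

/-- Second endpoint of an edge. -/
def tgt (t : Vert → ℕ) : Edge → Vert
  | (v, .tree i) => i :: v
  | (v, .hor i) => rightNbr t (i :: v)
  | (v, .diag) => upperRight t v

/-- Height of an edge: its level for a horizontal edge, its layer otherwise. -/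
def ht : Edge → ℕ
  | (v, .tree _) => v.length
  | (v, .hor _) => v.length + 1
  | (v, .diag) => v.length

/-- Triangles: `dn v i` is the triangle below the horizontal edge on the right of `i :: v`, and
`up v i` is the triangle above that edge. -/
inductive Tri
  | dn (v : Vert) (i : ℕ) : Tri
  | up (v : Vert) (i : ℕ) : Tri
  deriving DecidableEq

/-- The left side of a triangle. -/
def le : Tri → Edge
  | .dn v i => (v, .tree i)
  | .up v i => (i :: v, .diag)

/-- The horizontal side of a triangle. -/
def he : Tri → Edge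
  | .dn v i => (v, .hor i)
  | .up v i => (v, .hor i)

/-- The right side of a triangle. -/
def re (t : Vert → ℕ) : Tri → Edge
  | .dn v i => if i + 1 < t v then (v, .tree (i + 1)) else (v, .diag)
  | .up v i => if 0 < t (rightNbr t (i :: v)) then (rightNbr t (i :: v), .tree 0)
      else (rightNbr t (i :: v), .diag)

/-- The three sides of a triangle. -/
def sides (t : Vert → ℕ) (τ : Tri) : Finset Edge := {le τ, he τ, re t τ}

/-- Triangles of the tree above level `R`. -/
def TriIn (t : Vert → ℕ) (R : ℕ) : Tri → Prop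
  | .dn v i => InTree t (i :: v) ∧ R ≤ v.length
  | .up v i => InTree t (i :: v) ∧ R ≤ v.length + 1

variable {t : Vert → ℕ} {χ : Vert → Bool} {R R' : ℕ}

/-- The coboundary of `χ`. -/
def df (t : Vert → ℕ) (χ : Vert → Bool) (e : Edge) : Bool := χ (src e) ^^ χ (tgt t e)

theorem df_tri {τ : Tri} (h : TriIn t R τ) :
    df t χ (le τ) = (df t χ (he τ) ^^ df t χ (re t τ)) := by
  cases τ with
  | dn v i =>
    have h1 := h.1
    simp only [df, le, he, re, src, tgt]
    have h2 := rightNbr_cons h1
    split_ifs with hc
    · rw [if_pos hc] at h2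
      simp only [h2]
      cases χ v <;> cases χ (i :: v) <;> cases χ ((i + 1) :: v) <;> rfl
    · rw [if_neg hc] at h2
      simp only [h2]
      cases χ v <;> cases χ (i :: v) <;> cases χ (upperRight t v) <;> rfl
  | up v i =>
    have h1 := h.1
    simp only [df, le, he, re, src, tgt]
    have h2 := upperRight_rec h1
    split_ifs with hc
    · rw [if_pos hc] at h2
      simp only [h2]
      cases χ (i :: v) <;> cases χ (rightNbr t (i :: v)) <;>
        cases χ (0 :: rightNbr t (i :: v)) <;> rfl
    · rw [if_neg hc] at h2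
      simp only [h2]
      cases χ (i :: v) <;> cases χ (rightNbr t (i :: v)) <;>
        cases χ (upperRight t (rightNbr t (i :: v))) <;> rfl

/-- The edges of the coboundary of `χ` that are connected, through triangles above level `R`, to
a horizontal edge of the coboundary at level `R`. -/
inductive D1 (t : Vert → ℕ) (χ : Vert → Bool) (R : ℕ) : Edge → Prop
  | base (v : Vert) (i : ℕ) (h1 : InTree t (i :: v)) (h2 : v.length + 1 = R)
      (h3 : df t χ (v, .hor i) = true) : D1 t χ R (v, .hor i)
  | step (τ : Tri) (e e' : Edge) (h1 : D1 t χ R e) (h2 : TriIn t R τ) (h3 : e ∈ sides t τ)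
      (h4 : e' ∈ sides t τ) (h5 : df t χ e' = true) : D1 t χ R e'

theorem D1.df_eq {e : Edge} (h : D1 t χ R e) : df t χ e = true := by
  cases h with
  | base _ _ _ _ h3 => exact h3
  | step _ _ _ _ _ _ _ h5 => exact h5

open Classical in
/-- Indicator of `D1`. -/
noncomputable def ind (t : Vert → ℕ) (χ : Vert → Bool) (R : ℕ) (e : Edge) : Bool :=
  decide (D1 t χ R e)

theorem ind_eq_df_of {τ : Tri} (h : TriIn t R τ) {e e' : Edge} (he : e ∈ sides t τ)
    (he' : e' ∈ sides t τ) (h1 : D1 t χ R e) : ind t χ R e' = df t χ e' := by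
  classical
  unfold ind
  cases hd : df t χ e' with
  | false =>
    rw [decide_eq_false_iff_not]
    intro h2
    rw [h2.df_eq] at hd
    exact absurd hd (by simp)
  | true =>
    rw [decide_eq_true_iff]
    exact D1.step τ e e' h1 h he he' hd

theorem ind_tri {τ : Tri} (h : TriIn t R τ) :
    ind t χ R (le τ) = (ind t χ R (he τ) ^^ ind t χ R (re t τ)) := by
  have m1 : le τ ∈ sides t τ := by simp [sides]
  have m2 : he τ ∈ sides t τ := by simp [sides]
  have m3 : re t τ ∈ sides t τ := by simp [sides]
  by_cases hex : ∃ e ∈ sides t τ, D1 t χ R e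
  · obtain ⟨e, he1, he2⟩ := hex
    rw [ind_eq_df_of h he1 m1 he2, ind_eq_df_of h he1 m2 he2, ind_eq_df_of h he1 m3 he2]
    exact df_tri h
  · push Not at hex
    unfold ind
    simp [hex _ m1, hex _ m2, hex _ m3]

/-- Primitive of the indicator of `D1`, computed downwards from the level `R'`. -/
noncomputable def g (t : Vert → ℕ) (χ : Vert → Bool) (R : ℕ) : ℕ → Vert → Bool
  | 0, _ => false
  | j + 1, v => g t χ R j (upperRight t v) ^^ ind t χ R (v, .diag)

theorem g_tree_of_hor {j : ℕ} {w : Vert} (hw : InTree t w) (hR : R ≤ w.length)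
    (hH : ∀ i, InTree t (i :: w) → (g t χ R j (i :: w) ^^ g t χ R j (rightNbr t (i :: w))) =
      ind t χ R (w, .hor i)) (i : ℕ) (hi : i < t w) :
    (g t χ R j (i :: w) ^^ g t χ R (j + 1) w) = ind t χ R (w, .tree i) := by
  obtain ⟨d, hd⟩ : ∃ d, i + d + 1 = t w := ⟨t w - i - 1, by omega⟩
  induction d generalizing i with
  | zero =>
    have hiw : InTree t (i :: w) := inTree_cons.2 ⟨hw, hi⟩
    have h1 := ind_tri (χ := χ) (show TriIn t R (.dn w i) from ⟨hiw, hR⟩)
    have h2 := rightNbr_cons hiw
    rw [if_neg (by omega)] at h2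
    have h3 := hH i hiw
    simp only [le, he, re] at h1
    rw [if_neg (by omega)] at h1
    rw [h1, ← h3, h2]
    simp only [g]
    cases g t χ R j (i :: w) <;> cases g t χ R j (upperRight t w) <;>
      cases ind t χ R (w, .diag) <;> rfl
  | succ d ih =>
    have hiw : InTree t (i :: w) := inTree_cons.2 ⟨hw, hi⟩
    have h1 := ind_tri (χ := χ) (show TriIn t R (.dn w i) from ⟨hiw, hR⟩)
    have h2 := rightNbr_cons hiw
    rw [if_pos (by omega)] at h2
    have h3 := hH i hiw
    have h4 := ih (i + 1) (by omega) (by omega)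
    simp only [le, he, re] at h1
    rw [if_pos (by omega)] at h1
    rw [h1, ← h3, h2, ← h4]
    cases g t χ R j (i :: w) <;> cases g t χ R j ((i + 1) :: w) <;>
      cases g t χ R (j + 1) w <;> rfl

theorem g_hor (hno : ∀ v i, v.length + 1 = R' → InTree t (i :: v) → ¬ D1 t χ R (v, .hor i))
    (j : ℕ) : ∀ (v : Vert) (i : ℕ), InTree t (i :: v) → v.length + 1 + j = R' →
      R ≤ v.length + 1 →
      (g t χ R j (i :: v) ^^ g t χ R j (rightNbr t (i :: v))) = ind t χ R (v, .hor i) := by
  induction j with
  | zero =>
    intro v i h1 h2 _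
    have h3 := hno v i (by omega) h1
    simp [g, ind, h3]
  | succ j ih =>
    intro v i h1 h2 h3
    have hT : ∀ w : Vert, InTree t w → w.length = v.length + 1 → ∀ i', i' < t w →
        (g t χ R j (i' :: w) ^^ g t χ R (j + 1) w) = ind t χ R (w, .tree i') := by
      intro w hw hwl i' hi'
      refine g_tree_of_hor hw (by omega) (fun i'' hi'' => ?_) i' hi'
      exact ih w i'' hi'' (by omega) (by omega)
    have h4 := ind_tri (χ := χ) (show TriIn t R (.up v i) from ⟨h1, h3⟩)
    have h5 := upperRight_rec h1
    have h6 := inTree_rightNbr h1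
    simp only [le, he, re] at h4
    have h7 : ind t χ R (i :: v, .diag) =
        (g t χ R (j + 1) (i :: v) ^^ g t χ R j (upperRight t (i :: v))) := by
      simp only [g]
      cases g t χ R j (upperRight t (i :: v)) <;> cases ind t χ R (i :: v, .diag) <;> rfl
    by_cases hc : 0 < t (rightNbr t (i :: v))
    · rw [if_pos hc] at h4 h5
      have h8 := hT _ h6.1 (by rw [h6.2]; rfl) 0 hc
      rw [h7, ← h8, h5] at h4
      revert h4
      cases g t χ R (j + 1) (i :: v) <;> cases g t χ R j (0 :: rightNbr t (i :: v)) <;>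
        cases g t χ R (j + 1) (rightNbr t (i :: v)) <;> cases ind t χ R (v, .hor i) <;> simp
    · rw [if_neg hc] at h4 h5
      have h8 : ind t χ R (rightNbr t (i :: v), .diag) =
          (g t χ R (j + 1) (rightNbr t (i :: v)) ^^
            g t χ R j (upperRight t (rightNbr t (i :: v)))) := by
        simp only [g]
        cases g t χ R j (upperRight t (rightNbr t (i :: v))) <;>
          cases ind t χ R (rightNbr t (i :: v), .diag) <;> rfl
      rw [h7, h8, h5] at h4
      revert h4
      cases g t χ R (j + 1) (i :: v) <;>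
        cases g t χ R j (upperRight t (rightNbr t (i :: v))) <;>
        cases g t χ R (j + 1) (rightNbr t (i :: v)) <;> cases ind t χ R (v, .hor i) <;> simp

theorem g_tree (hno : ∀ v i, v.length + 1 = R' → InTree t (i :: v) → ¬ D1 t χ R (v, .hor i))
    {j : ℕ} {w : Vert} (hw : InTree t w) (hj : w.length + (j + 1) = R') (hR : R ≤ w.length)
    {i : ℕ} (hi : i < t w) :
    (g t χ R j (i :: w) ^^ g t χ R (j + 1) w) = ind t χ R (w, .tree i) :=
  g_tree_of_hor hw hR (fun i' hi' => g_hor hno j w i' hi' (by omega) (by omega)) i hi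

theorem ind_base {v : Vert} {i : ℕ} (h1 : InTree t (i :: v)) (h2 : v.length + 1 = R) :
    ind t χ R (v, .hor i) = df t χ (v, .hor i) := by
  classical
  unfold ind
  cases hd : df t χ (v, .hor i) with
  | false =>
    rw [decide_eq_false_iff_not]
    intro h
    rw [h.df_eq] at hd
    exact absurd hd (by simp)
  | true =>
    rw [decide_eq_true_iff]
    exact D1.base v i h1 h2 hd

theorem g_const_step
    (hno : ∀ v i, v.length + 1 = R' → InTree t (i :: v) → ¬ D1 t χ R (v, .hor i))
    (hR1 : 1 ≤ R) (hRR : R ≤ R') {x : Vert} (hx : InTree t x) (hxl : x.length = R) :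
    (g t χ R (R' - R) (rightNbr t x) ^^ χ (rightNbr t x)) = (g t χ R (R' - R) x ^^ χ x) := by
  cases x with
  | nil => simp at hxl; omega
  | cons i v =>
    have hl : v.length + 1 = R := by simpa using hxl
    have h2 := g_hor hno (R' - R) v i hx (by omega) (by omega)
    rw [ind_base hx hl] at h2
    simp only [df, src, tgt] at h2
    revert h2
    cases g t χ R (R' - R) (i :: v) <;> cases g t χ R (R' - R) (rightNbr t (i :: v)) <;>
      cases χ (i :: v) <;> cases χ (rightNbr t (i :: v)) <;> simp

/-- At level `R` the primitive differs from `χ` by a constant. -/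
theorem g_const (hno : ∀ v i, v.length + 1 = R' → InTree t (i :: v) → ¬ D1 t χ R (v, .hor i))
    (hR1 : 1 ≤ R) (hRR : R ≤ R') {a b : Vert} (ha : InTree t a) (hb : InTree t b)
    (hal : a.length = R) (hbl : b.length = R) :
    (g t χ R (R' - R) a ^^ χ a) = (g t χ R (R' - R) b ^^ χ b) := by
  have key : ∀ k, (g t χ R (R' - R) ((rightNbr t)^[k] a) ^^ χ ((rightNbr t)^[k] a)) =
      (g t χ R (R' - R) a ^^ χ a) := by
    intro k
    induction k with
    | zero => rfl
    | succ k ih =>
      have h1 := inTree_iterate ha k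
      rw [← ih, Function.iterate_succ_apply']
      exact g_const_step hno hR1 hRR h1.1 (h1.2.trans hal)
  obtain ⟨k, hk⟩ := exists_iterate_eq ha hb (by omega)
  rw [← key k, hk]

variable {p : ℝ} {ω : Conf}

theorem g_step (hχ : ∀ a b, Step p ω a b → χ a = χ b)
    (hno : ∀ v i, v.length + 1 = R' → InTree (kids ω) (i :: v) → ¬ D1 (kids ω) χ R (v, .hor i))
    {a b : Vert} (ha : R ≤ a.length) (hb : R ≤ b.length) (ha' : a.length ≤ R')
    (hb' : b.length ≤ R') (h : Step p ω a b) :
    g (kids ω) χ R (R' - a.length) a = g (kids ω) χ R (R' - b.length) b := by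
  have hind : ∀ e, χ (src e) = χ (tgt (kids ω) e) → ind (kids ω) χ R e = false := by
    intro e he
    classical
    unfold ind
    rw [decide_eq_false_iff_not]
    intro h1
    have := h1.df_eq
    simp [df, he] at this
  have hhor : ∀ {a b : Vert}, R ≤ a.length → a.length ≤ R' → OpenHor p ω a b →
      g (kids ω) χ R (R' - a.length) a = g (kids ω) χ R (R' - b.length) b := by
    intro a b ha ha' h
    have hχab := hχ a b (Or.inr (Or.inl h))
    have hlen := h.inTree.2.2
    obtain ⟨h1, rfl, i, v, rfl, _⟩ := h
    have h2 := g_hor hno (R' - (i :: v).length) v i h1 (by simp at ha' ⊢; omega)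
      (by simpa using ha)
    rw [hind _ (by simpa [src, tgt] using hχab)] at h2
    rw [hlen]
    revert h2
    cases g (kids ω) χ R (R' - (i :: v).length) (i :: v) <;>
      cases g (kids ω) χ R (R' - (i :: v).length) (rightNbr (kids ω) (i :: v)) <;> simp
  rcases h with h | h | h
  · have hχab := hχ a b (Or.inl h)
    have hlen := h.inTree.2.2
    obtain ⟨h1, ⟨i, hi, rfl, _⟩ | ⟨_, _, rfl, _⟩⟩ := h
    · have e1 : R' - a.length = (R' - (i :: a).length) + 1 := by simp at hb' ⊢; omega
      have h2 := g_tree hno (j := R' - (i :: a).length) h1 (by simp at hb' ⊢; omega) ha hi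
      rw [hind _ (by simpa [src, tgt] using hχab), ← e1] at h2
      revert h2
      cases g (kids ω) χ R (R' - (i :: a).length) (i :: a) <;>
        cases g (kids ω) χ R (R' - a.length) a <;> simp
    · have e1 : R' - a.length = (R' - (upperRight (kids ω) a).length) + 1 := by omega
      rw [e1]
      simp only [g]
      rw [hind _ (by simpa [src, tgt] using hχab)]
      simp
  · exact hhor ha ha' h
  · exact (hhor hb hb' h).symm

theorem g_reach (hχ : ∀ a b, Step p ω a b → χ a = χ b)
    (hno : ∀ v i, v.length + 1 = R' → InTree (kids ω) (i :: v) → ¬ D1 (kids ω) χ R (v, .hor i))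
    {a b : Vert} (ha : R ≤ a.length) (hb' : b.length = R')
    (h : Relation.ReflTransGen (Step p ω) a b) :
    g (kids ω) χ R (R' - a.length) a = false := by
  induction h using Relation.ReflTransGen.head_induction_on with
  | refl => rw [hb']; simp [g]
  | @head x y hxy hyb ih =>
    have h1 := hxy.inTree
    have h2 := reach_length hyb
    rw [g_step hχ hno ha (by omega) (by omega) (by omega) hxy]
    exact ih (by omega)

/-- If two vertices with different values of `χ` at level `R` both reach the level `R'`, then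
`D1` contains a horizontal edge at level `R'`. -/
theorem exists_D1 (hχ : ∀ a b, Step p ω a b → χ a = χ b) (hR1 : 1 ≤ R) (hRR : R ≤ R')
    {a b a' b' : Vert} (ha : a.length = R) (hb : b.length = R') (ha' : a'.length = R)
    (hb' : b'.length = R') (haT : InTree (kids ω) a) (haT' : InTree (kids ω) a')
    (hab : Relation.ReflTransGen (Step p ω) a b) (hab' : Relation.ReflTransGen (Step p ω) a' b')
    (hne : χ a ≠ χ a') :
    ∃ v i, v.length + 1 = R' ∧ InTree (kids ω) (i :: v) ∧ D1 (kids ω) χ R (v, .hor i) := by
  by_contra hcon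
  have hno : ∀ v i, v.length + 1 = R' → InTree (kids ω) (i :: v) →
      ¬ D1 (kids ω) χ R (v, .hor i) := fun v i h1 h2 h3 => hcon ⟨v, i, h1, h2, h3⟩
  have h1 := g_reach hχ hno (by omega) hb hab
  have h2 := g_reach hχ hno (by omega) hb' hab'
  have h3 := g_const (t := kids ω) (χ := χ) hno hR1 hRR haT haT' ha ha'
  rw [ha] at h1
  rw [ha'] at h2
  rw [h1, h2] at h3
  simp at h3
  exact hne h3

end CausalPerc
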