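import Pool.Agent.Lib.MP_a51368_pr.Mono

open MeasureTheory ProbabilityTheory Set Measure

namespace CausalPerc

/-- There is an infinite cluster. -/
def HasInf (p : ℝ) (ω : Conf) : Prop := ∃ u, (cluster p ω u).Infinite

/-- There are two infinite clusters in different components. -/
def TwoInf (p : ℝ) (ω : Conf) : Prop :=
  ∃ u w, (cluster p ω u).Infinite ∧ (cluster p ω w).Infinite ∧ ¬ Conn p ω u w

theorem measurableSet_hasInf (p : ℝ) : MeasurableSet {ω : Conf | HasInf p ω} := by
  have : {ω : Conf | HasInf p ω} = ⋃ u : Vert, {ω : Conf | (cluster p ω u).Infinite} := by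
    ext ω; simp [HasInf]
  rw [this]
  exact MeasurableSet.iUnion fun u => measurableSet_cluster_infinite p u

theorem measurableSet_twoInf (p : ℝ) : MeasurableSet {ω : Conf | TwoInf p ω} := by
  have : {ω : Conf | TwoInf p ω} = ⋃ u : Vert, ⋃ w : Vert,
      {ω : Conf | (cluster p ω u).Infinite} ∩ ({ω : Conf | (cluster p ω w).Infinite} ∩
        {ω : Conf | Conn p ω u w}ᶜ) := by
    ext ω
    simp [TwoInf]
  rw [this]
  exact MeasurableSet.iUnion fun u => MeasurableSet.iUnion fun w =>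
    (measurableSet_cluster_infinite p u).inter ((measurableSet_cluster_infinite p w).inter
      (measurableSet_conn p u w).compl)

theorem conn_symm {p : ℝ} {ω : Conf} {u w : Vert} (h : Conn p ω u w) : Conn p ω w u := by
  induction h with
  | refl => exact .refl
  | tail _ hbc ih => exact Relation.ReflTransGen.head hbc.symm ih

theorem numInf_eq_one_iff {p : ℝ} {ω : Conf} :
    numInf p ω = 1 ↔ HasInf p ω ∧ ¬ TwoInf p ω := by
  unfold numInf
  rw [Set.encard_eq_one]
  constructor
  · rintro ⟨K, hK⟩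
    have h1 : K ∈ ({K : Set Vert | ∃ v, InTree (kids ω) v ∧ (cluster p ω v).Infinite ∧
        K = {w | Conn p ω v w}} : Set (Set Vert)) := by rw [hK]; rfl
    obtain ⟨v, _, hv2, hv3⟩ := h1
    refine ⟨⟨v, hv2⟩, ?_⟩
    rintro ⟨u, w, hu, hw, huw⟩
    have hu1 : {x | Conn p ω u x} ∈ ({K : Set Vert | ∃ v, InTree (kids ω) v ∧
        (cluster p ω v).Infinite ∧ K = {w | Conn p ω v w}} : Set (Set Vert)) :=
      ⟨u, inTree_of_cluster_infinite hu, hu, rfl⟩
    have hw1 : {x | Conn p ω w x} ∈ ({K : Set Vert | ∃ v, InTree (kids ω) v ∧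
        (cluster p ω v).Infinite ∧ K = {w | Conn p ω v w}} : Set (Set Vert)) :=
      ⟨w, inTree_of_cluster_infinite hw, hw, rfl⟩
    rw [hK] at hu1 hw1
    have h2 : {x | Conn p ω u x} = {x | Conn p ω w x} :=
      (mem_singleton_iff.1 hu1).trans (mem_singleton_iff.1 hw1).symm
    have h3 : w ∈ {x | Conn p ω w x} := Relation.ReflTransGen.refl
    rw [← h2] at h3
    exact huw h3
  · rintro ⟨⟨v, hv⟩, h2⟩
    refine ⟨{w | Conn p ω v w}, ?_⟩
    ext K
    constructor
    · rintro ⟨u, _, hu2, rfl⟩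
      have h3 : Conn p ω u v := by
        by_contra hcon
        exact h2 ⟨u, v, hu2, hv, hcon⟩
      rw [mem_singleton_iff]
      ext x
      exact ⟨fun h => (conn_symm h3).trans h, fun h => h3.trans h⟩
    · intro hK
      rw [mem_singleton_iff] at hK
      exact ⟨v, inTree_of_cluster_infinite hv, hv, hK⟩

theorem measurableSet_numInf (p : ℝ) : MeasurableSet {ω : Conf | numInf p ω = 1} := by
  have : {ω : Conf | numInf p ω = 1} = {ω : Conf | HasInf p ω} ∩ {ω : Conf | TwoInf p ω}ᶜ := by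
    ext ω
    simp only [mem_ofPred_eq, numInf_eq_one_iff, mem_inter_iff, mem_compl_iff]
  rw [this]
  exact (measurableSet_hasInf p).inter (measurableSet_twoInf p).compl

/-! ### Monotonicity in `p` -/

theorem step_mono {p p' : ℝ} (hp : p ≤ p') {ω : Conf} {u w : Vert} (h : Step p ω u w) :
    Step p' ω u w := by
  have hh : ∀ {a b : Vert}, OpenHor p ω a b → OpenHor p' ω a b := by
    rintro a b ⟨h1, h2, i, v, h3, h4⟩
    exact ⟨h1, h2, i, v, h3, h4.trans hp⟩
  rcases h with ⟨h1, ⟨i, h2, h3, h4⟩ | ⟨h2, h3, h4, h5⟩⟩ | h | h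
  · exact Or.inl ⟨h1, Or.inl ⟨i, h2, h3, h4.trans hp⟩⟩
  · exact Or.inl ⟨h1, Or.inr ⟨h2, h3, h4, h5.trans hp⟩⟩
  · exact Or.inr (Or.inl (hh h))
  · exact Or.inr (Or.inr (hh h))

theorem conn_mono {p p' : ℝ} (hp : p ≤ p') {ω : Conf} {u w : Vert} (h : Conn p ω u w) :
    Conn p' ω u w :=
  Relation.ReflTransGen.mono (fun a b (hab : Step p ω a b ∨ Step p ω b a) =>
    hab.imp (step_mono hp) (step_mono hp)) u w h

theorem conn_of_mem_cluster {p : ℝ} {ω : Conf} {u w : Vert} (h : w ∈ cluster p ω u) :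
    Conn p ω u w :=
  Relation.ReflTransGen.mono (fun a b (hab : Step p ω a b) => Or.inl hab) u w h

/-! ### Cone percolation -/

theorem infinite_of_lengths {s : Set Vert} (h : ∀ n, ∃ x ∈ s, n ≤ x.length) : s.Infinite := by
  intro hfin
  obtain ⟨x, hx, hx2⟩ := h ((hfin.toFinset.sup fun v => v.length) + 1)
  have : x.length ≤ hfin.toFinset.sup fun v => v.length :=
    Finset.le_sup (f := fun v : Vert => v.length) (by simpa using hx)
  omega

theorem cone_reach {p : ℝ} {J : ℕ} {ω : Conf} (n : ℕ) : ∀ w : Vert, InTree (kids ω) w →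
    coneAt w ω ∈ survInf (selT p J) →
    ∃ x : Vert, x.length = w.length + n ∧ x ∈ cluster p ω w := by
  induction n with
  | zero => intro w _ _; exact ⟨w, rfl, .refl⟩
  | succ n ih =>
    intro w hw h
    obtain ⟨i, hi, h2⟩ := survInf_step h
    rw [coneAt_coneAt] at h2
    have hroot : coneAt w ω [] = ω w := by simp [coneAt]
    rw [hroot, mem_selT] at hi
    have hiw : InTree (kids ω) (i :: w) := inTree_cons.2 ⟨hw, hi.1⟩
    obtain ⟨x, hx, hx2⟩ := ih (i :: w) hiw h2
    refine ⟨x, by simp at hx; omega, ?_⟩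
    refine Relation.ReflTransGen.head (Or.inl ⟨hw, Or.inl ⟨i, hi.1, rfl, hi.2.2⟩⟩) hx2

theorem cluster_infinite_of_cone {p : ℝ} {J : ℕ} {ω : Conf} {w : Vert}
    (hw : InTree (kids ω) w) (h : coneAt w ω ∈ survInf (selT p J)) :
    (cluster p ω w).Infinite := by
  apply infinite_of_lengths
  intro n
  obtain ⟨x, hx, hx2⟩ := cone_reach n w hw h
  exact ⟨x, hx2, by omega⟩

theorem lab_le_one (ω : Conf) (v : Vert) (s : Slot) : lab ω v s ≤ 1 := ((ω v).2 s).2.2

theorem lab_nonneg (ω : Conf) (v : Vert) (s : Slot) : 0 ≤ lab ω v s := ((ω v).2 s).2.1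

theorem mem_cluster_one {ω : Conf} (v : Vert) (hv : InTree (kids ω) v) : v ∈ cluster 1 ω [] := by
  induction v with
  | nil => exact .refl
  | cons i v ih =>
    rw [inTree_cons] at hv
    exact (ih hv.1).tail (Or.inl ⟨hv.1, Or.inl ⟨i, hv.2, rfl, lab_le_one _ _ _⟩⟩)

theorem cluster_one_infinite {ω : Conf} (h : Survives ω) : (cluster 1 ω []).Infinite := by
  apply infinite_of_lengths
  intro n
  obtain ⟨x, hx⟩ := List.exists_mem_of_ne_nil _ (h n)
  have := mem_level_iff.1 hx
  exact ⟨x, mem_cluster_one x this.2, this.1.ge⟩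

theorem survives_of_infinite {p : ℝ} {ω : Conf} {u : Vert} (h : (cluster p ω u).Infinite) :
    Survives ω := by
  have hu := inTree_of_cluster_infinite h
  have h1 : ∀ r, u.length ≤ r → level (kids ω) r ≠ [] := by
    intro r hr h0
    obtain ⟨a, ha, ha2⟩ := cluster_reaches h hr
    have := mem_level_iff.2 ⟨ha2, reach_inTree ha hu⟩
    rw [h0] at this
    simp at this
  have h2 : ∀ r, level (kids ω) (r + 1) ≠ [] → level (kids ω) r ≠ [] := by
    intro r h3 h4
    rw [level_succ, h4] at h3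
    simp at h3
  have h3 : ∀ d r, level (kids ω) (r + d) ≠ [] → level (kids ω) r ≠ [] := by
    intro d
    induction d with
    | zero => intro r h; exact h
    | succ d ih => intro r h; exact ih r (h2 _ h)
  intro r
  exact h3 u.length r (h1 _ (by omega))

variable (α : ℝ) [GoodParam α]

/-- A measurable cone event of positive probability ensuring that the cluster of the apex of the
cone is infinite. -/
def GoodCone (p : ℝ) (Q : Set Conf) : Prop :=
  MeasurableSet Q ∧ 0 < law α Q ∧ ∀ ω w, InTree (kids ω) w → coneAt w ω ∈ Q →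
    (cluster p ω w).Infinite

theorem exists_goodCone {p : ℝ} (h0 : 0 ≤ p) (h1 : p ≤ 1) (hm : 1 - α < α * p) :
    ∃ Q, GoodCone α p Q := by
  obtain ⟨J, hJ⟩ := selT_mean α h0 h1 hm
  exact ⟨survInf (selT p J), measurableSet_survInf (measurable_selT p J),
    survInf_pos α (measurable_selT p J) J (selT_card p J) hJ,
    fun ω w hw h => cluster_infinite_of_cone hw h⟩

/-- Almost surely on survival there is an infinite cluster. -/
theorem hasInf_ae {p : ℝ} {Q : Set Conf} (hQ : GoodCone α p Q) :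
    law α {ω | Survives ω ∧ ¬ HasInf p ω} = 0 := by
  obtain ⟨hQm, hQpos, hQ⟩ := hQ
  refine measure_mono_null ?_ (law_badSet α hQm hQpos 1 [])
  rintro ω ⟨h1, h2⟩
  refine ⟨cluster_one_infinite h1, fun w hw hw2 => h2 ⟨w, hQ ω w ?_ hw2⟩⟩
  exact reach_inTree hw inTree_nil

/-- Monotonicity of uniqueness. -/
theorem twoInf_mono {p p' : ℝ} (hp : p ≤ p') {Q : Set Conf} (hQ : GoodCone α p Q) :
    law α {ω | TwoInf p' ω ∧ ¬ TwoInf p ω} = 0 := by
  obtain ⟨hQm, hQpos, hQ⟩ := hQ
  refine measure_mono_null (t := ⋃ u : Vert, badSet Q p' u) ?_ ?_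
  · rintro ω ⟨⟨u, w, hu, hw, huw⟩, h2⟩
    by_contra hcon
    simp only [mem_iUnion, not_exists] at hcon
    have key : ∀ u, (cluster p' ω u).Infinite → ∃ x ∈ cluster p' ω u,
        (cluster p ω x).Infinite := by
      intro u hu
      have h3 := hcon u
      simp only [badSet, mem_ofPred_eq, not_and, not_forall, not_not] at h3
      obtain ⟨x, hx, hx2⟩ := h3 hu
      exact ⟨x, hx, hQ ω x (reach_inTree hx (inTree_of_cluster_infinite hu)) hx2⟩
    obtain ⟨x, hx, hx2⟩ := key u hu
    obtain ⟨y, hy, hy2⟩ := key w hw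
    refine h2 ⟨x, y, hx2, hy2, fun hxy => huw ?_⟩
    exact (conn_of_mem_cluster hx).trans ((conn_mono hp hxy).trans
      (conn_symm (conn_of_mem_cluster hy)))
  · rw [measure_iUnion_null_iff]
    intro u
    exact law_badSet α hQm hQpos p' u

omit [GoodParam α] in
theorem law_survives_pos {p : ℝ} {Q : Set Conf} (hQ : GoodCone α p Q) :
    0 < law α {ω | Survives ω} := by
  refine lt_of_lt_of_le hQ.2.1 (measure_mono ?_)
  intro ω hω
  have h1 : coneAt [] ω ∈ Q := by rw [coneAt_nil]; exact hω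
  exact survives_of_infinite (hQ.2.2 ω [] inTree_nil h1)

theorem theta_pos {p : ℝ} {Q : Set Conf} (hQ : GoodCone α p Q) : 0 < theta α p := by
  unfold theta condLaw
  rw [ProbabilityTheory.cond_apply measurableSet_survives]
  refine ENNReal.mul_pos (ENNReal.inv_ne_zero.2 (measure_ne_top _ _)) ?_
  refine (lt_of_lt_of_le hQ.2.1 (measure_mono ?_)).ne'
  intro ω hω
  have h1 : coneAt [] ω ∈ Q := by rw [coneAt_nil]; exact hω
  have h2 := hQ.2.2 ω [] inTree_nil h1
  exact ⟨survives_of_infinite h2, h2⟩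

theorem pc_le {b : ℝ} (hb : 0 ≤ b) (h : ∀ p, b < p → p ≤ 1 → ∃ Q, GoodCone α p Q) :
    pc α ≤ b := by
  unfold pc
  apply Real.sSup_le _ hb
  rintro p ⟨_, h1, h2⟩
  by_contra hcon
  push Not at hcon
  obtain ⟨Q, hQ⟩ := h p hcon h1
  exact (theta_pos α hQ).ne' h2

end CausalPerc
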