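import Pool.Agent.Lib.MP_a51368_pr.Dual
import Pool.Agent.Lib.MP_a51368_pr.Mono2

open Set

namespace CausalPerc

variable {t : Vert → ℕ} {χ : Vert → Bool} {R R' : ℕ}

open Classical in
/-- The left neighbour of a vertex. -/
noncomputable def leftNbr (t : Vert → ℕ) (v : Vert) : Vert :=
  if h : ∃ x, InTree t x ∧ x.length = v.length ∧ rightNbr t x = v then h.choose else v

theorem leftNbr_rightNbr {w : Vert} (hw : InTree t w) : leftNbr t (rightNbr t w) = w := by
  have h : ∃ x, InTree t x ∧ x.length = (rightNbr t w).length ∧ rightNbr t x = rightNbr t w :=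
    ⟨w, hw, (inTree_rightNbr hw).2.symm, rfl⟩
  unfold leftNbr
  rw [dif_pos h]
  have h1 := h.choose_spec
  refine rightNbr_inj h1.1 hw ?_ h1.2.2
  rw [h1.2.1, (inTree_rightNbr hw).2]

/-- The triangle above the horizontal edge on the right of a vertex. -/
def triUp : Vert → Tri
  | [] => .up [] 0
  | i :: v => .up v i

/-- One of the two triangles containing an edge. -/
def tA : Edge → Tri
  | (v, .tree i) => .dn v i
  | (v, .hor i) => .dn v i
  | (v, .diag) => triUp v

/-- The other triangle containing an edge. -/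
noncomputable def tB (t : Vert → ℕ) : Edge → Tri
  | (v, .tree i) => if i = 0 then triUp (leftNbr t v) else .dn v (i - 1)
  | (v, .hor i) => .up v i
  | (v, .diag) => if t v = 0 then triUp (leftNbr t v) else .dn v (t v - 1)

theorem tri_cases {τ : Tri} (h : TriIn t R τ) {e : Edge} (he1 : e ∈ sides t τ) :
    τ = tA e ∨ τ = tB t e := by
  simp only [sides, Finset.mem_insert, Finset.mem_singleton] at he1
  cases τ with
  | dn v i =>
    simp only [le, he, re] at he1
    rcases he1 with rfl | rfl | h1
    · exact Or.inl rfl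
    · exact Or.inl rfl
    · right
      split_ifs at h1 with hc
      · rw [h1]; simp [tB]
      · have h2 := (inTree_cons.1 h.1).2
        rw [h1]
        have e1 : t v ≠ 0 := by omega
        have e2 : t v - 1 = i := by omega
        simp [tB, e1, e2]
  | up v i =>
    simp only [le, he, re] at he1
    rcases he1 with rfl | rfl | h1
    · exact Or.inl rfl
    · exact Or.inr rfl
    · right
      have h3 := leftNbr_rightNbr h.1
      split_ifs at h1 with hc
      · rw [h1]; simp [tB, h3, triUp]
      · rw [h1]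
        have e1 : t (rightNbr t (i :: v)) = 0 := by omega
        simp [tB, e1, h3, triUp]

/-- The triangle on the other side of an edge. -/
noncomputable def other (t : Vert → ℕ) (e : Edge) (τ : Tri) : Tri :=
  if τ = tA e then tB t e else tA e

theorem eq_other {τ τ' : Tri} (h : TriIn t R τ) (h' : TriIn t R τ') {e : Edge}
    (he1 : e ∈ sides t τ) (he2 : e ∈ sides t τ') (hne : τ ≠ τ') : τ' = other t e τ := by
  unfold other
  rcases tri_cases h he1 with h1 | h1 <;> rcases tri_cases h' he2 with h2 | h2
  · exact absurd (h1.trans h2.symm) hne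
  · rw [if_pos h1, h2]
  · rw [if_neg, h2]
    intro h3
    exact hne (h3.trans h2.symm)
  · exact absurd (h1.trans h2.symm) hne

/-- All non-backtracking dual paths with `n + 1` edges, starting with the edge `e` and then
crossing the triangle `τ`. -/
noncomputable def paths (t : Vert → ℕ) : ℕ → Edge → Tri → Finset (List Edge)
  | 0, e, _ => {[e]}
  | n + 1, e, τ => if e ∈ sides t τ then
      ((sides t τ).erase e).biUnion fun e' => (paths t n e' (other t e' τ)).image (e :: ·)
    else ∅

theorem card_sides (τ : Tri) : (sides t τ).card ≤ 3 := Finset.card_le_three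

theorem card_paths (n : ℕ) (e : Edge) (τ : Tri) : (paths t n e τ).card ≤ 2 ^ n := by
  induction n generalizing e τ with
  | zero => simp [paths]
  | succ n ih =>
    rw [paths]
    split_ifs with h
    · refine Finset.card_biUnion_le.trans ?_
      calc ∑ e' ∈ (sides t τ).erase e, ((paths t n e' (other t e' τ)).image (e :: ·)).card
          ≤ ∑ _e' ∈ (sides t τ).erase e, 2 ^ n :=
            Finset.sum_le_sum fun e' _ => Finset.card_image_le.trans (ih e' _)
        _ = ((sides t τ).erase e).card * 2 ^ n := by rw [Finset.sum_const, smul_eq_mul]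
        _ ≤ 2 * 2 ^ n := by
            gcongr
            rw [Finset.card_erase_of_mem h]
            have := card_sides (t := t) τ
            omega
        _ = 2 ^ (n + 1) := by ring
    · simp

theorem length_of_mem_paths {n : ℕ} {e : Edge} {τ : Tri} {l : List Edge}
    (h : l ∈ paths t n e τ) : l.length = n + 1 := by
  induction n generalizing e τ l with
  | zero =>
    simp only [paths, Finset.mem_singleton] at h
    simp [h]
  | succ n ih =>
    rw [paths] at h
    split_ifs at h with hc
    · simp only [Finset.mem_biUnion, Finset.mem_image] at h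
      obtain ⟨e', _, l', hl', rfl⟩ := h
      simp [ih hl']
    · simp at h

/-- Two edges are sides of a common triangle above level `R`. -/
def Adj (t : Vert → ℕ) (R : ℕ) (e e' : Edge) : Prop :=
  ∃ τ, TriIn t R τ ∧ e ∈ sides t τ ∧ e' ∈ sides t τ

theorem ht_sides {τ : Tri} (h : TriIn t R τ) {e e' : Edge} (he1 : e ∈ sides t τ)
    (he2 : e' ∈ sides t τ) : ht e' ≤ ht e + 1 := by
  have key : ∃ m, ∀ x ∈ sides t τ, m ≤ ht x ∧ ht x ≤ m + 1 := by
    cases τ with
    | dn v i =>
      refine ⟨v.length, fun x hx => ?_⟩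
      simp only [sides, le, he, re, Finset.mem_insert, Finset.mem_singleton] at hx
      rcases hx with rfl | rfl | h1
      · simp [ht]
      · simp [ht]
      · split_ifs at h1 <;> (rw [h1]; simp [ht])
    | up v i =>
      refine ⟨v.length + 1, fun x hx => ?_⟩
      have h3 := (inTree_rightNbr h.1).2
      simp only [sides, le, he, re, Finset.mem_insert, Finset.mem_singleton] at hx
      rcases hx with rfl | rfl | h1
      · simp [ht]
      · simp [ht]
      · split_ifs at h1 <;> (rw [h1]; simp [ht, h3])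
  obtain ⟨m, hm⟩ := key
  have h1 := hm e he1
  have h2 := hm e' he2
  omega

/-- A chain of edges of `D1`, starting from a horizontal edge at level `R`. -/
def Chain (t : Vert → ℕ) (χ : Vert → Bool) (R n : ℕ) (f : ℕ → Edge) : Prop :=
  (∃ v i, f 0 = (v, .hor i) ∧ InTree t (i :: v) ∧ v.length + 1 = R) ∧
    (∀ k ≤ n, D1 t χ R (f k)) ∧ ∀ k < n, Adj t R (f k) (f (k + 1))

theorem exists_chain {e : Edge} (h : D1 t χ R e) : ∃ n f, Chain t χ R n f ∧ f n = e := by
  induction h with
  | base v i h1 h2 h3 =>
    exact ⟨0, fun _ => (v, .hor i), ⟨⟨v, i, rfl, h1, h2⟩, fun _ _ => D1.base v i h1 h2 h3,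
      fun k hk => absurd hk (by omega)⟩, rfl⟩
  | step τ e e' h1 h2 h3 h4 h5 ih =>
    obtain ⟨n, f, ⟨hf1, hf2, hf3⟩, hfn⟩ := ih
    refine ⟨n + 1, fun k => if k ≤ n then f k else e', ⟨?_, ?_, ?_⟩, ?_⟩
    · simpa using hf1
    · intro k _
      by_cases hk : k ≤ n
      · simp only [hk, if_true]; exact hf2 k hk
      · simp only [hk, if_false]; exact D1.step τ e e' h1 h2 h3 h4 h5
    · intro k hk
      by_cases hk2 : k < n
      · simp only [show k ≤ n by omega, show k + 1 ≤ n by omega, if_true]
        exact hf3 k hk2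
      · have : k = n := by omega
        subst this
        simp only [le_refl, if_true, show ¬ k + 1 ≤ k by omega, if_false]
        rw [hfn]
        exact ⟨τ, h2, h3, h4⟩
    · simp

theorem Chain.cut {n : ℕ} {f : ℕ → Edge} (h : Chain t χ R n f) {i d : ℕ}
    (hn : i + d + 1 ≤ n) (hadj : Adj t R (f i) (f (i + d + 1))) :
    ∃ f', Chain t χ R (n - d) f' ∧ f' (n - d) = f n := by
  obtain ⟨hf1, hf2, hf3⟩ := h
  refine ⟨fun k => if k ≤ i then f k else f (k + d), ⟨by simpa using hf1, ?_, ?_⟩, ?_⟩
  · intro k hk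
    by_cases hk2 : k ≤ i
    · simp only [hk2, if_true]; exact hf2 k (by omega)
    · simp only [hk2, if_false]; exact hf2 _ (by omega)
  · intro k hk
    rcases lt_trichotomy k i with h1 | h1 | h1
    · simp only [show k ≤ i by omega, show k + 1 ≤ i by omega, if_true]
      exact hf3 k (by omega)
    · subst h1
      simp only [le_refl, if_true, show ¬ k + 1 ≤ k by omega, if_false]
      rw [show k + 1 + d = k + d + 1 by ring]
      exact hadj
    · simp only [show ¬ k ≤ i by omega, show ¬ k + 1 ≤ i by omega, if_false]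
      rw [show k + 1 + d = k + d + 1 by ring]
      exact hf3 _ (by omega)
  · simp only [show ¬ n - d ≤ i by omega, if_false]
    congr 1
    omega

theorem Chain.ht_le {n : ℕ} {f : ℕ → Edge} (h : Chain t χ R n f) {k : ℕ} (hk : k ≤ n) :
    ht (f k) ≤ R + k := by
  induction k with
  | zero =>
    obtain ⟨⟨v, i, h1, _, h2⟩, _⟩ := h
    rw [h1]
    simp [ht, h2]
  | succ k ih =>
    obtain ⟨τ, h1, h2, h3⟩ := h.2.2 k (by omega)
    have := ht_sides h1 h2 h3
    have := ih (by omega)
    omega

/-- A shortest chain has no repetition and no shortcut. -/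
theorem exists_min_chain {e : Edge} (h : D1 t χ R e) (he1 : ht e = R') :
    ∃ n f, Chain t χ R n f ∧ ht (f n) = R' ∧
      (∀ i j, i < j → j ≤ n → f i ≠ f j) ∧
      (∀ i j, i + 2 ≤ j → j ≤ n → ¬ Adj t R (f i) (f j)) := by
  classical
  have hex : ∃ n, ∃ f, Chain t χ R n f ∧ ht (f n) = R' := by
    obtain ⟨n, f, h1, h2⟩ := exists_chain h
    exact ⟨n, f, h1, by rw [h2, he1]⟩
  obtain ⟨f, hf, hf2⟩ := Nat.find_spec hex
  set n := Nat.find hex with hn
  have hmin : ∀ m < n, ¬ ∃ f, Chain t χ R m f ∧ ht (f m) = R' := fun m hm =>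
    Nat.find_min hex hm
  have h1 : ∀ i j, i + 2 ≤ j → j ≤ n → ¬ Adj t R (f i) (f j) := by
    intro i j hij hjn hadj
    obtain ⟨f', hf', hf2'⟩ := hf.cut (i := i) (d := j - i - 1) (by omega)
      (by rw [show i + (j - i - 1) + 1 = j by omega]; exact hadj)
    exact hmin _ (by omega) ⟨f', hf', by rw [hf2', hf2]⟩
  refine ⟨n, f, hf, hf2, ?_, h1⟩
  intro i j hij hjn heq
  by_cases hj : j = n
  · subst hj
    exact hmin i hij ⟨f, ⟨hf.1, fun k hk => hf.2.1 k (by omega),
      fun k hk => hf.2.2 k (by omega)⟩, by rw [heq]; exact hf2⟩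
  · have h2 := hf.2.2 j (by omega)
    rw [← heq] at h2
    exact h1 i (j + 1) (by omega) (by omega) h2

/-- A segment of a sequence of edges, as a list. -/
def seg (f : ℕ → Edge) : ℕ → ℕ → List Edge
  | k, 0 => [f k]
  | k, m + 1 => f k :: seg f (k + 1) m

theorem mem_seg {f : ℕ → Edge} {k m : ℕ} {e : Edge} (h : e ∈ seg f k m) :
    ∃ j, k ≤ j ∧ j ≤ k + m ∧ e = f j := by
  induction m generalizing k with
  | zero =>
    simp only [seg, List.mem_singleton] at h
    exact ⟨k, le_rfl, by omega, h⟩
  | succ m ih =>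
    simp only [seg, List.mem_cons] at h
    rcases h with h | h
    · exact ⟨k, le_rfl, by omega, h⟩
    · obtain ⟨j, h1, h2, h3⟩ := ih h
      exact ⟨j, by omega, by omega, h3⟩

theorem nodup_seg {f : ℕ → Edge} {n : ℕ} (hf : ∀ i j, i < j → j ≤ n → f i ≠ f j) {k m : ℕ}
    (hkm : k + m ≤ n) : (seg f k m).Nodup := by
  induction m generalizing k with
  | zero => simp [seg]
  | succ m ih =>
    simp only [seg, List.nodup_cons]
    refine ⟨fun h => ?_, ih (by omega)⟩
    obtain ⟨j, h1, h2, h3⟩ := mem_seg h
    exact hf k j (by omega) (by omega) h3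

theorem seg_mem_paths {f : ℕ → Edge} {τ : ℕ → Tri} {n : ℕ}
    (h1 : ∀ k < n, TriIn t R (τ k)) (h2 : ∀ k < n, f k ∈ sides t (τ k))
    (h3 : ∀ k < n, f (k + 1) ∈ sides t (τ k)) (h4 : ∀ k < n, f k ≠ f (k + 1))
    (h5 : ∀ k, k + 1 < n → τ k ≠ τ (k + 1)) (m : ℕ) :
    ∀ k, k + m ≤ n → seg f k m ∈ paths t m (f k) (τ k) := by
  induction m with
  | zero => intro k _; simp [seg, paths]
  | succ m ih =>
    intro k hk
    rw [paths, if_pos (h2 k (by omega))]
    simp only [seg, Finset.mem_biUnion, Finset.mem_erase, Finset.mem_image]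
    refine ⟨f (k + 1), ⟨(h4 k (by omega)).symm, h3 k (by omega)⟩, seg f (k + 1) m, ?_, rfl⟩
    cases m with
    | zero => simp [seg, paths]
    | succ m =>
      have h6 := ih (k + 1) (by omega)
      rwa [eq_other (h1 k (by omega)) (h1 (k + 1) (by omega)) (h3 k (by omega))
        (h2 (k + 1) (by omega)) (h5 k (by omega))] at h6

theorem exists_path_of_D1 {e : Edge} (h : D1 t χ R e) {L : ℕ} (he1 : ht e = R + L) :
    ∃ v i, InTree t (i :: v) ∧ v.length + 1 = R ∧
      ∃ l ∈ paths t L (v, .hor i) (.up v i), l.Nodup ∧ ∀ e ∈ l, D1 t χ R e := by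
  obtain ⟨n, f, hf, hfn, hinj, hadj⟩ := exists_min_chain h he1
  have hn : L ≤ n := by
    have := hf.ht_le le_rfl
    omega
  obtain ⟨⟨v, i, hf0, hvi, hvR⟩, hf2, hf3⟩ := id hf
  refine ⟨v, i, hvi, hvR, seg f 0 L, ?_, nodup_seg hinj (by omega), ?_⟩
  · cases L with
    | zero => simp [seg, paths, hf0]
    | succ L =>
      have : Nonempty Tri := ⟨.dn [] 0⟩
      choose! τ hτ using hf3
      have h0 : τ 0 = .up v i := by
        have h1 := hτ 0 (by omega)
        have h2 := h1.1
        have h3 := h1.2.1
        rw [hf0] at h3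
        rcases tri_cases h2 h3 with h4 | h4
        · rw [h4] at h2
          have : R ≤ v.length := h2.2
          omega
        · exact h4
      have h5 := seg_mem_paths (t := t) (R := R) (f := f) (τ := τ) (n := n)
        (fun k hk => (hτ k hk).1) (fun k hk => (hτ k hk).2.1) (fun k hk => (hτ k hk).2.2)
        (fun k hk => hinj k (k + 1) (by omega) (by omega)) ?_ (L + 1) 0 (by omega)
      · rw [h0, hf0] at h5
        exact h5
      · intro k hk heq
        apply hadj k (k + 2) (by omega) (by omega)
        refine ⟨τ k, (hτ k (by omega)).1, (hτ k (by omega)).2.1, ?_⟩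
        rw [heq]
        exact (hτ (k + 1) (by omega)).2.2
  · intro e he2
    obtain ⟨j, _, h2, h3⟩ := mem_seg he2
    rw [h3]
    exact hf2 j (by omega)

/-! ### Edges of the coboundary are closed -/

variable {p : ℝ} {ω : Conf}

/-- Genuine edges of the triangulation. -/
def ValidEdge (t : Vert → ℕ) : Edge → Prop
  | (v, .tree i) => InTree t (i :: v)
  | (v, .hor i) => InTree t (i :: v)
  | (v, .diag) => InTree t v ∧ v ≠ []

theorem validEdge_of_sides (hR : 1 ≤ R) {τ : Tri} (h : TriIn t R τ) {e : Edge}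
    (he1 : e ∈ sides t τ) : ValidEdge t e := by
  simp only [sides, Finset.mem_insert, Finset.mem_singleton] at he1
  cases τ with
  | dn v i =>
    simp only [le, he, re] at he1
    have h0 := inTree_cons.1 h.1
    rcases he1 with rfl | rfl | h1
    · exact h.1
    · exact h.1
    · split_ifs at h1 with hc
      · rw [h1]; exact inTree_cons.2 ⟨h0.1, hc⟩
      · rw [h1]
        refine ⟨h0.1, ?_⟩
        rintro rfl
        have : R ≤ 0 := h.2
        omega
  | up v i =>
    simp only [le, he, re] at he1
    have h0 := inTree_rightNbr h.1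
    rcases he1 with rfl | rfl | h1
    · exact ⟨h.1, by simp⟩
    · exact h.1
    · split_ifs at h1 with hc
      · rw [h1]; exact inTree_cons.2 ⟨h0.1, hc⟩
      · rw [h1]
        refine ⟨h0.1, ?_⟩
        intro h2
        rw [h2] at h0
        simp at h0

theorem D1.valid (hR : 1 ≤ R) {e : Edge} (h : D1 t χ R e) : ValidEdge t e := by
  cases h with
  | base v i h1 h2 h3 => exact h1
  | step τ e e' h1 h2 h3 h4 h5 => exact validEdge_of_sides hR h2 h4

theorem step_of_valid (hs : Survives ω) {e : Edge} (h : ValidEdge (kids ω) e)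
    (hlab : lab ω e.1 e.2 ≤ p) : Step p ω (src e) (tgt (kids ω) e) := by
  obtain ⟨v, s⟩ := e
  cases s with
  | diag => exact Or.inl ⟨h.1, Or.inr ⟨h.2, hs _, rfl, hlab⟩⟩
  | tree i =>
    have h' := inTree_cons.1 h
    exact Or.inl ⟨h'.1, Or.inl ⟨i, h'.2, rfl, hlab⟩⟩
  | hor i => exact Or.inr (Or.inl ⟨h, rfl, i, v, rfl, hlab⟩)

/-- If there are two infinite clusters in different components, meeting the levels up to `R`, then
there are arbitrarily long closed non-backtracking dual paths from level `R`. -/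
theorem exists_closed_path {u w : Vert} (hu : (cluster p ω u).Infinite)
    (hw : (cluster p ω w).Infinite) (huw : ¬ Conn p ω u w) (hR1 : 1 ≤ R)
    (huR : u.length ≤ R) (hwR : w.length ≤ R) (L : ℕ) :
    ∃ v i, InTree (kids ω) (i :: v) ∧ v.length + 1 = R ∧
      ∃ l ∈ paths (kids ω) L (v, .hor i) (.up v i), l.Nodup ∧
        ∀ e ∈ l, p < lab ω (e : Edge).1 e.2 := by
  classical
  have hs : Survives ω := survives_of_infinite hu
  have key : ∀ {u : Vert}, (cluster p ω u).Infinite → u.length ≤ R →
      ∃ a b : Vert, a.length = R ∧ b.length = R + L ∧ a ∈ cluster p ω u ∧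
        Relation.ReflTransGen (Step p ω) a b := by
    intro u hu huR
    obtain ⟨b, hb, hb2⟩ := cluster_reaches hu (R := R + L) (by omega)
    obtain ⟨a, ha, ha2, ha3⟩ := reach_through hb huR (by omega)
    exact ⟨a, b, ha, hb2, ha2, ha3⟩
  obtain ⟨a, b, ha, hb, hua, hab⟩ := key hu huR
  obtain ⟨a', b', ha', hb', hwa, hab'⟩ := key hw hwR
  let χ : Vert → Bool := fun x => decide (Conn p ω u x)
  have hχ : ∀ x y, Step p ω x y → χ x = χ y := by
    intro x y hxy
    have : Conn p ω u x ↔ Conn p ω u y :=
      ⟨fun h => h.tail (Or.inl hxy), fun h => h.tail (Or.inr hxy)⟩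
    simp only [χ, this]
  have h1 : χ a = true := by simpa [χ] using conn_of_mem_cluster hua
  have h2 : χ a' = false := by
    simp only [χ, decide_eq_false_iff_not]
    intro h
    exact huw (h.trans (conn_symm (conn_of_mem_cluster hwa)))
  obtain ⟨v, i, hv, hvi, hD⟩ := exists_D1 (R := R) (R' := R + L) hχ hR1 (by omega) ha hb ha' hb'
    (reach_inTree hua (inTree_of_cluster_infinite hu))
    (reach_inTree hwa (inTree_of_cluster_infinite hw)) hab hab' (by rw [h1, h2]; simp)
  obtain ⟨v0, i0, h3, h4, l, hl, hl2, hl3⟩ := exists_path_of_D1 hD (L := L) (by simpa [ht] using hv)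
  refine ⟨v0, i0, h3, h4, l, hl, hl2, fun e he1 => ?_⟩
  by_contra hcon
  push Not at hcon
  have h5 := hl3 e he1
  have h6 := hχ _ _ (step_of_valid hs (h5.valid hR1) hcon)
  have h7 := h5.df_eq
  simp [df, h6] at h7

end CausalPerc
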