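import Pool.Agent.Lib.MP_a51368_pr.Dual2

open MeasureTheory ProbabilityTheory Set Measure

namespace CausalPerc

/-- The law of the labels of all vertices. -/
noncomputable abbrev allLab : Measure (Vert → Slot → unitInterval) :=
  Measure.infinitePi fun _ : Vert => labLaw

theorem allLab_closed {p : ℝ} (h0 : 0 ≤ p) (h1 : p ≤ 1) (l : List Edge) (hl : l.Nodup) :
    allLab {b | ∀ e ∈ l, p < (b (e : Edge).1 e.2 : ℝ)} = ENNReal.ofReal (1 - p) ^ l.length := by
  have hc := Measure.infinitePi_map_curry_symm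
    (fun (_ : Vert) (_ : Slot) => (volume : Measure unitInterval))
  have hset : MeasurableSet (Set.pi (l.toFinset : Set Edge)
      fun _ => {x : unitInterval | p < (x : ℝ)}) :=
    MeasurableSet.pi (Finset.countable_toSet _) fun _ _ => mGt p
  have h2 : {b : Vert → Slot → unitInterval | ∀ e ∈ l, p < (b (e : Edge).1 e.2 : ℝ)} =
      (MeasurableEquiv.curry Vert Slot unitInterval).symm ⁻¹' (Set.pi (l.toFinset : Set Edge)
        fun _ => {x : unitInterval | p < (x : ℝ)}) := by
    ext b
    simp only [mem_ofPred_eq, mem_preimage, Set.mem_pi, List.coe_toFinset]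
    rfl
  rw [h2]
  unfold allLab labLaw
  rw [← Measure.map_apply (MeasurableEquiv.measurable _) hset, hc,
    Measure.infinitePi_pi _ fun _ _ => mGt p]
  simp only [volume_gt h0 h1, Finset.prod_const]
  rw [List.toFinset_card_of_nodup hl]

variable (α : ℝ) [GoodParam α]

/-- Put together a tree and labels. -/
def zip (q : (Vert → ℕ) × (Vert → Slot → unitInterval)) : Conf := fun v => (q.1 v, q.2 v)

theorem measurable_zip : Measurable zip := by
  unfold zip
  fun_prop

theorem map_zip : ((Measure.infinitePi fun _ : Vert => geo α).prod allLab).map zip = law α := by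
  unfold law
  refine Measure.eq_infinitePi (fun _ : Vert => nodeLaw α) fun s t ht => ?_
  have hm : MeasurableSet (Set.pi (s : Set Vert) t) :=
    MeasurableSet.pi s.countable_toSet fun v _ => ht v
  rw [Measure.map_apply measurable_zip hm, Measure.prod_apply (measurable_zip hm)]
  have h1 : ∀ a : Vert → ℕ, allLab (Prod.mk a ⁻¹' (zip ⁻¹' (Set.pi (s : Set Vert) t))) =
      ∏ v ∈ s, labLaw (Prod.mk (a v) ⁻¹' t v) := by
    intro a
    have h2 : Prod.mk a ⁻¹' (zip ⁻¹' (Set.pi (s : Set Vert) t)) =
        Set.pi (s : Set Vert) fun v => Prod.mk (a v) ⁻¹' t v := by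
      ext b
      simp [zip]
    rw [h2, Measure.infinitePi_pi _ fun v _ => measurable_prodMk_left (ht v)]
  simp_rw [h1]
  have hF : ∀ v, Measurable (fun x : ℕ => labLaw (Prod.mk x ⁻¹' t v)) :=
    fun v => Measurable.of_discrete
  have h3 := lintegral_prod_eq_prod_lintegral_of_indepFun s
    (fun (v : Vert) (a : Vert → ℕ) => labLaw (Prod.mk (a v) ⁻¹' t v))
    (iIndepFun_infinitePi (P := fun _ : Vert => geo α)
      (X := fun v (x : ℕ) => labLaw (Prod.mk x ⁻¹' t v)) hF)
    (fun v => (hF v).comp (measurable_pi_apply v))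
  rw [h3]
  refine Finset.prod_congr rfl fun v _ => ?_
  have h4 : ∫⁻ a : Vert → ℕ, labLaw (Prod.mk (a v) ⁻¹' t v) ∂(Measure.infinitePi fun _ => geo α) =
      ∫⁻ x, labLaw (Prod.mk x ⁻¹' t v) ∂(geo α) := by
    conv_rhs => rw [← Measure.infinitePi_map_eval (fun _ : Vert => geo α) v]
    rw [lintegral_map (hF v) (measurable_pi_apply v)]
  rw [h4, nodeLaw, Measure.prod_apply (ht v)]

theorem quenched_bound {p : ℝ} (h0 : 0 ≤ p) (h1 : p ≤ 1) (a : Vert → ℕ) {u w : Vert} {R : ℕ}
    (hR1 : 1 ≤ R) (huR : u.length ≤ R) (hwR : w.length ≤ R) (L : ℕ) :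
    allLab {b | (cluster p (zip (a, b)) u).Infinite ∧ (cluster p (zip (a, b)) w).Infinite ∧
      ¬ Conn p (zip (a, b)) u w} ≤
      ((level a R).length : ENNReal) * ENNReal.ofReal (1 - p) *
        (2 * ENNReal.ofReal (1 - p)) ^ L := by
  have hk : ∀ b, kids (zip (a, b)) = a := fun b => rfl
  set q := ENNReal.ofReal (1 - p) with hq
  have hsub : {b | (cluster p (zip (a, b)) u).Infinite ∧ (cluster p (zip (a, b)) w).Infinite ∧
      ¬ Conn p (zip (a, b)) u w} ⊆ ⋃ x ∈ (level a R).toFinset, ⋃ l ∈
        paths a L (x.tail, .hor (x.headD 0)) (.up x.tail (x.headD 0)),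
        {b : Vert → Slot → unitInterval | l.Nodup ∧ ∀ e ∈ l, p < (b (e : Edge).1 e.2 : ℝ)} := by
    rintro b ⟨h2, h3, h4⟩
    obtain ⟨v, i, h5, h6, l, h7, h8, h9⟩ := exists_closed_path h2 h3 h4 hR1 huR hwR L
    rw [hk] at h5 h7
    simp only [mem_iUnion]
    refine ⟨i :: v, ?_, l, h7, h8, h9⟩
    rw [List.mem_toFinset, mem_level_iff]
    exact ⟨by simpa using h6, h5⟩
  refine (measure_mono hsub).trans ?_
  calc allLab (⋃ x ∈ (level a R).toFinset, ⋃ l ∈
        paths a L (x.tail, .hor (x.headD 0)) (.up x.tail (x.headD 0)),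
        {b : Vert → Slot → unitInterval | l.Nodup ∧ ∀ e ∈ l, p < (b (e : Edge).1 e.2 : ℝ)})
      ≤ ∑ x ∈ (level a R).toFinset, ∑ _l ∈
        paths a L (x.tail, .hor (x.headD 0)) (.up x.tail (x.headD 0)), q ^ (L + 1) := by
        refine (measure_biUnion_finset_le _ _).trans (Finset.sum_le_sum fun x _ => ?_)
        refine (measure_biUnion_finset_le _ _).trans (Finset.sum_le_sum fun l hl => ?_)
        by_cases hn : l.Nodup
        · refine (measure_mono (t := {b : Vert → Slot → unitInterval |
            ∀ e ∈ l, p < (b (e : Edge).1 e.2 : ℝ)}) fun b hb => hb.2).trans ?_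
          rw [allLab_closed h0 h1 l hn, length_of_mem_paths hl]
        · simp [hn]
    _ ≤ ∑ _x ∈ (level a R).toFinset, (2 : ENNReal) ^ L * q ^ (L + 1) := by
        refine Finset.sum_le_sum fun x _ => ?_
        rw [Finset.sum_const, nsmul_eq_mul]
        gcongr
        exact_mod_cast card_paths (t := a) L _ _
    _ ≤ ((level a R).length : ENNReal) * ((2 : ENNReal) ^ L * q ^ (L + 1)) := by
        rw [Finset.sum_const, nsmul_eq_mul]
        gcongr
        exact List.toFinset_card_le _
    _ = _ := by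
        rw [mul_pow, pow_succ]
        ring

theorem quenched_null {p : ℝ} (h0 : 1 / 2 < p) (h1 : p ≤ 1) (a : Vert → ℕ) (u w : Vert) :
    allLab {b | (cluster p (zip (a, b)) u).Infinite ∧ (cluster p (zip (a, b)) w).Infinite ∧
      ¬ Conn p (zip (a, b)) u w} = 0 := by
  set R := max (max u.length w.length) 1 with hR
  have hb := fun L => quenched_bound (by linarith : 0 ≤ p) h1 a (u := u) (w := w) (R := R)
    (le_max_right _ _) ((le_max_left _ _).trans (le_max_left _ _))
    ((le_max_right _ _).trans (le_max_left _ _)) L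
  have hr : 2 * ENNReal.ofReal (1 - p) < 1 := by
    have : (2 : ENNReal) = ENNReal.ofReal 2 := by simp
    rw [this, ← ENNReal.ofReal_mul (by norm_num), ← ENNReal.ofReal_one]
    exact (ENNReal.ofReal_lt_ofReal_iff_of_nonneg (by linarith)).2 (by linarith)
  have h3 := ENNReal.tendsto_pow_atTop_nhds_zero_of_lt_one hr
  have h4 : Filter.Tendsto (fun L => ((level a R).length : ENNReal) * ENNReal.ofReal (1 - p) *
      (2 * ENNReal.ofReal (1 - p)) ^ L) Filter.atTop (nhds 0) := by
    have := ENNReal.Tendsto.const_mul (a := ((level a R).length : ENNReal) * ENNReal.ofReal (1 - p))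
      h3 (Or.inr (ENNReal.mul_ne_top (ENNReal.natCast_ne_top _) ENNReal.ofReal_ne_top))
    simpa using this
  exact le_antisymm (ge_of_tendsto' h4 hb) bot_le

/-- For `p > 1/2` there are almost surely no two infinite clusters in different components. -/
theorem twoInf_null {p : ℝ} (h0 : 1 / 2 < p) (h1 : p ≤ 1) : law α {ω | TwoInf p ω} = 0 := by
  have h2 : {ω | TwoInf p ω} ⊆ ⋃ u : Vert, ⋃ w : Vert,
      ({ω : Conf | (cluster p ω u).Infinite} ∩ ({ω : Conf | (cluster p ω w).Infinite} ∩
        {ω : Conf | Conn p ω u w}ᶜ)) := by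
    rintro ω ⟨u, w, h3, h4, h5⟩
    exact mem_iUnion.2 ⟨u, mem_iUnion.2 ⟨w, h3, h4, h5⟩⟩
  refine measure_mono_null h2 ?_
  rw [measure_iUnion_null_iff]
  intro u
  rw [measure_iUnion_null_iff]
  intro w
  have hm : MeasurableSet ({ω : Conf | (cluster p ω u).Infinite} ∩
      ({ω : Conf | (cluster p ω w).Infinite} ∩ {ω : Conf | Conn p ω u w}ᶜ)) :=
    (measurableSet_cluster_infinite p u).inter ((measurableSet_cluster_infinite p w).inter
      (measurableSet_conn p u w).compl)
  rw [← map_zip, Measure.map_apply measurable_zip hm, Measure.prod_apply (measurable_zip hm)]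
  rw [lintegral_eq_zero_iff (measurable_measure_prodMk_left (measurable_zip hm))]
  refine Filter.Eventually.of_forall fun a => ?_
  exact quenched_null h0 h1 a u w

end CausalPerc
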