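import Pool.Agent.Lib.MP_a51368_pr.Sector2

open MeasureTheory ProbabilityTheory Set Measure

namespace CausalPerc

variable {p : ℝ} {J n m s r : ℕ}

/-! ### Measurability -/

theorem measurableSet_goodIdx (p : ℝ) (J i : ℕ) :
    MeasurableSet {c : Conf | i ∈ selB p J (c []) ∧ coneAt [i] c ∈ survInf (selB p J)} :=
  (measurable_root (measurable_selB p J i)).inter
    (measurable_coneAt [i] (measurableSet_survInf (measurable_selB p J)))

theorem measurable_nextIdx (p : ℝ) (J : ℕ) : Measurable (nextIdx p J) := by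
  refine measurable_to_countable' fun i => ?_
  have h1 : nextIdx p J ⁻¹' {i} =
      ({c : Conf | i ∈ selB p J (c []) ∧ coneAt [i] c ∈ survInf (selB p J)} ∩
        ⋂ j : ℕ, ({_c : Conf | ¬ j < i} ∪
          {c : Conf | j ∈ selB p J (c []) ∧ coneAt [j] c ∈ survInf (selB p J)}ᶜ)) ∪
      ({_c : Conf | i = 0} ∩ ⋂ j : ℕ,
        {c : Conf | j ∈ selB p J (c []) ∧ coneAt [j] c ∈ survInf (selB p J)}ᶜ) := by
    ext c
    simp only [mem_preimage, mem_singleton_iff, mem_union, mem_inter_iff, mem_iInter,
      mem_compl_iff, mem_ofPred_eq]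
    constructor
    · intro h
      by_cases hne : ∃ j, j ∈ selB p J (c []) ∧ coneAt [j] c ∈ survInf (selB p J)
      · left
        have h2 := Nat.sInf_mem
          (s := {j | j ∈ selB p J (c []) ∧ coneAt [j] c ∈ survInf (selB p J)}) hne
        unfold nextIdx at h
        rw [h] at h2
        refine ⟨h2, fun j => ?_⟩
        by_cases hj : j < i
        · right
          intro h3
          have := Nat.sInf_le
            (s := {j | j ∈ selB p J (c []) ∧ coneAt [j] c ∈ survInf (selB p J)}) h3
          omega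
        · exact Or.inl hj
      · right
        push Not at hne
        have h2 : {j | j ∈ selB p J (c []) ∧ coneAt [j] c ∈ survInf (selB p J)} = ∅ := by
          ext j
          simp only [mem_ofPred_eq, mem_empty_iff_false, iff_false, not_and]
          exact hne j
        unfold nextIdx at h
        rw [h2, Nat.sInf_empty] at h
        exact ⟨h.symm, fun j h3 => hne j h3.1 h3.2⟩
    · rintro (⟨h1, h2⟩ | ⟨h1, h2⟩)
      · have h3 := Nat.sInf_le
          (s := {j | j ∈ selB p J (c []) ∧ coneAt [j] c ∈ survInf (selB p J)}) h1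
        have h4 := Nat.sInf_mem
          (s := {j | j ∈ selB p J (c []) ∧ coneAt [j] c ∈ survInf (selB p J)}) ⟨i, h1⟩
        unfold nextIdx
        rcases h2 (sInf {j | j ∈ selB p J (c []) ∧ coneAt [j] c ∈ survInf (selB p J)}) with
          h5 | h5
        · omega
        · exact absurd h4 h5
      · have h3 : {j | j ∈ selB p J (c []) ∧ coneAt [j] c ∈ survInf (selB p J)} = ∅ := by
          ext j
          simp only [mem_ofPred_eq, mem_empty_iff_false, iff_false]
          exact h2 j
        unfold nextIdx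
        rw [h3, Nat.sInf_empty, h1]
  rw [h1]
  refine MeasurableSet.union ?_ ?_
  · refine (measurableSet_goodIdx p J i).inter (MeasurableSet.iInter fun j => ?_)
    exact (MeasurableSet.const _).union (measurableSet_goodIdx p J j).compl
  · exact (MeasurableSet.const _).inter
      (MeasurableSet.iInter fun j => (measurableSet_goodIdx p J j).compl)

theorem measurable_nu (p : ℝ) (J : ℕ) (v : Vert) : Measurable (fun ω => nu p J ω v) :=
  (measurable_nextIdx p J).comp (measurable_coneAt v)

theorem measurableSet_isBar (p : ℝ) (J : ℕ) (v : Vert) :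
    MeasurableSet {ω : Conf | IsBar (nu p J ω) v} := by
  induction v with
  | nil => exact MeasurableSet.empty
  | cons i u ih =>
    have : {ω : Conf | IsBar (nu p J ω) (i :: u)} = {_ω : Conf | u = []} ∪
        ({ω : Conf | IsBar (nu p J ω) u} ∩ {ω : Conf | i = nu p J ω u}) := by
      ext ω
      simp only [mem_ofPred_eq, isBar_cons, mem_union, mem_inter_iff]
    rw [this]
    refine (MeasurableSet.const _).union (ih.inter ?_)
    exact measurable_nu p J u (MeasurableSet.of_discrete (s := {k : ℕ | i = k}))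

theorem measurableSet_rt (p : ℝ) (J : ℕ) (v : Vert) :
    MeasurableSet {ω : Conf | Rt (nu p J ω) v} := by
  induction v with
  | nil => exact MeasurableSet.empty
  | cons i u ih =>
    have : {ω : Conf | Rt (nu p J ω) (i :: u)} = {ω : Conf | Rt (nu p J ω) u} ∪
        ({ω : Conf | IsBar (nu p J ω) u} ∩ {ω : Conf | nu p J ω u < i}) := by
      ext ω
      simp only [mem_ofPred_eq, rt_cons, mem_union, mem_inter_iff]
    rw [this]
    refine ih.union ((measurableSet_isBar p J u).inter ?_)
    exact measurable_nu p J u (MeasurableSet.of_discrete (s := {k : ℕ | k < i}))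

theorem measurableSet_secInf (p : ℝ) (J n s : ℕ) : MeasurableSet {ω : Conf | SecInf p J n s ω} := by
  have : {ω : Conf | SecInf p J n s ω} = ⋃ u : Vert,
      ({_ω : Conf | u ≠ []} ∩ (({_ω : Conf | top u = s} ∩ {ω : Conf | Rt (nu p J ω) u}) ∪
        ({_ω : Conf | top u = (s + 1) % n} ∩ {ω : Conf | Rt (nu p J ω) u}ᶜ))) ∩
        {ω : Conf | (cluster p ω u).Infinite} := by
    ext ω
    simp only [SecInf, InSec, mem_ofPred_eq, mem_iUnion, mem_inter_iff, mem_union, mem_compl_iff]
  rw [this]
  refine MeasurableSet.iUnion fun u => MeasurableSet.inter ((MeasurableSet.const _).inter ?_)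
    (measurableSet_cluster_infinite p u)
  exact ((MeasurableSet.const _).inter (measurableSet_rt p J u)).union
    ((MeasurableSet.const _).inter (measurableSet_rt p J u).compl)

/-! ### The canonical pair configuration -/

/-- The configuration with two closed children of the root carrying the cones `c` and `c'`. -/
def pair (q : Conf × Conf) : Conf := fun v =>
  if v = [] then (2, fun _ => 1) else if top v = 0 then q.1 v.dropLast else q.2 v.dropLast

theorem measurable_pair : Measurable pair := by
  refine measurable_pi_lambda _ fun v => ?_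
  unfold pair
  split_ifs
  · exact measurable_const
  · exact (measurable_node _).comp measurable_fst
  · exact (measurable_node _).comp measurable_snd

theorem top_append (u : Vert) (i : ℕ) : top (u ++ [i]) = i := by
  induction u with
  | nil => rfl
  | cons j u ih => rw [List.cons_append, top_cons (by simp), ih]

theorem coneAt_pair_zero (q : Conf × Conf) : coneAt [0] (pair q) = q.1 := by
  funext u
  simp [coneAt, pair, top_append]

theorem coneAt_pair_one (q : Conf × Conf) : coneAt [1] (pair q) = q.2 := by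
  funext u
  simp [coneAt, pair, top_append]

theorem barConf_pair (hp : p < 1) {q : Conf × Conf} (h1 : q.1 ∈ survInf (selB p J))
    (h2 : q.2 ∈ survInf (selB p J)) : BarConf p J 2 (pair q) where
  hn := le_rfl
  root := by simp [kids, pair]
  closedT := fun s _ => by simp [lab, pair, hp]
  closedH := fun s _ => by simp [lab, pair, hp]
  cone := fun s hs => by
    interval_cases s
    · rw [coneAt_pair_zero]; exact h1
    · rw [coneAt_pair_one]; exact h2

/-- Pairs of barrier cones having an infinite cluster in the sector between them. -/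
def pairX (p : ℝ) (J : ℕ) : Set (Conf × Conf) :=
  {q | (q.1 ∈ survInf (selB p J) ∧ q.2 ∈ survInf (selB p J)) ∧ SecInf p J 2 0 (pair q)}

theorem measurableSet_pairX (p : ℝ) (J : ℕ) : MeasurableSet (pairX p J) := by
  have h := measurableSet_survInf (measurable_selB p J)
  exact ((measurable_fst h).inter (measurable_snd h)).inter
    (measurable_pair (measurableSet_secInf p J 2 0))

theorem BarConf.secInf_iff {ω : Conf} (hp : p < 1) (B : BarConf p J n ω) (hs : s < n) :
    SecInf p J n s ω ↔ (coneAt [s] ω, coneAt [(s + 1) % n] ω) ∈ pairX p J := by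
  have hn := B.hn
  have h1 := B.cone s hs
  have h2 := B.cone ((s + 1) % n) (Nat.mod_lt _ (by omega))
  set q : Conf × Conf := (coneAt [s] ω, coneAt [(s + 1) % n] ω) with hq
  have B' : BarConf p J 2 (pair q) := barConf_pair hp h1 h2
  have e1 : coneAt [s] ω = coneAt [0] (pair q) := by rw [coneAt_pair_zero]
  have e2 : coneAt [(s + 1) % n] ω = coneAt [(0 + 1) % 2] (pair q) := by
    show _ = coneAt [1] (pair q)
    rw [coneAt_pair_one]
  constructor
  · intro h
    exact ⟨⟨h1, h2⟩, transfer_secInf B B' hs (by norm_num) e1 e2 h⟩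
  · intro h
    exact transfer_secInf B' B (by norm_num) hs e1.symm e2.symm h.2

theorem BarConf.survives {ω : Conf} (B : BarConf p J n ω) : Survives ω := by
  have h1 : ∀ r, ∃ v : Vert, v.length = r + 1 ∧ InTree (kids ω) v ∧
      coneAt v ω ∈ survInf (selB p J) := by
    intro r
    induction r with
    | zero =>
      refine ⟨[0], rfl, inTree_cons.2 ⟨inTree_nil, ?_⟩, B.cone 0 (by have := B.hn; omega)⟩
      rw [B.root]; have := B.hn; omega
    | succ r ih =>
      obtain ⟨v, hv1, hv2, hv3⟩ := ih
      obtain ⟨i, hi, h2⟩ := survInf_step hv3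
      rw [coneAt_coneAt] at h2
      have h3 : coneAt v ω [] = ω v := by simp [coneAt]
      rw [h3, mem_selB] at hi
      exact ⟨i :: v, by simp [hv1], inTree_cons.2 ⟨hv2, hi.1.1⟩, h2⟩
  intro r
  cases r with
  | zero => simp [level]
  | succ r =>
    obtain ⟨v, hv1, hv2, _⟩ := h1 r
    intro h0
    have := mem_level_iff.2 ⟨hv1, hv2⟩
    rw [h0] at this
    simp at this

/-! ### Probabilities -/

variable (α : ℝ) [GoodParam α]

/-- Root data with `n` closed children. -/
def rootSet (p : ℝ) (n : ℕ) : Set Node :=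
  {n} ×ˢ {f | ∀ x ∈ (Finset.range n).image Slot.tree ∪ (Finset.range n).image Slot.hor,
    p < (f x : ℝ)}

theorem measurableSet_rootSet (p : ℝ) (n : ℕ) : MeasurableSet (rootSet p n) :=
  (MeasurableSet.of_discrete).prod (measurableSet_closed_slots p _)

theorem rootSet_pos (hp0 : 0 ≤ p) (hp : p < 1) (n : ℕ) : nodeLaw α (rootSet p n) ≠ 0 := by
  unfold rootSet
  rw [nodeLaw, Measure.prod_prod, geo_singleton, labLaw_closed hp0 hp.le]
  apply mul_ne_zero
  · have h0 : 0 < α := GoodParam.pos
    have h1 : α < 1 := GoodParam.lt_one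
    rw [Ne, ENNReal.ofReal_eq_zero, not_le]
    exact mul_pos (pow_pos h0 _) (by linarith)
  · apply pow_ne_zero
    rw [Ne, ENNReal.ofReal_eq_zero, not_le]
    linarith

theorem barConf_iff (hn : 2 ≤ n) (ω : Conf) : BarConf p J n ω ↔
    ω [] ∈ rootSet p n ∧ ∀ s < n, cones ω s ∈ survInf (selB p J) := by
  constructor
  · intro B
    refine ⟨⟨B.root, ?_⟩, B.cone⟩
    intro x hx
    simp only [Finset.mem_union, Finset.mem_image, Finset.mem_range] at hx
    rcases hx with ⟨a, ha, rfl⟩ | ⟨a, ha, rfl⟩
    · exact B.closedT a ha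
    · exact B.closedH a ha
  · rintro ⟨⟨h1, h2⟩, h3⟩
    refine ⟨hn, h1, fun s hs => h2 _ ?_, fun s hs => h2 _ ?_, h3⟩
    · simp [hs]
    · simp [hs]

/-- The product law of the first generation cones. -/
noncomputable abbrev conesLaw : Measure (ℕ → Conf) := Measure.infinitePi fun _ : ℕ => law α

theorem law_root_cones {A : Set Node} {C : Set (ℕ → Conf)} (hA : MeasurableSet A)
    (hC : MeasurableSet C) :
    law α {ω | ω [] ∈ A ∧ cones ω ∈ C} = nodeLaw α A * conesLaw α C := by
  have h1 : {ω : Conf | ω [] ∈ A ∧ cones ω ∈ C} = (fun ω => (ω [], cones ω)) ⁻¹' (A ×ˢ C) := rfl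
  rw [h1, ← Measure.map_apply measurable_split (hA.prod hC), map_split, Measure.prod_prod]

theorem conesLaw_pair {X : Set (Conf × Conf)} (hX : MeasurableSet X) {i j : ℕ} (hij : i ≠ j) :
    conesLaw α {c | (c i, c j) ∈ X} = (law α).prod (law α) X := by
  rw [← Measure.infinitePi_map_eval_prod (P := fun _ : ℕ => law α) hij,
    Measure.map_apply (by fun_prop) hX]
  rfl

theorem conesLaw_triple {X : Set (Conf × Conf)} (hX : MeasurableSet X) {Q : Set Conf}
    (hQ : MeasurableSet Q) {i j k : ℕ} (hij : i ≠ j) (hik : i ≠ k) (hjk : j ≠ k) :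
    conesLaw α {c | (c i, c j) ∈ X ∧ c k ∈ Q} = (law α).prod (law α) X * law α Q := by
  have h1 : iIndepFun (fun (i : ℕ) (c : ℕ → Conf) => c i) (conesLaw α) :=
    iIndepFun_infinitePi (P := fun _ : ℕ => law α) (X := fun _ x => x) (fun _ => measurable_id)
  have h2 := h1.indepFun_prodMk (fun i => measurable_pi_apply i) i j k hik hjk
  have h3 := h2.measure_inter_preimage_eq_mul X Q hX hQ
  have h4 : (conesLaw α) ((fun c : ℕ → Conf => c k) ⁻¹' Q) = law α Q := by
    rw [← Measure.map_apply (measurable_pi_apply k) hQ]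
    congr 1
    exact Measure.infinitePi_map_eval (fun _ : ℕ => law α) k
  rw [← conesLaw_pair α hX hij, ← h4]
  exact h3

/-- If barriers exist with positive probability, then with positive probability the number of
infinite clusters is not one. -/
theorem barrier_nonunique (hp0 : 0 ≤ p) (hp : p < 1) (hβ : 0 < law α (survInf (selB p J))) :
    law α {ω | Survives ω ∧ ¬ (HasInf p ω ∧ ¬ TwoInf p ω)} ≠ 0 := by
  intro hnull
  set Q := survInf (selB p J) with hQdef
  have hQ : MeasurableSet Q := measurableSet_survInf (measurable_selB p J)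
  set κ := (law α).prod (law α) (pairX p J) with hκ
  set β := law α Q with hβdef
  -- the key identity
  have key : ∀ n, 2 ≤ n → conesLaw α {c | ∀ s < n, c s ∈ Q} =
      ∑ s ∈ Finset.range n,
        conesLaw α {c | (∀ s < n, c s ∈ Q) ∧ (c s, c ((s + 1) % n)) ∈ pairX p J} := by
    intro n hn
    have hC0 : MeasurableSet {c : ℕ → Conf | ∀ s < n, c s ∈ Q} := by
      have : {c : ℕ → Conf | ∀ s < n, c s ∈ Q} = ⋂ s ∈ Finset.range n, (fun c => c s) ⁻¹' Q := by
        ext c; simp
      rw [this]
      exact Finset.measurableSet_biInter _ fun s _ => measurable_pi_apply s hQ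
    have hC1 : ∀ s, MeasurableSet {c : ℕ → Conf | (∀ s < n, c s ∈ Q) ∧
        (c s, c ((s + 1) % n)) ∈ pairX p J} := by
      intro s
      have hm : Measurable (fun c : ℕ → Conf => (c s, c ((s + 1) % n))) := by fun_prop
      exact hC0.inter (hm (measurableSet_pairX p J))
    have hG : ∀ C : Set (ℕ → Conf), MeasurableSet C →
        law α {ω | ω [] ∈ rootSet p n ∧ cones ω ∈ C} = nodeLaw α (rootSet p n) * conesLaw α C :=
      fun C hC => law_root_cones α (measurableSet_rootSet p n) hC
    have e1 : law α {ω | ω [] ∈ rootSet p n ∧ cones ω ∈ {c : ℕ → Conf | ∀ s < n, c s ∈ Q}} =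
        ∑ s ∈ Finset.range n, law α {ω | ω [] ∈ rootSet p n ∧
          cones ω ∈ {c : ℕ → Conf | (∀ s < n, c s ∈ Q) ∧ (c s, c ((s + 1) % n)) ∈ pairX p J}} := by
      have hbar : ∀ ω : Conf, ω ∈ {ω : Conf | ω [] ∈ rootSet p n ∧
          cones ω ∈ {c : ℕ → Conf | ∀ s < n, c s ∈ Q}} ↔ BarConf p J n ω := fun ω =>
        (barConf_iff hn ω).symm
      have hsec : ∀ s < n, ∀ ω : Conf, ω ∈ {ω : Conf | ω [] ∈ rootSet p n ∧
          cones ω ∈ {c : ℕ → Conf | (∀ s < n, c s ∈ Q) ∧
            (c s, c ((s + 1) % n)) ∈ pairX p J}} ↔ BarConf p J n ω ∧ SecInf p J n s ω := by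
        intro s hs ω
        constructor
        · rintro ⟨h1, h2, h3⟩
          have B := (barConf_iff hn ω).2 ⟨h1, h2⟩
          exact ⟨B, (B.secInf_iff hp hs).2 h3⟩
        · rintro ⟨B, h⟩
          have := (barConf_iff hn ω).1 B
          exact ⟨this.1, this.2, (B.secInf_iff hp hs).1 h⟩
      rw [← measure_biUnion_finset₀]
      · apply le_antisymm
        · have hsub : {ω : Conf | ω [] ∈ rootSet p n ∧
              cones ω ∈ {c : ℕ → Conf | ∀ s < n, c s ∈ Q}} ⊆
              (⋃ s ∈ Finset.range n, {ω : Conf | ω [] ∈ rootSet p n ∧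
                cones ω ∈ {c : ℕ → Conf | (∀ s < n, c s ∈ Q) ∧
                  (c s, c ((s + 1) % n)) ∈ pairX p J}}) ∪
              {ω | Survives ω ∧ ¬ (HasInf p ω ∧ ¬ TwoInf p ω)} := by
            intro ω hω
            have B := (hbar ω).1 hω
            by_cases hcase : HasInf p ω ∧ ¬ TwoInf p ω
            · left
              obtain ⟨s, hs, h1⟩ := B.exists_secInf hcase.1
              simp only [mem_iUnion]
              exact ⟨s, Finset.mem_range.2 hs, (hsec s hs ω).2 ⟨B, h1⟩⟩
            · right
              exact ⟨B.survives, hcase⟩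
          calc _ ≤ _ := measure_mono hsub
            _ ≤ _ := measure_union_le _ _
            _ = _ := by rw [hnull, add_zero]
        · apply measure_mono
          intro ω hω
          simp only [mem_iUnion] at hω
          obtain ⟨s, hs, h1⟩ := hω
          exact (hbar ω).2 ((hsec s (Finset.mem_range.1 hs) ω).1 h1).1
      · intro a ha b hb hab
        have ha' := Finset.mem_range.1 (Finset.mem_coe.1 ha)
        have hb' := Finset.mem_range.1 (Finset.mem_coe.1 hb)
        refine measure_mono_null ?_ hnull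
        rintro ω ⟨h1, h2⟩
        have h3 := (hsec a ha' ω).1 h1
        have h4 := (hsec b hb' ω).1 h2
        refine ⟨h3.1.survives, fun h5 => h5.2 ?_⟩
        exact h3.1.twoInf ha' hb' hab h3.2 h4.2
      · intro s _
        refine MeasurableSet.nullMeasurableSet ?_
        exact measurable_split ((measurableSet_rootSet p n).prod (hC1 s))
    rw [hG _ hC0] at e1
    simp_rw [hG _ (hC1 _)] at e1
    rw [← Finset.mul_sum] at e1
    exact (ENNReal.mul_right_inj (rootSet_pos α hp0 hp n) (measure_ne_top _ _)).1 e1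
  have hβ2 : conesLaw α {c | ∀ s < 2, c s ∈ Q} = β ^ 2 := by
    have : {c : ℕ → Conf | ∀ s < 2, c s ∈ Q} =
        Set.pi (Finset.range 2 : Set ℕ) fun _ => Q := by
      ext c; simp
    rw [this, Measure.infinitePi_pi _ fun _ _ => hQ]
    simp [hβdef]
  have hβ3 : conesLaw α {c | ∀ s < 3, c s ∈ Q} = β ^ 3 := by
    have : {c : ℕ → Conf | ∀ s < 3, c s ∈ Q} =
        Set.pi (Finset.range 3 : Set ℕ) fun _ => Q := by
      ext c; simp
    rw [this, Measure.infinitePi_pi _ fun _ _ => hQ]
    simp [hβdef]
  have hX := measurableSet_pairX p J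
  have k2 : ∀ s < 2, conesLaw α {c | (∀ s < 2, c s ∈ Q) ∧ (c s, c ((s + 1) % 2)) ∈ pairX p J} =
      κ := by
    intro s hs
    have hne : s ≠ (s + 1) % 2 := by omega
    rw [hκ, ← conesLaw_pair α hX hne]
    congr 1
    ext c
    constructor
    · exact fun h => h.2
    · intro h
      refine ⟨fun s' hs' => ?_, h⟩
      have h1 : c s ∈ Q := h.1.1
      have h2 : c ((s + 1) % 2) ∈ Q := h.1.2
      by_cases e : s' = s
      · rw [e]; exact h1
      · have : s' = (s + 1) % 2 := by omega
        rw [this]; exact h2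
  have k3 : ∀ s < 3, conesLaw α {c | (∀ s < 3, c s ∈ Q) ∧ (c s, c ((s + 1) % 3)) ∈ pairX p J} =
      κ * β := by
    intro s hs
    rw [hκ, hβdef, ← conesLaw_triple α hX hQ (i := s) (j := (s + 1) % 3) (k := (s + 2) % 3)
      (by omega) (by omega) (by omega)]
    congr 1
    ext c
    constructor
    · exact fun h => ⟨h.2, h.1 _ (by omega)⟩
    · rintro ⟨h, h3⟩
      refine ⟨fun s' hs' => ?_, h⟩
      have h1 : c s ∈ Q := h.1.1
      have h2 : c ((s + 1) % 3) ∈ Q := h.1.2
      by_cases e : s' = s
      · rw [e]; exact h1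
      · by_cases e' : s' = (s + 1) % 3
        · rw [e']; exact h2
        · have : s' = (s + 2) % 3 := by omega
          rw [this]; exact h3
  have E2 := key 2 le_rfl
  have E3 := key 3 (by norm_num)
  rw [hβ2, Finset.sum_congr rfl fun s hs => k2 s (Finset.mem_range.1 hs)] at E2
  rw [hβ3, Finset.sum_congr rfl fun s hs => k3 s (Finset.mem_range.1 hs)] at E3
  simp only [Finset.sum_const, Finset.card_range, nsmul_eq_mul] at E2 E3
  have hβt : β ≠ ⊤ := measure_ne_top _ _
  have hκt : κ ≠ ⊤ := measure_ne_top _ _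
  have hβ0 : β ≠ 0 := hβ.ne'
  have E4 : β ^ 2 = 3 * κ := by
    have : β ^ 2 * β = (3 * κ) * β := by
      rw [← pow_succ]
      rw [E3]
      push_cast
      ring
    exact (ENNReal.mul_left_inj hβ0 hβt).1 this
  rw [E2] at E4
  have E5 : κ = 0 := by
    have h1 : (2 : ENNReal) * κ + 0 = 2 * κ + κ := by
      rw [add_zero]
      calc (2 : ENNReal) * κ = 3 * κ := by simpa using E4
        _ = 2 * κ + κ := by ring
    exact ((ENNReal.add_right_inj (ENNReal.mul_ne_top (by norm_num) hκt)).1 h1).symm
  rw [E5] at E2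
  simp at E2
  exact hβ0 E2

end CausalPerc
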