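import Pool.Agent.Lib.MP_a51368_pr.Dual3
import Pool.Agent.Lib.MP_a51368_pr.Sector3

open MeasureTheory ProbabilityTheory Set Measure

namespace CausalPerc

variable (α : ℝ) [GoodParam α]

/-- The bad event for uniqueness. -/
def notOne (p : ℝ) : Set Conf := {ω | Survives ω ∧ ¬ (HasInf p ω ∧ ¬ TwoInf p ω)}

theorem condLaw_isProb (h : 0 < law α {ω | Survives ω}) : IsProbabilityMeasure (condLaw α) := by
  unfold condLaw
  exact ProbabilityTheory.cond_isProbabilityMeasure h.ne'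

theorem condLaw_eq_one_iff (h : 0 < law α {ω | Survives ω}) (p : ℝ) :
    condLaw α {ω | numInf p ω = 1} = 1 ↔ law α (notOne p) = 0 := by
  have := condLaw_isProb α h
  rw [← prob_compl_eq_zero_iff (measurableSet_numInf p)]
  unfold condLaw
  rw [ProbabilityTheory.cond_apply measurableSet_survives]
  have h1 : {ω | Survives ω} ∩ {ω | numInf p ω = 1}ᶜ = notOne p := by
    ext ω
    simp only [notOne, mem_inter_iff, mem_ofPred_eq, mem_compl_iff, numInf_eq_one_iff]
  rw [h1, mul_eq_zero]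
  constructor
  · rintro (h2 | h2)
    · exact absurd h2 (ENNReal.inv_ne_zero.2 (measure_ne_top _ _))
    · exact h2
  · exact Or.inr

theorem condLaw_lt_one_iff (h : 0 < law α {ω | Survives ω}) (p : ℝ) :
    condLaw α {ω | numInf p ω = 1} < 1 ↔ law α (notOne p) ≠ 0 := by
  have := condLaw_isProb α h
  rw [← not_iff_not, not_lt, not_not, ← condLaw_eq_one_iff α h]
  exact ⟨fun h1 => le_antisymm prob_le_one h1, fun h1 => h1.ge⟩

theorem notOne_null_of_gt {p : ℝ} (h0 : 1 / 2 < p) (h1 : p ≤ 1) {Q : Set Conf}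
    (hQ : GoodCone α p Q) : law α (notOne p) = 0 := by
  refine measure_mono_null (t := {ω | Survives ω ∧ ¬ HasInf p ω} ∪ {ω | TwoInf p ω}) ?_ ?_
  · rintro ω ⟨h2, h3⟩
    by_cases h4 : HasInf p ω
    · right
      by_contra h5
      exact h3 ⟨h4, h5⟩
    · exact Or.inl ⟨h2, h4⟩
  · rw [measure_union_null_iff]
    exact ⟨hasInf_ae α hQ, twoInf_null α h0 h1⟩

theorem notOne_mono {p p' : ℝ} (hp : p ≤ p') {Q Q' : Set Conf} (hQ : GoodCone α p Q)
    (hQ' : GoodCone α p' Q') (h : law α (notOne p') ≠ 0) : law α (notOne p) ≠ 0 := by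
  intro hcon
  apply h
  refine measure_mono_null (t := {ω | Survives ω ∧ ¬ HasInf p' ω} ∪
    ({ω | TwoInf p' ω ∧ ¬ TwoInf p ω} ∪ notOne p)) ?_ ?_
  · rintro ω ⟨h2, h3⟩
    by_cases h4 : HasInf p' ω
    · right
      have h5 : TwoInf p' ω := by
        by_contra h5
        exact h3 ⟨h4, h5⟩
      by_cases h6 : TwoInf p ω
      · right
        exact ⟨h2, fun h7 => h7.2 h6⟩
      · exact Or.inl ⟨h5, h6⟩
    · exact Or.inl ⟨h2, h4⟩
  · rw [measure_union_null_iff, measure_union_null_iff]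
    exact ⟨hasInf_ae α hQ', twoInf_mono α hp hQ, hcon⟩

/-- The abstract form of the main theorem: cone percolation above `b`, barriers below `c`. -/
theorem main_abstract {b c : ℝ} (hb0 : 0 ≤ b) (hbc : b < c) (hc1 : c ≤ 1) (hb : b < 1 / 2)
    (hgood : ∀ p, b < p → p ≤ 1 → ∃ Q, GoodCone α p Q)
    (hbar : ∀ p, 0 ≤ p → p < c → ∃ J, 0 < law α (survInf (selB p J))) :
    ∃ pu : ℝ, pc α < pu ∧ c ≤ pu ∧ pu ≤ 1 / 2 ∧
      (∀ p, pu < p → p < 1 → condLaw α {ω | numInf p ω = 1} = 1) ∧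
      (∀ p, pc α < p → p < pu → condLaw α {ω | numInf p ω = 1} < 1) := by
  obtain ⟨Q1, hQ1⟩ := hgood 1 (by linarith) le_rfl
  have hs := law_survives_pos α hQ1
  set S : Set ℝ := {p | 0 ≤ p ∧ p ≤ 1 ∧ law α (notOne p) ≠ 0} with hS
  have hSbound : ∀ p ∈ S, p ≤ 1 / 2 := by
    rintro p ⟨_, h1, h2⟩
    by_contra hcon
    push Not at hcon
    obtain ⟨Q, hQ⟩ := hgood p (by linarith) h1
    exact h2 (notOne_null_of_gt α hcon h1 hQ)
  have hSb : BddAbove S := ⟨1 / 2, hSbound⟩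
  have hSc : ∀ p, 0 ≤ p → p < c → p ∈ S := by
    intro p h0 h1
    obtain ⟨J, hJ⟩ := hbar p h0 h1
    exact ⟨h0, by linarith, barrier_nonunique α h0 (by linarith) hJ⟩
  have hSne : S.Nonempty := ⟨0, hSc 0 le_rfl (by linarith)⟩
  have hpc : pc α ≤ b := pc_le α hb0 hgood
  have hpc0 : 0 ≤ pc α := Real.sSup_nonneg fun x hx => hx.1
  have hcS : c ≤ sSup S := by
    apply le_of_forall_lt
    intro x hx
    by_cases hx0 : 0 ≤ x
    · obtain ⟨y, hy1, hy2⟩ := exists_between hx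
      exact lt_of_lt_of_le hy1 (le_csSup hSb (hSc y (by linarith) hy2))
    · exact lt_of_lt_of_le (not_le.1 hx0) (le_csSup hSb (hSc 0 le_rfl (by linarith)))
  refine ⟨sSup S, by linarith, hcS, csSup_le hSne hSbound, ?_, ?_⟩
  · intro p h1 h2
    rw [condLaw_eq_one_iff α hs]
    by_contra hcon
    have : p ∈ S := ⟨by linarith, h2.le, hcon⟩
    exact absurd (le_csSup hSb this) (not_le.2 h1)
  · intro p h1 h2
    rw [condLaw_lt_one_iff α hs]
    by_cases hpc2 : p < c
    · exact (hSc p (by linarith) hpc2).2.2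
    · push Not at hpc2
      obtain ⟨p', hp', hpp'⟩ := exists_lt_of_lt_csSup hSne h2
      obtain ⟨Q, hQ⟩ := hgood p (by linarith) (by have := hSbound p' hp'; linarith)
      obtain ⟨Q', hQ'⟩ := hgood p' (by linarith) hp'.2.1
      exact notOne_mono α hpp'.le hQ hQ' hp'.2.2

end CausalPerc
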