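import Pool.Agent.Lib.MP_a51368_pr.RuleB

open MeasureTheory ProbabilityTheory Set Measure

namespace CausalPerc

variable (α : ℝ) [GoodParam α]

omit [GoodParam α] in
theorem nodeLaw_diff {A B : Set Node} (hB : MeasurableSet B) {x y : ℝ} (hy : 0 ≤ y)
    (hA : nodeLaw α A = ENNReal.ofReal x) (hAB : nodeLaw α (A ∩ B) = ENNReal.ofReal y) :
    nodeLaw α (A \ B) = ENNReal.ofReal (x - y) := by
  have h := measure_inter_add_sdiff (μ := nodeLaw α) A hB
  rw [hA, hAB] at h
  rw [ENNReal.ofReal_sub x hy, ← h]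
  rw [ENNReal.add_sub_cancel_left ENNReal.ofReal_ne_top]

theorem selL_zero (p : ℝ) (m : Bool) : {x : Node | SelL p m x 0} = ∅ := by
  ext x
  simp [SelL]

/-- The real value of the contribution of child `i` for a parent in left mode. -/
noncomputable def tF (α p y : ℝ) : ℕ → ℝ
  | 0 => y * (α * (1 - p) ^ 2)
  | i + 1 => (α * (1 - p)) ^ (i + 2) * (1 + y * ((1 - p) - (1 - p) ^ 2))

/-- The real value of the contribution of child `i` for a parent in right mode. -/
noncomputable def tT (α p y : ℝ) : ℕ → ℝ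
  | 0 => y * (α * (1 - α) * (1 - p) ^ 2 / (1 - α * (1 - p)))
  | i + 1 => α ^ i * (α ^ 2 * (1 - α) / (1 - α * (1 - p)) *
      ((1 - p) ^ 3 + y * ((1 - p) ^ 2 - (1 - p) ^ 4)))

theorem term_false {p y : ℝ} (h0 : 0 ≤ p) (h1 : p ≤ 1) (hy : 0 ≤ y) (i : ℕ) :
    nodeLaw α {x : Node | SelL p false x i} + ENNReal.ofReal y *
      nodeLaw α ({x : Node | Cut p false x i} \ {x : Node | SelL p false x i}) =
      ENNReal.ofReal (tF α p y i) := by
  have ha0 : 0 ≤ α := (GoodParam.pos (α := α)).le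
  have ha1 : α < 1 := GoodParam.lt_one
  have hq : 0 ≤ 1 - p := by linarith
  have hq1 : 1 - p ≤ 1 := by linarith
  cases i with
  | zero =>
    rw [selL_zero, measure_empty, zero_add, Set.sdiff_empty, cut_set,
      nodeLaw_box_const α h0 h1 0 2 _ (fun k _ => cutSlots_false 0 k),
      ← ENNReal.ofReal_mul hy]
    simp [tF]
  | succ i =>
    have e1 : nodeLaw α {x : Node | SelL p false x (i + 1)} =
        ENNReal.ofReal (α ^ (i + 2) * (1 - p) ^ (i + 2)) := by
      rw [selL_set p false (Nat.succ_pos i),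
        nodeLaw_box_const α h0 h1 (i + 1) (i + 2) _ (fun k _ => slotsX_false k)]
    have e2 : nodeLaw α {x : Node | Cut p false x (i + 1)} =
        ENNReal.ofReal (α ^ (i + 2) * (1 - p) ^ (i + 3)) := by
      rw [cut_set,
        nodeLaw_box_const α h0 h1 (i + 1) (i + 3) _ (fun k _ => cutSlots_false (i + 1) k)]
    have e3 : nodeLaw α ({x : Node | Cut p false x (i + 1)} ∩
        {x : Node | SelL p false x (i + 1)}) =
        ENNReal.ofReal (α ^ (i + 2) * (1 - p) ^ (i + 4)) := by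
      rw [selL_cut_set p false (Nat.succ_pos i),
        nodeLaw_box_const α h0 h1 (i + 1) (i + 4) _
          (fun k _ => slotsZ_false (Nat.succ_pos i) k)]
    have e4 := nodeLaw_diff α (measurableSet_selL p false (i + 1))
      (mul_nonneg (pow_nonneg ha0 _) (pow_nonneg hq _)) e2 e3
    rw [e1, e4, ← ENNReal.ofReal_mul hy, ← ENNReal.ofReal_add]
    · congr 1
      simp only [tF]
      rw [mul_pow]
      ring
    · exact mul_nonneg (pow_nonneg ha0 _) (pow_nonneg hq _)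
    · refine mul_nonneg hy ?_
      have : α ^ (i + 2) * (1 - p) ^ (i + 3) - α ^ (i + 2) * (1 - p) ^ (i + 4) =
          α ^ (i + 2) * (1 - p) ^ (i + 3) * p := by ring
      rw [this]
      exact mul_nonneg (mul_nonneg (pow_nonneg ha0 _) (pow_nonneg hq _)) h0

theorem term_true {p y : ℝ} (h0 : 0 ≤ p) (h1 : p ≤ 1) (hy : 0 ≤ y) (i : ℕ) :
    nodeLaw α {x : Node | SelL p true x i} + ENNReal.ofReal y *
      nodeLaw α ({x : Node | Cut p true x i} \ {x : Node | SelL p true x i}) =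
      ENNReal.ofReal (tT α p y i) := by
  have ha0 : 0 ≤ α := (GoodParam.pos (α := α)).le
  have ha1 : α < 1 := GoodParam.lt_one
  have hq : 0 ≤ 1 - p := by linarith
  have hq1 : 1 - p ≤ 1 := by linarith
  have hr1 : 0 < 1 - α * (1 - p) := by nlinarith
  have ha2 : 0 ≤ 1 - α := by linarith
  cases i with
  | zero =>
    rw [selL_zero, measure_empty, zero_add, Set.sdiff_empty, cut_set,
      nodeLaw_box_lin α h0 h1 0 2 _ (fun k hk => cutSlots_true hk),
      ← ENNReal.ofReal_mul hy]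
    simp [tT]
  | succ i =>
    have e1 : nodeLaw α {x : Node | SelL p true x (i + 1)} =
        ENNReal.ofReal (α ^ (i + 2) * (1 - α) * (1 - p) ^ 3 / (1 - α * (1 - p))) := by
      rw [selL_set p true (Nat.succ_pos i),
        nodeLaw_box_lin α h0 h1 (i + 1) 3 _ (fun k hk => slotsX_true hk)]
    have e2 : nodeLaw α {x : Node | Cut p true x (i + 1)} =
        ENNReal.ofReal (α ^ (i + 2) * (1 - α) * (1 - p) ^ 2 / (1 - α * (1 - p))) := by
      rw [cut_set,
        nodeLaw_box_lin α h0 h1 (i + 1) 2 _ (fun k hk => cutSlots_true hk)]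
    have e3 : nodeLaw α ({x : Node | Cut p true x (i + 1)} ∩
        {x : Node | SelL p true x (i + 1)}) =
        ENNReal.ofReal (α ^ (i + 2) * (1 - α) * (1 - p) ^ 4 / (1 - α * (1 - p))) := by
      rw [selL_cut_set p true (Nat.succ_pos i),
        nodeLaw_box_lin α h0 h1 (i + 1) 4 _ (fun k hk => slotsZ_true (Nat.succ_pos i) hk)]
    have hnn : ∀ c, 0 ≤ α ^ (i + 2) * (1 - α) * (1 - p) ^ c / (1 - α * (1 - p)) := fun c =>
      div_nonneg (mul_nonneg (mul_nonneg (pow_nonneg ha0 _) ha2) (pow_nonneg hq _)) hr1.le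
    have e4 := nodeLaw_diff α (measurableSet_selL p true (i + 1)) (hnn 4) e2 e3
    rw [e1, e4, ← ENNReal.ofReal_mul hy, ← ENNReal.ofReal_add (hnn 3)]
    · congr 1
      simp only [tT]
      ring
    · refine mul_nonneg hy ?_
      have : α ^ (i + 2) * (1 - α) * (1 - p) ^ 2 / (1 - α * (1 - p)) -
          α ^ (i + 2) * (1 - α) * (1 - p) ^ 4 / (1 - α * (1 - p)) =
          α ^ (i + 2) * (1 - α) * (1 - p) ^ 2 / (1 - α * (1 - p)) * (1 - (1 - p) ^ 2) := by ring
      rw [this]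
      exact mul_nonneg (hnn 2) (by nlinarith)

theorem hasSum_tF {p y : ℝ} (h0 : 0 ≤ p) (h1 : p ≤ 1) :
    HasSum (tF α p y) (((α * (1 - p)) ^ 2 + y * ((1 - p) * (α * (1 - p)) *
      (1 - (1 - p) * (α * (1 - p))))) / (1 - α * (1 - p))) := by
  have ha0 : 0 ≤ α := (GoodParam.pos (α := α)).le
  have ha1 : α < 1 := GoodParam.lt_one
  have hq : 0 ≤ 1 - p := by linarith
  have hr1 : 0 < 1 - α * (1 - p) := by nlinarith
  have hr0 : 0 ≤ α * (1 - p) := mul_nonneg ha0 hq
  have h2 := (hasSum_geometric_of_lt_one hr0 (by linarith)).mul_left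
    ((α * (1 - p)) ^ 2 * (1 + y * ((1 - p) - (1 - p) ^ 2)))
  have h3 : HasSum (fun i => tF α p y (i + 1))
      ((α * (1 - p)) ^ 2 * (1 + y * ((1 - p) - (1 - p) ^ 2)) * (1 - α * (1 - p))⁻¹) := by
    refine h2.congr_fun ?_ |> fun h => h
    intro i
    simp only [tF]
    ring
  have h4 := (hasSum_nat_add_iff 1).1 h3
  simp only [Finset.range_one, Finset.sum_singleton] at h4
  have e0 : tF α p y 0 = y * (α * (1 - p) ^ 2) := rfl
  rw [e0] at h4
  have h7 : ((α * (1 - p)) ^ 2 + y * ((1 - p) * (α * (1 - p)) *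
      (1 - (1 - p) * (α * (1 - p))))) / (1 - α * (1 - p)) =
      (α * (1 - p)) ^ 2 * (1 + y * ((1 - p) - (1 - p) ^ 2)) * (1 - α * (1 - p))⁻¹ +
        y * (α * (1 - p) ^ 2) := by
    rw [div_eq_mul_inv]
    have h5 : y * (α * (1 - p) ^ 2) =
        y * (α * (1 - p) ^ 2) * (1 - α * (1 - p)) * (1 - α * (1 - p))⁻¹ := by
      rw [mul_assoc, mul_inv_cancel₀ hr1.ne', mul_one]
    rw [h5]
    ring
  rw [h7]
  exact h4

theorem hasSum_tT {p y : ℝ} (h0 : 0 ≤ p) (h1 : p ≤ 1) :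
    HasSum (tT α p y) (((1 - p) * (α * (1 - p)) ^ 2 + y * ((1 - p) * (α * (1 - p)) *
      (1 - (1 - p) * (α * (1 - p))))) / (1 - α * (1 - p))) := by
  have ha0 : 0 ≤ α := (GoodParam.pos (α := α)).le
  have ha1 : α < 1 := GoodParam.lt_one
  have hq : 0 ≤ 1 - p := by linarith
  have hr1 : 0 < 1 - α * (1 - p) := by nlinarith
  have h2 := (hasSum_geometric_of_lt_one ha0 ha1).mul_left
    (α ^ 2 * (1 - α) / (1 - α * (1 - p)) * ((1 - p) ^ 3 + y * ((1 - p) ^ 2 - (1 - p) ^ 4)))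
  have h3 : HasSum (fun i => tT α p y (i + 1))
      (α ^ 2 * (1 - α) / (1 - α * (1 - p)) * ((1 - p) ^ 3 + y * ((1 - p) ^ 2 - (1 - p) ^ 4)) *
        (1 - α)⁻¹) := by
    refine h2.congr_fun ?_ |> fun h => h
    intro i
    simp only [tT]
    ring
  have h4 := (hasSum_nat_add_iff 1).1 h3
  simp only [Finset.range_one, Finset.sum_singleton] at h4
  have e0 : tT α p y 0 = y * (α * (1 - α) * (1 - p) ^ 2 / (1 - α * (1 - p))) := rfl
  rw [e0] at h4
  have h5 : (1 - α) * (1 - α)⁻¹ = 1 := mul_inv_cancel₀ (by linarith)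
  have h6 : α ^ 2 * (1 - α) / (1 - α * (1 - p)) * ((1 - p) ^ 3 + y * ((1 - p) ^ 2 - (1 - p) ^ 4)) *
        (1 - α)⁻¹ = α ^ 2 / (1 - α * (1 - p)) * ((1 - p) ^ 3 + y * ((1 - p) ^ 2 - (1 - p) ^ 4)) *
        ((1 - α) * (1 - α)⁻¹) := by ring
  rw [h6, h5] at h4
  have h7 : ((1 - p) * (α * (1 - p)) ^ 2 + y * ((1 - p) * (α * (1 - p)) *
      (1 - (1 - p) * (α * (1 - p))))) / (1 - α * (1 - p)) =
      α ^ 2 / (1 - α * (1 - p)) * ((1 - p) ^ 3 + y * ((1 - p) ^ 2 - (1 - p) ^ 4)) * 1 +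
        y * (α * (1 - α) * (1 - p) ^ 2 / (1 - α * (1 - p))) := by ring
  rw [h7]
  exact h4

theorem ab_pos {p y : ℝ} (h0 : 0 ≤ p) (h1 : p ≤ 1) (hy0 : 0 < y) (hy1 : y ≤ 1)
    (hF : 1 - α * (1 - p) < (α * (1 - p)) ^ 2 + y * ((1 - p) * (α * (1 - p)) *
      (1 - (1 - p) * (α * (1 - p)))))
    (hT : y * (1 - α * (1 - p)) < (1 - p) * (α * (1 - p)) ^ 2 + y * ((1 - p) * (α * (1 - p)) *
      (1 - (1 - p) * (α * (1 - p))))) (m : Bool) :
    0 < law α (psurvInf p m) := by
  have ha0 : 0 ≤ α := (GoodParam.pos (α := α)).le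
  have ha1 : α < 1 := GoodParam.lt_one
  have hq : 0 ≤ 1 - p := by linarith
  have hr1 : 0 < 1 - α * (1 - p) := by nlinarith
  have hr0 : 0 ≤ α * (1 - p) := mul_nonneg ha0 hq
  have htF : ∀ i, 0 ≤ tF α p y i := by
    intro i
    cases i with
    | zero => simp only [tF]; positivity
    | succ i =>
      simp only [tF]
      have : 0 ≤ (1 - p) - (1 - p) ^ 2 := by nlinarith
      positivity
  have htT : ∀ i, 0 ≤ tT α p y i := by
    have ha2 : 0 ≤ 1 - α := by linarith
    intro i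
    cases i with
    | zero => simp only [tT]; positivity
    | succ i =>
      simp only [tT]
      have : 0 ≤ (1 - p) ^ 2 - (1 - p) ^ 4 := by
        have : (1 - p) ^ 2 - (1 - p) ^ 4 = (1 - p) ^ 2 * (1 - (1 - p) ^ 2) := by ring
        rw [this]
        exact mul_nonneg (sq_nonneg _) (by nlinarith)
      positivity
  refine lt_of_lt_of_le (msurvInf_pos (abRule p) α
    (fun m' => if m' = true then ENNReal.ofReal y else 1) ?_ ?_ ?_ m)
    (measure_mono (msurvInf_ab_subset p m))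
  · intro τ
    cases τ
    · simp
    · simp [hy0]
  · intro τ
    cases τ
    · simp
    · simpa using hy1
  · intro τ
    rw [meanW_eq]
    simp_rw [term_eq α p τ (ENNReal.ofReal y)]
    cases τ
    · simp_rw [term_false α h0 h1 hy0.le]
      rw [← ENNReal.ofReal_tsum_of_nonneg htF (hasSum_tF α h0 h1).summable,
        (hasSum_tF α h0 h1).tsum_eq]
      simp only [Bool.false_eq_true, if_false]
      rw [← ENNReal.ofReal_one]
      refine (ENNReal.ofReal_lt_ofReal_iff_of_nonneg (by norm_num)).2 ?_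
      rw [lt_div_iff₀ hr1, one_mul]
      exact hF
    · simp_rw [term_true α h0 h1 hy0.le]
      rw [← ENNReal.ofReal_tsum_of_nonneg htT (hasSum_tT α h0 h1).summable,
        (hasSum_tT α h0 h1).tsum_eq]
      simp only [if_true]
      refine (ENNReal.ofReal_lt_ofReal_iff_of_nonneg hy0.le).2 ?_
      rw [lt_div_iff₀ hr1]
      exact hT

end CausalPerc
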