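import Pool.Agent.Lib.MP_a51368_pr.Branch

open MeasureTheory ProbabilityTheory Set Measure

namespace CausalPerc

theorem volume_le {p : ℝ} (h0 : 0 ≤ p) (h1 : p ≤ 1) :
    (volume : Measure unitInterval) {x | (x : ℝ) ≤ p} = ENNReal.ofReal p := by
  have : {x : unitInterval | (x : ℝ) ≤ p} = Iic ⟨p, h0, h1⟩ := by
    ext x; simp [← Subtype.coe_le_coe]
  rw [this, unitInterval.volume_Iic]

theorem volume_gt {p : ℝ} (h0 : 0 ≤ p) (h1 : p ≤ 1) :
    (volume : Measure unitInterval) {x | p < (x : ℝ)} = ENNReal.ofReal (1 - p) := by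
  have : {x : unitInterval | p < (x : ℝ)} = Ioi ⟨p, h0, h1⟩ := by
    ext x; simp [← Subtype.coe_lt_coe]
  rw [this, unitInterval.volume_Ioi]

theorem mLe (p : ℝ) : MeasurableSet {x : unitInterval | (x : ℝ) ≤ p} :=
  measurableSet_Iic.preimage measurable_subtype_coe

theorem mGt (p : ℝ) : MeasurableSet {x : unitInterval | p < (x : ℝ)} :=
  measurableSet_Ioi.preimage measurable_subtype_coe

/-- The law of the labels of a vertex. -/
noncomputable abbrev labLaw : Measure (Slot → unitInterval) :=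
  Measure.infinitePi fun _ : Slot => (volume : Measure unitInterval)

theorem labLaw_closed {p : ℝ} (h0 : 0 ≤ p) (h1 : p ≤ 1) (F : Finset Slot) :
    labLaw {f | ∀ s ∈ F, p < (f s : ℝ)} = ENNReal.ofReal (1 - p) ^ F.card := by
  have : {f : Slot → unitInterval | ∀ s ∈ F, p < (f s : ℝ)} =
      Set.pi (F : Set Slot) fun _ => {x : unitInterval | p < (x : ℝ)} := by
    ext f; simp
  rw [this, Measure.infinitePi_pi _ fun _ _ => mGt p]
  simp [volume_gt h0 h1]

theorem labLaw_open {p : ℝ} (h0 : 0 ≤ p) (h1 : p ≤ 1) (s : Slot) :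
    labLaw {f | (f s : ℝ) ≤ p} = ENNReal.ofReal p := by
  have : {f : Slot → unitInterval | (f s : ℝ) ≤ p} =
      Set.pi (({s} : Finset Slot) : Set Slot) fun _ => {x : unitInterval | (x : ℝ) ≤ p} := by
    ext f; simp
  rw [this, Measure.infinitePi_pi _ fun _ _ => mLe p]
  simp [volume_le h0 h1]

variable (α : ℝ) [GoodParam α]

omit [GoodParam α] in
theorem geo_singleton (k : ℕ) : geo α {k} = ENNReal.ofReal (α ^ k * (1 - α)) := by
  rw [geo_apply, tsum_eq_single k]
  · simp
  · intro j hj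
    simp [hj]

theorem geo_gt (i : ℕ) : geo α {k | i < k} = ENNReal.ofReal (α ^ (i + 1)) := by
  have h0 : 0 ≤ α := (GoodParam.pos (α := α)).le
  have h1 : α < 1 := GoodParam.lt_one
  have h2 : ∀ k, 0 ≤ α ^ k * (1 - α) := fun k =>
    mul_nonneg (pow_nonneg h0 k) (by linarith)
  have h3 : {k : ℕ | i < k} = (Finset.range (i + 1) : Set ℕ)ᶜ := by
    ext k; simp
  rw [h3, prob_compl_eq_one_sub (Finset.measurableSet _)]
  have h4 : geo α (Finset.range (i + 1) : Set ℕ) = ENNReal.ofReal (1 - α ^ (i + 1)) := by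
    rw [← sum_measure_singleton]
    simp_rw [geo_singleton]
    rw [← ENNReal.ofReal_sum_of_nonneg fun k _ => h2 k, ← Finset.sum_mul,
      geom_sum_eq h1.ne]
    congr 1
    have : α - 1 ≠ 0 := by linarith
    field_simp
    ring
  rw [h4, ← ENNReal.ofReal_one, ← ENNReal.ofReal_sub]
  · congr 1; ring
  · have : α ^ (i + 1) ≤ 1 := pow_le_one₀ h0 h1.le
    linarith

/-- Open tree edges to one of the first `J` children. -/
noncomputable def selT (p : ℝ) (J : ℕ) (x : Node) : Finset ℕ := by
  classical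
  exact (Finset.range (min x.1 J)).filter fun i => (x.2 (.tree i) : ℝ) ≤ p

theorem mem_selT {p : ℝ} {J : ℕ} {x : Node} {i : ℕ} :
    i ∈ selT p J x ↔ i < x.1 ∧ i < J ∧ (x.2 (.tree i) : ℝ) ≤ p := by
  simp [selT, and_assoc]

theorem selT_card (p : ℝ) (J : ℕ) (x : Node) : (selT p J x).card ≤ J := by
  unfold selT
  refine (Finset.card_filter_le _ _).trans ?_
  simp

theorem selT_set (p : ℝ) (J i : ℕ) : {x : Node | i ∈ selT p J x} =
    if i < J then {k | i < k} ×ˢ {f | (f (.tree i) : ℝ) ≤ p} else ∅ := by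
  ext x
  rw [mem_ofPred_eq, mem_selT]
  split_ifs with h
  · simp [h]
  · simp [h]

theorem measurable_slot (s : Slot) : Measurable (fun f : Slot → unitInterval => (f s : ℝ)) :=
  measurable_subtype_coe.comp (measurable_pi_apply s)

theorem measurableSet_open_slot (p : ℝ) (s : Slot) :
    MeasurableSet {f : Slot → unitInterval | (f s : ℝ) ≤ p} :=
  measurable_slot s measurableSet_Iic

theorem measurableSet_closed_slot (p : ℝ) (s : Slot) :
    MeasurableSet {f : Slot → unitInterval | p < (f s : ℝ)} :=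
  measurable_slot s measurableSet_Ioi

theorem measurable_selT (p : ℝ) (J i : ℕ) : MeasurableSet {x : Node | i ∈ selT p J x} := by
  rw [selT_set]
  split_ifs
  · exact (MeasurableSet.of_discrete).prod (measurableSet_open_slot p _)
  · exact MeasurableSet.empty

theorem selT_mean {p : ℝ} (h0 : 0 ≤ p) (h1 : p ≤ 1) (hm : 1 - α < α * p) :
    ∃ J, 1 < ∑' i, nodeLaw α {x | i ∈ selT p J x} := by
  have ha0 : 0 ≤ α := (GoodParam.pos (α := α)).le
  have ha1 : α < 1 := GoodParam.lt_one
  have h2 : ∀ J i, nodeLaw α {x | i ∈ selT p J x} =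
      if i < J then ENNReal.ofReal (α ^ (i + 1) * p) else 0 := by
    intro J i
    rw [selT_set]
    split_ifs
    · rw [nodeLaw, Measure.prod_prod, geo_gt, labLaw_open h0 h1,
        ENNReal.ofReal_mul (pow_nonneg ha0 _)]
    · simp
  have h3 : Filter.Tendsto (fun J => ∑ i ∈ Finset.range J, α ^ (i + 1) * p) Filter.atTop
      (nhds (α * p / (1 - α))) := by
    have := ((hasSum_geometric_of_lt_one ha0 ha1).mul_left (α * p)).tendsto_sum_nat
    refine (this.congr fun J => ?_).trans (by rw [div_eq_mul_inv])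
    apply Finset.sum_congr rfl
    intro i _
    ring
  have h4 : 1 < α * p / (1 - α) := by
    rw [lt_div_iff₀ (by linarith)]; linarith
  obtain ⟨J, hJ⟩ := (h3.eventually (lt_mem_nhds h4)).exists
  refine ⟨J, ?_⟩
  rw [tsum_eq_sum (s := Finset.range J)]
  · simp_rw [h2]
    rw [Finset.sum_congr rfl (g := fun i => ENNReal.ofReal (α ^ (i + 1) * p))]
    · rw [← ENNReal.ofReal_sum_of_nonneg]
      · rw [← ENNReal.ofReal_one]
        exact (ENNReal.ofReal_lt_ofReal_iff_of_nonneg (by norm_num)).2 hJ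
      · intro i _
        positivity
    · intro i hi
      rw [if_pos (Finset.mem_range.1 hi)]
  · intro i hi
    rw [h2, if_neg (by simpa using hi)]

/-- One step of the barrier: the barrier passes immediately to the right of the current vertex and
then immediately to the right of its child `i`, one of the last `J` children.  The edges from the
current vertex to the vertices right of child `i` and the horizontal edge on the right of
child `i` are closed. -/
noncomputable def selB (p : ℝ) (J : ℕ) (x : Node) : Finset ℕ := by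
  classical
  exact (Finset.Ico (x.1 - J) x.1).filter fun i => (∀ i', i < i' → i' < x.1 →
    p < (x.2 (.tree i') : ℝ)) ∧ p < (x.2 .diag : ℝ) ∧ p < (x.2 (.hor i) : ℝ)

theorem mem_selB {p : ℝ} {J : ℕ} {x : Node} {i : ℕ} :
    i ∈ selB p J x ↔ (i < x.1 ∧ x.1 ≤ i + J) ∧ (∀ i', i < i' → i' < x.1 →
      p < (x.2 (.tree i') : ℝ)) ∧ p < (x.2 .diag : ℝ) ∧ p < (x.2 (.hor i) : ℝ) := by
  classical
  simp only [selB, Finset.mem_filter, Finset.mem_Ico, tsub_le_iff_right]
  tauto

theorem selB_card (p : ℝ) (J : ℕ) (x : Node) : (selB p J x).card ≤ J := by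
  classical
  unfold selB
  refine (Finset.card_filter_le _ _).trans ?_
  simp
  omega

/-- The slots used by a barrier step to child `i` when there are `k` children. -/
def slotsB (i k : ℕ) : Finset Slot := (Finset.Ioo i k).image Slot.tree ∪ {.diag, .hor i}

theorem slotsB_card {i k : ℕ} (h : i < k) : (slotsB i k).card = k - i + 1 := by
  unfold slotsB
  rw [Finset.card_union_of_disjoint]
  · rw [Finset.card_image_of_injective _ (fun a b h => by simpa using h)]
    simp
    omega
  · rw [Finset.disjoint_left]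
    intro s hs
    simp only [Finset.mem_image, Finset.mem_Ioo] at hs
    obtain ⟨a, _, rfl⟩ := hs
    simp

theorem selB_set (p : ℝ) (J i : ℕ) : {x : Node | i ∈ selB p J x} =
    ⋃ k ∈ Finset.Ioc i (i + J), {k} ×ˢ {f | ∀ s ∈ slotsB i k, p < (f s : ℝ)} := by
  ext x
  simp only [mem_ofPred_eq, mem_selB, Finset.mem_Ioc, slotsB, Finset.mem_union, Finset.mem_image,
    Finset.mem_Ioo, Finset.mem_insert, Finset.mem_singleton, mem_iUnion, mem_prod,
    mem_singleton_iff, exists_prop]
  constructor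
  · rintro ⟨⟨h1, h2⟩, h3, h4, h5⟩
    refine ⟨x.1, ⟨h1, h2⟩, rfl, ?_⟩
    rintro s (⟨a, ⟨ha1, ha2⟩, rfl⟩ | rfl | rfl)
    · exact h3 a ha1 ha2
    · exact h4
    · exact h5
  · rintro ⟨k, ⟨h1, h2⟩, rfl, h3⟩
    refine ⟨⟨h1, h2⟩, ?_, ?_, ?_⟩
    · intro i' h4 h5
      exact h3 _ (Or.inl ⟨i', ⟨h4, h5⟩, rfl⟩)
    · exact h3 _ (Or.inr (Or.inl rfl))
    · exact h3 _ (Or.inr (Or.inr rfl))

theorem measurableSet_closed_slots (p : ℝ) (F : Finset Slot) :
    MeasurableSet {f : Slot → unitInterval | ∀ s ∈ F, p < (f s : ℝ)} := by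
  have : {f : Slot → unitInterval | ∀ s ∈ F, p < (f s : ℝ)} =
      ⋂ s ∈ F, {f : Slot → unitInterval | p < (f s : ℝ)} := by
    ext f; simp
  rw [this]
  exact Finset.measurableSet_biInter _ fun s _ => measurableSet_closed_slot p s

theorem measurable_selB (p : ℝ) (J i : ℕ) : MeasurableSet {x : Node | i ∈ selB p J x} := by
  rw [selB_set]
  exact Finset.measurableSet_biUnion _ fun k _ =>
    (MeasurableSet.of_discrete).prod (measurableSet_closed_slots p _)

theorem nodeLaw_selB {p : ℝ} (h0 : 0 ≤ p) (h1 : p ≤ 1) (J i : ℕ) :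
    nodeLaw α {x | i ∈ selB p J x} =
      ∑ j ∈ Finset.range J, ENNReal.ofReal (α ^ i * (1 - α) * (α ^ (j + 1) * (1 - p) ^ (j + 2))) := by
  have ha0 : 0 ≤ α := (GoodParam.pos (α := α)).le
  have ha1 : α < 1 := GoodParam.lt_one
  rw [selB_set, measure_biUnion_finset]
  · rw [Finset.sum_bij' (i := fun k _ => k - i - 1) (j := fun j _ => i + (j + 1))]
    · intro k hk
      simp only [Finset.mem_Ioc] at hk
      simp only [Finset.mem_range]
      omega
    · intro j hj
      simp only [Finset.mem_range] at hj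
      simp only [Finset.mem_Ioc]
      omega
    · intro k hk
      simp only [Finset.mem_Ioc] at hk
      omega
    · intro j hj
      omega
    · intro k hk
      simp only [Finset.mem_Ioc] at hk
      rw [nodeLaw, Measure.prod_prod, geo_singleton, labLaw_closed h0 h1, slotsB_card hk.1,
        ← ENNReal.ofReal_pow (by linarith), ← ENNReal.ofReal_mul]
      · congr 1
        obtain ⟨j, rfl⟩ : ∃ j, k = i + (j + 1) := ⟨k - i - 1, by omega⟩
        have e1 : i + (j + 1) - i + 1 = j + 2 := by omega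
        have e2 : i + (j + 1) - i - 1 = j := by omega
        rw [e1, e2]
        ring
      · exact mul_nonneg (pow_nonneg ha0 _) (by linarith)
  · intro a _ b _ hab
    rw [Function.onFun, Set.disjoint_left]
    rintro ⟨x, f⟩ hx hy
    simp only [mem_prod, mem_singleton_iff] at hx hy
    exact hab (hx.1.symm.trans hy.1)
  · intro k _
    exact (MeasurableSet.of_discrete).prod (measurableSet_closed_slots p _)

theorem selB_mean {p : ℝ} (h0 : 0 ≤ p) (h1 : p ≤ 1)
    (hm : 1 < α * (1 - p) * (2 - p)) :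
    ∃ J, 1 < ∑' i, nodeLaw α {x | i ∈ selB p J x} := by
  have ha0 : 0 ≤ α := (GoodParam.pos (α := α)).le
  have ha1 : α < 1 := GoodParam.lt_one
  have hq0 : 0 ≤ 1 - p := by linarith
  set r : ℝ := α * (1 - p) with hr
  have hr0 : 0 ≤ r := mul_nonneg ha0 hq0
  have hr1 : r < 1 := by nlinarith
  have h3 : Filter.Tendsto (fun J => ∑ j ∈ Finset.range J, α ^ (j + 1) * (1 - p) ^ (j + 2))
      Filter.atTop (nhds (r * (1 - p) / (1 - r))) := by
    have := ((hasSum_geometric_of_lt_one hr0 hr1).mul_left (r * (1 - p))).tendsto_sum_nat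
    refine (this.congr fun J => ?_).trans (by rw [div_eq_mul_inv])
    apply Finset.sum_congr rfl
    intro i _
    rw [hr, mul_pow]
    ring
  have h4 : 1 < r * (1 - p) / (1 - r) := by
    rw [lt_div_iff₀ (by linarith)]
    nlinarith
  obtain ⟨J, hJ⟩ := (h3.eventually (lt_mem_nhds h4)).exists
  refine ⟨J, ?_⟩
  simp_rw [nodeLaw_selB α h0 h1]
  have h5 : ∀ i j : ℕ, ENNReal.ofReal (α ^ i * (1 - α) * (α ^ (j + 1) * (1 - p) ^ (j + 2))) =
      ENNReal.ofReal (α ^ i * (1 - α)) * ENNReal.ofReal (α ^ (j + 1) * (1 - p) ^ (j + 2)) := by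
    intro i j
    rw [ENNReal.ofReal_mul (mul_nonneg (pow_nonneg ha0 _) (by linarith))]
  simp_rw [h5, ← Finset.mul_sum]
  rw [ENNReal.tsum_mul_right]
  have h6 : ∑' i, ENNReal.ofReal (α ^ i * (1 - α)) = 1 := by
    have := measure_univ (μ := geo α)
    rw [geo_apply] at this
    simpa using this
  rw [h6, one_mul, ← ENNReal.ofReal_sum_of_nonneg, ← ENNReal.ofReal_one]
  · exact (ENNReal.ofReal_lt_ofReal_iff_of_nonneg (by norm_num)).2 hJ
  · intro j _
    positivity

end CausalPerc
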