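import Pool.Agent.Lib.MP_a51368_pr.BranchM
import Pool.Agent.Lib.MP_a51368_pr.Sel

open MeasureTheory ProbabilityTheory Set Measure

namespace CausalPerc

/-- The event that the number of children lies in `K` and that the slots in `F k` are closed,
where `k` is the number of children. -/
def boxSet (p : ℝ) (K : Set ℕ) (F : ℕ → Finset Slot) : Set Node :=
  {x | x.1 ∈ K ∧ ∀ s ∈ F x.1, p < (x.2 s : ℝ)}

theorem boxSet_eq (p : ℝ) (K : Set ℕ) (F : ℕ → Finset Slot) :
    boxSet p K F = ⋃ k : ℕ, ({k} ∩ K) ×ˢ {f | ∀ s ∈ F k, p < (f s : ℝ)} := by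
  ext x
  simp only [boxSet, mem_ofPred_eq, mem_iUnion, mem_prod, mem_inter_iff, mem_singleton_iff]
  constructor
  · rintro ⟨h1, h2⟩
    exact ⟨x.1, ⟨rfl, h1⟩, h2⟩
  · rintro ⟨k, ⟨rfl, h1⟩, h2⟩
    exact ⟨h1, h2⟩

theorem measurableSet_boxSet (p : ℝ) (K : Set ℕ) (F : ℕ → Finset Slot) :
    MeasurableSet (boxSet p K F) := by
  rw [boxSet_eq]
  exact MeasurableSet.iUnion fun k =>
    (MeasurableSet.of_discrete).prod (measurableSet_closed_slots p _)

variable (α : ℝ) [GoodParam α]

open Classical in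
theorem nodeLaw_boxSet {p : ℝ} (h0 : 0 ≤ p) (h1 : p ≤ 1) (K : Set ℕ) (F : ℕ → Finset Slot) :
    nodeLaw α (boxSet p K F) =
      ∑' k : ℕ, ENNReal.ofReal (if k ∈ K then α ^ k * (1 - α) * (1 - p) ^ (F k).card else 0) := by
  have ha0 : 0 ≤ α := (GoodParam.pos (α := α)).le
  have ha1 : α < 1 := GoodParam.lt_one
  rw [boxSet_eq, measure_iUnion]
  · congr 1
    ext k
    rw [nodeLaw, Measure.prod_prod, labLaw_closed h0 h1]
    split_ifs with hk
    · have : ({k} ∩ K : Set ℕ) = {k} := by
        ext j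
        simp only [mem_inter_iff, mem_singleton_iff, and_iff_left_iff_imp]
        rintro rfl; exact hk
      rw [this, geo_singleton, ← ENNReal.ofReal_pow (by linarith), ← ENNReal.ofReal_mul]
      exact mul_nonneg (pow_nonneg ha0 _) (by linarith)
    · have : ({k} ∩ K : Set ℕ) = ∅ := by
        ext j
        simp only [mem_inter_iff, mem_singleton_iff, mem_empty_iff_false, iff_false, not_and]
        rintro rfl; exact hk
      rw [this]
      simp
  · intro a b hab
    rw [Function.onFun, Set.disjoint_left]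
    rintro ⟨x, f⟩ hx hy
    simp only [mem_prod, mem_inter_iff, mem_singleton_iff] at hx hy
    exact hab (hx.1.1.symm.trans hy.1.1)
  · intro k
    exact (MeasurableSet.of_discrete).prod (measurableSet_closed_slots p _)

/-- Sum of a shifted series. -/
theorem tsum_shift {f : ℕ → ℝ} {g : ℕ → ℝ} (i : ℕ) (h : ∀ k, f k = if i < k then g (k - i - 1) else 0)
    {a : ℝ} (hg : HasSum g a) : HasSum f a := by
  have h1 : Function.Injective (fun j : ℕ => i + (j + 1)) := by
    intro a b hab
    simp at hab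
    exact hab
  have h2 : ∀ k ∉ Set.range (fun j : ℕ => i + (j + 1)), f k = 0 := by
    intro k hk
    rw [h k, if_neg]
    intro hik
    exact hk ⟨k - i - 1, by simp; omega⟩
  rw [← Function.Injective.hasSum_iff h1 h2]
  convert hg using 1
  funext j
  simp only [Function.comp_apply]
  rw [h, if_pos (by omega)]
  congr 1
  omega

/-- Probability that there are more than `i` children and that the slots `F k` are closed, when
the number of these slots is `c + k - i - 1` times or constant. -/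
theorem nodeLaw_box_const {p : ℝ} (h0 : 0 ≤ p) (h1 : p ≤ 1) (i c : ℕ) (F : ℕ → Finset Slot)
    (hF : ∀ k, i < k → (F k).card = c) :
    nodeLaw α (boxSet p {k | i < k} F) = ENNReal.ofReal (α ^ (i + 1) * (1 - p) ^ c) := by
  classical
  have ha0 : 0 ≤ α := (GoodParam.pos (α := α)).le
  have ha1 : α < 1 := GoodParam.lt_one
  have hq : 0 ≤ 1 - p := by linarith
  rw [nodeLaw_boxSet α h0 h1]
  have hs : HasSum (fun k => if k ∈ {k | i < k} then α ^ k * (1 - α) * (1 - p) ^ (F k).card else 0)
      (α ^ (i + 1) * (1 - p) ^ c) := by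
    refine tsum_shift i (g := fun j => α ^ (i + 1) * (1 - α) * (1 - p) ^ c * α ^ j) ?_ ?_
    · intro k
      simp only [mem_ofPred_eq]
      split_ifs with hk
      · rw [hF k hk]
        obtain ⟨j, rfl⟩ : ∃ j, k = i + 1 + j := ⟨k - i - 1, by omega⟩
        rw [show i + 1 + j - i - 1 = j by omega, pow_add]
        ring
      · rfl
    · have := (hasSum_geometric_of_lt_one ha0 ha1).mul_left (α ^ (i + 1) * (1 - α) * (1 - p) ^ c)
      have h5 : (1 - α) ≠ 0 := by linarith
      have h7 : α ^ (i + 1) * (1 - α) * (1 - p) ^ c * (1 - α)⁻¹ = α ^ (i + 1) * (1 - p) ^ c := by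
        calc α ^ (i + 1) * (1 - α) * (1 - p) ^ c * (1 - α)⁻¹
            = α ^ (i + 1) * (1 - p) ^ c * ((1 - α) * (1 - α)⁻¹) := by ring
          _ = _ := by rw [mul_inv_cancel₀ h5, mul_one]
      rw [h7] at this
      exact this
  have hnn : ∀ k, 0 ≤ (if k ∈ {k | i < k} then α ^ k * (1 - α) * (1 - p) ^ (F k).card else 0) := by
    intro k
    split_ifs
    · exact mul_nonneg (mul_nonneg (pow_nonneg ha0 _) (by linarith)) (pow_nonneg hq _)
    · exact le_rfl
  have h6 := ENNReal.ofReal_tsum_of_nonneg hnn hs.summable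
  rw [hs.tsum_eq] at h6
  rw [h6]
  congr 1
  ext k
  congr 1
  split_ifs <;> rfl

theorem nodeLaw_box_lin {p : ℝ} (h0 : 0 ≤ p) (h1 : p ≤ 1) (i c : ℕ) (F : ℕ → Finset Slot)
    (hF : ∀ k, i < k → (F k).card = (k - i - 1) + c) :
    nodeLaw α (boxSet p {k | i < k} F) =
      ENNReal.ofReal (α ^ (i + 1) * (1 - α) * (1 - p) ^ c / (1 - α * (1 - p))) := by
  classical
  have ha0 : 0 ≤ α := (GoodParam.pos (α := α)).le
  have ha1 : α < 1 := GoodParam.lt_one
  have hq : 0 ≤ 1 - p := by linarith
  have hr1 : α * (1 - p) < 1 := by nlinarith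
  have hr0 : 0 ≤ α * (1 - p) := mul_nonneg ha0 hq
  rw [nodeLaw_boxSet α h0 h1]
  have hs : HasSum (fun k => if k ∈ {k | i < k} then α ^ k * (1 - α) * (1 - p) ^ (F k).card else 0)
      (α ^ (i + 1) * (1 - α) * (1 - p) ^ c / (1 - α * (1 - p))) := by
    refine tsum_shift i
      (g := fun j => α ^ (i + 1) * (1 - α) * (1 - p) ^ c * (α * (1 - p)) ^ j) ?_ ?_
    · intro k
      simp only [mem_ofPred_eq]
      split_ifs with hk
      · rw [hF k hk]
        obtain ⟨j, rfl⟩ : ∃ j, k = i + 1 + j := ⟨k - i - 1, by omega⟩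
        rw [show i + 1 + j - i - 1 = j by omega, pow_add, pow_add, mul_pow]
        ring
      · rfl
    · have := (hasSum_geometric_of_lt_one hr0 hr1).mul_left
        (α ^ (i + 1) * (1 - α) * (1 - p) ^ c)
      rw [div_eq_mul_inv]
      exact this
  have hnn : ∀ k, 0 ≤ (if k ∈ {k | i < k} then α ^ k * (1 - α) * (1 - p) ^ (F k).card else 0) := by
    intro k
    split_ifs
    · exact mul_nonneg (mul_nonneg (pow_nonneg ha0 _) (by linarith)) (pow_nonneg hq _)
    · exact le_rfl
  have h6 := ENNReal.ofReal_tsum_of_nonneg hnn hs.summable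
  rw [hs.tsum_eq] at h6
  rw [h6]
  congr 1
  ext k
  congr 1
  split_ifs <;> rfl

end CausalPerc
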