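import Pool.Agent.Lib.MP_a51368_pr.BranchM
import Pool.Agent.Lib.MP_a51368_pr.Mono2
import Pool.Agent.Lib.MP_a51368_pr.SelM

/-!
# A supercritical sub-process of the cluster, using one horizontal edge
-/

open MeasureTheory ProbabilityTheory Set Measure

namespace CausalPerc

/-- The child `i` is reached through its own tree edge, or through the tree edge of the previous
child and the horizontal edge between them. -/
def Reach1 (p : ℝ) (x : Node) (i : ℕ) : Prop :=
  i < x.1 ∧ ((x.2 (.tree i) : ℝ) ≤ p ∨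
    (0 < i ∧ (x.2 (.tree (i - 1)) : ℝ) ≤ p ∧ (x.2 (.hor (i - 1)) : ℝ) ≤ p))

theorem labLaw_box {p : ℝ} (h0 : 0 ≤ p) (h1 : p ≤ 1) (F G : Finset Slot) (hFG : Disjoint F G) :
    labLaw {f | (∀ s ∈ F, p < (f s : ℝ)) ∧ ∀ s ∈ G, (f s : ℝ) ≤ p} =
      ENNReal.ofReal ((1 - p) ^ F.card * p ^ G.card) := by
  have hq : 0 ≤ 1 - p := by linarith
  have h : {f : Slot → unitInterval | (∀ s ∈ F, p < (f s : ℝ)) ∧ ∀ s ∈ G, (f s : ℝ) ≤ p} =
      Set.pi ((F ∪ G : Finset Slot) : Set Slot) fun s =>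
        if s ∈ F then {x : unitInterval | p < (x : ℝ)} else {x : unitInterval | (x : ℝ) ≤ p} := by
    ext f
    simp only [mem_ofPred_eq, Set.mem_pi, Finset.coe_union, mem_union, Finset.mem_coe]
    constructor
    · rintro ⟨h2, h3⟩ s hs
      split_ifs with h4
      · exact h2 s h4
      · rcases hs with hs | hs
        · exact absurd hs h4
        · exact h3 s hs
    · intro h2
      constructor
      · intro s hs
        have := h2 s (Or.inl hs)
        rw [if_pos hs] at this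
        exact this
      · intro s hs
        have := h2 s (Or.inr hs)
        rw [if_neg (Finset.disjoint_right.1 hFG hs)] at this
        exact this
  rw [h, Measure.infinitePi_pi]
  · rw [Finset.prod_union hFG]
    have e1 : ∏ s ∈ F, (volume : Measure unitInterval)
        (if s ∈ F then {x : unitInterval | p < (x : ℝ)} else {x : unitInterval | (x : ℝ) ≤ p}) =
        ENNReal.ofReal (1 - p) ^ F.card := by
      rw [Finset.prod_congr rfl (g := fun _ => ENNReal.ofReal (1 - p))]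
      · simp
      · intro s hs
        rw [if_pos hs, volume_gt h0 h1]
    have e2 : ∏ s ∈ G, (volume : Measure unitInterval)
        (if s ∈ F then {x : unitInterval | p < (x : ℝ)} else {x : unitInterval | (x : ℝ) ≤ p}) =
        ENNReal.ofReal p ^ G.card := by
      rw [Finset.prod_congr rfl (g := fun _ => ENNReal.ofReal p)]
      · simp
      · intro s hs
        rw [if_neg (Finset.disjoint_right.1 hFG hs), volume_le h0 h1]
    rw [e1, e2, ENNReal.ofReal_mul (pow_nonneg hq _), ENNReal.ofReal_pow hq,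
      ENNReal.ofReal_pow h0]
  · intro s _
    split_ifs
    · exact mGt p
    · exact mLe p

variable (α : ℝ) [GoodParam α]

/-- Cylinder sets of node data. -/
def cylSet (p : ℝ) (i : ℕ) (F G : Finset Slot) : Set Node :=
  {k | i < k} ×ˢ {f | (∀ s ∈ F, p < (f s : ℝ)) ∧ ∀ s ∈ G, (f s : ℝ) ≤ p}

theorem measurableSet_cylSet (p : ℝ) (i : ℕ) (F G : Finset Slot) :
    MeasurableSet (cylSet p i F G) := by
  refine (MeasurableSet.of_discrete).prod ?_
  have h : {f : Slot → unitInterval | (∀ s ∈ F, p < (f s : ℝ)) ∧ ∀ s ∈ G, (f s : ℝ) ≤ p} =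
      {f | ∀ s ∈ F, p < (f s : ℝ)} ∩ ⋂ s ∈ G, {f : Slot → unitInterval | (f s : ℝ) ≤ p} := by
    ext f; simp
  rw [h]
  exact (measurableSet_closed_slots p F).inter
    (Finset.measurableSet_biInter _ fun s _ => measurableSet_open_slot p s)

theorem nodeLaw_cyl {p : ℝ} (h0 : 0 ≤ p) (h1 : p ≤ 1) (i : ℕ) {F G : Finset Slot}
    (hFG : Disjoint F G) {a b : ℕ} (hF : F.card = a) (hG : G.card = b) :
    nodeLaw α (cylSet p i F G) = ENNReal.ofReal (α ^ (i + 1) * ((1 - p) ^ a * p ^ b)) := by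
  have ha0 : 0 ≤ α := (GoodParam.pos (α := α)).le
  rw [cylSet, nodeLaw, Measure.prod_prod, geo_gt, labLaw_box h0 h1 F G hFG, hF, hG,
    ENNReal.ofReal_mul (pow_nonneg ha0 _)]

theorem reach1_zero (p : ℝ) : {x : Node | Reach1 p x 0} = cylSet p 0 ∅ {.tree 0} := by
  ext x
  simp [Reach1, cylSet]

theorem reach1_succ (p : ℝ) (i : ℕ) : {x : Node | Reach1 p x (i + 1)} =
    cylSet p (i + 1) ∅ {.tree (i + 1)} ∪
      cylSet p (i + 1) {.tree (i + 1)} {.tree i, .hor i} := by
  ext x
  simp only [Reach1, cylSet, mem_ofPred_eq, mem_union, mem_prod, Finset.notMem_empty,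
    false_imp_iff, implies_true, true_and, Finset.mem_singleton, forall_eq, Finset.mem_insert,
    forall_eq_or_imp, Nat.add_sub_cancel]
  constructor
  · rintro ⟨h1, h2⟩
    by_cases h3 : (x.2 (.tree (i + 1)) : ℝ) ≤ p
    · exact Or.inl ⟨h1, h3⟩
    · rcases h2 with h2 | h2
      · exact absurd h2 h3
      · exact Or.inr ⟨h1, not_le.1 h3, h2.2.1, h2.2.2⟩
  · rintro (⟨h1, h2⟩ | ⟨h1, _, h2, h3⟩)
    · exact ⟨h1, Or.inl h2⟩
    · exact ⟨h1, Or.inr ⟨Nat.succ_pos i, h2, h3⟩⟩

theorem measurableSet_reach1 (p : ℝ) (i : ℕ) : MeasurableSet {x : Node | Reach1 p x i} := by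
  cases i with
  | zero => rw [reach1_zero]; exact measurableSet_cylSet _ _ _ _
  | succ i =>
    rw [reach1_succ]
    exact (measurableSet_cylSet _ _ _ _).union (measurableSet_cylSet _ _ _ _)

open Classical in
/-- The one-type rule given by `Reach1`. -/
noncomputable def pRule (p : ℝ) : Rule Unit where
  S := fun _ x => (Finset.range x.1).filter fun i => Reach1 p x i
  ty := fun _ _ _ => ()
  meas := fun _ _ i => by
    have : {x : Node | i ∈ (Finset.range x.1).filter (fun i => Reach1 p x i) ∧ () = ()} =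
        {x : Node | Reach1 p x i} := by
      ext x
      simp only [Finset.mem_filter, Finset.mem_range, and_true, mem_ofPred_eq]
      exact ⟨fun h => h.2, fun h => ⟨h.1, h⟩⟩
    convert measurableSet_reach1 p i using 1

/-- Values of the probabilities of `Reach1`. -/
noncomputable def tP (α p : ℝ) : ℕ → ℝ
  | 0 => α * p
  | i + 1 => α ^ i * (α ^ 2 * (p + (1 - p) * p ^ 2))

theorem nodeLaw_reach1 {p : ℝ} (h0 : 0 ≤ p) (h1 : p ≤ 1) (i : ℕ) :
    nodeLaw α {x : Node | Reach1 p x i} = ENNReal.ofReal (tP α p i) := by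
  have ha0 : 0 ≤ α := (GoodParam.pos (α := α)).le
  have hq : 0 ≤ 1 - p := by linarith
  cases i with
  | zero =>
    rw [reach1_zero, nodeLaw_cyl α h0 h1 0 (by simp) (a := 0) (b := 1) (by simp) (by simp)]
    simp [tP]
  | succ i =>
    rw [reach1_succ, measure_union _ (measurableSet_cylSet _ _ _ _),
      nodeLaw_cyl α h0 h1 (i + 1) (by simp) (a := 0) (b := 1) (by simp) (by simp),
      nodeLaw_cyl α h0 h1 (i + 1) (by simp) (a := 1) (b := 2) (by simp)
        (by rw [Finset.card_pair (by simp)]),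
      ← ENNReal.ofReal_add (by positivity) (by positivity)]
    · congr 1
      simp only [tP]
      ring
    · rw [Set.disjoint_left]
      rintro x ⟨_, _, hx⟩ ⟨_, hx2, _⟩
      have e1 := hx (.tree (i + 1)) (by simp)
      have e2 := hx2 (.tree (i + 1)) (by simp)
      exact absurd e1 (not_le.2 e2)

theorem hasSum_tP (p : ℝ) : HasSum (tP α p)
    ((α * p + α ^ 2 * ((1 - p) * p ^ 2)) / (1 - α)) := by
  have ha0 : 0 ≤ α := (GoodParam.pos (α := α)).le
  have ha1 : α < 1 := GoodParam.lt_one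
  have h2 := (hasSum_geometric_of_lt_one ha0 ha1).mul_left (α ^ 2 * (p + (1 - p) * p ^ 2))
  have h3 : HasSum (fun i => tP α p (i + 1))
      (α ^ 2 * (p + (1 - p) * p ^ 2) * (1 - α)⁻¹) := by
    refine h2.congr_fun ?_ |> fun h => h
    intro i
    simp only [tP]
    ring
  have h4 := (hasSum_nat_add_iff 1).1 h3
  simp only [Finset.range_one, Finset.sum_singleton] at h4
  have e0 : tP α p 0 = α * p := rfl
  rw [e0] at h4
  have h7 : (α * p + α ^ 2 * ((1 - p) * p ^ 2)) / (1 - α) =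
      α ^ 2 * (p + (1 - p) * p ^ 2) * (1 - α)⁻¹ + α * p := by
    rw [div_eq_mul_inv]
    have h5 : α * p = α * p * (1 - α) * (1 - α)⁻¹ := by
      rw [mul_assoc, mul_inv_cancel₀ (by linarith), mul_one]
    have h6 : (α * p + α ^ 2 * ((1 - p) * p ^ 2)) * (1 - α)⁻¹ =
        α ^ 2 * (p + (1 - p) * p ^ 2) * (1 - α)⁻¹ + α * p * (1 - α) * (1 - α)⁻¹ := by ring
    rw [h6, ← h5]
  rw [h7]
  exact h4

theorem pRule_pos {p : ℝ} (h0 : 0 ≤ p) (h1 : p ≤ 1)
    (hm : 1 - α < α * p + α ^ 2 * ((1 - p) * p ^ 2)) :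
    0 < law α (msurvInf (pRule p) ()) := by
  classical
  have ha0 : 0 ≤ α := (GoodParam.pos (α := α)).le
  have ha1 : α < 1 := GoodParam.lt_one
  have hq : 0 ≤ 1 - p := by linarith
  have htP : ∀ i, 0 ≤ tP α p i := by
    intro i
    cases i with
    | zero => simp only [tP]; positivity
    | succ i => simp only [tP]; positivity
  refine msurvInf_pos (pRule p) α (fun _ => 1) (fun _ => by norm_num) (fun _ => le_rfl) ?_ ()
  intro τ
  rw [meanW_eq]
  have e1 : ∀ i, {x : Node | i ∈ (pRule p).S τ x ∧ (pRule p).ty τ x i = ()} =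
      {x : Node | Reach1 p x i} := by
    intro i
    ext x
    simp only [pRule, Finset.mem_filter, Finset.mem_range, and_true, mem_ofPred_eq]
    exact ⟨fun h => h.2, fun h => ⟨h.1, h⟩⟩
  have e2 : ∀ i : ℕ, (∑ τ' : Unit, (1 : ENNReal) *
      nodeLaw α {x : Node | i ∈ (pRule p).S τ x ∧ (pRule p).ty τ x i = τ'}) =
      ENNReal.ofReal (tP α p i) := by
    intro i
    rw [Fintype.sum_unique, one_mul, ← nodeLaw_reach1 α h0 h1]
    congr 1
    exact e1 i
  rw [tsum_congr e2]
  rw [← ENNReal.ofReal_tsum_of_nonneg htP (hasSum_tP α p).summable,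
    (hasSum_tP α p).tsum_eq, ← ENNReal.ofReal_one]
  refine (ENNReal.ofReal_lt_ofReal_iff_of_nonneg (by norm_num)).2 ?_
  rw [lt_div_iff₀ (by linarith), one_mul]
  exact hm

theorem pRule_reach {p : ℝ} {ω : Conf} (n : ℕ) : ∀ w : Vert, InTree (kids ω) w →
    coneAt w ω ∈ msurvInf (pRule p) () →
    ∃ x : Vert, x.length = w.length + n ∧ x ∈ cluster p ω w := by
  classical
  induction n with
  | zero => intro w _ _; exact ⟨w, rfl, .refl⟩
  | succ n ih =>
    intro w hw h
    obtain ⟨i, hi, h2⟩ := msurvInf_step (pRule p) h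
    rw [coneAt_coneAt] at h2
    have hroot : coneAt w ω [] = ω w := by simp [coneAt]
    rw [hroot] at hi
    simp only [pRule, Finset.mem_filter, Finset.mem_range] at hi
    have hiw : InTree (kids ω) (i :: w) := inTree_cons.2 ⟨hw, hi.1⟩
    obtain ⟨x, hx, hx2⟩ := ih (i :: w) hiw h2
    refine ⟨x, by simp at hx; omega, ?_⟩
    have hik : i < kids ω w := (inTree_cons.1 hiw).2
    obtain ⟨_, _, h3 | ⟨h3, h4, h5⟩⟩ := hi
    · exact Relation.ReflTransGen.head (Or.inl ⟨hw, Or.inl ⟨i, hik, rfl, h3⟩⟩) hx2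
    · have hlt : i - 1 < kids ω w := by omega
      have hiw' : InTree (kids ω) ((i - 1) :: w) := inTree_cons.2 ⟨hw, hlt⟩
      have hr : rightNbr (kids ω) ((i - 1) :: w) = i :: w := by
        rw [rightNbr_cons hiw', Nat.sub_add_cancel h3, if_pos (inTree_cons.1 hiw).2]
      refine Relation.ReflTransGen.head (b := (i - 1) :: w)
        (Or.inl ⟨hw, Or.inl ⟨i - 1, hlt, rfl, h4⟩⟩) ?_
      exact Relation.ReflTransGen.head
        (Or.inr (Or.inl ⟨hiw', hr.symm, i - 1, w, rfl, h5⟩)) hx2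

theorem exists_goodCone1 {p : ℝ} (h0 : 0 ≤ p) (h1 : p ≤ 1)
    (hm : 1 - α < α * p + α ^ 2 * ((1 - p) * p ^ 2)) : ∃ Q, GoodCone α p Q := by
  refine ⟨msurvInf (pRule p) (), measurableSet_msurvInf _ _, pRule_pos α h0 h1 hm, ?_⟩
  intro ω w hw h
  apply infinite_of_lengths
  intro n
  obtain ⟨x, hx, hx2⟩ := pRule_reach n w hw h
  exact ⟨x, hx2, by omega⟩

theorem goodCone_mono {p p' : ℝ} (h : p ≤ p') {Q : Set Conf} (hQ : GoodCone α p Q) :
    GoodCone α p' Q := by
  refine ⟨hQ.1, hQ.2.1, fun ω w hw hc => (hQ.2.2 ω w hw hc).mono ?_⟩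
  intro x hx
  exact Relation.ReflTransGen.mono (fun a b hab => step_mono h hab) _ _ hx

end CausalPerc
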