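import Pool.Agent.Lib.MP_a51368_pr.Main
import Pool.Agent.Lib.MP_a51368_pr.MeanB
import Pool.Agent.Lib.MP_a51368_pr.RuleP

open MeasureTheory ProbabilityTheory Set Measure

namespace CausalPerc

variable (α : ℝ) [GoodParam α]

/-- The abstract form of the main theorem, with an arbitrary source of non-uniqueness. -/
theorem main_abstract2 {b c : ℝ} (hb0 : 0 ≤ b) (hbc : b < c) (hc1 : c ≤ 1) (hb : b < 1 / 2)
    (hgood : ∀ p, b < p → p ≤ 1 → ∃ Q, GoodCone α p Q)
    (hbar : ∀ p, 0 ≤ p → p < c → law α (notOne p) ≠ 0) :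
    ∃ pu : ℝ, pc α < pu ∧ c ≤ pu ∧ pu ≤ 1 / 2 ∧
      (∀ p, pu < p → p < 1 → condLaw α {ω | numInf p ω = 1} = 1) ∧
      (∀ p, pc α < p → p < pu → condLaw α {ω | numInf p ω = 1} < 1) := by
  obtain ⟨Q1, hQ1⟩ := hgood 1 (by linarith) le_rfl
  have hs := law_survives_pos α hQ1
  set S : Set ℝ := {p | 0 ≤ p ∧ p ≤ 1 ∧ law α (notOne p) ≠ 0} with hS
  have hSbound : ∀ p ∈ S, p ≤ 1 / 2 := by
    rintro p ⟨_, h1, h2⟩
    by_contra hcon
    push Not at hcon
    obtain ⟨Q, hQ⟩ := hgood p (by linarith) h1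
    exact h2 (notOne_null_of_gt α hcon h1 hQ)
  have hSb : BddAbove S := ⟨1 / 2, hSbound⟩
  have hSc : ∀ p, 0 ≤ p → p < c → p ∈ S := fun p h0 h1 => ⟨h0, by linarith, hbar p h0 h1⟩
  have hSne : S.Nonempty := ⟨0, hSc 0 le_rfl (by linarith)⟩
  have hpc : pc α ≤ b := pc_le α hb0 hgood
  have hpc0 : 0 ≤ pc α := Real.sSup_nonneg fun x hx => hx.1
  have hcS : c ≤ sSup S := by
    apply le_of_forall_lt
    intro x hx
    by_cases hx0 : 0 ≤ x
    · obtain ⟨y, hy1, hy2⟩ := exists_between hx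
      exact lt_of_lt_of_le hy1 (le_csSup hSb (hSc y (by linarith) hy2))
    · exact lt_of_lt_of_le (not_le.1 hx0) (le_csSup hSb (hSc 0 le_rfl (by linarith)))
  refine ⟨sSup S, by linarith, hcS, csSup_le hSne hSbound, ?_, ?_⟩
  · intro p h1 h2
    rw [condLaw_eq_one_iff α hs]
    by_contra hcon
    have : p ∈ S := ⟨by linarith, h2.le, hcon⟩
    exact absurd (le_csSup hSb this) (not_le.2 h1)
  · intro p h1 h2
    rw [condLaw_lt_one_iff α hs]
    by_cases hpc2 : p < c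
    · exact (hSc p (by linarith) hpc2).2.2
    · push Not at hpc2
      obtain ⟨p', hp', hpp'⟩ := exists_lt_of_lt_csSup hSne h2
      obtain ⟨Q, hQ⟩ := hgood p (by linarith) (by have := hSbound p' hp'; linarith)
      obtain ⟨Q', hQ'⟩ := hgood p' (by linarith) hp'.2.1
      exact notOne_mono α hpp'.le hQ hQ' hp'.2.2

/-- Concrete criterion: a good cone at `b` and barriers at `c`, with `b < c`. -/
theorem main_concrete {b c : ℝ} (hb0 : 0 ≤ b) (hbc : b < c) (hc1 : c ≤ 1) (hb : b < 1 / 2)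
    (hgood : ∃ Q, GoodCone α b Q) (hbar : 0 < law α (psurvInf c true)) :
    ∃ pu : ℝ, pc α < pu ∧ c ≤ pu ∧ pu ≤ 1 / 2 ∧
      (∀ p, pu < p → p < 1 → condLaw α {ω | numInf p ω = 1} = 1) ∧
      (∀ p, pc α < p → p < pu → condLaw α {ω | numInf p ω = 1} < 1) := by
  obtain ⟨Q, hQ⟩ := hgood
  refine main_abstract2 α hb0 hbc hc1 hb (fun p hp _ => ⟨Q, goodCone_mono α hp.le hQ⟩) ?_
  intro p h0 h1
  exact barrierM_nonunique α h0 (by linarith)
    (lt_of_lt_of_le hbar (measure_mono (psurvInf_anti h1.le true)))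

omit [GoodParam α] in
theorem three_quarters_main (h1 : 3 / 4 ≤ α) (h2 : α < 1) :
    ∃ pu : ℝ, pc α < pu ∧ pu ≤ 1 / 2 ∧
      (∀ p, pu < p → p < 1 → condLaw α {ω | numInf p ω = 1} = 1) ∧
      (∀ p, pc α < p → p < pu → condLaw α {ω | numInf p ω = 1} < 1) := by
  have : GoodParam α := ⟨by linarith, h2⟩
  obtain ⟨pu, h3, _, h5, h6, h7⟩ := main_concrete α (b := 29 / 100) (c := 147 / 500)
    (by norm_num) (by norm_num) (by norm_num) (by norm_num)
    (exists_goodCone1 α (by norm_num) (by norm_num) (by nlinarith))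
    (ab_pos α (y := 33 / 40) (by norm_num) (by norm_num) (by norm_num) (by norm_num)
      (by nlinarith) (by nlinarith) true)
  exact ⟨pu, h3, h5, h6, h7⟩

end CausalPerc
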