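import Pool.Agent.Lib.MP_a51368_pr.Tree

open MeasureTheory ProbabilityTheory Set Measure

namespace CausalPerc

theorem geo_apply (α : ℝ) (s : Set ℕ) :
    geo α s = ∑' k, ENNReal.ofReal (α ^ k * (1 - α)) * s.indicator 1 k := by
  unfold geo
  rw [Measure.sum_apply _ (MeasurableSet.of_discrete)]
  congr 1
  ext k
  rw [Measure.smul_apply, Measure.dirac_apply' _ (MeasurableSet.of_discrete), smul_eq_mul]

theorem geo_prob {α : ℝ} (h0 : 0 ≤ α) (h1 : α < 1) : IsProbabilityMeasure (geo α) := by
  constructor
  rw [geo_apply]
  simp only [indicator_univ, Pi.one_apply, mul_one]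
  rw [← ENNReal.ofReal_tsum_of_nonneg, tsum_mul_right, tsum_geometric_of_lt_one h0 h1,
    inv_mul_cancel₀ (by linarith), ENNReal.ofReal_one]
  · intro n
    have := pow_nonneg h0 n
    nlinarith
  · exact (summable_geometric_of_lt_one h0 h1).mul_right _

/-- The standing assumption on the offspring parameter. -/
class GoodParam (α : ℝ) : Prop where
  pos : 0 < α
  lt_one : α < 1

variable (α : ℝ) [GoodParam α]

instance : IsProbabilityMeasure (geo α) := geo_prob GoodParam.pos.le GoodParam.lt_one

instance : IsProbabilityMeasure (nodeLaw α) := by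
  unfold nodeLaw
  infer_instance

instance : IsProbabilityMeasure (law α) := by
  unfold law
  infer_instance

/-- The sigma-algebra generated by the data in `S`. -/
@[reducible] def sig (S : Set Vert) : MeasurableSpace Conf :=
  ⨆ v ∈ S, (inferInstance : MeasurableSpace Node).comap (fun ω : Conf => ω v)

/-- The event `A` only depends on the data at the vertices in `S`. -/
def Dep (S : Set Vert) (A : Set Conf) : Prop :=
  ∀ ω ω' : Conf, (∀ v ∈ S, ω v = ω' v) → ω ∈ A → ω' ∈ A

theorem Dep.mono {S T : Set Vert} {A : Set Conf} (h : Dep S A) (hST : S ⊆ T) : Dep T A :=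
  fun ω ω' hω => h ω ω' fun v hv => hω v (hST hv)

theorem Dep.inter {S : Set Vert} {A B : Set Conf} (hA : Dep S A) (hB : Dep S B) :
    Dep S (A ∩ B) :=
  fun ω ω' hω h => ⟨hA ω ω' hω h.1, hB ω ω' hω h.2⟩

theorem Dep.compl {S : Set Vert} {A : Set Conf} (hA : Dep S A) : Dep S Aᶜ :=
  fun ω ω' hω h h' => h (hA ω' ω (fun v hv => (hω v hv).symm) h')

theorem measurableSet_sig {S : Set Vert} {A : Set Conf} (hA : MeasurableSet A) (hd : Dep S A) :
    MeasurableSet[sig S] A := by
  classical
  let d : Node := (0, fun _ => 0)
  let trunc : Conf → Conf := fun ω v => if v ∈ S then ω v else d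
  have h1 : A = trunc ⁻¹' A := by
    ext ω
    constructor
    · intro h
      exact hd _ _ (fun v hv => by simp [trunc, hv]) h
    · intro h
      exact hd _ _ (fun v hv => by simp [trunc, hv]) h
  rw [h1]
  have h2 : Measurable[sig S] trunc := by
    refine @measurable_pi_lambda Conf Vert (fun _ => Node) (sig S) _ trunc fun v => ?_
    by_cases hv : v ∈ S
    · simp only [trunc, hv, if_true]
      have : Measurable[(inferInstance : MeasurableSpace Node).comap (fun ω : Conf => ω v)]
          (fun ω : Conf => ω v) := comap_measurable _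
      exact this.mono (le_iSup₂_of_le v hv le_rfl) le_rfl
    · simp only [trunc, hv, if_false]
      exact measurable_const
  exact h2 hA

theorem law_inter {S T : Set Vert} (hST : Disjoint S T) {A B : Set Conf}
    (hA : MeasurableSet A) (hB : MeasurableSet B) (hdA : Dep S A) (hdB : Dep T B) :
    law α (A ∩ B) = law α A * law α B := by
  have h1 : iIndepFun (fun (v : Vert) (ω : Conf) => ω v) (law α) :=
    iIndepFun_infinitePi (P := fun _ : Vert => nodeLaw α) (X := fun _ x => x)
      (fun _ => measurable_id)
  rw [iIndepFun_iff_iIndep] at h1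
  have h2 := indep_iSup_of_disjoint (m := fun v => (inferInstance : MeasurableSpace Node).comap
    (fun ω : Conf => ω v)) (fun v => (measurable_pi_apply v).comap_le) h1 hST
  rw [Indep_iff] at h2
  exact h2 A B (measurableSet_sig hA hdA) (measurableSet_sig hB hdB)

/-- The configuration seen in the cone of descendants of `w`. -/
def coneAt (w : Vert) (ω : Conf) : Conf := fun u => ω (u ++ w)

theorem coneAt_nil (ω : Conf) : coneAt [] ω = ω := by
  ext u <;> simp [coneAt]

theorem coneAt_coneAt (u w : Vert) (ω : Conf) : coneAt u (coneAt w ω) = coneAt (u ++ w) ω := by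
  ext x <;> simp [coneAt]

theorem measurable_coneAt (w : Vert) : Measurable (coneAt w) := by
  unfold coneAt
  fun_prop

theorem map_coneAt (w : Vert) : (law α).map (coneAt w) = law α := by
  unfold law coneAt
  exact Measure.map_infinitePi_infinitePi_of_inj (P := fun _ : Vert => nodeLaw α)
    (f := fun u : Vert => u ++ w) (List.append_left_injective w)

theorem law_coneAt (w : Vert) {A : Set Conf} (hA : MeasurableSet A) :
    law α (coneAt w ⁻¹' A) = law α A := by
  conv_rhs => rw [← map_coneAt α w, Measure.map_apply (measurable_coneAt w) hA]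

theorem dep_coneAt (w : Vert) (A : Set Conf) : Dep {v | w <:+ v} (coneAt w ⁻¹' A) := by
  intro ω ω' h hω
  have : coneAt w ω = coneAt w ω' := by
    funext u
    exact h _ (List.suffix_append u w)
  rwa [mem_preimage, ← this]

/-- The first generation cones. -/
def cones (ω : Conf) : ℕ → Conf := fun i => coneAt [i] ω

theorem measurable_cones : Measurable cones := by
  unfold cones
  rw [measurable_pi_iff]
  intro i
  exact measurable_coneAt _

theorem map_cones : (law α).map cones = Measure.infinitePi fun _ : ℕ => law α := by
  have h1 : (law α).map (fun ω (p : ℕ × Vert) => ω (p.2 ++ [p.1])) =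
      Measure.infinitePi (fun _ : ℕ × Vert => nodeLaw α) := by
    unfold law
    refine Measure.map_infinitePi_infinitePi_of_inj (P := fun _ : Vert => nodeLaw α)
      (f := fun p : ℕ × Vert => p.2 ++ [p.1]) ?_
    intro p q h
    have h' : p.2 ++ [p.1] = q.2 ++ [q.1] := h
    have h3 := List.append_inj' h' (by simp)
    exact Prod.ext (by simpa using h3.2) h3.1
  have h2 := Measure.infinitePi_map_curry (fun (_ : ℕ) (_ : Vert) => nodeLaw α)
  rw [← h1, Measure.map_map (by fun_prop) (by fun_prop)] at h2
  exact h2

theorem map_split : (law α).map (fun ω => (ω [], cones ω)) =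
    (nodeLaw α).prod (Measure.infinitePi fun _ : ℕ => law α) := by
  have h1 : IndepFun (fun ω : Conf => ω []) cones (law α) := by
    rw [indepFun_iff_measure_inter_preimage_eq_mul]
    intro s t hs ht
    refine law_inter α (S := {[]}) (T := {v | v ≠ []}) ?_ ((measurable_pi_apply _) hs)
      (measurable_cones ht) ?_ ?_
    · simp
    · intro ω ω' h hω
      rw [mem_preimage, ← h [] rfl]
      exact hω
    · intro ω ω' h hω
      have : cones ω = cones ω' := by
        funext i u
        exact h _ (by simp)
      rw [mem_preimage, ← this]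
      exact hω
  rw [(indepFun_iff_map_prod_eq_prod_map_map (measurable_pi_apply _).aemeasurable
    measurable_cones.aemeasurable).1 h1, map_cones]
  congr 1
  exact Measure.infinitePi_map_eval (fun _ : Vert => nodeLaw α) []

theorem measurable_split : Measurable (fun ω : Conf => (ω [], cones ω)) :=
  (measurable_pi_apply _).prodMk measurable_cones

end CausalPerc
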