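import Mathlib

/-!
# Percolation on supercritical causal triangulations: the model

A vertex of the infinite Ulam tree is a list of natural numbers, most recent coordinate first:
`[]` is the root and `i :: v` is the `i`-th child of `v` (children numbered from left to right,
starting with `0`).  A plane tree is coded by a function `t`, where `t v` is the number of
children of `v`.
-/

open MeasureTheory Set

namespace CausalPerc

/-- Vertices of the Ulam tree (most recent coordinate first). -/
abbrev Vert := List ℕ

/-- `level t r` lists, in the plane order, the vertices of the plane tree coded by `t` that are at
distance `r` from the root. -/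
def level (t : Vert → ℕ) : ℕ → List Vert
  | 0 => [[]]
  | r + 1 => (level t r).flatMap fun v => (List.range (t v)).map fun i => i :: v

/-- All vertices at the distance of `v` from the root, listed in the cyclic plane order, starting
with the vertex just after `v` and ending with `v` itself. -/
def around (t : Vert → ℕ) (v : Vert) : List Vert :=
  (level t v.length).rotate ((level t v.length).idxOf v + 1)

/-- The right neighbour of `v` : the next vertex in the cyclic plane order of its level. -/
def rightNbr (t : Vert → ℕ) (v : Vert) : Vert := (around t v).headD []

/-- The upper-right vertex of the face having `v` on its lower side, not as rightmost vertex: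
the first child of the next vertex (in the cyclic plane order of the level of `v`, starting just
after `v`) that has children. -/
def upperRight (t : Vert → ℕ) (v : Vert) : Vert :=
  match (around t v).find? (fun w => decide (0 < t w)) with
  | some w => 0 :: w
  | none => []

/-- The vertex `v` belongs to the tree coded by `t`. -/
def InTree (t : Vert → ℕ) (v : Vert) : Prop := v ∈ level t v.length

/-- Slots for the labels stored at a vertex `v` : `diag` is the slot of the diagonal edge from `v`
to its upper-right vertex, `tree i` is the slot of the tree edge from `v` to its `i`-th child,
and `hor i` is the slot of the horizontal edge from the `i`-th child of `v` to the right neighbour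
of that child. -/
inductive Slot
  | diag : Slot
  | tree (i : ℕ) : Slot
  | hor (i : ℕ) : Slot
  deriving DecidableEq

/-- The data stored at a vertex: its number of children and the uniform labels of its slots. -/
abbrev Node := ℕ × (Slot → unitInterval)

/-- A configuration: a plane tree (number of children of every vertex) and labels of all edges. -/
abbrev Conf := Vert → Node

/-- The tree part of a configuration. -/
def kids (ω : Conf) (v : Vert) : ℕ := (ω v).1

/-- The label of a slot. -/
def lab (ω : Conf) (v : Vert) (s : Slot) : ℝ := ((ω v).2 s : ℝ)

/-- Open non-horizontal edges at level `p`, oriented away from the root: `u → w` is either a tree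
edge, or (when `u` is not the root) a diagonal edge. -/
def OpenUp (p : ℝ) (ω : Conf) (u w : Vert) : Prop :=
  InTree (kids ω) u ∧
    ((∃ i < kids ω u, w = i :: u ∧ lab ω u (.tree i) ≤ p) ∨
     (u ≠ [] ∧ level (kids ω) (u.length + 1) ≠ [] ∧ w = upperRight (kids ω) u ∧
       lab ω u .diag ≤ p))

/-- Open horizontal edges at level `p`: `w` is the right neighbour of `u`, where `u` is not the
root, and the edge between them is open. -/
def OpenHor (p : ℝ) (ω : Conf) (u w : Vert) : Prop :=
  InTree (kids ω) u ∧ w = rightNbr (kids ω) u ∧ ∃ i v, u = i :: v ∧ lab ω v (.hor i) ≤ p

/-- One step of an open path: non-horizontal edges only upward, horizontal edges both ways. -/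
def Step (p : ℝ) (ω : Conf) (u w : Vert) : Prop :=
  OpenUp p ω u w ∨ OpenHor p ω u w ∨ OpenHor p ω w u

/-- The cluster of `v`. -/
def cluster (p : ℝ) (ω : Conf) (v : Vert) : Set Vert :=
  {w | Relation.ReflTransGen (Step p ω) v w}

/-- Two vertices are connected in the open subgraph, with orientations forgotten. -/
def Conn (p : ℝ) (ω : Conf) : Vert → Vert → Prop :=
  Relation.ReflTransGen fun a b => Step p ω a b ∨ Step p ω b a

/-- The number of infinite clusters: the number of connected components of the open subgraph
(orientations forgotten) that contain an infinite cluster. -/
noncomputable def numInf (p : ℝ) (ω : Conf) : ℕ∞ :=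
  Set.encard {K : Set Vert | ∃ v, InTree (kids ω) v ∧ (cluster p ω v).Infinite ∧
    K = {w | Conn p ω v w}}

/-- The tree is infinite. -/
def Survives (ω : Conf) : Prop := ∀ r, level (kids ω) r ≠ []

/-- The geometric offspring law with parameter `α`. -/
noncomputable def geo (α : ℝ) : Measure ℕ :=
  Measure.sum fun k => ENNReal.ofReal (α ^ k * (1 - α)) • Measure.dirac k

instance : MeasurableSpace Slot := ⊤

/-- The law of the data stored at one vertex. -/
noncomputable def nodeLaw (α : ℝ) : Measure Node :=
  (geo α).prod (Measure.infinitePi fun _ : Slot => (volume : Measure unitInterval))

/-- The law of the configuration: independent identically distributed data at all vertices. -/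
noncomputable def law (α : ℝ) : Measure Conf := Measure.infinitePi fun _ : Vert => nodeLaw α

/-- The law of the configuration conditioned on survival of the tree. -/
noncomputable def condLaw (α : ℝ) : Measure Conf := ProbabilityTheory.cond (law α) {ω | Survives ω}

/-- The percolation probability. -/
noncomputable def theta (α p : ℝ) : ENNReal := condLaw α {ω | (cluster p ω []).Infinite}

/-- The critical value for the existence of infinite clusters. -/
noncomputable def pc (α : ℝ) : ℝ := sSup {p : ℝ | 0 ≤ p ∧ p ≤ 1 ∧ theta α p = 0}

end CausalPerc
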