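import Pool.Agent.Lib.MP_a51368_pr.Reach

open MeasureTheory ProbabilityTheory Set Measure

namespace CausalPerc

variable (α : ℝ) [GoodParam α]

/-- `w` is the first vertex at level `R` (in some fixed enumeration) of the cluster of `u`. -/
def firstAt (p : ℝ) (u : Vert) (R : ℕ) (w : Vert) : Set Conf :=
  {ω | w.length = R ∧ w ∈ cluster p ω u ∧
    ∀ x : Vert, x.length = R → Encodable.encode x < Encodable.encode w → x ∉ cluster p ω u}

theorem measurableSet_firstAt (p : ℝ) (u : Vert) (R : ℕ) (w : Vert) :
    MeasurableSet (firstAt p u R w) := by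
  have : firstAt p u R w = {ω : Conf | w.length = R} ∩ ({ω : Conf | w ∈ cluster p ω u} ∩
      ⋂ x : Vert, ({ω : Conf | x.length = R → Encodable.encode x < Encodable.encode w → False} ∪
        {ω : Conf | x ∈ cluster p ω u}ᶜ)) := by
    ext ω
    simp only [firstAt, mem_ofPred_eq, mem_inter_iff, mem_iInter, mem_union, mem_compl_iff]
    constructor
    · rintro ⟨h1, h2, h3⟩
      refine ⟨h1, h2, fun x => ?_⟩
      by_cases hx : x.length = R ∧ Encodable.encode x < Encodable.encode w
      · exact Or.inr (h3 x hx.1 hx.2)
      · left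
        intro h4 h5
        exact hx ⟨h4, h5⟩
    · rintro ⟨h1, h2, h3⟩
      refine ⟨h1, h2, fun x h4 h5 => ?_⟩
      rcases h3 x with h6 | h6
      · exact absurd (h6 h4 h5) id
      · exact h6
  rw [this]
  refine (MeasurableSet.const _).inter ((measurableSet_mem_cluster p u w).inter ?_)
  exact MeasurableSet.iInter fun x =>
    (MeasurableSet.const _).union (measurableSet_mem_cluster p u x).compl

theorem dep_firstAt (p : ℝ) (u : Vert) (R : ℕ) (w : Vert) :
    Dep {v | v.length < R} (firstAt p u R w) := by
  rintro ω ω' h ⟨h1, h2, h3⟩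
  refine ⟨h1, reach_congr (fun v hv => h v hv) h1.le h2, fun x hx hxw hx2 => ?_⟩
  exact h3 x hx hxw (reach_congr (fun v hv => (h v hv).symm) hx.le hx2)

theorem firstAt_disjoint (p : ℝ) (u : Vert) (R : ℕ) :
    Pairwise (Function.onFun Disjoint (firstAt p u R)) := by
  intro w w' hww
  rw [Function.onFun, Set.disjoint_left]
  rintro ω ⟨h1, h2, h3⟩ ⟨h1', h2', h3'⟩
  rcases lt_trichotomy (Encodable.encode w) (Encodable.encode w') with h | h | h
  · exact h3' w h1 h h2
  · exact hww (Encodable.encode_injective h)
  · exact h3 w' h1' h h2'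

theorem exists_firstAt {p : ℝ} {u : Vert} {R : ℕ} {ω : Conf}
    (h : ∃ a ∈ cluster p ω u, a.length = R) : ∃ w, ω ∈ firstAt p u R w := by
  classical
  have hex : ∃ n, ∃ a ∈ cluster p ω u, a.length = R ∧ Encodable.encode a = n := by
    obtain ⟨a, ha, ha2⟩ := h
    exact ⟨_, a, ha, ha2, rfl⟩
  obtain ⟨a, ha, ha2, ha3⟩ := Nat.find_spec hex
  refine ⟨a, ha2, ha, fun x hx hxa hx2 => ?_⟩
  exact Nat.find_min hex (m := Encodable.encode x) (by rw [← ha3]; exact hxa) ⟨x, hx2, hx, rfl⟩

/-- The bad event: the cluster of `u` is infinite but contains no vertex whose cone is in `Q`. -/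
def badSet (Q : Set Conf) (p : ℝ) (u : Vert) : Set Conf :=
  {ω | (cluster p ω u).Infinite ∧ ∀ w ∈ cluster p ω u, coneAt w ω ∉ Q}

theorem measurableSet_badSet {Q : Set Conf} (hQ : MeasurableSet Q) (p : ℝ) (u : Vert) :
    MeasurableSet (badSet Q p u) := by
  have : badSet Q p u = {ω : Conf | (cluster p ω u).Infinite} ∩
      ⋂ w : Vert, ({ω : Conf | w ∈ cluster p ω u}ᶜ ∪ (coneAt w ⁻¹' Q)ᶜ) := by
    ext ω
    simp only [badSet, mem_ofPred_eq, mem_inter_iff, mem_iInter, mem_union, mem_compl_iff,
      mem_preimage]
    refine and_congr_right fun _ => forall_congr' fun w => ?_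
    tauto
  rw [this]
  refine (measurableSet_cluster_infinite p u).inter (MeasurableSet.iInter fun w => ?_)
  exact (measurableSet_mem_cluster p u w).compl.union (measurable_coneAt w hQ).compl

theorem badSet_inter_le {Q : Set Conf} (hQ : MeasurableSet Q) (p : ℝ) (u : Vert) {A : Set Conf}
    (hA : MeasurableSet A) {R : ℕ} (hu : u.length ≤ R) (hAd : Dep {v | v.length < R} A) :
    law α (badSet Q p u ∩ A) ≤ (1 - law α Q) * law α A := by
  have h1 : badSet Q p u ∩ A ⊆ ⋃ w : Vert, (A ∩ firstAt p u R w) ∩ (coneAt w ⁻¹' Qᶜ) := by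
    rintro ω ⟨⟨h2, h3⟩, h4⟩
    obtain ⟨w, hw⟩ := exists_firstAt (cluster_reaches h2 hu)
    exact mem_iUnion.2 ⟨w, ⟨h4, hw⟩, h3 w hw.2.1⟩
  have h2 : ∀ w : Vert, law α ((A ∩ firstAt p u R w) ∩ (coneAt w ⁻¹' Qᶜ)) ≤
      (1 - law α Q) * law α (A ∩ firstAt p u R w) := by
    intro w
    by_cases hw : w.length = R
    · rw [law_inter α (S := {v | v.length < R}) (T := {v | w <:+ v}) ?_
        (hA.inter (measurableSet_firstAt p u R w)) (measurable_coneAt w hQ.compl)
        (hAd.inter (dep_firstAt p u R w)) (dep_coneAt w _), law_coneAt α w hQ.compl,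
        prob_compl_eq_one_sub hQ, mul_comm]
      rw [Set.disjoint_left]
      intro v hv hv2
      have := List.IsSuffix.length_le hv2
      have h3 : v.length < R := hv
      omega
    · have : firstAt p u R w = ∅ := by
        ext ω
        simp [firstAt, hw]
      simp [this]
  calc law α (badSet Q p u ∩ A) ≤ ∑' w : Vert, law α ((A ∩ firstAt p u R w) ∩ (coneAt w ⁻¹' Qᶜ)) :=
        (measure_mono h1).trans (measure_iUnion_le _)
    _ ≤ ∑' w : Vert, (1 - law α Q) * law α (A ∩ firstAt p u R w) := ENNReal.tsum_le_tsum h2
    _ = (1 - law α Q) * law α (⋃ w : Vert, A ∩ firstAt p u R w) := by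
        rw [ENNReal.tsum_mul_left, measure_iUnion]
        · intro w w' hww
          exact (firstAt_disjoint p u R hww).mono inter_subset_right inter_subset_right
        · intro w
          exact hA.inter (measurableSet_firstAt p u R w)
    _ ≤ (1 - law α Q) * law α A := by
        gcongr
        exact iUnion_subset fun w => inter_subset_left

/-- Every infinite cluster contains almost surely a vertex whose cone has the property `Q`,
when `Q` has positive probability. -/
theorem law_badSet {Q : Set Conf} (hQ : MeasurableSet Q) (hpos : 0 < law α Q) (p : ℝ) (u : Vert) :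
    law α (badSet Q p u) = 0 := by
  set E := badSet Q p u with hE
  have hEm : MeasurableSet E := measurableSet_badSet hQ p u
  have key : ∀ δ : ENNReal, 0 < δ → δ ≠ ⊤ → law α Q * law α E ≤ 2 * δ := by
    intro δ hδ hδt
    obtain ⟨A, hA, hAE⟩ := exists_measure_symmDiff_lt_of_generateFrom_isSetRing (μ := law α)
      (C := measurableCylinders fun _ : Vert => Node) isSetRing_measurableCylinders
      ⟨{univ}, Set.countable_singleton _,
        Set.singleton_subset_iff.2 (univ_mem_measurableCylinders (fun _ : Vert => Node)), by simp⟩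
      generateFrom_measurableCylinders.symm hEm hδ
    obtain ⟨s, S0, hS0, rfl⟩ := (mem_measurableCylinders _).1 hA
    have hAm : MeasurableSet (cylinder s S0 : Set Conf) := hS0.cylinder s
    set R := max u.length ((s.sup fun v => v.length) + 1) with hR
    have hdep : Dep {v | v.length < R} (cylinder s S0 : Set Conf) := by
      intro ω ω' h hω
      rw [mem_cylinder] at hω ⊢
      have : s.restrict ω' = s.restrict ω := by
        funext v
        have h1 : (v : Vert).length ≤ s.sup fun v => v.length :=
          Finset.le_sup (f := fun v : Vert => v.length) v.2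
        exact (h v (show (v : Vert).length < R by omega)).symm
      rw [this]
      exact hω
    have h1 := badSet_inter_le α hQ p u hAm (R := R) (le_max_left _ _) hdep
    rw [← hE] at h1
    set A : Set Conf := cylinder s S0 with hAdef
    have h2 : law α (E \ A) ≤ δ := (measure_mono (by
      intro x hx; exact Or.inr hx)).trans hAE.le
    have h3 : law α A ≤ law α E + δ := by
      calc law α A ≤ law α (E ∪ (A \ E)) := measure_mono (by
            intro x hx
            by_cases hxE : x ∈ E
            · exact Or.inl hxE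
            · exact Or.inr ⟨hx, hxE⟩)
        _ ≤ law α E + law α (A \ E) := measure_union_le _ _
        _ ≤ law α E + δ := by
            gcongr
            exact (measure_mono (by intro x hx; exact Or.inl hx)).trans hAE.le
    have h4 : law α E ≤ (1 - law α Q) * (law α E + δ) + δ := by
      calc law α E ≤ law α (E ∩ A) + law α (E \ A) := by
            rw [measure_inter_add_sdiff _ hAm]
        _ ≤ (1 - law α Q) * law α A + δ := add_le_add h1 h2
        _ ≤ (1 - law α Q) * (law α E + δ) + δ := by gcongr
    have hQ1 : law α Q ≤ 1 := prob_le_one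
    have h5 : law α E ≤ (1 - law α Q) * law α E + 2 * δ := by
      calc law α E ≤ (1 - law α Q) * (law α E + δ) + δ := h4
        _ = (1 - law α Q) * law α E + ((1 - law α Q) * δ + δ) := by ring
        _ ≤ (1 - law α Q) * law α E + (1 * δ + δ) := by
            gcongr
            exact tsub_le_self
        _ = _ := by ring
    have h6 : law α Q * law α E + (1 - law α Q) * law α E ≤ 2 * δ + (1 - law α Q) * law α E := by
      rw [← add_mul, add_tsub_cancel_of_le hQ1, one_mul, add_comm (2 * δ)]
      exact h5
    refine (ENNReal.add_le_add_iff_right ?_).1 h6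
    exact ENNReal.mul_ne_top (ne_top_of_le_ne_top ENNReal.one_ne_top tsub_le_self)
      (measure_ne_top _ _)
  have h7 : law α Q * law α E = 0 := by
    by_contra hcon
    have hpos2 : 0 < law α Q * law α E := pos_iff_ne_zero.2 hcon
    have hne : law α Q * law α E ≠ ⊤ := ENNReal.mul_ne_top (measure_ne_top _ _)
      (measure_ne_top _ _)
    have h8 := key (law α Q * law α E / 4) (ENNReal.div_pos hcon (by norm_num))
      (ENNReal.div_ne_top hne (by norm_num))
    have h9 : 2 * (law α Q * law α E / 4) < law α Q * law α E := by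
      rw [← mul_div_assoc, ENNReal.div_lt_iff (by norm_num) (by norm_num)]
      rw [mul_comm]
      exact ENNReal.mul_lt_mul_right hcon hne (by norm_num)
    exact absurd h8 (not_le.2 h9)
  rcases mul_eq_zero.1 h7 with h | h
  · exact absurd h hpos.ne'
  · exact h

end CausalPerc
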