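import Pool.Agent.Lib.MP_a51368_pr.Sel

open MeasureTheory ProbabilityTheory Set Measure

namespace CausalPerc

variable {p : ℝ} {ω ω' : Conf} {u v w : Vert}

theorem OpenUp.inTree (h : OpenUp p ω u w) :
    InTree (kids ω) u ∧ InTree (kids ω) w ∧ w.length = u.length + 1 := by
  obtain ⟨h1, ⟨i, hi, rfl, _⟩ | ⟨_, h2, rfl, _⟩⟩ := h
  · exact ⟨h1, inTree_cons.2 ⟨h1, hi⟩, rfl⟩
  · have := inTree_upperRight h1 h2
    exact ⟨h1, this.1, this.2⟩

theorem OpenHor.inTree (h : OpenHor p ω u w) :
    InTree (kids ω) u ∧ InTree (kids ω) w ∧ w.length = u.length := by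
  obtain ⟨h1, rfl, _⟩ := h
  have := inTree_rightNbr h1
  exact ⟨h1, this.1, this.2⟩

theorem Step.inTree (h : Step p ω u w) :
    InTree (kids ω) u ∧ InTree (kids ω) w ∧ u.length ≤ w.length ∧ w.length ≤ u.length + 1 := by
  rcases h with h | h | h
  · have := h.inTree
    exact ⟨this.1, this.2.1, by omega, by omega⟩
  · have := h.inTree
    exact ⟨this.1, this.2.1, by omega, by omega⟩
  · have := h.inTree
    exact ⟨this.2.1, this.1, by omega, by omega⟩

theorem reach_length (h : Relation.ReflTransGen (Step p ω) u w) : u.length ≤ w.length := by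
  induction h with
  | refl => exact le_rfl
  | tail _ h2 ih => exact ih.trans h2.inTree.2.2.1

theorem reach_inTree (h : Relation.ReflTransGen (Step p ω) u w) (hu : InTree (kids ω) u) :
    InTree (kids ω) w := by
  induction h with
  | refl => exact hu
  | tail _ h2 ih => exact h2.inTree.2.1

theorem reach_through (h : Relation.ReflTransGen (Step p ω) u w) {R : ℕ} (h1 : u.length ≤ R)
    (h2 : R ≤ w.length) : ∃ a : Vert, a.length = R ∧ Relation.ReflTransGen (Step p ω) u a ∧
      Relation.ReflTransGen (Step p ω) a w := by
  induction h with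
  | refl => exact ⟨u, by omega, .refl, .refl⟩
  | @tail b c hb hc ih =>
    by_cases hR : R ≤ b.length
    · obtain ⟨a, ha1, ha2, ha3⟩ := ih hR
      exact ⟨a, ha1, ha2, ha3.tail hc⟩
    · have := hc.inTree
      exact ⟨c, by omega, hb.tail hc, .refl⟩

theorem finite_tree_le (t : Vert → ℕ) (R : ℕ) : {v : Vert | InTree t v ∧ v.length ≤ R}.Finite := by
  classical
  apply ((Finset.range (R + 1)).biUnion fun r => (level t r).toFinset).finite_toSet.subset
  rintro v ⟨h1, h2⟩
  simp only [Finset.coe_biUnion, Finset.coe_range, mem_iUnion, List.coe_toFinset]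
  exact ⟨v.length, by simp; omega, h1⟩

theorem inTree_of_cluster_infinite (h : (cluster p ω u).Infinite) : InTree (kids ω) u := by
  by_contra hcon
  apply h
  apply (Set.finite_singleton u).subset
  intro w hw
  rcases Relation.ReflTransGen.cases_head hw with h1 | ⟨c, h1, _⟩
  · exact h1.symm
  · exact absurd h1.inTree.1 hcon

theorem cluster_reaches (h : (cluster p ω u).Infinite) {R : ℕ} (hR : u.length ≤ R) :
    ∃ a ∈ cluster p ω u, a.length = R := by
  have hu := inTree_of_cluster_infinite h
  have h1 : ∃ w ∈ cluster p ω u, R ≤ w.length := by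
    by_contra hcon
    push Not at hcon
    apply h
    apply (finite_tree_le (kids ω) R).subset
    intro w hw
    exact ⟨reach_inTree hw hu, (hcon w hw).le⟩
  obtain ⟨w, hw, hw2⟩ := h1
  obtain ⟨a, ha, ha2, _⟩ := reach_through hw hR hw2
  exact ⟨a, ha2, ha⟩

/-- Steps between vertices up to level `R` only depend on the data below level `R`. -/
theorem step_congr {R : ℕ} (hω : ∀ v : Vert, v.length < R → ω v = ω' v) (hw : w.length ≤ R)
    (hu : u.length ≤ R) (h : Step p ω u w) : Step p ω' u w := by
  have hk : ∀ v : Vert, v.length < R → kids ω v = kids ω' v := fun v hv => by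
    unfold kids; rw [hω v hv]
  have hl : ∀ (v : Vert) (s : Slot), v.length < R → lab ω v s = lab ω' v s := fun v s hv => by
    unfold lab; rw [hω v hv]
  have hup : ∀ {a b : Vert}, b.length ≤ R → OpenUp p ω a b → OpenUp p ω' a b := by
    intro a b hb h
    have hab := h.inTree.2.2
    have haR : a.length < R := by omega
    obtain ⟨h1, h2⟩ := h
    refine ⟨(inTree_congr fun x hx => hk x (by omega)).1 h1, ?_⟩
    rcases h2 with ⟨i, hi, rfl, h3⟩ | ⟨h3, h4, rfl, h5⟩
    · left
      refine ⟨i, by rw [← hk a haR]; exact hi, rfl, by rw [← hl a _ haR]; exact h3⟩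
    · right
      refine ⟨h3, ?_, ?_, by rw [← hl a _ haR]; exact h5⟩
      · rw [← level_congr (t := kids ω) fun x hx => hk x (by omega)]
        exact h4
      · exact upperRight_congr fun x hx => hk x (by omega)
  have hhor : ∀ {a b : Vert}, b.length ≤ R → OpenHor p ω a b → OpenHor p ω' a b := by
    intro a b hb h
    have hab := h.inTree.2.2
    obtain ⟨h1, rfl, i, x, rfl, h3⟩ := h
    have hx : x.length < R := by simp at hab; omega
    refine ⟨(inTree_congr fun y hy => hk y (by simp at hy; omega)).1 h1, ?_, i, x, rfl, ?_⟩
    · exact rightNbr_congr fun y hy => hk y (by simp at hy; omega)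
    · rw [← hl x _ hx]; exact h3
  rcases h with h | h | h
  · exact Or.inl (hup hw h)
  · exact Or.inr (Or.inl (hhor hw h))
  · exact Or.inr (Or.inr (hhor hu h))

theorem reach_congr {R : ℕ} (hω : ∀ v : Vert, v.length < R → ω v = ω' v) (hw : w.length ≤ R)
    (h : Relation.ReflTransGen (Step p ω) u w) : Relation.ReflTransGen (Step p ω') u w := by
  induction h with
  | refl => exact .refl
  | @tail b c hb hc ih =>
    have := hc.inTree
    exact (ih (by omega)).tail (step_congr hω hw (by omega) hc)

theorem dep_reach {R : ℕ} (hw : w.length ≤ R) :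
    Dep {v | v.length < R} {ω | w ∈ cluster p ω u} :=
  fun _ _ h1 h2 => reach_congr (fun v hv => h1 v hv) hw h2

/-! ### Measurability -/

instance instMeasurableSpaceListVert : MeasurableSpace (List Vert) := ⊤

instance : DiscreteMeasurableSpace (List Vert) := ⟨fun _ => trivial⟩

instance instMeasurableSpaceVert : MeasurableSpace Vert := ⊤

instance : DiscreteMeasurableSpace Vert := ⟨fun _ => trivial⟩

theorem measurable_node (v : Vert) : Measurable (fun ω : Conf => ω v) := measurable_pi_apply v

theorem measurable_kids (v : Vert) : Measurable (fun ω : Conf => kids ω v) :=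
  measurable_fst.comp (measurable_node v)

theorem measurable_lab (v : Vert) (s : Slot) : Measurable (fun ω : Conf => lab ω v s) :=
  (measurable_slot s).comp (measurable_snd.comp (measurable_node v))

theorem measurable_flatMap (L : List Vert) :
    Measurable (fun ω : Conf => L.flatMap (children (kids ω))) := by
  induction L with
  | nil => simp
  | cons v L ih =>
    have h1 : (fun ω : Conf => (v :: L).flatMap (children (kids ω))) =
        (fun q : ℕ × List Vert => ((List.range q.1).map fun i => i :: v) ++ q.2) ∘
          (fun ω : Conf => (kids ω v, L.flatMap (children (kids ω)))) := by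
      funext ω
      rfl
    rw [h1]
    exact (Measurable.of_discrete).comp ((measurable_kids v).prodMk ih)

theorem measurable_comp_countable {β γ : Type*} [Countable β] [MeasurableSpace β]
    [DiscreteMeasurableSpace β] [MeasurableSpace γ] {G : β → Conf → γ} {f : Conf → β}
    (hf : Measurable f) (hG : ∀ b, Measurable (G b)) : Measurable (fun ω => G (f ω) ω) := by
  have h1 : Measurable (fun q : β × Conf => G q.1 q.2) :=
    measurable_from_prod_countable_right hG
  exact h1.comp (hf.prodMk measurable_id)

theorem measurable_level (r : ℕ) : Measurable (fun ω : Conf => level (kids ω) r) := by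
  induction r with
  | zero => exact measurable_const
  | succ r ih =>
    simp_rw [level_succ]
    exact measurable_comp_countable (G := fun L ω => L.flatMap (children (kids ω))) ih
      measurable_flatMap

theorem measurable_around (v : Vert) : Measurable (fun ω : Conf => around (kids ω) v) := by
  have : (fun ω : Conf => around (kids ω) v) = (fun l : List Vert => l.rotate (l.idxOf v + 1)) ∘
      (fun ω : Conf => level (kids ω) v.length) := rfl
  rw [this]
  exact (Measurable.of_discrete).comp (measurable_level _)

theorem measurable_rightNbr (v : Vert) : Measurable (fun ω : Conf => rightNbr (kids ω) v) := by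
  have : (fun ω : Conf => rightNbr (kids ω) v) = (fun l : List Vert => l.headD []) ∘
      (fun ω : Conf => around (kids ω) v) := rfl
  rw [this]
  exact (Measurable.of_discrete).comp (measurable_around v)

theorem upperRight_eq_headD (t : Vert → ℕ) (v : Vert) :
    upperRight t v = ((around t v).flatMap (children t)).headD [] := by
  rw [headD_flatMap_children]
  rfl

theorem measurable_upperRight (v : Vert) :
    Measurable (fun ω : Conf => upperRight (kids ω) v) := by
  simp_rw [upperRight_eq_headD]
  have h1 := measurable_comp_countable (G := fun L ω => L.flatMap (children (kids ω)))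
    (measurable_around v) measurable_flatMap
  exact (Measurable.of_discrete (f := fun l : List Vert => l.headD [])).comp h1

theorem measurableSet_inTree (v : Vert) : MeasurableSet {ω : Conf | InTree (kids ω) v} :=
  measurable_level v.length (MeasurableSet.of_discrete (s := {l : List Vert | v ∈ l}))

theorem measurableSet_level_ne (r : ℕ) : MeasurableSet {ω : Conf | level (kids ω) r ≠ []} :=
  measurable_level r (MeasurableSet.of_discrete (s := {l : List Vert | l ≠ []}))

theorem measurableSet_survives : MeasurableSet {ω : Conf | Survives ω} := by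
  have : {ω : Conf | Survives ω} = ⋂ r, {ω : Conf | level (kids ω) r ≠ []} := by
    ext ω; simp [Survives]
  rw [this]
  exact MeasurableSet.iInter measurableSet_level_ne

theorem measurableSet_lab_le (v : Vert) (s : Slot) (p : ℝ) :
    MeasurableSet {ω : Conf | lab ω v s ≤ p} := measurable_lab v s measurableSet_Iic

theorem measurableSet_openUp (p : ℝ) (u w : Vert) : MeasurableSet {ω : Conf | OpenUp p ω u w} := by
  have : {ω : Conf | OpenUp p ω u w} = {ω : Conf | InTree (kids ω) u} ∩
      ((⋃ i : ℕ, {ω : Conf | i < kids ω u} ∩ ({ω : Conf | w = i :: u} ∩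
        {ω : Conf | lab ω u (.tree i) ≤ p})) ∪
       ({ω : Conf | u ≠ []} ∩ ({ω : Conf | level (kids ω) (u.length + 1) ≠ []} ∩
        ({ω : Conf | w = upperRight (kids ω) u} ∩ {ω : Conf | lab ω u .diag ≤ p})))) := by
    ext ω
    simp only [OpenUp, mem_ofPred_eq, mem_inter_iff, mem_union, mem_iUnion]
  rw [this]
  refine (measurableSet_inTree u).inter (MeasurableSet.union ?_ ?_)
  · refine MeasurableSet.iUnion fun i => ?_
    refine MeasurableSet.inter ?_ (MeasurableSet.inter (MeasurableSet.const _)
      (measurableSet_lab_le _ _ _))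
    exact measurable_kids u (MeasurableSet.of_discrete (s := {k : ℕ | i < k}))
  · refine (MeasurableSet.const _).inter ((measurableSet_level_ne _).inter
      (MeasurableSet.inter ?_ (measurableSet_lab_le _ _ _)))
    exact measurable_upperRight u (MeasurableSet.of_discrete (s := {x : Vert | w = x}))

theorem measurableSet_openHor (p : ℝ) (u w : Vert) :
    MeasurableSet {ω : Conf | OpenHor p ω u w} := by
  have : {ω : Conf | OpenHor p ω u w} = {ω : Conf | InTree (kids ω) u} ∩
      ({ω : Conf | w = rightNbr (kids ω) u} ∩
        (⋃ i : ℕ, ⋃ v : Vert, {ω : Conf | u = i :: v} ∩ {ω : Conf | lab ω v (.hor i) ≤ p})) := by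
    ext ω
    simp only [OpenHor, mem_ofPred_eq, mem_inter_iff, mem_iUnion]
  rw [this]
  refine (measurableSet_inTree u).inter (MeasurableSet.inter ?_ ?_)
  · exact measurable_rightNbr u (MeasurableSet.of_discrete (s := {x : Vert | w = x}))
  · exact MeasurableSet.iUnion fun i => MeasurableSet.iUnion fun v =>
      (MeasurableSet.const _).inter (measurableSet_lab_le _ _ _)

theorem measurableSet_step (p : ℝ) (u w : Vert) : MeasurableSet {ω : Conf | Step p ω u w} :=
  (measurableSet_openUp p u w).union ((measurableSet_openHor p u w).union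
    (measurableSet_openHor p w u))

theorem measurableSet_reflTransGen {Ω' : Type*} [MeasurableSpace Ω'] {r : Ω' → Vert → Vert → Prop}
    (h : ∀ a b, MeasurableSet {ω | r ω a b}) (a b : Vert) :
    MeasurableSet {ω | Relation.ReflTransGen (r ω) a b} := by
  let R : ℕ → Vert → Vert → Set Ω' := fun n => Nat.rec (fun a b => {_ω | a = b})
    (fun _ F a b => ⋃ c, F a c ∩ {ω | r ω c b}) n
  have h0 : ∀ a b, R 0 a b = {_ω | a = b} := fun _ _ => rfl
  have h1 : ∀ n a b, R (n + 1) a b = ⋃ c, R n a c ∩ {ω | r ω c b} := fun _ _ _ => rfl
  have hm : ∀ n a b, MeasurableSet (R n a b) := by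
    intro n
    induction n with
    | zero => intro a b; rw [h0]; exact MeasurableSet.const _
    | succ n ih =>
      intro a b
      rw [h1]
      exact MeasurableSet.iUnion fun c => (ih a c).inter (h c b)
  have h2 : {ω | Relation.ReflTransGen (r ω) a b} = ⋃ n, R n a b := by
    ext ω
    simp only [mem_ofPred_eq, mem_iUnion]
    constructor
    · intro h
      induction h with
      | refl => exact ⟨0, by rw [h0]; rfl⟩
      | @tail c d _ hcd ih =>
        obtain ⟨n, hn⟩ := ih
        refine ⟨n + 1, ?_⟩
        rw [h1]
        exact mem_iUnion.2 ⟨c, hn, hcd⟩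
    · rintro ⟨n, hn⟩
      induction n generalizing b with
      | zero =>
        rw [h0] at hn
        have : a = b := hn
        rw [this]
      | succ n ih =>
        rw [h1] at hn
        obtain ⟨c, hc1, hc2⟩ := mem_iUnion.1 hn
        exact (ih c hc1).tail hc2
  rw [h2]
  exact MeasurableSet.iUnion fun n => hm n a b

theorem measurableSet_mem_cluster (p : ℝ) (u w : Vert) :
    MeasurableSet {ω : Conf | w ∈ cluster p ω u} :=
  measurableSet_reflTransGen (fun a b => measurableSet_step p a b) u w

theorem measurableSet_conn (p : ℝ) (u w : Vert) : MeasurableSet {ω : Conf | Conn p ω u w} :=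
  measurableSet_reflTransGen (fun a b => (measurableSet_step p a b).union
    (measurableSet_step p b a)) u w

theorem measurableSet_infinite {Ω' : Type*} [MeasurableSpace Ω'] {s : Ω' → Set Vert}
    (h : ∀ w, MeasurableSet {ω | w ∈ s ω}) : MeasurableSet {ω | (s ω).Infinite} := by
  have : {ω | (s ω).Infinite} = ⋂ F : Finset Vert, ⋃ w : Vert, {ω | w ∉ F} ∩ {ω | w ∈ s ω} := by
    ext ω
    simp only [mem_ofPred_eq, mem_iInter, mem_iUnion]
    constructor
    · intro h F
      obtain ⟨w, hw, hw2⟩ := h.exists_notMem_finset F
      exact ⟨w, hw2, hw⟩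
    · intro h hfin
      obtain ⟨w, hw, hw2⟩ := h hfin.toFinset
      exact hw (by simpa using hw2)
  rw [this]
  exact MeasurableSet.iInter fun F => MeasurableSet.iUnion fun w =>
    (MeasurableSet.const _).inter (h w)

theorem measurableSet_cluster_infinite (p : ℝ) (u : Vert) :
    MeasurableSet {ω : Conf | (cluster p ω u).Infinite} :=
  measurableSet_infinite (measurableSet_mem_cluster p u)

end CausalPerc
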