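import Pool.Agent.Lib.MP_a51368_pr.SectorM2
import Pool.Agent.Lib.MP_a51368_pr.Sector3
import Pool.Agent.Lib.MP_a51368_pr.SelM

open MeasureTheory ProbabilityTheory Set Measure

namespace CausalPerc

variable {p : ℝ} {n m s r : ℕ}

/-! ### Measurability -/

/-- The slots that must be closed for the cut `j` to be available at a vertex with `k` children. -/
def cutSlots (m : Bool) (j k : ℕ) : Finset Slot :=
  if m = true then slotsB j k else (Finset.range (j + 1)).image Slot.tree ∪ {.hor j}

theorem cut_set (p : ℝ) (m : Bool) (j : ℕ) :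
    {x : Node | Cut p m x j} = boxSet p {k | j < k} (cutSlots m j) := by
  ext x
  cases m
  · simp only [Cut, CutL, mem_ofPred_eq, boxSet, cutSlots, Bool.false_eq_true, if_false,
      false_and, true_and, false_or, Finset.mem_union, Finset.mem_image, Finset.mem_range,
      Finset.mem_singleton]
    constructor
    · rintro ⟨h1, h2, h3⟩
      refine ⟨h1, ?_⟩
      rintro s (⟨a, ha, rfl⟩ | rfl)
      · exact h3 a (by omega)
      · exact h2
    · rintro ⟨h1, h2⟩
      exact ⟨h1, h2 _ (Or.inr rfl), fun i' hi' => h2 _ (Or.inl ⟨i', by omega, rfl⟩)⟩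
  · simp only [Cut, CutR, mem_ofPred_eq, boxSet, cutSlots, slotsB, if_true, true_and,
      Bool.true_eq_false, false_and, or_false, Finset.mem_union, Finset.mem_image,
      Finset.mem_Ioo, Finset.mem_insert, Finset.mem_singleton]
    constructor
    · rintro ⟨h1, h2, h3, h4⟩
      refine ⟨h1, ?_⟩
      rintro s (⟨a, ha, rfl⟩ | rfl | rfl)
      · exact h4 a ha.1 ha.2
      · exact h3
      · exact h2
    · rintro ⟨h1, h2⟩
      exact ⟨h1, h2 _ (Or.inr (Or.inr rfl)), h2 _ (Or.inr (Or.inl rfl)),
        fun i' hi' hi2 => h2 _ (Or.inl ⟨i', ⟨hi', hi2⟩, rfl⟩)⟩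

theorem measurableSet_cut (p : ℝ) (m : Bool) (j : ℕ) : MeasurableSet {x : Node | Cut p m x j} := by
  rw [cut_set]
  exact measurableSet_boxSet _ _ _

theorem measurableSet_child (p : ℝ) (m : Bool) (i : ℕ) (m' : Bool) :
    MeasurableSet {x : Node | Child p m x i m'} := by
  have h1 : MeasurableSet {x : Node | i < x.1} :=
    measurable_fst (MeasurableSet.of_discrete (s := {k : ℕ | i < k}))
  exact h1.inter ((MeasurableSet.const _).inter (measurableSet_cut p m _))

theorem psurv_succ_eq (p : ℝ) (n : ℕ) (m : Bool) : psurv p (n + 1) m =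
    ⋃ i : ℕ, ⋃ m' : Bool, ((fun ω : Conf => ω []) ⁻¹' {x | Child p m x i m'}) ∩
      (coneAt [i] ⁻¹' psurv p n m') := by
  ext ω
  simp only [psurv, mem_ofPred_eq, mem_iUnion, mem_inter_iff, mem_preimage]

theorem measurableSet_psurv (p : ℝ) (n : ℕ) (m : Bool) : MeasurableSet (psurv p n m) := by
  induction n generalizing m with
  | zero => exact MeasurableSet.univ
  | succ n ih =>
    rw [psurv_succ_eq]
    exact MeasurableSet.iUnion fun i => MeasurableSet.iUnion fun m' =>
      (measurable_root (measurableSet_child p m i m')).inter (measurable_coneAt _ (ih m'))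

theorem measurableSet_psurvInf (p : ℝ) (m : Bool) : MeasurableSet (psurvInf p m) :=
  MeasurableSet.iInter fun n => measurableSet_psurv p n m

theorem measurableSet_goodCh (p : ℝ) (m : Bool) (i : ℕ) (m' : Bool) :
    MeasurableSet {c : Conf | GoodCh p m c i m'} :=
  (measurable_root (measurableSet_child p m i m')).inter
    (measurable_coneAt [i] (measurableSet_psurvInf p m'))

theorem measurable_sInf_nat {P : ℕ → Set Conf} (hP : ∀ i, MeasurableSet (P i)) :
    Measurable (fun c => sInf {i | c ∈ P i}) := by
  refine measurable_to_countable' fun i => ?_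
  have h1 : (fun c => sInf {i | c ∈ P i}) ⁻¹' {i} =
      (P i ∩ ⋂ j : ℕ, ({_c : Conf | ¬ j < i} ∪ (P j)ᶜ)) ∪
      ({_c : Conf | i = 0} ∩ ⋂ j : ℕ, (P j)ᶜ) := by
    ext c
    simp only [mem_preimage, mem_singleton_iff, mem_union, mem_inter_iff, mem_iInter,
      mem_compl_iff, mem_ofPred_eq]
    constructor
    · intro h
      by_cases hne : ∃ j, c ∈ P j
      · left
        have h2 := Nat.sInf_mem (s := {j | c ∈ P j}) hne
        rw [h] at h2
        refine ⟨h2, fun j => ?_⟩
        by_cases hj : j < i
        · right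
          intro h3
          have := Nat.sInf_le (s := {j | c ∈ P j}) h3
          omega
        · exact Or.inl hj
      · right
        push Not at hne
        have h2 : {j | c ∈ P j} = ∅ := by
          ext j
          simp only [mem_ofPred_eq, mem_empty_iff_false, iff_false]
          exact hne j
        rw [h2, Nat.sInf_empty] at h
        exact ⟨h.symm, hne⟩
    · rintro (⟨h1, h2⟩ | ⟨h1, h2⟩)
      · have h3 := Nat.sInf_le (s := {j | c ∈ P j}) h1
        have h4 := Nat.sInf_mem (s := {j | c ∈ P j}) ⟨i, h1⟩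
        rcases h2 (sInf {j | c ∈ P j}) with h5 | h5
        · omega
        · exact absurd h4 h5
      · have h3 : {j | c ∈ P j} = ∅ := by
          ext j
          simp only [mem_ofPred_eq, mem_empty_iff_false, iff_false]
          exact h2 j
        rw [h3, Nat.sInf_empty, h1]
  rw [h1]
  refine MeasurableSet.union ?_ ?_
  · refine (hP i).inter (MeasurableSet.iInter fun j => ?_)
    exact (MeasurableSet.const _).union (hP j).compl
  · exact (MeasurableSet.const _).inter (MeasurableSet.iInter fun j => (hP j).compl)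

theorem measurable_nextIdxM (p : ℝ) (m : Bool) : Measurable (nextIdxM p m) := by
  have h : ∀ i, MeasurableSet {c : Conf | ∃ m', GoodCh p m c i m'} := by
    intro i
    have : {c : Conf | ∃ m', GoodCh p m c i m'} = ⋃ m' : Bool, {c : Conf | GoodCh p m c i m'} := by
      ext c; simp
    rw [this]
    exact MeasurableSet.iUnion fun m' => measurableSet_goodCh p m i m'
  exact measurable_sInf_nat h

theorem measurable_nextModeM (p : ℝ) (m : Bool) : Measurable (nextModeM p m) := by
  have h1 : ∀ b, MeasurableSet (nextModeM p m ⁻¹' {b}) → MeasurableSet (nextModeM p m ⁻¹' {b}) :=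
    fun _ h => h
  have h2 : nextModeM p m ⁻¹' {true} =
      ⋃ i : ℕ, {c : Conf | nextIdxM p m c = i} ∩ {c : Conf | GoodCh p m c i true} := by
    ext c
    simp only [mem_preimage, mem_singleton_iff, nextModeM, decide_eq_true_eq, mem_iUnion,
      mem_inter_iff, mem_ofPred_eq]
    constructor
    · intro h
      exact ⟨_, rfl, h⟩
    · rintro ⟨i, rfl, h⟩
      exact h
  have h3 : MeasurableSet (nextModeM p m ⁻¹' {true}) := by
    rw [h2]
    refine MeasurableSet.iUnion fun i => MeasurableSet.inter ?_ (measurableSet_goodCh p m i true)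
    exact measurable_nextIdxM p m (MeasurableSet.of_discrete (s := {k : ℕ | k = i}))
  refine measurable_to_countable' fun b => ?_
  cases b
  · have : nextModeM p m ⁻¹' {false} = (nextModeM p m ⁻¹' {true})ᶜ := by
      ext c
      simp
    rw [this]
    exact h3.compl
  · exact h3

theorem measurable_bool_comp {X : Type*} [MeasurableSpace X] {f : Bool → Conf → X}
    (hf : ∀ m, Measurable (f m)) {g : Conf → Bool} (hg : Measurable g) {h : Conf → Conf}
    (hh : Measurable h) : Measurable (fun ω => f (g ω) (h ω)) := by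
  have h1 : (fun ω => f (g ω) (h ω)) =
      fun ω => if g ω = true then f true (h ω) else f false (h ω) := by
    funext ω
    cases g ω <;> simp
  rw [h1]
  refine Measurable.ite ?_ ((hf true).comp hh) ((hf false).comp hh)
  exact hg (MeasurableSet.of_discrete (s := {b : Bool | b = true}))

theorem measurable_mdM (p : ℝ) (v : Vert) : Measurable (fun ω => mdM p ω v) := by
  induction v with
  | nil => exact measurable_const
  | cons i u ih =>
    cases u with
    | nil => exact measurable_const
    | cons j u =>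
      exact measurable_bool_comp (f := nextModeM p) (measurable_nextModeM p) ih
        (measurable_coneAt (j :: u))

theorem measurable_nuM (p : ℝ) (v : Vert) : Measurable (fun ω => nuM p ω v) :=
  measurable_bool_comp (f := nextIdxM p) (measurable_nextIdxM p) (measurable_mdM p v)
    (measurable_coneAt v)

theorem measurable_beM (p : ℝ) (v : Vert) : Measurable (fun ω => beM p ω v) := by
  have h1 : Measurable (fun ω => nextModeM p (mdM p ω v) (coneAt v ω)) :=
    measurable_bool_comp (f := nextModeM p) (measurable_nextModeM p) (measurable_mdM p v)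
      (measurable_coneAt v)
  have h2 : Measurable (fun q : ℕ × Bool => cutIdx q.1 q.2) := measurable_from_prod_countable_left
    (fun _ => Measurable.of_discrete)
  exact h2.comp ((measurable_nuM p v).prodMk h1)

theorem measurableSet_isRay (p : ℝ) (v : Vert) :
    MeasurableSet {ω : Conf | IsRay (nuM p ω) v} := by
  induction v with
  | nil => exact MeasurableSet.empty
  | cons i u ih =>
    have : {ω : Conf | IsRay (nuM p ω) (i :: u)} = {_ω : Conf | u = []} ∪
        ({ω : Conf | IsRay (nuM p ω) u} ∩ {ω : Conf | i = nuM p ω u}) := by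
      ext ω
      simp only [mem_ofPred_eq, isRay_cons, mem_union, mem_inter_iff]
    rw [this]
    refine (MeasurableSet.const _).union (ih.inter ?_)
    exact measurable_nuM p u (MeasurableSet.of_discrete (s := {k : ℕ | i = k}))

theorem measurableSet_rtM (p : ℝ) (v : Vert) :
    MeasurableSet {ω : Conf | RtM (nuM p ω) (beM p ω) v} := by
  induction v with
  | nil => exact MeasurableSet.empty
  | cons i u ih =>
    have : {ω : Conf | RtM (nuM p ω) (beM p ω) (i :: u)} =
        ({ω : Conf | IsRay (nuM p ω) u} ∩ {ω : Conf | beM p ω u < i}) ∪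
        ({ω : Conf | IsRay (nuM p ω) u}ᶜ ∩ {ω : Conf | RtM (nuM p ω) (beM p ω) u}) := by
      ext ω
      simp only [mem_ofPred_eq, rtM_cons, mem_union, mem_inter_iff, mem_compl_iff]
    rw [this]
    refine ((measurableSet_isRay p u).inter ?_).union ((measurableSet_isRay p u).compl.inter ih)
    exact measurable_beM p u (MeasurableSet.of_discrete (s := {k : ℕ | k < i}))

theorem measurableSet_secInfM (p : ℝ) (n s : ℕ) :
    MeasurableSet {ω : Conf | SecInfM p n s ω} := by
  have : {ω : Conf | SecInfM p n s ω} = ⋃ u : Vert,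
      ({_ω : Conf | u ≠ []} ∩
        (({_ω : Conf | top u = s} ∩ {ω : Conf | RtM (nuM p ω) (beM p ω) u}) ∪
        ({_ω : Conf | top u = (s + 1) % n} ∩ {ω : Conf | RtM (nuM p ω) (beM p ω) u}ᶜ))) ∩
        {ω : Conf | (cluster p ω u).Infinite} := by
    ext ω
    simp only [SecInfM, InSecM, mem_ofPred_eq, mem_iUnion, mem_inter_iff, mem_union,
      mem_compl_iff]
  rw [this]
  refine MeasurableSet.iUnion fun u => MeasurableSet.inter ((MeasurableSet.const _).inter ?_)
    (measurableSet_cluster_infinite p u)
  exact ((MeasurableSet.const _).inter (measurableSet_rtM p u)).union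
    ((MeasurableSet.const _).inter (measurableSet_rtM p u).compl)

/-! ### The canonical pair configuration -/

theorem barConfM_pair (hp : p < 1) {q : Conf × Conf} (h1 : q.1 ∈ psurvInf p true)
    (h2 : q.2 ∈ psurvInf p true) : BarConfM p 2 (pair q) where
  hn := le_rfl
  root := by simp [kids, pair]
  closedT := fun s _ => by simp [lab, pair, hp]
  closedH := fun s _ => by simp [lab, pair, hp]
  cone := fun s hs => by
    interval_cases s
    · rw [coneAt_pair_zero]; exact h1
    · rw [coneAt_pair_one]; exact h2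

/-- Pairs of barrier cones having an infinite cluster in the sector between them. -/
def pairXM (p : ℝ) : Set (Conf × Conf) :=
  {q | (q.1 ∈ psurvInf p true ∧ q.2 ∈ psurvInf p true) ∧ SecInfM p 2 0 (pair q)}

theorem measurableSet_pairXM (p : ℝ) : MeasurableSet (pairXM p) := by
  have h := measurableSet_psurvInf p true
  exact ((measurable_fst h).inter (measurable_snd h)).inter
    (measurable_pair (measurableSet_secInfM p 2 0))

theorem BarConfM.secInf_iff {ω : Conf} (hp : p < 1) (B : BarConfM p n ω) (hs : s < n) :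
    SecInfM p n s ω ↔ (coneAt [s] ω, coneAt [(s + 1) % n] ω) ∈ pairXM p := by
  have hn := B.hn
  have h1 := B.cone s hs
  have h2 := B.cone ((s + 1) % n) (Nat.mod_lt _ (by omega))
  set q : Conf × Conf := (coneAt [s] ω, coneAt [(s + 1) % n] ω) with hq
  have B' : BarConfM p 2 (pair q) := barConfM_pair hp h1 h2
  have e1 : coneAt [s] ω = coneAt [0] (pair q) := by rw [coneAt_pair_zero]
  have e2 : coneAt [(s + 1) % n] ω = coneAt [(0 + 1) % 2] (pair q) := by
    show _ = coneAt [1] (pair q)
    rw [coneAt_pair_one]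
  constructor
  · intro h
    exact ⟨⟨h1, h2⟩, transferM_secInf B B' hs (by norm_num) e1 e2 h⟩
  · intro h
    exact transferM_secInf B' B (by norm_num) hs e1.symm e2.symm h.2

theorem BarConfM.survives {ω : Conf} (B : BarConfM p n ω) : Survives ω := by
  have h1 : ∀ r, ∃ (v : Vert) (m : Bool), v.length = r + 1 ∧ InTree (kids ω) v ∧
      coneAt v ω ∈ psurvInf p m := by
    intro r
    induction r with
    | zero =>
      refine ⟨[0], true, rfl, inTree_cons.2 ⟨inTree_nil, ?_⟩,
        B.cone 0 (by have := B.hn; omega)⟩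
      rw [B.root]; have := B.hn; omega
    | succ r ih =>
      obtain ⟨v, m, hv1, hv2, hv3⟩ := ih
      obtain ⟨i, m', hi, h2⟩ := psurvInf_step hv3
      rw [coneAt_coneAt] at h2
      have h3 : coneAt v ω [] = ω v := by simp [coneAt]
      rw [h3] at hi
      exact ⟨i :: v, m', by simp [hv1], inTree_cons.2 ⟨hv2, hi.1⟩, h2⟩
  intro r
  cases r with
  | zero => simp [level]
  | succ r =>
    obtain ⟨v, _, hv1, hv2, _⟩ := h1 r
    intro h0
    have := mem_level_iff.2 ⟨hv1, hv2⟩
    rw [h0] at this
    simp at this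

/-! ### Probabilities -/

variable (α : ℝ) [GoodParam α]

theorem barConfM_iff (hn : 2 ≤ n) (ω : Conf) : BarConfM p n ω ↔
    ω [] ∈ rootSet p n ∧ ∀ s < n, cones ω s ∈ psurvInf p true := by
  constructor
  · intro B
    refine ⟨⟨B.root, ?_⟩, B.cone⟩
    intro x hx
    simp only [Finset.mem_union, Finset.mem_image, Finset.mem_range] at hx
    rcases hx with ⟨a, ha, rfl⟩ | ⟨a, ha, rfl⟩
    · exact B.closedT a ha
    · exact B.closedH a ha
  · rintro ⟨⟨h1, h2⟩, h3⟩
    refine ⟨hn, h1, fun s hs => h2 _ ?_, fun s hs => h2 _ ?_, h3⟩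
    · simp [hs]
    · simp [hs]

/-- If barriers exist with positive probability, then with positive probability the number of
infinite clusters is not one. -/
theorem barrierM_nonunique (hp0 : 0 ≤ p) (hp : p < 1) (hβ : 0 < law α (psurvInf p true)) :
    law α {ω | Survives ω ∧ ¬ (HasInf p ω ∧ ¬ TwoInf p ω)} ≠ 0 := by
  intro hnull
  set Q := psurvInf p true with hQdef
  have hQ : MeasurableSet Q := measurableSet_psurvInf p true
  set κ := (law α).prod (law α) (pairXM p) with hκ
  set β := law α Q with hβdef
  -- the key identity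
  have key : ∀ n, 2 ≤ n → conesLaw α {c | ∀ s < n, c s ∈ Q} =
      ∑ s ∈ Finset.range n,
        conesLaw α {c | (∀ s < n, c s ∈ Q) ∧ (c s, c ((s + 1) % n)) ∈ pairXM p} := by
    intro n hn
    have hC0 : MeasurableSet {c : ℕ → Conf | ∀ s < n, c s ∈ Q} := by
      have : {c : ℕ → Conf | ∀ s < n, c s ∈ Q} = ⋂ s ∈ Finset.range n, (fun c => c s) ⁻¹' Q := by
        ext c; simp
      rw [this]
      exact Finset.measurableSet_biInter _ fun s _ => measurable_pi_apply s hQ
    have hC1 : ∀ s, MeasurableSet {c : ℕ → Conf | (∀ s < n, c s ∈ Q) ∧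
        (c s, c ((s + 1) % n)) ∈ pairXM p} := by
      intro s
      have hm : Measurable (fun c : ℕ → Conf => (c s, c ((s + 1) % n))) := by fun_prop
      exact hC0.inter (hm (measurableSet_pairXM p))
    have hG : ∀ C : Set (ℕ → Conf), MeasurableSet C →
        law α {ω | ω [] ∈ rootSet p n ∧ cones ω ∈ C} = nodeLaw α (rootSet p n) * conesLaw α C :=
      fun C hC => law_root_cones α (measurableSet_rootSet p n) hC
    have e1 : law α {ω | ω [] ∈ rootSet p n ∧ cones ω ∈ {c : ℕ → Conf | ∀ s < n, c s ∈ Q}} =
        ∑ s ∈ Finset.range n, law α {ω | ω [] ∈ rootSet p n ∧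
          cones ω ∈ {c : ℕ → Conf | (∀ s < n, c s ∈ Q) ∧ (c s, c ((s + 1) % n)) ∈ pairXM p}} := by
      have hbar : ∀ ω : Conf, ω ∈ {ω : Conf | ω [] ∈ rootSet p n ∧
          cones ω ∈ {c : ℕ → Conf | ∀ s < n, c s ∈ Q}} ↔ BarConfM p n ω := fun ω =>
        (barConfM_iff hn ω).symm
      have hsec : ∀ s < n, ∀ ω : Conf, ω ∈ {ω : Conf | ω [] ∈ rootSet p n ∧
          cones ω ∈ {c : ℕ → Conf | (∀ s < n, c s ∈ Q) ∧
            (c s, c ((s + 1) % n)) ∈ pairXM p}} ↔ BarConfM p n ω ∧ SecInfM p n s ω := by
        intro s hs ω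
        constructor
        · rintro ⟨h1, h2, h3⟩
          have B := (barConfM_iff hn ω).2 ⟨h1, h2⟩
          exact ⟨B, (B.secInf_iff hp hs).2 h3⟩
        · rintro ⟨B, h⟩
          have := (barConfM_iff hn ω).1 B
          exact ⟨this.1, this.2, (B.secInf_iff hp hs).1 h⟩
      rw [← measure_biUnion_finset₀]
      · apply le_antisymm
        · have hsub : {ω : Conf | ω [] ∈ rootSet p n ∧
              cones ω ∈ {c : ℕ → Conf | ∀ s < n, c s ∈ Q}} ⊆
              (⋃ s ∈ Finset.range n, {ω : Conf | ω [] ∈ rootSet p n ∧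
                cones ω ∈ {c : ℕ → Conf | (∀ s < n, c s ∈ Q) ∧
                  (c s, c ((s + 1) % n)) ∈ pairXM p}}) ∪
              {ω | Survives ω ∧ ¬ (HasInf p ω ∧ ¬ TwoInf p ω)} := by
            intro ω hω
            have B := (hbar ω).1 hω
            by_cases hcase : HasInf p ω ∧ ¬ TwoInf p ω
            · left
              obtain ⟨s, hs, h1⟩ := B.exists_secInf hcase.1
              simp only [mem_iUnion]
              exact ⟨s, Finset.mem_range.2 hs, (hsec s hs ω).2 ⟨B, h1⟩⟩
            · right
              exact ⟨B.survives, hcase⟩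
          calc _ ≤ _ := measure_mono hsub
            _ ≤ _ := measure_union_le _ _
            _ = _ := by rw [hnull, add_zero]
        · apply measure_mono
          intro ω hω
          simp only [mem_iUnion] at hω
          obtain ⟨s, hs, h1⟩ := hω
          exact (hbar ω).2 ((hsec s (Finset.mem_range.1 hs) ω).1 h1).1
      · intro a ha b hb hab
        have ha' := Finset.mem_range.1 (Finset.mem_coe.1 ha)
        have hb' := Finset.mem_range.1 (Finset.mem_coe.1 hb)
        refine measure_mono_null ?_ hnull
        rintro ω ⟨h1, h2⟩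
        have h3 := (hsec a ha' ω).1 h1
        have h4 := (hsec b hb' ω).1 h2
        refine ⟨h3.1.survives, fun h5 => h5.2 ?_⟩
        exact h3.1.twoInf ha' hb' hab h3.2 h4.2
      · intro s _
        refine MeasurableSet.nullMeasurableSet ?_
        exact measurable_split ((measurableSet_rootSet p n).prod (hC1 s))
    rw [hG _ hC0] at e1
    simp_rw [hG _ (hC1 _)] at e1
    rw [← Finset.mul_sum] at e1
    exact (ENNReal.mul_right_inj (rootSet_pos α hp0 hp n) (measure_ne_top _ _)).1 e1
  have hβ2 : conesLaw α {c | ∀ s < 2, c s ∈ Q} = β ^ 2 := by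
    have : {c : ℕ → Conf | ∀ s < 2, c s ∈ Q} =
        Set.pi (Finset.range 2 : Set ℕ) fun _ => Q := by
      ext c; simp
    rw [this, Measure.infinitePi_pi _ fun _ _ => hQ]
    simp [hβdef]
  have hβ3 : conesLaw α {c | ∀ s < 3, c s ∈ Q} = β ^ 3 := by
    have : {c : ℕ → Conf | ∀ s < 3, c s ∈ Q} =
        Set.pi (Finset.range 3 : Set ℕ) fun _ => Q := by
      ext c; simp
    rw [this, Measure.infinitePi_pi _ fun _ _ => hQ]
    simp [hβdef]
  have hX := measurableSet_pairXM p
  have k2 : ∀ s < 2, conesLaw α {c | (∀ s < 2, c s ∈ Q) ∧ (c s, c ((s + 1) % 2)) ∈ pairXM p} =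
      κ := by
    intro s hs
    have hne : s ≠ (s + 1) % 2 := by omega
    rw [hκ, ← conesLaw_pair α hX hne]
    congr 1
    ext c
    constructor
    · exact fun h => h.2
    · intro h
      refine ⟨fun s' hs' => ?_, h⟩
      have h1 : c s ∈ Q := h.1.1
      have h2 : c ((s + 1) % 2) ∈ Q := h.1.2
      by_cases e : s' = s
      · rw [e]; exact h1
      · have : s' = (s + 1) % 2 := by omega
        rw [this]; exact h2
  have k3 : ∀ s < 3, conesLaw α {c | (∀ s < 3, c s ∈ Q) ∧ (c s, c ((s + 1) % 3)) ∈ pairXM p} =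
      κ * β := by
    intro s hs
    rw [hκ, hβdef, ← conesLaw_triple α hX hQ (i := s) (j := (s + 1) % 3) (k := (s + 2) % 3)
      (by omega) (by omega) (by omega)]
    congr 1
    ext c
    constructor
    · exact fun h => ⟨h.2, h.1 _ (by omega)⟩
    · rintro ⟨h, h3⟩
      refine ⟨fun s' hs' => ?_, h⟩
      have h1 : c s ∈ Q := h.1.1
      have h2 : c ((s + 1) % 3) ∈ Q := h.1.2
      by_cases e : s' = s
      · rw [e]; exact h1
      · by_cases e' : s' = (s + 1) % 3
        · rw [e']; exact h2
        · have : s' = (s + 2) % 3 := by omega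
          rw [this]; exact h3
  have E2 := key 2 le_rfl
  have E3 := key 3 (by norm_num)
  rw [hβ2, Finset.sum_congr rfl fun s hs => k2 s (Finset.mem_range.1 hs)] at E2
  rw [hβ3, Finset.sum_congr rfl fun s hs => k3 s (Finset.mem_range.1 hs)] at E3
  simp only [Finset.sum_const, Finset.card_range, nsmul_eq_mul] at E2 E3
  have hβt : β ≠ ⊤ := measure_ne_top _ _
  have hκt : κ ≠ ⊤ := measure_ne_top _ _
  have hβ0 : β ≠ 0 := hβ.ne'
  have E4 : β ^ 2 = 3 * κ := by
    have : β ^ 2 * β = (3 * κ) * β := by
      rw [← pow_succ]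
      rw [E3]
      push_cast
      ring
    exact (ENNReal.mul_left_inj hβ0 hβt).1 this
  rw [E2] at E4
  have E5 : κ = 0 := by
    have h1 : (2 : ENNReal) * κ + 0 = 2 * κ + κ := by
      rw [add_zero]
      calc (2 : ENNReal) * κ = 3 * κ := by simpa using E4
        _ = 2 * κ + κ := by ring
    exact ((ENNReal.add_right_inj (ENNReal.mul_ne_top (by norm_num) hκt)).1 h1).symm
  rw [E5] at E2
  simp at E2
  exact hβ0 E2

end CausalPerc
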