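import Pool.Agent.Lib.MP_a51368_pr.BranchM
import Pool.Agent.Lib.MP_a51368_pr.SectorM3

/-!
# A supercritical sub-rule of the two-mode barrier process
-/

open MeasureTheory ProbabilityTheory Set Measure

namespace CausalPerc

/-- Children followed with the barrier on their left. -/
def SelL (p : ℝ) (m : Bool) (x : Node) (i : ℕ) : Prop := i < x.1 ∧ 0 < i ∧ Cut p m x (i - 1)

theorem measurableSet_selL (p : ℝ) (m : Bool) (i : ℕ) :
    MeasurableSet {x : Node | SelL p m x i} := by
  have h1 : MeasurableSet {x : Node | i < x.1} :=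
    measurable_fst (MeasurableSet.of_discrete (s := {k : ℕ | i < k}))
  exact h1.inter ((MeasurableSet.const _).inter (measurableSet_cut p m _))

open Classical in
/-- The rule which gives every child at most one mode, preferring the left one. -/
noncomputable def abRule (p : ℝ) : Rule Bool where
  S := fun m x => (Finset.range x.1).filter fun i => SelL p m x i ∨ Cut p m x i
  ty := fun m x i => !decide (SelL p m x i)
  meas := fun m m' i => by
    have h1 : MeasurableSet {x : Node | i < x.1} :=
      measurable_fst (MeasurableSet.of_discrete (s := {k : ℕ | i < k}))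
    cases m'
    · have : {x : Node | i ∈ (Finset.range x.1).filter (fun i => SelL p m x i ∨ Cut p m x i) ∧
          (!decide (SelL p m x i)) = false} = {x : Node | SelL p m x i} := by
        ext x
        simp only [Finset.mem_filter, Finset.mem_range, mem_ofPred_eq, Bool.not_eq_false',
          decide_eq_true_eq]
        constructor
        · exact fun h => h.2
        · exact fun h => ⟨⟨h.1, Or.inl h⟩, h⟩
      rw [this]
      exact measurableSet_selL p m i
    · have : {x : Node | i ∈ (Finset.range x.1).filter (fun i => SelL p m x i ∨ Cut p m x i) ∧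
          (!decide (SelL p m x i)) = true} = {x : Node | Cut p m x i} \ {x : Node | SelL p m x i} := by
        ext x
        simp only [Finset.mem_filter, Finset.mem_range, mem_ofPred_eq, Bool.not_eq_true',
          decide_eq_false_iff_not, mem_sdiff]
        constructor
        · rintro ⟨⟨_, h | h⟩, h2⟩
          · exact absurd h h2
          · exact ⟨h, h2⟩
        · rintro ⟨h, h2⟩
          refine ⟨⟨?_, Or.inr h⟩, h2⟩
          rcases h with ⟨_, h⟩ | ⟨_, h⟩
          · exact h.1
          · exact h.1
      rw [this]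
      exact (measurableSet_cut p m i).diff (measurableSet_selL p m i)

theorem msurv_ab_subset (p : ℝ) (n : ℕ) (m : Bool) : msurv (abRule p) n m ⊆ psurv p n m := by
  classical
  induction n generalizing m with
  | zero => exact subset_univ _
  | succ n ih =>
    rintro ω ⟨i, hi, h⟩
    have h1 := ih _ h
    simp only [abRule, Finset.mem_filter, Finset.mem_range] at hi h1
    by_cases hL : SelL p m (ω []) i
    · have e : (!decide (SelL p m (ω []) i)) = false := by simp [hL]
      rw [e] at h1
      exact ⟨i, false, ⟨hi.1, fun _ => hL.2.1, by simpa [cutIdx] using hL.2.2⟩, h1⟩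
    · have e : (!decide (SelL p m (ω []) i)) = true := by simp [hL]
      rw [e] at h1
      have hc : Cut p m (ω []) i := by
        rcases hi.2 with h2 | h2
        · exact absurd h2 hL
        · exact h2
      exact ⟨i, true, ⟨hi.1, fun h => absurd h (by simp), by simpa [cutIdx] using hc⟩, h1⟩

theorem msurvInf_ab_subset (p : ℝ) (m : Bool) : msurvInf (abRule p) m ⊆ psurvInf p m :=
  iInter_mono fun n => msurv_ab_subset p n m

/-- Barriers are monotone in the level. -/
theorem psurv_anti {p p' : ℝ} (h : p ≤ p') (n : ℕ) (m : Bool) : psurv p' n m ⊆ psurv p n m := by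
  induction n generalizing m with
  | zero => exact subset_univ _
  | succ n ih =>
    rintro ω ⟨i, m', h1, h2⟩
    refine ⟨i, m', ⟨h1.1, h1.2.1, ?_⟩, ih _ h2⟩
    rcases h1.2.2 with ⟨e, h3⟩ | ⟨e, h3⟩
    · exact Or.inl ⟨e, h3.1, h.trans_lt h3.2.1, h.trans_lt h3.2.2.1,
        fun i' a b => h.trans_lt (h3.2.2.2 i' a b)⟩
    · exact Or.inr ⟨e, h3.1, h.trans_lt h3.2.1, fun i' a => h.trans_lt (h3.2.2 i' a)⟩

theorem psurvInf_anti {p p' : ℝ} (h : p ≤ p') (m : Bool) : psurvInf p' m ⊆ psurvInf p m :=
  iInter_mono fun n => psurv_anti h n m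

/-! ### Probabilities -/

variable (α : ℝ) [GoodParam α]

/-- The slots that must be closed for `SelL`. -/
def slotsX (m : Bool) (i k : ℕ) : Finset Slot :=
  if m = true then (Finset.Ico i k).image Slot.tree ∪ {.diag, .hor (i - 1)}
  else (Finset.range i).image Slot.tree ∪ {.hor (i - 1)}

/-- The slots that must be closed for `SelL` and `Cut`. -/
def slotsZ (m : Bool) (i k : ℕ) : Finset Slot :=
  if m = true then (Finset.Ico i k).image Slot.tree ∪ {.diag, .hor (i - 1), .hor i}
  else (Finset.range (i + 1)).image Slot.tree ∪ {.hor (i - 1), .hor i}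

theorem selL_set (p : ℝ) (m : Bool) {i : ℕ} (hi : 0 < i) :
    {x : Node | SelL p m x i} = boxSet p {k | i < k} (slotsX m i) := by
  ext x
  cases m
  · simp only [SelL, Cut, CutL, mem_ofPred_eq, boxSet, slotsX, Bool.false_eq_true, if_false,
      false_and, true_and, false_or, Finset.mem_union, Finset.mem_image, Finset.mem_range,
      Finset.mem_singleton]
    constructor
    · rintro ⟨h0, _, h1, h2, h3⟩
      refine ⟨h0, ?_⟩
      rintro s (⟨a, ha, rfl⟩ | rfl)
      · exact h3 a (by omega)
      · exact h2
    · rintro ⟨h1, h2⟩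
      exact ⟨h1, hi, by omega, h2 _ (Or.inr rfl), fun i' hi' => h2 _ (Or.inl ⟨i', by omega, rfl⟩)⟩
  · simp only [SelL, Cut, CutR, mem_ofPred_eq, boxSet, slotsX, if_true, true_and,
      Bool.true_eq_false, false_and, or_false, Finset.mem_union, Finset.mem_image,
      Finset.mem_Ico, Finset.mem_insert, Finset.mem_singleton]
    constructor
    · rintro ⟨h0, _, h1, h2, h3, h4⟩
      refine ⟨h0, ?_⟩
      rintro s (⟨a, ha, rfl⟩ | rfl | rfl)
      · exact h4 a (by omega) ha.2
      · exact h3
      · exact h2
    · rintro ⟨h1, h2⟩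
      exact ⟨h1, hi, by omega, h2 _ (Or.inr (Or.inr rfl)), h2 _ (Or.inr (Or.inl rfl)),
        fun i' hi' hi2 => h2 _ (Or.inl ⟨i', ⟨by omega, hi2⟩, rfl⟩)⟩

theorem selL_cut_set (p : ℝ) (m : Bool) {i : ℕ} (hi : 0 < i) :
    {x : Node | Cut p m x i} ∩ {x : Node | SelL p m x i} = boxSet p {k | i < k} (slotsZ m i) := by
  ext x
  cases m
  · simp only [SelL, Cut, CutL, mem_ofPred_eq, boxSet, slotsZ, Bool.false_eq_true, if_false,
      false_and, true_and, false_or, Finset.mem_union, Finset.mem_image, Finset.mem_range,
      Finset.mem_insert, Finset.mem_singleton, mem_inter_iff]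
    constructor
    · rintro ⟨⟨_, g2, g3⟩, h0, _, h1, h2, h3⟩
      refine ⟨h0, ?_⟩
      rintro s (⟨a, ha, rfl⟩ | rfl | rfl)
      · exact g3 a (by omega)
      · exact h2
      · exact g2
    · rintro ⟨h1, h2⟩
      exact ⟨⟨h1, h2 _ (Or.inr (Or.inr rfl)), fun i' hi' => h2 _ (Or.inl ⟨i', by omega, rfl⟩)⟩,
        h1, hi, by omega, h2 _ (Or.inr (Or.inl rfl)),
        fun i' hi' => h2 _ (Or.inl ⟨i', by omega, rfl⟩)⟩
  · simp only [SelL, Cut, CutR, mem_ofPred_eq, boxSet, slotsZ, if_true, true_and,
      Bool.true_eq_false, false_and, or_false, Finset.mem_union, Finset.mem_image,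
      Finset.mem_Ico, Finset.mem_insert, Finset.mem_singleton, mem_inter_iff]
    constructor
    · rintro ⟨⟨_, g2, g3, g4⟩, h0, _, h1, h2, h3, h4⟩
      refine ⟨h0, ?_⟩
      rintro s (⟨a, ha, rfl⟩ | rfl | rfl | rfl)
      · exact h4 a (by omega) ha.2
      · exact h3
      · exact h2
      · exact g2
    · rintro ⟨h1, h2⟩
      exact ⟨⟨h1, h2 _ (Or.inr (Or.inr (Or.inr rfl))), h2 _ (Or.inr (Or.inl rfl)),
        fun i' hi' hi2 => h2 _ (Or.inl ⟨i', ⟨by omega, hi2⟩, rfl⟩)⟩,
        h1, hi, by omega, h2 _ (Or.inr (Or.inr (Or.inl rfl))), h2 _ (Or.inr (Or.inl rfl)),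
        fun i' hi' hi2 => h2 _ (Or.inl ⟨i', ⟨by omega, hi2⟩, rfl⟩)⟩

theorem card_image_tree (A : Finset ℕ) : (A.image Slot.tree).card = A.card :=
  Finset.card_image_of_injective _ fun a b h => by injection h

theorem slotsX_false {i : ℕ} (k : ℕ) : (slotsX false i k).card = i + 1 := by
  simp only [slotsX, Bool.false_eq_true, if_false]
  rw [Finset.card_union_of_disjoint, card_image_tree, Finset.card_range, Finset.card_singleton]
  simp

theorem slotsX_true {i k : ℕ} (h : i < k) : (slotsX true i k).card = (k - i - 1) + 3 := by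
  simp only [slotsX, if_true]
  rw [Finset.card_union_of_disjoint, card_image_tree, Nat.card_Ico,
    Finset.card_pair (by simp)]
  · omega
  · rw [Finset.disjoint_left]
    intro s hs hs2
    simp only [Finset.mem_image, Finset.mem_insert, Finset.mem_singleton] at hs hs2
    obtain ⟨a, _, rfl⟩ := hs
    simp at hs2

theorem slotsZ_false {i : ℕ} (hi : 0 < i) (k : ℕ) : (slotsZ false i k).card = i + 3 := by
  simp only [slotsZ, Bool.false_eq_true, if_false]
  rw [Finset.card_union_of_disjoint, card_image_tree, Finset.card_range, Finset.card_pair]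
  · simp only [ne_eq, Slot.hor.injEq]; omega
  · rw [Finset.disjoint_left]
    intro s hs hs2
    simp only [Finset.mem_image, Finset.mem_insert, Finset.mem_singleton] at hs hs2
    obtain ⟨a, _, rfl⟩ := hs
    simp at hs2

theorem slotsZ_true {i k : ℕ} (hi : 0 < i) (h : i < k) :
    (slotsZ true i k).card = (k - i - 1) + 4 := by
  simp only [slotsZ, if_true]
  rw [Finset.card_union_of_disjoint, card_image_tree, Nat.card_Ico, Finset.card_insert_of_notMem,
    Finset.card_pair]
  · omega
  · simp only [ne_eq, Slot.hor.injEq]; omega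
  · simp
  · rw [Finset.disjoint_left]
    intro s hs hs2
    simp only [Finset.mem_image, Finset.mem_insert, Finset.mem_singleton] at hs hs2
    obtain ⟨a, _, rfl⟩ := hs
    simp at hs2

theorem cutSlots_false (j k : ℕ) : (cutSlots false j k).card = j + 2 := by
  simp only [cutSlots, Bool.false_eq_true, if_false]
  rw [Finset.card_union_of_disjoint, card_image_tree, Finset.card_range, Finset.card_singleton]
  simp

theorem cutSlots_true {j k : ℕ} (h : j < k) : (cutSlots true j k).card = (k - j - 1) + 2 := by
  simp only [cutSlots, if_true]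
  rw [slotsB_card h]
  omega

/-- The contribution of the child `i`. -/
theorem term_eq (p : ℝ) (m : Bool) (y : ENNReal) (i : ℕ) :
    (∑ m' : Bool, (if m' = true then y else 1) *
      nodeLaw α {x : Node | i ∈ (abRule p).S m x ∧ (abRule p).ty m x i = m'}) =
    nodeLaw α {x : Node | SelL p m x i} +
      y * nodeLaw α ({x : Node | Cut p m x i} \ {x : Node | SelL p m x i}) := by
  classical
  rw [Fintype.sum_bool, add_comm]
  simp only [Bool.false_eq_true, if_false, if_true, one_mul]
  congr 2
  · congr 1
    ext x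
    simp only [abRule, Finset.mem_filter, Finset.mem_range, mem_ofPred_eq, Bool.not_eq_false',
      decide_eq_true_eq]
    constructor
    · exact fun h => h.2
    · exact fun h => ⟨⟨h.1, Or.inl h⟩, h⟩
  · congr 1
    ext x
    simp only [abRule, Finset.mem_filter, Finset.mem_range, mem_ofPred_eq, Bool.not_eq_true',
      decide_eq_false_iff_not, mem_sdiff]
    constructor
    · rintro ⟨⟨_, h | h⟩, h2⟩
      · exact absurd h h2
      · exact ⟨h, h2⟩
    · rintro ⟨h, h2⟩
      refine ⟨⟨?_, Or.inr h⟩, h2⟩
      rcases h with ⟨_, h⟩ | ⟨_, h⟩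
      · exact h.1
      · exact h.1

end CausalPerc
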