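import Pool.Agent.Lib.MP_a51368_pr.Mono2

open Set

namespace CausalPerc

/-- The cone (first generation ancestor) containing a vertex. -/
def top : Vert → ℕ
  | [] => 0
  | [i] => i
  | _ :: j :: u => top (j :: u)

theorem top_cons {i : ℕ} {u : Vert} (hu : u ≠ []) : top (i :: u) = top u := by
  cases u with
  | nil => exact absurd rfl hu
  | cons j u => rfl

/-- Barrier vertices, given the index `ν v` of the barrier child of every vertex `v`. -/
def IsBar (ν : Vert → ℕ) : Vert → Prop
  | [] => False
  | i :: u => u = [] ∨ (IsBar ν u ∧ i = ν u)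

/-- Vertices to the right of the barrier of their cone. -/
def Rt (ν : Vert → ℕ) : Vert → Prop
  | [] => False
  | i :: u => Rt ν u ∨ (IsBar ν u ∧ ν u < i)

theorem isBar_cons {ν : Vert → ℕ} {i : ℕ} {u : Vert} :
    IsBar ν (i :: u) ↔ u = [] ∨ (IsBar ν u ∧ i = ν u) := Iff.rfl

theorem rt_cons {ν : Vert → ℕ} {i : ℕ} {u : Vert} :
    Rt ν (i :: u) ↔ Rt ν u ∨ (IsBar ν u ∧ ν u < i) := Iff.rfl

theorem not_rt_of_isBar {ν : Vert → ℕ} {v : Vert} (h : IsBar ν v) : ¬ Rt ν v := by
  induction v with
  | nil => exact id
  | cons i u ih =>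
    rw [isBar_cons] at h
    rw [rt_cons]
    rcases h with rfl | ⟨h1, h2⟩
    · rintro (h | ⟨h, _⟩) <;> exact h
    · rintro (h | ⟨_, h⟩)
      · exact ih h1 h
      · omega

/-- The vertex `v` lies in the sector between the barriers of the cones `s` and `s + 1`. -/
def InSec (ν : Vert → ℕ) (n s : ℕ) (v : Vert) : Prop :=
  v ≠ [] ∧ ((top v = s ∧ Rt ν v) ∨ (top v = (s + 1) % n ∧ ¬ Rt ν v))

/-- The vertex `v` lies in the sector `s` but is not on its right barrier, or lies on its left
barrier. -/
def Pre (ν : Vert → ℕ) (n s : ℕ) (v : Vert) : Prop :=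
  v ≠ [] ∧ ((top v = s ∧ (Rt ν v ∨ IsBar ν v)) ∨
    (top v = (s + 1) % n ∧ ¬ Rt ν v ∧ ¬ IsBar ν v))

theorem InSec.pre {ν : Vert → ℕ} {n s : ℕ} {v : Vert} (h : InSec ν n s v) (h2 : ¬ IsBar ν v) :
    Pre ν n s v := by
  obtain ⟨h0, ⟨h1, h3⟩ | ⟨h1, h3⟩⟩ := h
  · exact ⟨h0, Or.inl ⟨h1, Or.inl h3⟩⟩
  · exact ⟨h0, Or.inr ⟨h1, h3, h2⟩⟩

theorem Pre.top_mem {ν : Vert → ℕ} {n s : ℕ} {v : Vert} (h : Pre ν n s v) :
    top v = s ∨ top v = (s + 1) % n := by
  obtain ⟨_, ⟨h1, _⟩ | ⟨h1, _⟩⟩ := h
  · exact Or.inl h1
  · exact Or.inr h1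

theorem InSec.top_mem {ν : Vert → ℕ} {n s : ℕ} {v : Vert} (h : InSec ν n s v) :
    top v = s ∨ top v = (s + 1) % n := by
  obtain ⟨_, ⟨h1, _⟩ | ⟨h1, _⟩⟩ := h
  · exact Or.inl h1
  · exact Or.inr h1

/-- Relabelling of the first generation: `s` becomes `r`, everything else becomes `r'`. -/
def phi (s r r' : ℕ) : Vert → Vert
  | [] => []
  | [i] => [if i = s then r else r']
  | i :: j :: u => i :: phi s r r' (j :: u)

theorem phi_cons {s r r' i : ℕ} {u : Vert} (hu : u ≠ []) :
    phi s r r' (i :: u) = i :: phi s r r' u := by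
  cases u with
  | nil => exact absurd rfl hu
  | cons j u => rfl

theorem phi_ne_nil {s r r' : ℕ} {v : Vert} (hv : v ≠ []) : phi s r r' v ≠ [] := by
  cases v with
  | nil => exact absurd rfl hv
  | cons i u =>
    cases u with
    | nil => simp [phi]
    | cons j u => simp [phi]

theorem phi_length {s r r' : ℕ} (v : Vert) : (phi s r r' v).length = v.length := by
  induction v with
  | nil => rfl
  | cons i u ih =>
    cases u with
    | nil => rfl
    | cons j u => rw [phi_cons (by simp)]; simp only [List.length_cons] at ih ⊢; omega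

theorem top_phi {s r r' : ℕ} {v : Vert} (hv : v ≠ []) :
    top (phi s r r' v) = if top v = s then r else r' := by
  induction v with
  | nil => exact absurd rfl hv
  | cons i u ih =>
    cases u with
    | nil => rfl
    | cons j u =>
      rw [phi_cons (by simp), top_cons (phi_ne_nil (by simp)), ih (by simp)]
      rfl

/-- The setting of two trees whose cones `s`, `s + 1 mod n` and `r`, `r + 1 mod m` agree. -/
structure Match (t t' ν : Vert → ℕ) (n m s r : ℕ) : Prop where
  hn : 2 ≤ n
  hm : 2 ≤ m
  hs : s < n
  hr : r < m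
  root : t [] = n
  root' : t' [] = m
  bar : ∀ v, InTree t v → IsBar ν v → ν v < t v
  same : ∀ v, v ≠ [] → (top v = s ∨ top v = (s + 1) % n) →
    t' (phi s r ((r + 1) % m) v) = t v

variable {t t' ν : Vert → ℕ} {n m s r : ℕ}

theorem succ_ne {n s : ℕ} (hn : 2 ≤ n) (hs : s < n) : (s + 1) % n ≠ s := by
  by_cases h : s + 1 < n
  · rw [Nat.mod_eq_of_lt h]; omega
  · have : s + 1 = n := by omega
    rw [this, Nat.mod_self]; omega

theorem Match.inTree_phi (M : Match t t' ν n m s r) {v : Vert} (hv : v ≠ []) (h : InTree t v)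
    (htop : top v = s ∨ top v = (s + 1) % n) : InTree t' (phi s r ((r + 1) % m) v) := by
  induction v with
  | nil => exact absurd rfl hv
  | cons i u ih =>
    cases u with
    | nil =>
      simp only [phi]
      rw [inTree_cons, M.root']
      refine ⟨inTree_nil, ?_⟩
      have h1 := M.hm
      split_ifs
      · exact M.hr
      · exact Nat.mod_lt _ (by omega)
    | cons j u =>
      rw [phi_cons (by simp), inTree_cons]
      rw [inTree_cons] at h
      rw [top_cons (by simp)] at htop
      exact ⟨ih (by simp) h.1 htop, by rw [M.same _ (by simp) htop]; exact h.2⟩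

/-- The statement proved by induction on the level. -/
def Good (t t' ν : Vert → ℕ) (n m s r : ℕ) (k : ℕ) : Prop :=
  ∀ v : Vert, v.length = k → InTree t v → Pre ν n s v →
    InSec ν n s (rightNbr t v) ∧
      rightNbr t' (phi s r ((r + 1) % m) v) = phi s r ((r + 1) % m) (rightNbr t v)

theorem Match.upper (M : Match t t' ν n m s r) {k : ℕ} (hk : Good t t' ν n m s r k) {v : Vert}
    (hvk : v.length = k) (hv : InTree t v) (hpre : Pre ν n s v)
    (hne : level t (v.length + 1) ≠ []) :
    InSec ν n s (upperRight t v) ∧
      upperRight t' (phi s r ((r + 1) % m) v) = phi s r ((r + 1) % m) (upperRight t v) := by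
  obtain ⟨l, hl0, hl1, hl2, hl3⟩ := upperRight_eq hv hne
  obtain ⟨l, rfl⟩ := Nat.exists_eq_succ_of_ne_zero (Nat.pos_iff_ne_zero.1 hl0)
  rw [hl3]
  clear hl0 hl3 hne
  induction l generalizing v with
  | zero =>
    obtain ⟨h1, h2⟩ := hk v hvk hv hpre
    simp only [Function.iterate_one] at hl1 ⊢
    have h3 := h1.1
    refine ⟨⟨by simp, ?_⟩, ?_⟩
    · rw [top_cons h3, rt_cons]
      simpa using h1.2
    · rw [upperRight_rec (M.inTree_phi hpre.1 hv hpre.top_mem), h2,
        M.same _ h3 h1.top_mem, if_pos hl1, phi_cons h3]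
  | succ l ih =>
    obtain ⟨h1, h2⟩ := hk v hvk hv hpre
    have h4 := inTree_rightNbr hv
    have h5 : t (rightNbr t v) = 0 := hl2 1 (by omega) (by omega)
    have h6 : ¬ IsBar ν (rightNbr t v) := by
      intro hb
      have := M.bar _ h4.1 hb
      omega
    have h7 := ih (v := rightNbr t v) (h4.2.trans hvk) h4.1 (h1.pre h6)
      (by rw [← Function.iterate_succ_apply]; exact hl1)
      (fun k hk1 hk2 => by
        rw [← Function.iterate_succ_apply]
        exact hl2 (k + 1) (by omega) (by omega))
    rw [← Function.iterate_succ_apply] at h7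
    refine ⟨h7.1, ?_⟩
    rw [upperRight_rec (M.inTree_phi hpre.1 hv hpre.top_mem), h2, M.same _ h1.1 h1.top_mem,
      if_neg (by omega)]
    exact h7.2

theorem Match.good (M : Match t t' ν n m s r) (k : ℕ) : Good t t' ν n m s r k := by
  induction k with
  | zero =>
    intro v hv _ hpre
    exact absurd (List.length_eq_zero_iff.1 hv) hpre.1
  | succ k ih =>
    intro v hvk hv hpre
    cases v with
    | nil => simp at hvk
    | cons i u =>
      have hu := inTree_cons.1 hv
      cases u with
      | nil =>
        -- first generation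
        have h1 : i = s := by
          obtain ⟨_, ⟨h1, _⟩ | ⟨_, _, h2⟩⟩ := hpre
          · exact h1
          · exact absurd (Or.inl rfl) h2
        subst h1
        have h2 : rightNbr t [i] = [(i + 1) % n] := by
          rw [rightNbr_cons hv, M.root]
          split_ifs with hc
          · rw [Nat.mod_eq_of_lt hc]
          · have h3 : i + 1 = n := by have := M.hs; omega
            rw [h3, Nat.mod_self]
            have h4 : rightNbr t [] = [] := by simp [rightNbr, around, level]
            rw [upperRight_rec inTree_nil, h4, M.root, if_pos (by have := M.hn; omega)]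
        have hv' : InTree t' [r] := inTree_cons.2 ⟨inTree_nil, by rw [M.root']; exact M.hr⟩
        have h2' : rightNbr t' [r] = [(r + 1) % m] := by
          rw [rightNbr_cons hv', M.root']
          split_ifs with hc
          · rw [Nat.mod_eq_of_lt hc]
          · have h3 : r + 1 = m := by have := M.hr; omega
            rw [h3, Nat.mod_self]
            have h4 : rightNbr t' [] = [] := by simp [rightNbr, around, level]
            rw [upperRight_rec inTree_nil, h4, M.root', if_pos (by have := M.hm; omega)]
        have h5 : phi i r ((r + 1) % m) [i] = [r] := by simp [phi]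
        have h6 : phi i r ((r + 1) % m) [(i + 1) % n] = [(r + 1) % m] := by
          simp [phi, succ_ne M.hn M.hs]
        rw [h5, h2, h2', h6]
        refine ⟨⟨by simp, Or.inr ⟨rfl, ?_⟩⟩, rfl⟩
        exact not_rt_of_isBar (Or.inl rfl)
      | cons j u' =>
        set u := j :: u' with hu0
        have hune : u ≠ [] := by simp [hu0]
        have huk : u.length = k := by
          simp only [List.length_cons] at hvk ⊢
          omega
        obtain ⟨_, hpre2⟩ := hpre
        rw [top_cons hune, rt_cons, isBar_cons] at hpre2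
        have hsame : top u = s ∨ top u = (s + 1) % n := by
          rcases hpre2 with ⟨h, _⟩ | ⟨h, _⟩
          · exact Or.inl h
          · exact Or.inr h
        have hphi : InTree t' (phi s r ((r + 1) % m) (i :: u)) :=
          M.inTree_phi (by simp) hv (by rw [top_cons hune]; exact hsame)
        rw [phi_cons hune] at hphi ⊢
        rw [rightNbr_cons hv, rightNbr_cons hphi, M.same u hune hsame]
        split_ifs with hc
        · refine ⟨⟨by simp, ?_⟩, by rw [phi_cons hune]⟩
          rw [top_cons hune, rt_cons]
          rcases hpre2 with ⟨h1, h2⟩ | ⟨h1, h2, h3⟩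
          · left
            refine ⟨h1, ?_⟩
            rcases h2 with (h2 | ⟨h2, h3⟩) | (h2 | ⟨h2, h3⟩)
            · exact Or.inl h2
            · exact Or.inr ⟨h2, by omega⟩
            · exact absurd h2 hune
            · exact Or.inr ⟨h2, by omega⟩
          · right
            refine ⟨h1, ?_⟩
            rintro (h4 | ⟨h4, h5⟩)
            · exact h2 (Or.inl h4)
            · by_cases h6 : i = ν u
              · exact h3 (Or.inr ⟨h4, h6⟩)
              · exact h2 (Or.inr ⟨h4, by omega⟩)
        · have hiu : i + 1 = t u := by omega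
          have hpreu : Pre ν n s u := by
            refine ⟨hune, ?_⟩
            rcases hpre2 with ⟨h1, h2⟩ | ⟨h1, h2, h3⟩
            · left
              refine ⟨h1, ?_⟩
              rcases h2 with (h2 | ⟨h2, _⟩) | (h2 | ⟨h2, _⟩)
              · exact Or.inl h2
              · exact Or.inr h2
              · exact absurd h2 hune
              · exact Or.inr h2
            · right
              refine ⟨h1, fun h4 => h2 (Or.inl h4), fun h4 => ?_⟩
              have h5 := M.bar u hu.1 h4
              by_cases h6 : i = ν u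
              · exact h3 (Or.inr ⟨h4, h6⟩)
              · exact h2 (Or.inr ⟨h4, by omega⟩)
          have hne : level t (u.length + 1) ≠ [] := by
            intro h0
            have : i :: u ∈ level t (u.length + 1) := hv
            rw [h0] at this
            simp at this
          exact M.upper ih huk hu.1 hpreu hne

theorem Match.right (M : Match t t' ν n m s r) {v : Vert} (hv : InTree t v)
    (hpre : Pre ν n s v) : InSec ν n s (rightNbr t v) ∧
      rightNbr t' (phi s r ((r + 1) % m) v) = phi s r ((r + 1) % m) (rightNbr t v) :=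
  M.good v.length v rfl hv hpre

theorem Match.up (M : Match t t' ν n m s r) {v : Vert} (hv : InTree t v)
    (hpre : Pre ν n s v) (hne : level t (v.length + 1) ≠ []) :
    InSec ν n s (upperRight t v) ∧
      upperRight t' (phi s r ((r + 1) % m) v) = phi s r ((r + 1) % m) (upperRight t v) :=
  M.upper (M.good v.length) rfl hv hpre hne

end CausalPerc
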