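import Pool.Agent.Lib.MP_a51368_pr.Sector

open Set

namespace CausalPerc

theorem phi_eq_append {s r r' : ℕ} {v : Vert} (hv : v ≠ []) :
    ∃ u : Vert, v = u ++ [top v] ∧ ∀ x : Vert, phi s r r' (x ++ v) =
      x ++ u ++ [if top v = s then r else r'] := by
  have h1 : ∀ v : Vert, v ≠ [] → ∃ u : Vert, v = u ++ [top v] := by
    intro v hv
    induction v with
    | nil => exact absurd rfl hv
    | cons i w ih =>
      cases w with
      | nil => exact ⟨[], rfl⟩
      | cons j w =>
        obtain ⟨u, hu⟩ := ih (by simp)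
        refine ⟨i :: u, ?_⟩
        rw [top_cons (by simp), List.cons_append, ← hu]
  have h2 : ∀ (u : Vert) (a : ℕ), phi s r r' (u ++ [a]) = u ++ [if a = s then r else r'] := by
    intro u a
    induction u with
    | nil => rfl
    | cons i u ih => rw [List.cons_append, phi_cons (by simp), ih, List.cons_append]
  obtain ⟨u, hu⟩ := h1 v hv
  refine ⟨u, hu, fun x => ?_⟩
  conv_lhs => rw [hu, ← List.append_assoc, h2]

theorem top_lt {t : Vert → ℕ} {v : Vert} (hv : v ≠ []) (h : InTree t v) : top v < t [] := by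
  induction v with
  | nil => exact absurd rfl hv
  | cons i u ih =>
    rw [inTree_cons] at h
    cases u with
    | nil => exact h.2
    | cons j u => exact ih (by simp) h.1

/-- The index of the next vertex of the canonical barrier of a cone. -/
noncomputable def nextIdx (p : ℝ) (J : ℕ) (c : Conf) : ℕ :=
  sInf {i | i ∈ selB p J (c []) ∧ coneAt [i] c ∈ survInf (selB p J)}

theorem nextIdx_spec {p : ℝ} {J : ℕ} {c : Conf} (h : c ∈ survInf (selB p J)) :
    nextIdx p J c ∈ selB p J (c []) ∧ coneAt [nextIdx p J c] c ∈ survInf (selB p J) := by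
  obtain ⟨i, h1, h2⟩ := survInf_step h
  exact Nat.sInf_mem (s := {i | i ∈ selB p J (c []) ∧ coneAt [i] c ∈ survInf (selB p J)})
    ⟨i, h1, h2⟩

/-- The barrier index at a vertex. -/
noncomputable def nu (p : ℝ) (J : ℕ) (ω : Conf) (v : Vert) : ℕ := nextIdx p J (coneAt v ω)

/-- The root has `n` children, its edges and the horizontal edges of the first generation are
closed, and the cones of its children have barriers. -/
structure BarConf (p : ℝ) (J n : ℕ) (ω : Conf) : Prop where
  hn : 2 ≤ n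
  root : kids ω [] = n
  closedT : ∀ s < n, p < lab ω [] (.tree s)
  closedH : ∀ s < n, p < lab ω [] (.hor s)
  cone : ∀ s < n, coneAt [s] ω ∈ survInf (selB p J)

variable {p : ℝ} {J n m s r : ℕ} {ω ω' : Conf}

theorem BarConf.bar_cone (B : BarConf p J n ω) {v : Vert} (hv : InTree (kids ω) v)
    (hb : IsBar (nu p J ω) v) : coneAt v ω ∈ survInf (selB p J) := by
  induction v with
  | nil => exact absurd hb id
  | cons i u ih =>
    have h1 := inTree_cons.1 hv
    rcases isBar_cons.1 hb with rfl | ⟨h2, h3⟩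
    · exact B.cone i (by rw [← B.root]; exact h1.2)
    · have h4 := (nextIdx_spec (ih h1.1 h2)).2
      rw [coneAt_coneAt] at h4
      rw [h3]
      exact h4

theorem BarConf.bar_sel (B : BarConf p J n ω) {v : Vert} (hv : InTree (kids ω) v)
    (hb : IsBar (nu p J ω) v) : nu p J ω v ∈ selB p J (ω v) := by
  have h := (nextIdx_spec (B.bar_cone hv hb)).1
  have h2 : coneAt v ω [] = ω v := by simp [coneAt]
  rwa [h2] at h

theorem BarConf.bar_lt (B : BarConf p J n ω) {v : Vert} (hv : InTree (kids ω) v)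
    (hb : IsBar (nu p J ω) v) : nu p J ω v < kids ω v := (mem_selB.1 (B.bar_sel hv hb)).1.1

theorem same_node (h1 : coneAt [s] ω = coneAt [r] ω')
    (h2 : coneAt [(s + 1) % n] ω = coneAt [(r + 1) % m] ω') (hs : (s + 1) % n ≠ s) {v : Vert}
    (hv : v ≠ []) (htop : top v = s ∨ top v = (s + 1) % n) (x : Vert) :
    ω' (phi s r ((r + 1) % m) (x ++ v)) = ω (x ++ v) := by
  obtain ⟨u, hu, hphi⟩ := phi_eq_append (s := s) (r := r) (r' := (r + 1) % m) hv
  rw [hphi x]
  rcases htop with h | h
  · rw [if_pos h]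
    have h3 := congrFun h1 (x ++ u)
    simp only [coneAt] at h3
    rw [← h3]
    conv_rhs => rw [hu, h]
    simp
  · rw [if_neg (by rw [h]; exact hs)]
    have h3 := congrFun h2 (x ++ u)
    simp only [coneAt] at h3
    rw [← h3]
    conv_rhs => rw [hu, h]
    simp

theorem BarConf.match (B : BarConf p J n ω) (B' : BarConf p J m ω') (hs : s < n) (hr : r < m)
    (h1 : coneAt [s] ω = coneAt [r] ω')
    (h2 : coneAt [(s + 1) % n] ω = coneAt [(r + 1) % m] ω') :
    Match (kids ω) (kids ω') (nu p J ω) n m s r where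
  hn := B.hn
  hm := B'.hn
  hs := hs
  hr := hr
  root := B.root
  root' := B'.root
  bar := fun _ hv hb => B.bar_lt hv hb
  same := fun v hv htop => by
    have := same_node h1 h2 (succ_ne B.hn hs) hv htop []
    simp only [List.nil_append] at this
    unfold kids
    rw [this]

theorem BarConf.self (B : BarConf p J n ω) (hs : s < n) :
    Match (kids ω) (kids ω) (nu p J ω) n n s s := B.match B hs hs rfl rfl

theorem BarConf.exists_sec (B : BarConf p J n ω) {v : Vert} (hv : v ≠ [])
    (h : InTree (kids ω) v) : ∃ s < n, InSec (nu p J ω) n s v := by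
  have h1 := top_lt hv h
  rw [B.root] at h1
  by_cases hrt : Rt (nu p J ω) v
  · exact ⟨top v, h1, hv, Or.inl ⟨rfl, hrt⟩⟩
  · have hn := B.hn
    refine ⟨(top v + (n - 1)) % n, Nat.mod_lt _ (by omega), hv, Or.inr ⟨?_, hrt⟩⟩
    rw [Nat.mod_add_mod, show top v + (n - 1) + 1 = top v + n by omega, Nat.add_mod_right,
      Nat.mod_eq_of_lt h1]

theorem sec_unique (hn : 2 ≤ n) {ν : Vert → ℕ} {v : Vert} {s s' : ℕ} (hs : s < n) (hs' : s' < n)
    (h : InSec ν n s v) (h' : InSec ν n s' v) : s = s' := by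
  obtain ⟨_, ⟨h1, h2⟩ | ⟨h1, h2⟩⟩ := h <;> obtain ⟨_, ⟨h3, h4⟩ | ⟨h3, h4⟩⟩ := h'
  · exact h1.symm.trans h3
  · exact absurd h2 h4
  · exact absurd h4 h2
  · have h5 := h1.symm.trans h3
    by_cases e1 : s + 1 < n
    · rw [Nat.mod_eq_of_lt e1] at h5
      by_cases e2 : s' + 1 < n
      · rw [Nat.mod_eq_of_lt e2] at h5; omega
      · have : s' + 1 = n := by omega
        rw [this, Nat.mod_self] at h5; omega
    · have e3 : s + 1 = n := by omega
      rw [e3, Nat.mod_self] at h5
      by_cases e2 : s' + 1 < n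
      · rw [Nat.mod_eq_of_lt e2] at h5; omega
      · omega

theorem BarConf.not_step_nil (B : BarConf p J n ω) {w : Vert} : ¬ Step p ω [] w := by
  rintro (⟨h1, ⟨i, h2, _, h3⟩ | ⟨h2, _⟩⟩ | ⟨_, _, i, v, h2, _⟩ | h)
  · rw [B.root] at h2
    exact absurd h3 (not_le.2 (B.closedT i h2))
  · exact h2 rfl
  · simp at h2
  · have h3 := h.inTree.2.2
    obtain ⟨_, _, i, v, h2, _⟩ := h
    rw [h2] at h3
    simp at h3

theorem BarConf.ne_nil_of_step (B : BarConf p J n ω) {u w : Vert} (h : Step p ω u w) :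
    u ≠ [] ∧ w ≠ [] := by
  have h1 : u ≠ [] := by
    rintro rfl
    exact B.not_step_nil h
  refine ⟨h1, ?_⟩
  rintro rfl
  have := h.inTree.2.2.1
  simp at this
  exact h1 this

theorem BarConf.not_bar_of_diag (B : BarConf p J n ω) {u : Vert} (hu : InTree (kids ω) u)
    (h : lab ω u .diag ≤ p) : ¬ IsBar (nu p J ω) u := by
  intro hb
  have h1 := (mem_selB.1 (B.bar_sel hu hb)).2.2.1
  exact absurd h (not_le.2 h1)

theorem BarConf.not_bar_of_hor (B : BarConf p J n ω) {u w : Vert} (h : OpenHor p ω u w) :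
    ¬ IsBar (nu p J ω) u := by
  obtain ⟨h1, _, i, v, rfl, h2⟩ := h
  have h3 := inTree_cons.1 h1
  intro hb
  rcases isBar_cons.1 hb with rfl | ⟨h4, h5⟩
  · rw [B.root] at h3
    exact absurd h2 (not_le.2 (B.closedH i h3.2))
  · have h6 := (mem_selB.1 (B.bar_sel h3.1 h4)).2.2.2
    rw [← h5] at h6
    exact absurd h2 (not_le.2 h6)

theorem BarConf.rt_child (B : BarConf p J n ω) {u : Vert} {i : ℕ} (hu : InTree (kids ω) u)
    (hi : i < kids ω u) (h : lab ω u (.tree i) ≤ p) :
    Rt (nu p J ω) (i :: u) ↔ Rt (nu p J ω) u := by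
  rw [rt_cons]
  constructor
  · rintro (h1 | ⟨h1, h2⟩)
    · exact h1
    · have h3 := (mem_selB.1 (B.bar_sel hu h1)).2.1 i h2 hi
      exact absurd h (not_le.2 h3)
  · exact Or.inl

theorem BarConf.step_sec (B : BarConf p J n ω) (hs : s < n) {u w : Vert} (h : Step p ω u w)
    (hsec : InSec (nu p J ω) n s u) : InSec (nu p J ω) n s w := by
  have hne := B.ne_nil_of_step h
  rcases h with ⟨h1, ⟨i, h2, rfl, h3⟩ | ⟨h2, h3, rfl, h4⟩⟩ | h | h
  · refine ⟨by simp, ?_⟩
    rw [top_cons hne.1, B.rt_child h1 h2 h3]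
    exact hsec.2
  · exact ((B.self hs).up h1 (hsec.pre (B.not_bar_of_diag h1 h4)) h3).1
  · have hb := B.not_bar_of_hor h
    obtain ⟨h1, rfl, _⟩ := h
    exact ((B.self hs).right h1 (hsec.pre hb)).1
  · have hb := B.not_bar_of_hor h
    obtain ⟨h1, h2, _⟩ := h
    obtain ⟨s0, hs0, hsec0⟩ := B.exists_sec hne.2 h1
    have h3 := ((B.self hs0).right h1 (hsec0.pre hb)).1
    rw [← h2] at h3
    rw [sec_unique B.hn hs hs0 hsec h3]
    exact hsec0

theorem BarConf.step_sec' (B : BarConf p J n ω) (hs : s < n) {u w : Vert} (h : Step p ω w u)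
    (hsec : InSec (nu p J ω) n s u) : InSec (nu p J ω) n s w := by
  have hne := B.ne_nil_of_step h
  obtain ⟨s0, hs0, hsec0⟩ := B.exists_sec hne.1 h.inTree.1
  have h3 := B.step_sec hs0 h hsec0
  rw [sec_unique B.hn hs hs0 hsec h3]
  exact hsec0

theorem BarConf.cluster_sec (B : BarConf p J n ω) (hs : s < n) {u w : Vert}
    (h : w ∈ cluster p ω u) (hsec : InSec (nu p J ω) n s u) : InSec (nu p J ω) n s w := by
  induction h with
  | refl => exact hsec
  | tail _ h2 ih => exact B.step_sec hs h2 ih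

theorem BarConf.conn_sec (B : BarConf p J n ω) (hs : s < n) {u w : Vert}
    (h : Conn p ω u w) (hsec : InSec (nu p J ω) n s u) : InSec (nu p J ω) n s w := by
  induction h with
  | refl => exact hsec
  | tail _ h2 ih =>
    rcases h2 with h2 | h2
    · exact B.step_sec hs h2 ih
    · exact B.step_sec' hs h2 ih

/-- There is an infinite cluster in the sector `s`. -/
def SecInf (p : ℝ) (J n s : ℕ) (ω : Conf) : Prop :=
  ∃ u, InSec (nu p J ω) n s u ∧ (cluster p ω u).Infinite

theorem BarConf.exists_secInf (B : BarConf p J n ω) (h : HasInf p ω) :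
    ∃ s < n, SecInf p J n s ω := by
  obtain ⟨u, hu⟩ := h
  have h1 : u ≠ [] := by
    rintro rfl
    apply hu
    apply (Set.finite_singleton ([] : Vert)).subset
    intro w hw
    rcases Relation.ReflTransGen.cases_head hw with h1 | ⟨c, h1, _⟩
    · exact h1.symm
    · exact absurd h1 B.not_step_nil
  obtain ⟨s, hs, hsec⟩ := B.exists_sec h1 (inTree_of_cluster_infinite hu)
  exact ⟨s, hs, u, hsec, hu⟩

theorem BarConf.twoInf (B : BarConf p J n ω) {s s' : ℕ} (hs : s < n) (hs' : s' < n)
    (hne : s ≠ s') (h : SecInf p J n s ω) (h' : SecInf p J n s' ω) : TwoInf p ω := by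
  obtain ⟨u, hu1, hu2⟩ := h
  obtain ⟨w, hw1, hw2⟩ := h'
  exact ⟨u, w, hu2, hw2, fun hc => hne (sec_unique B.hn hs hs' (B.conn_sec hs hc hu1) hw1)⟩

/-! ### Transfer between configurations -/

section transfer

variable (B : BarConf p J n ω) (B' : BarConf p J m ω') (hs : s < n) (hr : r < m)
    (h1 : coneAt [s] ω = coneAt [r] ω')
    (h2 : coneAt [(s + 1) % n] ω = coneAt [(r + 1) % m] ω')

include B B' hs hr h1 h2

theorem transfer_step {u w : Vert} (hsec : InSec (nu p J ω) n s u) (h : Step p ω u w) :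
    Step p ω' (phi s r ((r + 1) % m) u) (phi s r ((r + 1) % m) w) := by
  have M := B.match B' hs hr h1 h2
  have hsecw := B.step_sec hs h hsec
  have hT := h.inTree
  have hTu := M.inTree_phi hsec.1 hT.1 hsec.top_mem
  have hTw := M.inTree_phi hsecw.1 hT.2.1 hsecw.top_mem
  have hnode : ∀ v : Vert, v ≠ [] → (top v = s ∨ top v = (s + 1) % n) →
      ω' (phi s r ((r + 1) % m) v) = ω v := fun v hv htop => by
    have := same_node h1 h2 (succ_ne B.hn hs) hv htop []
    simpa using this
  have hhor : ∀ {a b : Vert}, InSec (nu p J ω) n s a → OpenHor p ω a b →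
      OpenHor p ω' (phi s r ((r + 1) % m) a) (phi s r ((r + 1) % m) b) := by
    intro a b ha hab
    have hb := B.not_bar_of_hor hab
    obtain ⟨h3, rfl, i, v, rfl, h4⟩ := hab
    have hv : v ≠ [] := by
      rintro rfl
      exact hb (Or.inl rfl)
    refine ⟨M.inTree_phi ha.1 h3 ha.top_mem, (M.right h3 (ha.pre hb)).2.symm, i,
      phi s r ((r + 1) % m) v, phi_cons hv, ?_⟩
    have htop := ha.top_mem
    rw [top_cons hv] at htop
    unfold lab
    rw [hnode v hv htop]
    exact h4
  rcases h with ⟨h3, ⟨i, h4, rfl, h5⟩ | ⟨h4, h5, rfl, h6⟩⟩ | h | h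
  · refine Or.inl ⟨hTu, Or.inl ⟨i, ?_, phi_cons hsec.1, ?_⟩⟩
    · unfold kids
      rw [hnode u hsec.1 hsec.top_mem]
      exact h4
    · unfold lab
      rw [hnode u hsec.1 hsec.top_mem]
      exact h5
  · refine Or.inl ⟨hTu, Or.inr ⟨phi_ne_nil hsec.1, ?_, ?_, ?_⟩⟩
    · intro h0
      have hlen := (inTree_upperRight h3 h5).2
      have : phi s r ((r + 1) % m) (upperRight (kids ω) u) ∈
          level (kids ω') ((phi s r ((r + 1) % m) u).length + 1) := by
        rw [mem_level_iff]
        exact ⟨by rw [phi_length, phi_length, hlen], hTw⟩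
      rw [h0] at this
      simp at this
    · exact (M.up h3 (hsec.pre (B.not_bar_of_diag h3 h6)) h5).2.symm
    · unfold lab
      rw [hnode u hsec.1 hsec.top_mem]
      exact h6
  · exact Or.inr (Or.inl (hhor hsec h))
  · exact Or.inr (Or.inr (hhor hsecw h))

theorem transfer_cluster {u w : Vert} (hsec : InSec (nu p J ω) n s u) (h : w ∈ cluster p ω u) :
    phi s r ((r + 1) % m) w ∈ cluster p ω' (phi s r ((r + 1) % m) u) := by
  induction h with
  | refl => exact .refl
  | @tail b c hb hbc ih =>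
    exact Relation.ReflTransGen.tail ih
      (transfer_step B B' hs hr h1 h2 (B.cluster_sec hs hb hsec) hbc)

theorem phi_injOn : Set.InjOn (phi s r ((r + 1) % m))
    {v | v ≠ [] ∧ (top v = s ∨ top v = (s + 1) % n)} := by
  rintro v ⟨hv, htv⟩ w ⟨hw, htw⟩ hvw
  obtain ⟨a, ha, ha2⟩ := phi_eq_append (s := s) (r := r) (r' := (r + 1) % m) hv
  obtain ⟨b, hb, hb2⟩ := phi_eq_append (s := s) (r := r) (r' := (r + 1) % m) hw
  have e1 := ha2 []
  have e2 := hb2 []
  simp only [List.nil_append] at e1 e2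
  rw [e1, e2] at hvw
  have h3 := List.append_inj' hvw (by simp)
  have hr' := succ_ne B'.hn hr
  have hs' := succ_ne B.hn hs
  have h4 : top v = top w := by
    have h5 : (if top v = s then r else (r + 1) % m) = (if top w = s then r else (r + 1) % m) := by
      simpa using h3.2
    rcases htv with h6 | h6 <;> rcases htw with h7 | h7
    · rw [h6, h7]
    · rw [if_pos h6, if_neg (by rw [h7]; exact hs')] at h5
      exact absurd h5.symm hr'
    · rw [if_pos h7, if_neg (by rw [h6]; exact hs')] at h5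
      exact absurd h5 hr'
    · rw [h6, h7]
  rw [ha, hb, h3.1, h4]

theorem transfer_nu {v : Vert} (hv : v ≠ []) (htop : top v = s ∨ top v = (s + 1) % n) :
    nu p J ω' (phi s r ((r + 1) % m) v) = nu p J ω v := by
  unfold nu
  congr 1
  funext x
  unfold coneAt
  obtain ⟨a, ha, ha2⟩ := phi_eq_append (s := s) (r := r) (r' := (r + 1) % m) hv
  have h3 : x ++ phi s r ((r + 1) % m) v = phi s r ((r + 1) % m) (x ++ v) := by
    have e1 := ha2 []
    simp only [List.nil_append] at e1
    rw [ha2 x, e1, List.append_assoc]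
  rw [h3]
  exact same_node h1 h2 (succ_ne B.hn hs) hv htop x

theorem transfer_isBar {v : Vert} (hv : v ≠ []) (htop : top v = s ∨ top v = (s + 1) % n) :
    IsBar (nu p J ω') (phi s r ((r + 1) % m) v) ↔ IsBar (nu p J ω) v := by
  induction v with
  | nil => exact absurd rfl hv
  | cons i u ih =>
    cases u with
    | nil => exact ⟨fun _ => Or.inl rfl, fun _ => Or.inl rfl⟩
    | cons j u =>
      rw [phi_cons (by simp), isBar_cons, isBar_cons]
      have htop' : top (j :: u) = s ∨ top (j :: u) = (s + 1) % n := htop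
      rw [ih (by simp) htop', transfer_nu B B' hs hr h1 h2 (by simp) htop']
      have : phi s r ((r + 1) % m) (j :: u) ≠ [] := phi_ne_nil (by simp)
      simp [this]

theorem transfer_rt {v : Vert} (hv : v ≠ []) (htop : top v = s ∨ top v = (s + 1) % n) :
    Rt (nu p J ω') (phi s r ((r + 1) % m) v) ↔ Rt (nu p J ω) v := by
  induction v with
  | nil => exact absurd rfl hv
  | cons i u ih =>
    cases u with
    | nil =>
      constructor
      · rintro (h | ⟨h, _⟩) <;> exact absurd h id
      · rintro (h | ⟨h, _⟩) <;> exact absurd h id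
    | cons j u =>
      have htop' : top (j :: u) = s ∨ top (j :: u) = (s + 1) % n := htop
      rw [phi_cons (by simp), rt_cons, rt_cons, ih (by simp) htop',
        transfer_isBar B B' hs hr h1 h2 (by simp) htop',
        transfer_nu B B' hs hr h1 h2 (by simp) htop']

theorem transfer_secInf (h : SecInf p J n s ω) : SecInf p J m r ω' := by
  obtain ⟨u, hu1, hu2⟩ := h
  refine ⟨phi s r ((r + 1) % m) u, ⟨phi_ne_nil hu1.1, ?_⟩, ?_⟩
  · rw [top_phi hu1.1, transfer_rt B B' hs hr h1 h2 hu1.1 hu1.top_mem]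
    rcases hu1.2 with ⟨h3, h4⟩ | ⟨h3, h4⟩
    · left; exact ⟨if_pos h3, h4⟩
    · right; exact ⟨if_neg (by rw [h3]; exact succ_ne B.hn hs), h4⟩
  · have h3 : (phi s r ((r + 1) % m) '' cluster p ω u).Infinite := by
      refine hu2.image ((phi_injOn B B' hs hr h1 h2).mono ?_)
      intro w hw
      have := B.cluster_sec hs hw hu1
      exact ⟨this.1, this.top_mem⟩
    refine h3.mono ?_
    rintro _ ⟨w, hw, rfl⟩
    exact transfer_cluster B B' hs hr h1 h2 hu1 hw

end transfer

end CausalPerc
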