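import Pool.Agent.Lib.MP_a51368_pr.Sector

/-!
# Sectors between barriers that may pass on either side of their ray
-/

open Set

namespace CausalPerc

/-- Ray vertices, given the index `ν v` of the ray child of every vertex `v`. -/
def IsRay (ν : Vert → ℕ) : Vert → Prop
  | [] => False
  | i :: u => u = [] ∨ (IsRay ν u ∧ i = ν u)

/-- Cut vertices: the barrier passes immediately to the right of a cut vertex. -/
def IsCut (ν β : Vert → ℕ) : Vert → Prop
  | [] => False
  | i :: u => u = [] ∨ (IsRay ν u ∧ i = β u)

/-- Vertices to the right of the barrier of their cone. -/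
def RtM (ν β : Vert → ℕ) : Vert → Prop
  | [] => False
  | i :: u => (IsRay ν u ∧ β u < i) ∨ (¬ IsRay ν u ∧ RtM ν β u)

theorem isRay_cons {ν : Vert → ℕ} {i : ℕ} {u : Vert} :
    IsRay ν (i :: u) ↔ u = [] ∨ (IsRay ν u ∧ i = ν u) := Iff.rfl

theorem isCut_cons {ν β : Vert → ℕ} {i : ℕ} {u : Vert} :
    IsCut ν β (i :: u) ↔ u = [] ∨ (IsRay ν u ∧ i = β u) := Iff.rfl

theorem rtM_cons {ν β : Vert → ℕ} {i : ℕ} {u : Vert} :
    RtM ν β (i :: u) ↔ (IsRay ν u ∧ β u < i) ∨ (¬ IsRay ν u ∧ RtM ν β u) := Iff.rfl

theorem not_rtM_first {ν β : Vert → ℕ} {i : ℕ} : ¬ RtM ν β [i] := by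
  rintro (⟨h, _⟩ | ⟨_, h⟩) <;> exact h

/-- The vertex lies in the sector between the barriers of the cones `s` and `s + 1`. -/
def InSecM (ν β : Vert → ℕ) (n s : ℕ) (v : Vert) : Prop :=
  v ≠ [] ∧ ((top v = s ∧ RtM ν β v) ∨ (top v = (s + 1) % n ∧ ¬ RtM ν β v))

/-- The sector with its right cut vertices removed and its left cut vertices added. -/
def PreM (ν β : Vert → ℕ) (n s : ℕ) (v : Vert) : Prop :=
  v ≠ [] ∧ ((top v = s ∧ (RtM ν β v ∨ IsCut ν β v)) ∨
    (top v = (s + 1) % n ∧ ¬ RtM ν β v ∧ ¬ IsCut ν β v))

/-- From the ray of the cone `s` to just before the ray of the cone `s + 1`. -/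
def EIn (ν β : Vert → ℕ) (n s : ℕ) (v : Vert) : Prop :=
  v ≠ [] ∧ ((top v = s ∧ (IsRay ν v ∨ RtM ν β v)) ∨
    (top v = (s + 1) % n ∧ ¬ (IsRay ν v ∨ RtM ν β v)))

/-- From just after the ray of the cone `s` to the ray of the cone `s + 1`. -/
def BIn (ν β : Vert → ℕ) (n s : ℕ) (v : Vert) : Prop :=
  v ≠ [] ∧ ((top v = s ∧ (¬ IsRay ν v ∧ RtM ν β v)) ∨
    (top v = (s + 1) % n ∧ ¬ (¬ IsRay ν v ∧ RtM ν β v)))

theorem InSecM.pre {ν β : Vert → ℕ} {n s : ℕ} {v : Vert} (h : InSecM ν β n s v)
    (h2 : ¬ IsCut ν β v) : PreM ν β n s v := by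
  obtain ⟨h0, ⟨h1, h3⟩ | ⟨h1, h3⟩⟩ := h
  · exact ⟨h0, Or.inl ⟨h1, Or.inl h3⟩⟩
  · exact ⟨h0, Or.inr ⟨h1, h3, h2⟩⟩

/-- A sector vertex is not on a right-mode ray or is on the left side of the sector. -/
theorem InSecM.eIn {ν β : Vert → ℕ} {n s : ℕ} {v : Vert} (h : InSecM ν β n s v)
    (h2 : IsRay ν v → RtM ν β v) : EIn ν β n s v := by
  obtain ⟨h0, ⟨h1, h3⟩ | ⟨h1, h3⟩⟩ := h
  · exact ⟨h0, Or.inl ⟨h1, Or.inr h3⟩⟩
  · refine ⟨h0, Or.inr ⟨h1, ?_⟩⟩
    rintro (h4 | h4)
    · exact h3 (h2 h4)
    · exact h3 h4

theorem PreM.top_mem {ν β : Vert → ℕ} {n s : ℕ} {v : Vert} (h : PreM ν β n s v) :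
    top v = s ∨ top v = (s + 1) % n := by
  obtain ⟨_, ⟨h1, _⟩ | ⟨h1, _⟩⟩ := h
  · exact Or.inl h1
  · exact Or.inr h1

theorem InSecM.top_mem {ν β : Vert → ℕ} {n s : ℕ} {v : Vert} (h : InSecM ν β n s v) :
    top v = s ∨ top v = (s + 1) % n := by
  obtain ⟨_, ⟨h1, _⟩ | ⟨h1, _⟩⟩ := h
  · exact Or.inl h1
  · exact Or.inr h1

theorem EIn.top_mem {ν β : Vert → ℕ} {n s : ℕ} {v : Vert} (h : EIn ν β n s v) :
    top v = s ∨ top v = (s + 1) % n := by
  obtain ⟨_, ⟨h1, _⟩ | ⟨h1, _⟩⟩ := h
  · exact Or.inl h1
  · exact Or.inr h1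

theorem BIn.top_mem {ν β : Vert → ℕ} {n s : ℕ} {v : Vert} (h : BIn ν β n s v) :
    top v = s ∨ top v = (s + 1) % n := by
  obtain ⟨_, ⟨h1, _⟩ | ⟨h1, _⟩⟩ := h
  · exact Or.inl h1
  · exact Or.inr h1

theorem BIn.eIn {ν β : Vert → ℕ} {n s : ℕ} {v : Vert} (h : BIn ν β n s v)
    (h2 : ¬ IsRay ν v) : EIn ν β n s v := by
  obtain ⟨h0, ⟨h1, h3⟩ | ⟨h1, h3⟩⟩ := h
  · exact ⟨h0, Or.inl ⟨h1, Or.inr h3.2⟩⟩
  · refine ⟨h0, Or.inr ⟨h1, ?_⟩⟩
    rintro (h4 | h4)
    · exact h2 h4
    · exact h3 ⟨h2, h4⟩

/-- The first child of a vertex of `BIn` lies in the sector and in `BIn`. -/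
theorem BIn.first {ν β : Vert → ℕ} {n s : ℕ} {v : Vert} (h : BIn ν β n s v) :
    InSecM ν β n s (0 :: v) ∧ BIn ν β n s (0 :: v) := by
  have h0 := h.1
  obtain ⟨_, ⟨h1, h3⟩ | ⟨h1, h3⟩⟩ := h
  · have h4 : RtM ν β (0 :: v) := Or.inr h3
    have h5 : ¬ IsRay ν (0 :: v) := by
      rintro (h | ⟨h, _⟩)
      · exact h0 h
      · exact h3.1 h
    exact ⟨⟨by simp, Or.inl ⟨by rw [top_cons h0, h1], h4⟩⟩,
      ⟨by simp, Or.inl ⟨by rw [top_cons h0, h1], h5, h4⟩⟩⟩
  · have h4 : ¬ RtM ν β (0 :: v) := by
      rintro (⟨_, h⟩ | h)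
      · omega
      · exact h3 h
    exact ⟨⟨by simp, Or.inr ⟨by rw [top_cons h0, h1], h4⟩⟩,
      ⟨by simp, Or.inr ⟨by rw [top_cons h0, h1], fun h => h4 h.2⟩⟩⟩

/-- The setting of two trees whose cones `s`, `s + 1 mod n` and `r`, `r + 1 mod m` agree. -/
structure MatchM (t t' ν β : Vert → ℕ) (n m s r : ℕ) : Prop where
  hn : 2 ≤ n
  hm : 2 ≤ m
  hs : s < n
  hr : r < m
  root : t [] = n
  root' : t' [] = m
  ray : ∀ v, InTree t v → IsRay ν v → ν v < t v ∧ β v < t v ∧ (ν v = β v ∨ ν v = β v + 1)
  same : ∀ v, v ≠ [] → (top v = s ∨ top v = (s + 1) % n) →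
    t' (phi s r ((r + 1) % m) v) = t v

variable {t t' ν β : Vert → ℕ} {n m s r : ℕ}

theorem MatchM.inTree_phi (M : MatchM t t' ν β n m s r) {v : Vert} (hv : v ≠ [])
    (h : InTree t v) (htop : top v = s ∨ top v = (s + 1) % n) :
    InTree t' (phi s r ((r + 1) % m) v) := by
  induction v with
  | nil => exact absurd rfl hv
  | cons i u ih =>
    cases u with
    | nil =>
      simp only [phi]
      rw [inTree_cons, M.root']
      refine ⟨inTree_nil, ?_⟩
      have h1 := M.hm
      split_ifs
      · exact M.hr
      · exact Nat.mod_lt _ (by omega)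
    | cons j u =>
      rw [phi_cons (by simp), inTree_cons]
      rw [inTree_cons] at h
      rw [top_cons (by simp)] at htop
      exact ⟨ih (by simp) h.1 htop, by rw [M.same _ (by simp) htop]; exact h.2⟩

/-- The statement proved by induction on the level. -/
def GoodM (t t' ν β : Vert → ℕ) (n m s r : ℕ) (k : ℕ) : Prop :=
  ∀ v : Vert, v.length = k → InTree t v →
    ((PreM ν β n s v → InSecM ν β n s (rightNbr t v)) ∧
      (EIn ν β n s v → BIn ν β n s (rightNbr t v)) ∧
      (PreM ν β n s v ∨ EIn ν β n s v →
        rightNbr t' (phi s r ((r + 1) % m) v) = phi s r ((r + 1) % m) (rightNbr t v)))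

theorem MatchM.upper (M : MatchM t t' ν β n m s r) {k : ℕ} (hk : GoodM t t' ν β n m s r k)
    {v : Vert} (hvk : v.length = k) (hv : InTree t v) (hE : EIn ν β n s v)
    (hne : level t (v.length + 1) ≠ []) :
    InSecM ν β n s (upperRight t v) ∧ BIn ν β n s (upperRight t v) ∧
      upperRight t' (phi s r ((r + 1) % m) v) = phi s r ((r + 1) % m) (upperRight t v) := by
  obtain ⟨l, hl0, hl1, hl2, hl3⟩ := upperRight_eq hv hne
  obtain ⟨l, rfl⟩ := Nat.exists_eq_succ_of_ne_zero (Nat.pos_iff_ne_zero.1 hl0)
  rw [hl3]
  clear hl0 hl3 hne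
  induction l generalizing v with
  | zero =>
    obtain ⟨_, h1, h2⟩ := hk v hvk hv
    replace h1 := h1 hE
    replace h2 := h2 (Or.inr hE)
    simp only [Function.iterate_one] at hl1 ⊢
    refine ⟨h1.first.1, h1.first.2, ?_⟩
    rw [upperRight_rec (M.inTree_phi hE.1 hv hE.top_mem), h2,
      M.same _ h1.1 h1.top_mem, if_pos hl1, phi_cons h1.1]
  | succ l ih =>
    obtain ⟨_, h1, h2⟩ := hk v hvk hv
    replace h1 := h1 hE
    replace h2 := h2 (Or.inr hE)
    have h4 := inTree_rightNbr hv
    have h5 : t (rightNbr t v) = 0 := hl2 1 (by omega) (by omega)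
    have h6 : ¬ IsRay ν (rightNbr t v) := by
      intro hb
      have := (M.ray _ h4.1 hb).1
      omega
    have h7 := ih (v := rightNbr t v) (h4.2.trans hvk) h4.1 (h1.eIn h6)
      (by rw [← Function.iterate_succ_apply]; exact hl1)
      (fun k hk1 hk2 => by
        rw [← Function.iterate_succ_apply]
        exact hl2 (k + 1) (by omega) (by omega))
    rw [← Function.iterate_succ_apply] at h7
    refine ⟨h7.1, h7.2.1, ?_⟩
    rw [upperRight_rec (M.inTree_phi hE.1 hv hE.top_mem), h2, M.same _ h1.1 h1.top_mem,
      if_neg (by omega)]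
    exact h7.2.2

theorem MatchM.good (M : MatchM t t' ν β n m s r) (k : ℕ) : GoodM t t' ν β n m s r k := by
  induction k with
  | zero =>
    intro v hv _
    have h0 := List.length_eq_zero_iff.1 hv
    exact ⟨fun h => absurd h0 h.1, fun h => absurd h0 h.1, fun h =>
      h.elim (fun h => absurd h0 h.1) (fun h => absurd h0 h.1)⟩
  | succ k ih =>
    intro v hvk hv
    cases v with
    | nil => simp at hvk
    | cons i u =>
      have hu := inTree_cons.1 hv
      cases u with
      | nil =>
        -- first generation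
        have key : i = s → InSecM ν β n s (rightNbr t [i]) ∧ BIn ν β n s (rightNbr t [i]) ∧
            rightNbr t' (phi s r ((r + 1) % m) [i]) =
              phi s r ((r + 1) % m) (rightNbr t [i]) := by
          intro h1
          subst h1
          have h2 : rightNbr t [i] = [(i + 1) % n] := by
            rw [rightNbr_cons hv, M.root]
            split_ifs with hc
            · rw [Nat.mod_eq_of_lt hc]
            · have h3 : i + 1 = n := by have := M.hs; omega
              rw [h3, Nat.mod_self]
              have h4 : rightNbr t [] = [] := by simp [rightNbr, around, level]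
              rw [upperRight_rec inTree_nil, h4, M.root, if_pos (by have := M.hn; omega)]
          have hv' : InTree t' [r] := inTree_cons.2 ⟨inTree_nil, by rw [M.root']; exact M.hr⟩
          have h2' : rightNbr t' [r] = [(r + 1) % m] := by
            rw [rightNbr_cons hv', M.root']
            split_ifs with hc
            · rw [Nat.mod_eq_of_lt hc]
            · have h3 : r + 1 = m := by have := M.hr; omega
              rw [h3, Nat.mod_self]
              have h4 : rightNbr t' [] = [] := by simp [rightNbr, around, level]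
              rw [upperRight_rec inTree_nil, h4, M.root', if_pos (by have := M.hm; omega)]
          have h5 : phi i r ((r + 1) % m) [i] = [r] := by simp [phi]
          have h6 : phi i r ((r + 1) % m) [(i + 1) % n] = [(r + 1) % m] := by
            simp [phi, succ_ne M.hn M.hs]
          rw [h5, h2, h2', h6]
          refine ⟨⟨by simp, Or.inr ⟨rfl, not_rtM_first⟩⟩,
            ⟨by simp, Or.inr ⟨rfl, fun h => not_rtM_first h.2⟩⟩, rfl⟩
        have hA : PreM ν β n s [i] → i = s := by
          rintro ⟨_, ⟨h1, _⟩ | ⟨_, _, h2⟩⟩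
          · exact h1
          · exact absurd (Or.inl rfl) h2
        have hB : EIn ν β n s [i] → i = s := by
          rintro ⟨_, ⟨h1, _⟩ | ⟨_, h2⟩⟩
          · exact h1
          · exact absurd (Or.inl (Or.inl rfl)) h2
        exact ⟨fun h => (key (hA h)).1, fun h => (key (hB h)).2.1, fun h =>
          h.elim (fun h => (key (hA h)).2.2) (fun h => (key (hB h)).2.2)⟩
      | cons j u' =>
        set u := j :: u' with hu0
        have hune : u ≠ [] := by simp [hu0]
        have huk : u.length = k := by
          simp only [List.length_cons] at hvk ⊢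
          omega
        have hray := M.ray u hu.1
        have htop : ∀ h : PreM ν β n s (i :: u) ∨ EIn ν β n s (i :: u),
            top u = s ∨ top u = (s + 1) % n := by
          rintro (h | h)
          · have := h.top_mem; rwa [top_cons hune] at this
          · have := h.top_mem; rwa [top_cons hune] at this
        have hphi : PreM ν β n s (i :: u) ∨ EIn ν β n s (i :: u) →
            InTree t' (phi s r ((r + 1) % m) (i :: u)) := fun h =>
          M.inTree_phi (by simp) hv (by rw [top_cons hune]; exact htop h)
        by_cases hc : i + 1 < t u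
        · -- the right neighbour is a sibling
          have hr1 : rightNbr t (i :: u) = (i + 1) :: u := by rw [rightNbr_cons hv, if_pos hc]
          rw [hr1]
          refine ⟨?_, ?_, ?_⟩
          · rintro ⟨_, h⟩
            rw [top_cons hune] at h
            refine ⟨by simp, ?_⟩
            rw [top_cons hune]
            rcases h with ⟨h1, h2⟩ | ⟨h1, h2, h3⟩
            · left
              refine ⟨h1, ?_⟩
              rcases h2 with (⟨h2, h3⟩ | h2) | (h2 | ⟨h2, h3⟩)
              · exact Or.inl ⟨h2, by omega⟩
              · exact Or.inr h2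
              · exact absurd h2 hune
              · exact Or.inl ⟨h2, by omega⟩
            · right
              refine ⟨h1, ?_⟩
              rintro (⟨h4, h5⟩ | h4)
              · by_cases h6 : i = β u
                · exact h3 (Or.inr ⟨h4, h6⟩)
                · exact h2 (Or.inl ⟨h4, by omega⟩)
              · exact h2 (Or.inr h4)
          · rintro ⟨_, h⟩
            rw [top_cons hune] at h
            refine ⟨by simp, ?_⟩
            rw [top_cons hune]
            rcases h with ⟨h1, h2⟩ | ⟨h1, h2⟩
            · left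
              refine ⟨h1, ?_⟩
              rcases h2 with (h2 | ⟨h2, h3⟩) | (⟨h2, h3⟩ | h2)
              · exact absurd h2 hune
              · have h4 := hray h2
                refine ⟨?_, Or.inl ⟨h2, by omega⟩⟩
                rintro (h5 | ⟨_, h5⟩)
                · exact hune h5
                · omega
              · have h4 := hray h2
                refine ⟨?_, Or.inl ⟨h2, by omega⟩⟩
                rintro (h5 | ⟨_, h5⟩)
                · exact hune h5
                · omega
              · refine ⟨?_, Or.inr h2⟩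
                rintro (h5 | ⟨h5, _⟩)
                · exact hune h5
                · exact h2.1 h5
            · right
              refine ⟨h1, ?_⟩
              rintro ⟨h3, h4⟩
              apply h2
              rcases h4 with ⟨h4, h5⟩ | h4
              · have h6 := hray h4
                by_cases h7 : β u < i
                · exact Or.inr (Or.inl ⟨h4, h7⟩)
                · have h8 : i = β u := by omega
                  rcases h6.2.2 with h9 | h9
                  · exact Or.inl (Or.inr ⟨h4, by omega⟩)
                  · exact absurd (Or.inr ⟨h4, by omega⟩) h3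
              · exact Or.inr (Or.inr h4)
          · intro h
            have hphi' := hphi h
            rw [phi_cons hune] at hphi' ⊢
            rw [rightNbr_cons hphi', M.same u hune (htop h), if_pos hc, phi_cons hune]
        · -- the right neighbour is the upper-right vertex of the parent
          have hiu : i + 1 = t u := by omega
          have hr1 : rightNbr t (i :: u) = upperRight t u := by rw [rightNbr_cons hv, if_neg hc]
          rw [hr1]
          have hne : level t (u.length + 1) ≠ [] := by
            intro h0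
            have : i :: u ∈ level t (u.length + 1) := hv
            rw [h0] at this
            simp at this
          have hEP : PreM ν β n s (i :: u) → EIn ν β n s u := by
            rintro ⟨_, h⟩
            rw [top_cons hune] at h
            refine ⟨hune, ?_⟩
            rcases h with ⟨h1, h2⟩ | ⟨h1, h2, h3⟩
            · left
              refine ⟨h1, ?_⟩
              rcases h2 with (⟨h2, h3⟩ | h2) | (h2 | ⟨h2, h3⟩)
              · exact Or.inl h2
              · exact Or.inr h2.2
              · exact absurd h2 hune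
              · exact Or.inl h2
            · right
              refine ⟨h1, ?_⟩
              have h5 : ¬ IsRay ν u := by
                intro h4
                have h6 := hray h4
                by_cases h7 : i = β u
                · exact h3 (Or.inr ⟨h4, h7⟩)
                · exact h2 (Or.inl ⟨h4, by omega⟩)
              rintro (h4 | h4)
              · exact h5 h4
              · exact h2 (Or.inr ⟨h5, h4⟩)
          have hEE : EIn ν β n s (i :: u) → EIn ν β n s u := by
            rintro ⟨_, h⟩
            rw [top_cons hune] at h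
            refine ⟨hune, ?_⟩
            rcases h with ⟨h1, h2⟩ | ⟨h1, h2⟩
            · left
              refine ⟨h1, ?_⟩
              rcases h2 with (h2 | ⟨h2, h3⟩) | (⟨h2, h3⟩ | h2)
              · exact absurd h2 hune
              · exact Or.inl h2
              · exact Or.inl h2
              · exact Or.inr h2.2
            · right
              refine ⟨h1, ?_⟩
              have h5 : ¬ IsRay ν u := by
                intro h4
                have h6 := hray h4
                by_cases h7 : β u < i
                · exact h2 (Or.inr (Or.inl ⟨h4, h7⟩))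
                · have h8 : i = β u := by omega
                  rcases h6.2.2 with h9 | h9
                  · exact h2 (Or.inl (Or.inr ⟨h4, by omega⟩))
                  · omega
              rintro (h4 | h4)
              · exact h5 h4
              · exact h2 (Or.inr (Or.inr ⟨h5, h4⟩))
          refine ⟨fun h => (M.upper ih huk hu.1 (hEP h) hne).1,
            fun h => (M.upper ih huk hu.1 (hEE h) hne).2.1, fun h => ?_⟩
          have hphi' := hphi h
          rw [phi_cons hune] at hphi' ⊢
          rw [rightNbr_cons hphi', M.same u hune (htop h), if_neg hc]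
          exact (M.upper ih huk hu.1 (h.elim hEP hEE) hne).2.2

theorem MatchM.right (M : MatchM t t' ν β n m s r) {v : Vert} (hv : InTree t v)
    (hpre : PreM ν β n s v) : InSecM ν β n s (rightNbr t v) ∧
      rightNbr t' (phi s r ((r + 1) % m) v) = phi s r ((r + 1) % m) (rightNbr t v) :=
  ⟨(M.good v.length v rfl hv).1 hpre, (M.good v.length v rfl hv).2.2 (Or.inl hpre)⟩

theorem MatchM.up (M : MatchM t t' ν β n m s r) {v : Vert} (hv : InTree t v)
    (hE : EIn ν β n s v) (hne : level t (v.length + 1) ≠ []) :
    InSecM ν β n s (upperRight t v) ∧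
      upperRight t' (phi s r ((r + 1) % m) v) = phi s r ((r + 1) % m) (upperRight t v) :=
  ⟨(M.upper (M.good v.length) rfl hv hE hne).1, (M.upper (M.good v.length) rfl hv hE hne).2.2⟩

end CausalPerc
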