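import Pool.Agent.Lib.MP_a51368_pr.SectorM
import Pool.Agent.Lib.MP_a51368_pr.Sector2

open Set

namespace CausalPerc

/-! ### Cuts and the two-mode barrier process -/

/-- The barrier coming up on the right of a vertex with data `x` can pass through the horizontal
edge on the right of the child `j`. -/
def CutR (p : ℝ) (x : Node) (j : ℕ) : Prop :=
  j < x.1 ∧ p < (x.2 (.hor j) : ℝ) ∧ p < (x.2 .diag : ℝ) ∧
    ∀ i', j < i' → i' < x.1 → p < (x.2 (.tree i') : ℝ)

/-- The barrier coming up on the left of a vertex with data `x` can pass through the horizontal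
edge on the right of the child `j`. -/
def CutL (p : ℝ) (x : Node) (j : ℕ) : Prop :=
  j < x.1 ∧ p < (x.2 (.hor j) : ℝ) ∧ ∀ i' ≤ j, p < (x.2 (.tree i') : ℝ)

/-- Available cuts; the mode is `true` when the barrier comes up on the right of the vertex. -/
def Cut (p : ℝ) (m : Bool) (x : Node) (j : ℕ) : Prop :=
  (m = true ∧ CutR p x j) ∨ (m = false ∧ CutL p x j)

/-- The index of the cut used when the barrier follows the child `i` in mode `m`. -/
def cutIdx (i : ℕ) (m : Bool) : ℕ := if m = true then i else i - 1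

/-- The barrier, in mode `m` at a vertex with data `x`, can follow the child `i` in mode `m'`. -/
def Child (p : ℝ) (m : Bool) (x : Node) (i : ℕ) (m' : Bool) : Prop :=
  i < x.1 ∧ (m' = false → 0 < i) ∧ Cut p m x (cutIdx i m')

/-- Barriers of height `n`. -/
def psurv (p : ℝ) : ℕ → Bool → Set Conf
  | 0, _ => univ
  | n + 1, m => {ω | ∃ i m', Child p m (ω []) i m' ∧ coneAt [i] ω ∈ psurv p n m'}

/-- Barriers of every height. -/
def psurvInf (p : ℝ) (m : Bool) : Set Conf := ⋂ n, psurv p n m

theorem psurv_succ_subset (p : ℝ) (n : ℕ) (m : Bool) : psurv p (n + 1) m ⊆ psurv p n m := by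
  induction n generalizing m with
  | zero => exact subset_univ _
  | succ n ih =>
    rintro ω ⟨i, m', hi, h⟩
    exact ⟨i, m', hi, ih _ h⟩

theorem psurv_antitone (p : ℝ) (m : Bool) : Antitone fun n => psurv p n m :=
  antitone_nat_of_succ_le fun n => psurv_succ_subset p n m

theorem psurvInf_step {p : ℝ} {ω : Conf} {m : Bool} (h : ω ∈ psurvInf p m) :
    ∃ i m', Child p m (ω []) i m' ∧ coneAt [i] ω ∈ psurvInf p m' := by
  by_contra hcon
  push Not at hcon
  have h1 : ∀ (i : ℕ) (m' : Bool), ∃ n, Child p m (ω []) i m' → coneAt [i] ω ∉ psurv p n m' := by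
    intro i m'
    by_cases hc : Child p m (ω []) i m'
    · have := hcon i m' hc
      simp only [psurvInf, mem_iInter, not_forall] at this
      obtain ⟨n, hn⟩ := this
      exact ⟨n, fun _ => hn⟩
    · exact ⟨0, fun h => absurd h hc⟩
  choose f hf using h1
  have h2 := mem_iInter.1 h
    ((Finset.range (ω []).1).sup (fun i => f i true) + (Finset.range (ω []).1).sup
      (fun i => f i false) + 1)
  obtain ⟨i, m', hi, h3⟩ := h2
  have hir : i ∈ Finset.range (ω []).1 := Finset.mem_range.2 hi.1
  refine hf i m' hi (psurv_antitone p _ ?_ h3)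
  have e1 : f i true ≤ (Finset.range (ω []).1).sup (fun i => f i true) :=
    Finset.le_sup (f := fun i => f i true) hir
  have e2 : f i false ≤ (Finset.range (ω []).1).sup (fun i => f i false) :=
    Finset.le_sup (f := fun i => f i false) hir
  cases m'
  · omega
  · omega

/-- Possible continuations of an infinite barrier. -/
def GoodCh (p : ℝ) (m : Bool) (c : Conf) (i : ℕ) (m' : Bool) : Prop :=
  Child p m (c []) i m' ∧ coneAt [i] c ∈ psurvInf p m'

/-- The index of the next vertex of the canonical ray of a cone. -/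
noncomputable def nextIdxM (p : ℝ) (m : Bool) (c : Conf) : ℕ :=
  sInf {i | ∃ m', GoodCh p m c i m'}

open Classical in
/-- The mode at the next vertex of the canonical ray of a cone. -/
noncomputable def nextModeM (p : ℝ) (m : Bool) (c : Conf) : Bool :=
  decide (GoodCh p m c (nextIdxM p m c) true)

theorem nextM_spec {p : ℝ} {m : Bool} {c : Conf} (h : c ∈ psurvInf p m) :
    GoodCh p m c (nextIdxM p m c) (nextModeM p m c) := by
  obtain ⟨i, m', h1⟩ := psurvInf_step h
  have h2 : ∃ m', GoodCh p m c (nextIdxM p m c) m' :=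
    Nat.sInf_mem (s := {i | ∃ m', GoodCh p m c i m'}) ⟨i, m', h1⟩
  by_cases h3 : GoodCh p m c (nextIdxM p m c) true
  · have : nextModeM p m c = true := by
      simp only [nextModeM, decide_eq_true_eq]
      exact h3
    rw [this]; exact h3
  · have : nextModeM p m c = false := by
      simp only [nextModeM, decide_eq_false_iff_not]
      exact h3
    rw [this]
    obtain ⟨m', h4⟩ := h2
    cases m'
    · exact h4
    · exact absurd h4 h3

/-- The mode at a vertex. -/
noncomputable def mdM (p : ℝ) (ω : Conf) : Vert → Bool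
  | [] => true
  | [_] => true
  | _ :: j :: u => nextModeM p (mdM p ω (j :: u)) (coneAt (j :: u) ω)

theorem mdM_cons {p : ℝ} {ω : Conf} {i : ℕ} {u : Vert} (hu : u ≠ []) :
    mdM p ω (i :: u) = nextModeM p (mdM p ω u) (coneAt u ω) := by
  cases u with
  | nil => exact absurd rfl hu
  | cons j u => rfl

/-- The ray index at a vertex. -/
noncomputable def nuM (p : ℝ) (ω : Conf) (v : Vert) : ℕ := nextIdxM p (mdM p ω v) (coneAt v ω)

/-- The cut index at a vertex. -/
noncomputable def beM (p : ℝ) (ω : Conf) (v : Vert) : ℕ :=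
  cutIdx (nuM p ω v) (nextModeM p (mdM p ω v) (coneAt v ω))

/-- The root has `n` children, its edges and the horizontal edges of the first generation are
closed, and the cones of its children have barriers. -/
structure BarConfM (p : ℝ) (n : ℕ) (ω : Conf) : Prop where
  hn : 2 ≤ n
  root : kids ω [] = n
  closedT : ∀ s < n, p < lab ω [] (.tree s)
  closedH : ∀ s < n, p < lab ω [] (.hor s)
  cone : ∀ s < n, coneAt [s] ω ∈ psurvInf p true

variable {p : ℝ} {n m s r : ℕ} {ω ω' : Conf}

theorem BarConfM.ray_cone (B : BarConfM p n ω) {v : Vert} (hv : InTree (kids ω) v)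
    (hb : IsRay (nuM p ω) v) : coneAt v ω ∈ psurvInf p (mdM p ω v) := by
  induction v with
  | nil => exact absurd hb id
  | cons i u ih =>
    have h1 := inTree_cons.1 hv
    rcases isRay_cons.1 hb with rfl | ⟨h2, h3⟩
    · exact B.cone i (by rw [← B.root]; exact h1.2)
    · have hu : u ≠ [] := by
        rintro rfl
        exact h2
      have h4 := (nextM_spec (ih h1.1 h2)).2
      rw [coneAt_coneAt] at h4
      rw [mdM_cons hu, h3]
      exact h4

theorem BarConfM.ray_child (B : BarConfM p n ω) {v : Vert} (hv : InTree (kids ω) v)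
    (hb : IsRay (nuM p ω) v) : Child p (mdM p ω v) (ω v) (nuM p ω v)
      (nextModeM p (mdM p ω v) (coneAt v ω)) := by
  have h := (nextM_spec (B.ray_cone hv hb)).1
  have h2 : coneAt v ω [] = ω v := by simp [coneAt]
  rwa [h2] at h

theorem Child.cut_lt {p : ℝ} {m m' : Bool} {x : Node} {i : ℕ} (h : Child p m x i m') :
    cutIdx i m' < x.1 := by
  rcases h.2.2 with ⟨_, h⟩ | ⟨_, h⟩
  · exact h.1
  · exact h.1

theorem Child.cut_eq {p : ℝ} {m m' : Bool} {x : Node} {i : ℕ} (h : Child p m x i m') :
    i = cutIdx i m' ∨ i = cutIdx i m' + 1 := by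
  cases m'
  · right
    have := h.2.1 rfl
    simp only [cutIdx, Bool.false_eq_true, if_false]
    omega
  · left
    simp [cutIdx]

theorem BarConfM.ray (B : BarConfM p n ω) {v : Vert} (hv : InTree (kids ω) v)
    (hb : IsRay (nuM p ω) v) : nuM p ω v < kids ω v ∧ beM p ω v < kids ω v ∧
      (nuM p ω v = beM p ω v ∨ nuM p ω v = beM p ω v + 1) := by
  have h := B.ray_child hv hb
  exact ⟨h.1, h.cut_lt, h.cut_eq⟩

/-- On the ray, the mode tells on which side of the barrier the vertex is. -/
theorem BarConfM.md_iff (B : BarConfM p n ω) {v : Vert} (hv : InTree (kids ω) v)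
    (hb : IsRay (nuM p ω) v) : mdM p ω v = false ↔ RtM (nuM p ω) (beM p ω) v := by
  cases v with
  | nil => exact absurd hb id
  | cons i u =>
    cases u with
    | nil =>
      constructor
      · intro h
        simp [mdM] at h
      · intro h
        exact absurd h not_rtM_first
    | cons j u =>
      set w : Vert := j :: u with hw
      have hwne : w ≠ [] := by simp [hw]
      have h1 := inTree_cons.1 hv
      rcases isRay_cons.1 hb with h | ⟨h2, h3⟩
      · exact absurd h hwne
      rw [mdM_cons hwne, rtM_cons]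
      have h4 := B.ray_child h1.1 h2
      constructor
      · intro h
        left
        refine ⟨h2, ?_⟩
        rw [h] at h4
        have h5 := h4.2.1 rfl
        unfold beM
        rw [h, h3]
        simp only [cutIdx, Bool.false_eq_true, if_false]
        omega
      · rintro (⟨_, h5⟩ | ⟨h5, _⟩)
        · by_contra hcon
          rw [Bool.not_eq_false] at hcon
          unfold beM at h5
          rw [hcon, h3] at h5
          simp [cutIdx] at h5
        · exact absurd h2 h5

theorem BarConfM.cut_of_not_rt (B : BarConfM p n ω) {v : Vert} (hv : InTree (kids ω) v)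
    (hb : IsRay (nuM p ω) v) (h : ¬ RtM (nuM p ω) (beM p ω) v) :
    CutR p (ω v) (beM p ω v) := by
  rw [← B.md_iff hv hb, Bool.not_eq_false] at h
  rcases (B.ray_child hv hb).2.2 with ⟨_, h1⟩ | ⟨h1, _⟩
  · exact h1
  · rw [h1] at h; exact absurd h (by simp)

theorem BarConfM.cut_of_rt (B : BarConfM p n ω) {v : Vert} (hv : InTree (kids ω) v)
    (hb : IsRay (nuM p ω) v) (h : RtM (nuM p ω) (beM p ω) v) :
    CutL p (ω v) (beM p ω v) := by
  rw [← B.md_iff hv hb] at h
  rcases (B.ray_child hv hb).2.2 with ⟨h1, _⟩ | ⟨_, h1⟩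
  · rw [h1] at h; exact absurd h (by simp)
  · exact h1

theorem BarConfM.match (B : BarConfM p n ω) (B' : BarConfM p m ω') (hs : s < n) (hr : r < m)
    (h1 : coneAt [s] ω = coneAt [r] ω')
    (h2 : coneAt [(s + 1) % n] ω = coneAt [(r + 1) % m] ω') :
    MatchM (kids ω) (kids ω') (nuM p ω) (beM p ω) n m s r where
  hn := B.hn
  hm := B'.hn
  hs := hs
  hr := hr
  root := B.root
  root' := B'.root
  ray := fun _ hv hb => B.ray hv hb
  same := fun v hv htop => by
    have := same_node h1 h2 (succ_ne B.hn hs) hv htop []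
    simp only [List.nil_append] at this
    unfold kids
    rw [this]

theorem BarConfM.self (B : BarConfM p n ω) (hs : s < n) :
    MatchM (kids ω) (kids ω) (nuM p ω) (beM p ω) n n s s := B.match B hs hs rfl rfl

theorem BarConfM.exists_sec (B : BarConfM p n ω) {v : Vert} (hv : v ≠ [])
    (h : InTree (kids ω) v) : ∃ s < n, InSecM (nuM p ω) (beM p ω) n s v := by
  have h1 := top_lt hv h
  rw [B.root] at h1
  by_cases hrt : RtM (nuM p ω) (beM p ω) v
  · exact ⟨top v, h1, hv, Or.inl ⟨rfl, hrt⟩⟩
  · have hn := B.hn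
    refine ⟨(top v + (n - 1)) % n, Nat.mod_lt _ (by omega), hv, Or.inr ⟨?_, hrt⟩⟩
    rw [Nat.mod_add_mod, show top v + (n - 1) + 1 = top v + n by omega, Nat.add_mod_right,
      Nat.mod_eq_of_lt h1]

theorem secM_unique (hn : 2 ≤ n) {ν β : Vert → ℕ} {v : Vert} {s s' : ℕ} (hs : s < n)
    (hs' : s' < n) (h : InSecM ν β n s v) (h' : InSecM ν β n s' v) : s = s' := by
  obtain ⟨_, ⟨h1, h2⟩ | ⟨h1, h2⟩⟩ := h <;> obtain ⟨_, ⟨h3, h4⟩ | ⟨h3, h4⟩⟩ := h'
  · exact h1.symm.trans h3
  · exact absurd h2 h4
  · exact absurd h4 h2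
  · have h5 := h1.symm.trans h3
    by_cases e1 : s + 1 < n
    · rw [Nat.mod_eq_of_lt e1] at h5
      by_cases e2 : s' + 1 < n
      · rw [Nat.mod_eq_of_lt e2] at h5; omega
      · have : s' + 1 = n := by omega
        rw [this, Nat.mod_self] at h5; omega
    · have e3 : s + 1 = n := by omega
      rw [e3, Nat.mod_self] at h5
      by_cases e2 : s' + 1 < n
      · rw [Nat.mod_eq_of_lt e2] at h5; omega
      · omega

theorem BarConfM.not_step_nil (B : BarConfM p n ω) {w : Vert} : ¬ Step p ω [] w := by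
  rintro (⟨h1, ⟨i, h2, _, h3⟩ | ⟨h2, _⟩⟩ | ⟨_, _, i, v, h2, _⟩ | h)
  · rw [B.root] at h2
    exact absurd h3 (not_le.2 (B.closedT i h2))
  · exact h2 rfl
  · simp at h2
  · have h3 := h.inTree.2.2
    obtain ⟨_, _, i, v, h2, _⟩ := h
    rw [h2] at h3
    simp at h3

theorem BarConfM.ne_nil_of_step (B : BarConfM p n ω) {u w : Vert} (h : Step p ω u w) :
    u ≠ [] ∧ w ≠ [] := by
  have h1 : u ≠ [] := by
    rintro rfl
    exact B.not_step_nil h
  refine ⟨h1, ?_⟩
  rintro rfl
  have := h.inTree.2.2.1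
  simp at this
  exact h1 this

theorem BarConfM.rt_of_diag (B : BarConfM p n ω) {u : Vert} (hu : InTree (kids ω) u)
    (h : lab ω u .diag ≤ p) (hb : IsRay (nuM p ω) u) : RtM (nuM p ω) (beM p ω) u := by
  by_contra hcon
  have h1 := (B.cut_of_not_rt hu hb hcon).2.2.1
  exact absurd h (not_le.2 h1)

theorem BarConfM.not_cut_of_hor (B : BarConfM p n ω) {u w : Vert} (h : OpenHor p ω u w) :
    ¬ IsCut (nuM p ω) (beM p ω) u := by
  obtain ⟨h1, _, i, v, rfl, h2⟩ := h
  have h3 := inTree_cons.1 h1
  intro hb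
  rcases isCut_cons.1 hb with rfl | ⟨h4, h5⟩
  · rw [B.root] at h3
    exact absurd h2 (not_le.2 (B.closedH i h3.2))
  · by_cases hrt : RtM (nuM p ω) (beM p ω) v
    · have h6 := (B.cut_of_rt h3.1 h4 hrt).2.1
      rw [← h5] at h6
      exact absurd h2 (not_le.2 h6)
    · have h6 := (B.cut_of_not_rt h3.1 h4 hrt).2.1
      rw [← h5] at h6
      exact absurd h2 (not_le.2 h6)

theorem BarConfM.rt_child (B : BarConfM p n ω) {u : Vert} {i : ℕ} (hu : InTree (kids ω) u)
    (hi : i < kids ω u) (h : lab ω u (.tree i) ≤ p) :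
    RtM (nuM p ω) (beM p ω) (i :: u) ↔ RtM (nuM p ω) (beM p ω) u := by
  rw [rtM_cons]
  by_cases hb : IsRay (nuM p ω) u
  · by_cases hrt : RtM (nuM p ω) (beM p ω) u
    · have h1 := (B.cut_of_rt hu hb hrt).2.2
      constructor
      · exact fun _ => hrt
      · intro _
        left
        refine ⟨hb, ?_⟩
        by_contra hcon
        exact absurd h (not_le.2 (h1 i (by omega)))
    · have h1 := (B.cut_of_not_rt hu hb hrt).2.2.2
      constructor
      · rintro (⟨_, h2⟩ | ⟨h2, _⟩)
        · exact absurd h (not_le.2 (h1 i h2 hi))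
        · exact absurd hb h2
      · exact fun h => absurd h hrt
  · constructor
    · rintro (⟨h2, _⟩ | ⟨_, h2⟩)
      · exact absurd h2 hb
      · exact h2
    · exact fun h => Or.inr ⟨hb, h⟩

theorem BarConfM.step_sec (B : BarConfM p n ω) (hs : s < n) {u w : Vert} (h : Step p ω u w)
    (hsec : InSecM (nuM p ω) (beM p ω) n s u) : InSecM (nuM p ω) (beM p ω) n s w := by
  have hne := B.ne_nil_of_step h
  rcases h with ⟨h1, ⟨i, h2, rfl, h3⟩ | ⟨h2, h3, rfl, h4⟩⟩ | h | h
  · refine ⟨by simp, ?_⟩
    rw [top_cons hne.1, B.rt_child h1 h2 h3]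
    exact hsec.2
  · exact ((B.self hs).up h1 (hsec.eIn (B.rt_of_diag h1 h4)) h3).1
  · have hb := B.not_cut_of_hor h
    obtain ⟨h1, rfl, _⟩ := h
    exact ((B.self hs).right h1 (hsec.pre hb)).1
  · have hb := B.not_cut_of_hor h
    obtain ⟨h1, h2, _⟩ := h
    obtain ⟨s0, hs0, hsec0⟩ := B.exists_sec hne.2 h1
    have h3 := ((B.self hs0).right h1 (hsec0.pre hb)).1
    rw [← h2] at h3
    rw [secM_unique B.hn hs hs0 hsec h3]
    exact hsec0

theorem BarConfM.step_sec' (B : BarConfM p n ω) (hs : s < n) {u w : Vert} (h : Step p ω w u)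
    (hsec : InSecM (nuM p ω) (beM p ω) n s u) : InSecM (nuM p ω) (beM p ω) n s w := by
  have hne := B.ne_nil_of_step h
  obtain ⟨s0, hs0, hsec0⟩ := B.exists_sec hne.1 h.inTree.1
  have h3 := B.step_sec hs0 h hsec0
  rw [secM_unique B.hn hs hs0 hsec h3]
  exact hsec0

theorem BarConfM.cluster_sec (B : BarConfM p n ω) (hs : s < n) {u w : Vert}
    (h : w ∈ cluster p ω u) (hsec : InSecM (nuM p ω) (beM p ω) n s u) :
    InSecM (nuM p ω) (beM p ω) n s w := by
  induction h with
  | refl => exact hsec
  | tail _ h2 ih => exact B.step_sec hs h2 ih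

theorem BarConfM.conn_sec (B : BarConfM p n ω) (hs : s < n) {u w : Vert}
    (h : Conn p ω u w) (hsec : InSecM (nuM p ω) (beM p ω) n s u) :
    InSecM (nuM p ω) (beM p ω) n s w := by
  induction h with
  | refl => exact hsec
  | tail _ h2 ih =>
    rcases h2 with h2 | h2
    · exact B.step_sec hs h2 ih
    · exact B.step_sec' hs h2 ih

/-- There is an infinite cluster in the sector `s`. -/
def SecInfM (p : ℝ) (n s : ℕ) (ω : Conf) : Prop :=
  ∃ u, InSecM (nuM p ω) (beM p ω) n s u ∧ (cluster p ω u).Infinite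

theorem BarConfM.exists_secInf (B : BarConfM p n ω) (h : HasInf p ω) :
    ∃ s < n, SecInfM p n s ω := by
  obtain ⟨u, hu⟩ := h
  have h1 : u ≠ [] := by
    rintro rfl
    apply hu
    apply (Set.finite_singleton ([] : Vert)).subset
    intro w hw
    rcases Relation.ReflTransGen.cases_head hw with h1 | ⟨c, h1, _⟩
    · exact h1.symm
    · exact absurd h1 B.not_step_nil
  obtain ⟨s, hs, hsec⟩ := B.exists_sec h1 (inTree_of_cluster_infinite hu)
  exact ⟨s, hs, u, hsec, hu⟩

theorem BarConfM.twoInf (B : BarConfM p n ω) {s s' : ℕ} (hs : s < n) (hs' : s' < n)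
    (hne : s ≠ s') (h : SecInfM p n s ω) (h' : SecInfM p n s' ω) : TwoInf p ω := by
  obtain ⟨u, hu1, hu2⟩ := h
  obtain ⟨w, hw1, hw2⟩ := h'
  exact ⟨u, w, hu2, hw2, fun hc => hne (secM_unique B.hn hs hs' (B.conn_sec hs hc hu1) hw1)⟩

/-! ### Transfer between configurations -/

section transfer

variable (B : BarConfM p n ω) (B' : BarConfM p m ω') (hs : s < n) (hr : r < m)
    (h1 : coneAt [s] ω = coneAt [r] ω')
    (h2 : coneAt [(s + 1) % n] ω = coneAt [(r + 1) % m] ω')

include B B' hs hr h1 h2

theorem transferM_step {u w : Vert} (hsec : InSecM (nuM p ω) (beM p ω) n s u)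
    (h : Step p ω u w) :
    Step p ω' (phi s r ((r + 1) % m) u) (phi s r ((r + 1) % m) w) := by
  have M := B.match B' hs hr h1 h2
  have hsecw := B.step_sec hs h hsec
  have hT := h.inTree
  have hTu := M.inTree_phi hsec.1 hT.1 hsec.top_mem
  have hTw := M.inTree_phi hsecw.1 hT.2.1 hsecw.top_mem
  have hnode : ∀ v : Vert, v ≠ [] → (top v = s ∨ top v = (s + 1) % n) →
      ω' (phi s r ((r + 1) % m) v) = ω v := fun v hv htop => by
    have := same_node h1 h2 (succ_ne B.hn hs) hv htop []
    simpa using this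
  have hhor : ∀ {a b : Vert}, InSecM (nuM p ω) (beM p ω) n s a → OpenHor p ω a b →
      OpenHor p ω' (phi s r ((r + 1) % m) a) (phi s r ((r + 1) % m) b) := by
    intro a b ha hab
    have hb := B.not_cut_of_hor hab
    obtain ⟨h3, rfl, i, v, rfl, h4⟩ := hab
    have hv : v ≠ [] := by
      rintro rfl
      exact hb (Or.inl rfl)
    refine ⟨M.inTree_phi ha.1 h3 ha.top_mem, (M.right h3 (ha.pre hb)).2.symm, i,
      phi s r ((r + 1) % m) v, phi_cons hv, ?_⟩
    have htop := ha.top_mem
    rw [top_cons hv] at htop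
    unfold lab
    rw [hnode v hv htop]
    exact h4
  rcases h with ⟨h3, ⟨i, h4, rfl, h5⟩ | ⟨h4, h5, rfl, h6⟩⟩ | h | h
  · refine Or.inl ⟨hTu, Or.inl ⟨i, ?_, phi_cons hsec.1, ?_⟩⟩
    · unfold kids
      rw [hnode u hsec.1 hsec.top_mem]
      exact h4
    · unfold lab
      rw [hnode u hsec.1 hsec.top_mem]
      exact h5
  · refine Or.inl ⟨hTu, Or.inr ⟨phi_ne_nil hsec.1, ?_, ?_, ?_⟩⟩
    · intro h0
      have hlen := (inTree_upperRight h3 h5).2
      have : phi s r ((r + 1) % m) (upperRight (kids ω) u) ∈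
          level (kids ω') ((phi s r ((r + 1) % m) u).length + 1) := by
        rw [mem_level_iff]
        exact ⟨by rw [phi_length, phi_length, hlen], hTw⟩
      rw [h0] at this
      simp at this
    · exact (M.up h3 (hsec.eIn (B.rt_of_diag h3 h6)) h5).2.symm
    · unfold lab
      rw [hnode u hsec.1 hsec.top_mem]
      exact h6
  · exact Or.inr (Or.inl (hhor hsec h))
  · exact Or.inr (Or.inr (hhor hsecw h))

theorem transferM_cluster {u w : Vert} (hsec : InSecM (nuM p ω) (beM p ω) n s u)
    (h : w ∈ cluster p ω u) :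
    phi s r ((r + 1) % m) w ∈ cluster p ω' (phi s r ((r + 1) % m) u) := by
  induction h with
  | refl => exact .refl
  | @tail b c hb hbc ih =>
    exact Relation.ReflTransGen.tail ih
      (transferM_step B B' hs hr h1 h2 (B.cluster_sec hs hb hsec) hbc)

theorem phiM_injOn : Set.InjOn (phi s r ((r + 1) % m))
    {v | v ≠ [] ∧ (top v = s ∨ top v = (s + 1) % n)} := by
  rintro v ⟨hv, htv⟩ w ⟨hw, htw⟩ hvw
  obtain ⟨a, ha, ha2⟩ := phi_eq_append (s := s) (r := r) (r' := (r + 1) % m) hv
  obtain ⟨b, hb, hb2⟩ := phi_eq_append (s := s) (r := r) (r' := (r + 1) % m) hw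
  have e1 := ha2 []
  have e2 := hb2 []
  simp only [List.nil_append] at e1 e2
  rw [e1, e2] at hvw
  have h3 := List.append_inj' hvw (by simp)
  have hr' := succ_ne B'.hn hr
  have hs' := succ_ne B.hn hs
  have h4 : top v = top w := by
    have h5 : (if top v = s then r else (r + 1) % m) = (if top w = s then r else (r + 1) % m) := by
      simpa using h3.2
    rcases htv with h6 | h6 <;> rcases htw with h7 | h7
    · rw [h6, h7]
    · rw [if_pos h6, if_neg (by rw [h7]; exact hs')] at h5
      exact absurd h5.symm hr'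
    · rw [if_pos h7, if_neg (by rw [h6]; exact hs')] at h5
      exact absurd h5 hr'
    · rw [h6, h7]
  rw [ha, hb, h3.1, h4]

theorem transferM_cone {v : Vert} (hv : v ≠ []) (htop : top v = s ∨ top v = (s + 1) % n) :
    coneAt (phi s r ((r + 1) % m) v) ω' = coneAt v ω := by
  funext x
  unfold coneAt
  obtain ⟨a, ha, ha2⟩ := phi_eq_append (s := s) (r := r) (r' := (r + 1) % m) hv
  have h3 : x ++ phi s r ((r + 1) % m) v = phi s r ((r + 1) % m) (x ++ v) := by
    have e1 := ha2 []
    simp only [List.nil_append] at e1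
    rw [ha2 x, e1, List.append_assoc]
  rw [h3]
  exact same_node h1 h2 (succ_ne B.hn hs) hv htop x

theorem transferM_md {v : Vert} (hv : v ≠ []) (htop : top v = s ∨ top v = (s + 1) % n) :
    mdM p ω' (phi s r ((r + 1) % m) v) = mdM p ω v := by
  induction v with
  | nil => exact absurd rfl hv
  | cons i u ih =>
    cases u with
    | nil => rfl
    | cons j u =>
      have htop' : top (j :: u) = s ∨ top (j :: u) = (s + 1) % n := htop
      rw [phi_cons (by simp), mdM_cons (phi_ne_nil (by simp)), mdM_cons (by simp),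
        ih (by simp) htop', transferM_cone B B' hs hr h1 h2 (by simp) htop']

theorem transferM_nu {v : Vert} (hv : v ≠ []) (htop : top v = s ∨ top v = (s + 1) % n) :
    nuM p ω' (phi s r ((r + 1) % m) v) = nuM p ω v := by
  unfold nuM
  rw [transferM_md B B' hs hr h1 h2 hv htop, transferM_cone B B' hs hr h1 h2 hv htop]

theorem transferM_be {v : Vert} (hv : v ≠ []) (htop : top v = s ∨ top v = (s + 1) % n) :
    beM p ω' (phi s r ((r + 1) % m) v) = beM p ω v := by
  unfold beM
  rw [transferM_nu B B' hs hr h1 h2 hv htop, transferM_md B B' hs hr h1 h2 hv htop,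
    transferM_cone B B' hs hr h1 h2 hv htop]

theorem transferM_isRay {v : Vert} (hv : v ≠ []) (htop : top v = s ∨ top v = (s + 1) % n) :
    IsRay (nuM p ω') (phi s r ((r + 1) % m) v) ↔ IsRay (nuM p ω) v := by
  induction v with
  | nil => exact absurd rfl hv
  | cons i u ih =>
    cases u with
    | nil => exact ⟨fun _ => Or.inl rfl, fun _ => Or.inl rfl⟩
    | cons j u =>
      rw [phi_cons (by simp), isRay_cons, isRay_cons]
      have htop' : top (j :: u) = s ∨ top (j :: u) = (s + 1) % n := htop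
      rw [ih (by simp) htop', transferM_nu B B' hs hr h1 h2 (by simp) htop']
      have : phi s r ((r + 1) % m) (j :: u) ≠ [] := phi_ne_nil (by simp)
      simp [this]

theorem transferM_rt {v : Vert} (hv : v ≠ []) (htop : top v = s ∨ top v = (s + 1) % n) :
    RtM (nuM p ω') (beM p ω') (phi s r ((r + 1) % m) v) ↔ RtM (nuM p ω) (beM p ω) v := by
  induction v with
  | nil => exact absurd rfl hv
  | cons i u ih =>
    cases u with
    | nil => exact ⟨fun h => absurd h not_rtM_first, fun h => absurd h not_rtM_first⟩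
    | cons j u =>
      have htop' : top (j :: u) = s ∨ top (j :: u) = (s + 1) % n := htop
      rw [phi_cons (by simp), rtM_cons, rtM_cons, ih (by simp) htop',
        transferM_isRay B B' hs hr h1 h2 (by simp) htop',
        transferM_be B B' hs hr h1 h2 (by simp) htop']

theorem transferM_secInf (h : SecInfM p n s ω) : SecInfM p m r ω' := by
  obtain ⟨u, hu1, hu2⟩ := h
  refine ⟨phi s r ((r + 1) % m) u, ⟨phi_ne_nil hu1.1, ?_⟩, ?_⟩
  · rw [top_phi hu1.1, transferM_rt B B' hs hr h1 h2 hu1.1 hu1.top_mem]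
    rcases hu1.2 with ⟨h3, h4⟩ | ⟨h3, h4⟩
    · left; exact ⟨if_pos h3, h4⟩
    · right; exact ⟨if_neg (by rw [h3]; exact succ_ne B.hn hs), h4⟩
  · have h3 : (phi s r ((r + 1) % m) '' cluster p ω u).Infinite := by
      refine hu2.image ((phiM_injOn B B' hs hr h1 h2).mono ?_)
      intro w hw
      have := B.cluster_sec hs hw hu1
      exact ⟨this.1, this.top_mem⟩
    refine h3.mono ?_
    rintro _ ⟨w, hw, rfl⟩
    exact transferM_cluster B B' hs hr h1 h2 hu1 hw

end transfer

end CausalPerc
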