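import Pool.Agent.Lib.MP_a51368_pr.MainM

open MeasureTheory ProbabilityTheory Set Measure

namespace CausalPerc

theorem uniqueness_main (α : ℝ) (h1 : 1 / 2 < α) (h2 : α < 1) (p : ℝ) (hp : 1 / 2 < p)
    (hp1 : p ≤ 1) (hm : 1 - α < α * p + α ^ 2 * ((1 - p) * p ^ 2)) :
    condLaw α {ω | numInf p ω = 1} = 1 := by
  have : GoodParam α := ⟨by linarith, h2⟩
  obtain ⟨Q, hQ⟩ := exists_goodCone1 α (p := p) (by linarith) hp1 hm
  rw [condLaw_eq_one_iff α (law_survives_pos α hQ)]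
  exact notOne_null_of_gt α hp hp1 hQ

theorem uniqueness_phase (α : ℝ) (h1 : 1 / 2 < α) (h2 : α < 1) :
    ∃ q : ℝ, q < 1 ∧ (317 / 500 ≤ α → q = 1 / 2) ∧
      ∀ p, q < p → p ≤ 1 → condLaw α {ω | numInf p ω = 1} = 1 := by
  have ha : 0 < α := by linarith
  by_cases h3 : 317 / 500 ≤ α
  · refine ⟨1 / 2, by norm_num, fun _ => rfl, fun p hp hp1 => ?_⟩
    refine uniqueness_main α h1 h2 p hp hp1 ?_
    have e1 : 0 ≤ α ^ 2 - (317 / 500) ^ 2 := by nlinarith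
    by_cases h4 : p ≤ 3 / 5
    · have e2 : 1 / 8 ≤ (1 - p) * p ^ 2 := by nlinarith [mul_nonneg (sub_nonneg.2 hp.le) (sub_nonneg.2 h4)]
      nlinarith
    · push Not at h4
      have e2 : 0 ≤ (1 - p) * p ^ 2 := mul_nonneg (by linarith) (sq_nonneg p)
      nlinarith [mul_nonneg (sq_nonneg α) e2]
  · refine ⟨max (1 / 2) ((1 - α) / α), max_lt (by norm_num) (by rw [div_lt_one ha]; linarith),
      fun h => absurd h h3, fun p hp hp1 => ?_⟩
    have h5 : 1 / 2 < p := lt_of_le_of_lt (le_max_left _ _) hp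
    have h6 : (1 - α) / α < p := lt_of_le_of_lt (le_max_right _ _) hp
    rw [div_lt_iff₀ ha] at h6
    refine uniqueness_main α h1 h2 p h5 hp1 ?_
    have e2 : 0 ≤ (1 - p) * p ^ 2 := mul_nonneg (by linarith) (sq_nonneg p)
    nlinarith [mul_nonneg (sq_nonneg α) e2]

end CausalPerc
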