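import Pool.Agent.Lib.MP_a51368_pr.Model

open Set

namespace CausalPerc

variable {t : Vert → ℕ}

theorem cons_mem_level {r i : ℕ} {v : Vert} :
    i :: v ∈ level t (r + 1) ↔ v ∈ level t r ∧ i < t v := by
  simp only [level, List.mem_flatMap, List.mem_map, List.mem_range, List.cons.injEq]
  constructor
  · rintro ⟨w, hw, a, ha, rfl, rfl⟩
    exact ⟨hw, ha⟩
  · rintro ⟨hv, hi⟩
    exact ⟨v, hv, i, hi, rfl, rfl⟩

theorem length_of_mem_level {r : ℕ} {v : Vert} (h : v ∈ level t r) : v.length = r := by
  induction r generalizing v with
  | zero => simp [level] at h; simp [h]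
  | succ r ih =>
    cases v with
    | nil => simp [level] at h
    | cons i v =>
      rw [cons_mem_level] at h
      simp [ih h.1]

theorem mem_level_iff {r : ℕ} {v : Vert} : v ∈ level t r ↔ v.length = r ∧ InTree t v := by
  constructor
  · intro h
    have := length_of_mem_level h
    subst this
    exact ⟨rfl, h⟩
  · rintro ⟨rfl, h⟩; exact h

theorem inTree_nil : InTree t [] := by simp [InTree, level]

theorem inTree_cons {i : ℕ} {v : Vert} : InTree t (i :: v) ↔ InTree t v ∧ i < t v := by
  simp only [InTree, List.length_cons]
  exact cons_mem_level

theorem nodup_level (r : ℕ) : (level t r).Nodup := by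
  induction r with
  | zero => simp [level]
  | succ r ih =>
    rw [level, List.nodup_flatMap]
    constructor
    · intro v _
      apply List.Nodup.map _ List.nodup_range
      intro a b h
      simpa using h
    · apply ih.imp
      intro a b hab
      rw [Function.onFun, List.disjoint_iff_ne]
      intro x hx y hy hxy
      simp only [List.mem_map, List.mem_range] at hx hy
      obtain ⟨i, _, rfl⟩ := hx
      obtain ⟨j, _, rfl⟩ := hy
      simp at hxy
      exact hab hxy.2

theorem around_getElem {r j : ℕ} (hj : j < (level t r).length) :
    around t ((level t r)[j]) = (level t r).rotate (j + 1) := by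
  have h1 : ((level t r)[j]).length = r := length_of_mem_level (List.getElem_mem hj)
  unfold around
  rw [h1, (nodup_level r).idxOf_getElem j hj]

theorem rightNbr_getElem {r j : ℕ} (hj : j < (level t r).length) :
    rightNbr t ((level t r)[j]) =
      (level t r)[(j + 1) % (level t r).length]'(Nat.mod_lt _ (by omega)) := by
  unfold rightNbr
  rw [around_getElem hj]
  have hne : (level t r).rotate (j + 1) ≠ [] := by
    rw [Ne, List.rotate_eq_nil_iff]
    intro h
    rw [h] at hj
    simp at hj
  rw [List.headD_eq_head?_getD, List.head?_eq_some_head hne, Option.getD_some,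
    List.head_eq_getElem, List.getElem_rotate]
  simp

theorem iterate_rightNbr_getElem {r j : ℕ} (hj : j < (level t r).length) (k : ℕ) :
    (rightNbr t)^[k] ((level t r)[j]) =
      (level t r)[(j + k) % (level t r).length]'(Nat.mod_lt _ (by omega)) := by
  induction k with
  | zero => simp [Nat.mod_eq_of_lt hj]
  | succ k ih =>
    rw [Function.iterate_succ_apply', ih, rightNbr_getElem]
    congr 1
    rw [Nat.mod_add_mod]
    ring_nf

theorem exists_getElem {v : Vert} (h : InTree t v) :
    ∃ j, ∃ hj : j < (level t v.length).length, (level t v.length)[j] = v := by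
  exact List.getElem_of_mem h

theorem inTree_rightNbr {v : Vert} (h : InTree t v) :
    InTree t (rightNbr t v) ∧ (rightNbr t v).length = v.length := by
  obtain ⟨j, hj, hv⟩ := exists_getElem h
  have h1 := rightNbr_getElem hj
  rw [hv] at h1
  have h2 : rightNbr t v ∈ level t v.length := by rw [h1]; exact List.getElem_mem _
  have h3 := mem_level_iff.1 h2
  exact ⟨h3.2, h3.1⟩

theorem inTree_iterate {v : Vert} (h : InTree t v) (k : ℕ) :
    InTree t ((rightNbr t)^[k] v) ∧ ((rightNbr t)^[k] v).length = v.length := by
  induction k with
  | zero => exact ⟨h, rfl⟩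
  | succ k ih =>
    rw [Function.iterate_succ_apply']
    have := inTree_rightNbr ih.1
    exact ⟨this.1, this.2.trans ih.2⟩

theorem exists_iterate_eq {v w : Vert} (hv : InTree t v) (hw : InTree t w)
    (hl : w.length = v.length) : ∃ k, (rightNbr t)^[k] v = w := by
  obtain ⟨j, hj, hv'⟩ := exists_getElem hv
  have hw' : w ∈ level t v.length := mem_level_iff.2 ⟨hl, hw⟩
  obtain ⟨i, hi, hw''⟩ := List.getElem_of_mem hw'
  refine ⟨i + (level t v.length).length - j, ?_⟩
  have h1 := iterate_rightNbr_getElem hj (i + (level t v.length).length - j)
  rw [hv'] at h1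
  rw [h1, ← hw'']
  congr 1
  have : j + (i + (level t v.length).length - j) = i + (level t v.length).length := by omega
  rw [this, Nat.add_mod_right, Nat.mod_eq_of_lt hi]

theorem rightNbr_inj {v w : Vert} (hv : InTree t v) (hw : InTree t w)
    (hl : w.length = v.length) (h : rightNbr t v = rightNbr t w) : v = w := by
  obtain ⟨j, hj, hv'⟩ := exists_getElem hv
  have hw' : w ∈ level t v.length := mem_level_iff.2 ⟨hl, hw⟩
  obtain ⟨i, hi, hw''⟩ := List.getElem_of_mem hw'
  rw [← hv', ← hw'', rightNbr_getElem, rightNbr_getElem] at h
  have h2 := (List.Nodup.getElem_inj_iff (nodup_level _)).1 h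
  have h3 : j = i := by
    have e1 := Nat.mod_lt (j + 1) (show 0 < (level t v.length).length by omega)
    by_cases hj1 : j + 1 < (level t v.length).length
    · rw [Nat.mod_eq_of_lt hj1] at h2
      by_cases hi1 : i + 1 < (level t v.length).length
      · rw [Nat.mod_eq_of_lt hi1] at h2; omega
      · have : i + 1 = (level t v.length).length := by omega
        rw [this, Nat.mod_self] at h2; omega
    · have : j + 1 = (level t v.length).length := by omega
      rw [this, Nat.mod_self] at h2
      by_cases hi1 : i + 1 < (level t v.length).length
      · rw [Nat.mod_eq_of_lt hi1] at h2; omega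
      · omega
  subst h3
  rw [← hv', ← hw'']


/-- The list of children of a vertex, in plane order. -/
def children (t : Vert → ℕ) (v : Vert) : List Vert := (List.range (t v)).map fun i => i :: v

theorem level_succ (r : ℕ) : level t (r + 1) = (level t r).flatMap (children t) := rfl

theorem exists_rest {v : Vert} (h : InTree t v) : ∃ rest, (level t v.length) ~r (v :: rest) := by
  obtain ⟨a, b, hab⟩ := List.append_of_mem h
  refine ⟨b ++ a, ?_⟩
  rw [hab]
  exact List.isRotated_append

theorem around_of_isRotated {v : Vert} {rest : List Vert} (h : InTree t v)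
    (hr : (level t v.length) ~r (v :: rest)) : around t v = rest ++ [v] := by
  obtain ⟨n, hn⟩ := hr
  obtain ⟨j, hj, hv⟩ := exists_getElem h
  have hlen : 0 < (level t v.length).length := by omega
  have h0 : ((level t v.length).rotate n)[0]'(by rw [hn]; simp) = v := by simp [hn]
  rw [List.getElem_rotate] at h0
  have h1 : n % (level t v.length).length = j := by
    have h2 := (List.Nodup.getElem_inj_iff (nodup_level _)).1 (h0.trans hv.symm)
    rwa [Nat.zero_add] at h2
  have h2 := around_getElem (t := t) (r := v.length) hj
  rw [hv] at h2
  rw [h2, ← h1, ← List.rotate_rotate, List.rotate_mod, hn]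
  simp

theorem isRotated_flatMap {l l' : List Vert} (f : Vert → List Vert) (h : l ~r l') :
    (l.flatMap f) ~r (l'.flatMap f) := by
  obtain ⟨n, rfl⟩ := h
  rcases Nat.eq_zero_or_pos l.length with h0 | h0
  · have : l = [] := List.length_eq_zero_iff.1 h0
    subst this
    simp
  · have hn : n % l.length ≤ l.length := (Nat.mod_lt _ h0).le
    rw [← List.rotate_mod, List.rotate_eq_drop_append_take hn, List.flatMap_append]
    conv_lhs => rw [← List.take_append_drop (n % l.length) l, List.flatMap_append]
    exact List.isRotated_append

theorem headD_flatMap_children (L : List Vert) :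
    (L.flatMap (children t)).headD [] =
      match L.find? (fun w => decide (0 < t w)) with
      | some w => 0 :: w
      | none => [] := by
  induction L with
  | nil => simp
  | cons w L ih =>
    rw [List.flatMap_cons]
    by_cases hw : 0 < t w
    · rw [List.find?_cons_of_pos (by simpa using hw)]
      obtain ⟨n, hn⟩ := Nat.exists_eq_succ_of_ne_zero (Nat.pos_iff_ne_zero.1 hw)
      simp [children, hn, List.range_succ_eq_map]
    · rw [List.find?_cons_of_neg (by simpa using hw)]
      have h0 : t w = 0 := by omega
      have : children t w = [] := by simp [children, h0]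
      rw [this, List.nil_append, ih]

theorem rightNbr_cons {i : ℕ} {v : Vert} (h : InTree t (i :: v)) :
    rightNbr t (i :: v) = if i + 1 < t v then (i + 1) :: v else upperRight t v := by
  have hv := (inTree_cons.1 h).1
  have hi := (inTree_cons.1 h).2
  obtain ⟨rest, hrest⟩ := exists_rest hv
  have h1 := isRotated_flatMap (children t) hrest
  rw [← level_succ, List.flatMap_cons] at h1
  have hlen : (children t v).length = t v := by simp [children]
  have hsplit : children t v = (children t v).take i ++ ((i :: v) :: (children t v).drop (i + 1)) := by
    conv_lhs => rw [← List.take_append_drop i (children t v)]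
    congr 1
    rw [List.drop_eq_getElem_cons (by rw [hlen]; exact hi)]
    congr 1
    simp [children]
  have h2 : (level t (i :: v).length) ~r
      ((i :: v) :: ((children t v).drop (i + 1) ++ rest.flatMap (children t) ++
        (children t v).take i)) := by
    refine h1.trans ?_
    conv_lhs => rw [hsplit]
    rw [List.append_assoc]
    refine (List.isRotated_append (l := (children t v).take i)).trans ?_
    simp only [List.cons_append, List.append_assoc]
    exact List.IsRotated.refl _
  have h3 := around_of_isRotated h h2
  unfold rightNbr
  rw [h3]
  split_ifs with hc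
  · rw [List.drop_eq_getElem_cons (by rw [hlen]; exact hc)]
    simp [children]
  · have hiv : i + 1 = t v := by omega
    have e1 : (children t v).drop (i + 1) = [] := by
      rw [List.drop_eq_nil_iff, hlen]; omega
    have e2 : (children t v).take i ++ [i :: v] = children t v := by
      conv_rhs => rw [hsplit]
      rw [e1]
    rw [e1, List.nil_append, List.append_assoc, e2]
    have e3 : rest.flatMap (children t) ++ children t v = (rest ++ [v]).flatMap (children t) := by
      simp
    rw [e3, headD_flatMap_children]
    unfold upperRight
    rw [around_of_isRotated hv hrest]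
    rfl

theorem upperRight_rec {v : Vert} (h : InTree t v) :
    upperRight t v = if 0 < t (rightNbr t v) then 0 :: rightNbr t v
      else upperRight t (rightNbr t v) := by
  obtain ⟨rest, hrest⟩ := exists_rest h
  have h1 := around_of_isRotated h hrest
  cases rest with
  | nil =>
    have h2 : rightNbr t v = v := by unfold rightNbr; rw [h1]; rfl
    rw [h2]
    split_ifs with hc
    · unfold upperRight
      rw [h1]
      simp [hc]
    · rfl
  | cons w rest' =>
    have h2 : rightNbr t v = w := by unfold rightNbr; rw [h1]; rfl
    rw [h2]
    have hw := inTree_rightNbr h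
    rw [h2] at hw
    have h3 : (level t w.length) ~r (w :: (rest' ++ [v])) := by
      rw [hw.2]
      refine hrest.trans ?_
      have := List.isRotated_append (l := [v]) (l' := w :: rest')
      simpa using this
    have h4 := around_of_isRotated hw.1 h3
    unfold upperRight
    rw [h1, h4]
    split_ifs with hc
    · simp [hc]
    · have hc' : t w = 0 := by omega
      by_cases hv0 : 0 < t v <;> simp [List.find?_append, List.find?_cons, hv0, hc']

theorem upperRight_eq {v : Vert} (h : InTree t v) (hne : level t (v.length + 1) ≠ []) :
    ∃ m, 0 < m ∧ 0 < t ((rightNbr t)^[m] v) ∧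
      (∀ k, 0 < k → k < m → t ((rightNbr t)^[k] v) = 0) ∧
      upperRight t v = 0 :: (rightNbr t)^[m] v := by
  classical
  have hex : ∃ m, 0 < m ∧ 0 < t ((rightNbr t)^[m] v) := by
    obtain ⟨x, hx⟩ := List.exists_mem_of_ne_nil _ hne
    cases x with
    | nil => exact absurd (length_of_mem_level hx) (by simp)
    | cons i w =>
      rw [cons_mem_level] at hx
      have hw := mem_level_iff.1 hx.1
      have hr := inTree_rightNbr h
      obtain ⟨k, hk⟩ := exists_iterate_eq hr.1 hw.2 (by rw [hw.1, hr.2])
      refine ⟨k + 1, by omega, ?_⟩
      rw [Function.iterate_succ_apply, hk]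
      omega
  refine ⟨Nat.find hex, (Nat.find_spec hex).1, (Nat.find_spec hex).2, ?_, ?_⟩
  · intro k hk hkm
    have := Nat.find_min hex hkm
    by_contra hcon
    exact this ⟨hk, Nat.pos_of_ne_zero hcon⟩
  · have key : ∀ k, k < Nat.find hex → upperRight t v = upperRight t ((rightNbr t)^[k] v) := by
      intro k
      induction k with
      | zero => intro _; rfl
      | succ k ih =>
        intro hk
        rw [ih (by omega), upperRight_rec (inTree_iterate h k).1]
        have h0 : t ((rightNbr t)^[k + 1] v) = 0 := by
          have := Nat.find_min hex hk
          by_contra hcon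
          exact this ⟨by omega, Nat.pos_of_ne_zero hcon⟩
        rw [Function.iterate_succ_apply'] at h0
        rw [h0]
        simp [Function.iterate_succ_apply']
    have h1 := (Nat.find_spec hex).1
    have h2 := (Nat.find_spec hex).2
    obtain ⟨m, hm⟩ := Nat.exists_eq_succ_of_ne_zero (Nat.pos_iff_ne_zero.1 h1)
    rw [key m (by omega), upperRight_rec (inTree_iterate h m).1]
    rw [hm, Function.iterate_succ_apply'] at h2 ⊢
    rw [if_pos h2]

theorem inTree_upperRight {v : Vert} (h : InTree t v) (hne : level t (v.length + 1) ≠ []) :
    InTree t (upperRight t v) ∧ (upperRight t v).length = v.length + 1 := by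
  obtain ⟨m, _, h2, _, h4⟩ := upperRight_eq h hne
  have h5 := inTree_iterate h m
  rw [h4, inTree_cons]
  exact ⟨⟨h5.1, h2⟩, by simp [h5.2]⟩

/-- The structure of the tree up to level `r` only depends on the numbers of children below. -/
theorem level_congr {t' : Vert → ℕ} {r : ℕ} (h : ∀ v : Vert, v.length < r → t v = t' v) :
    level t r = level t' r := by
  induction r with
  | zero => rfl
  | succ r ih =>
    have h1 := ih fun v hv => h v (by omega)
    rw [level_succ, level_succ, ← h1]
    apply List.flatMap_congr
    intro v hv
    have := length_of_mem_level hv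
    rw [children, children, h v (by omega)]

theorem around_congr {t' : Vert → ℕ} {v : Vert}
    (h : ∀ u : Vert, u.length < v.length → t u = t' u) : around t v = around t' v := by
  unfold around
  rw [level_congr h]

theorem rightNbr_congr {t' : Vert → ℕ} {v : Vert}
    (h : ∀ u : Vert, u.length < v.length → t u = t' u) : rightNbr t v = rightNbr t' v := by
  unfold rightNbr
  rw [around_congr h]

theorem inTree_congr {t' : Vert → ℕ} {v : Vert}
    (h : ∀ u : Vert, u.length < v.length → t u = t' u) : InTree t v ↔ InTree t' v := by
  unfold InTree
  rw [level_congr h]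

theorem length_of_mem_around {v w : Vert} (h : w ∈ around t v) : w.length = v.length := by
  unfold around at h
  rw [List.mem_rotate] at h
  exact length_of_mem_level h

theorem upperRight_congr {t' : Vert → ℕ} {v : Vert}
    (h : ∀ u : Vert, u.length ≤ v.length → t u = t' u) : upperRight t v = upperRight t' v := by
  unfold upperRight
  rw [← around_congr (t := t) (t' := t') fun u hu => h u hu.le]
  have : (around t v).find? (fun w => decide (0 < t w)) =
      (around t v).find? (fun w => decide (0 < t' w)) := by
    apply List.find?_congr
    intro w hw
    rw [h w (length_of_mem_around hw).le]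
  rw [this]

end CausalPerc
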